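import Pool.Agent.Lib.MP_c01941_lc.KInter

/-!
FP-BallC. A disk in the region with center in a C-room: `z ± i r` are over the same abscissa, by
`slab_C` they are in one of the cells `6j+4`, `6j+5`, `6j+6`, whose points over
`[ox (j+1), ox (j+1) + 3]` have ordinate between `oy (j+1) - 30/13` and `oy (j+1)`.
-/

namespace MPc01941

open Metric

theorem Cfg.ball_C (c : Cfg) {z : ℂ} {r : ℝ} (hr : 0 ≤ r) (hb : closedBall z r ⊆ c.P) {j : ℕ}
    (hz : z ∈ c.K (6 * j + 5)) : r ≤ 15 / 13 := by
  have h := cC_bounds ((c.mem_K j 5 (by norm_num) z).1 hz)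
  have h4 := c.ox_succ j
  have h5 := c.oy_succ j
  have key : ∀ w : ℂ, w.re = z.re → w ∈ c.P →
      c.oy (j + 1) - 30 / 13 ≤ w.im ∧ w.im ≤ c.oy (j + 1) := by
    intro w hw hP
    obtain ⟨i, hi, hwi⟩ := hP
    rcases c.slab_C (j := j) hwi (by linarith) (by linarith) with rfl | rfl | rfl
    · have h6 := cM_bounds (c.hm j) ((c.mem_K j 4 (by norm_num) w).1 hwi)
      constructor <;> linarith
    · have h6 := cC_bounds ((c.mem_K j 5 (by norm_num) w).1 hwi)
      constructor <;> linarith
    · have h6 := cL_bounds (c.he (j + 1)) ((c.mem_K (j + 1) 0 (by norm_num) w).1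
        (by simpa [Nat.mul_add, Nat.mul_one] using hwi)).1
      constructor <;> linarith
  have hup : z + ⟨0, r⟩ ∈ closedBall z r := by
    rw [mem_closedBall, Complex.dist_eq, add_sub_cancel_left]
    rw [Complex.norm_def, Complex.normSq_mk]
    simp only [mul_zero, zero_add]
    rw [Real.sqrt_mul_self hr]
  have hdn : z - ⟨0, r⟩ ∈ closedBall z r := by
    rw [mem_closedBall, Complex.dist_eq, sub_sub_cancel_left, norm_neg]
    rw [Complex.norm_def, Complex.normSq_mk]
    simp only [mul_zero, zero_add]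
    rw [Real.sqrt_mul_self hr]
  have h1 := key _ (by simp) (hb hup)
  have h2 := key _ (by simp) (hb hdn)
  simp only [Complex.add_im, Complex.sub_im] at h1 h2
  linarith

end MPc01941
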