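import Pool.Agent.Lib.MP_c01941_lc.KInter

/-!
FP-BallLoc. A disk of radius `> 1/10` in the region has its center in a cell `6j+2` (room) or
`6j+5` (C-room). Let `s = min r 1`, `1/10 < s`. Write the center in a cell `6j+k`, with relative
coordinates `x, y`, `X = x - (e j - 81120)`. Each time a point of the disk is not in the region, by
`slab` (`slab_C`, `slab_last` at the ends of the slab, `x = 3` or `x = dx`) and the `_bounds` lemmas:
* `k = 0`: the point `z + i s` (here `y > -1/10`, all cells over `[3, dx)` have `y ≤ 0`).
* `k = 1`: if `y = -58812 + 41/20` then `z` is also in the cell `6j+2`. Otherwise `z - s`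
  (`X - s < -1/5`) is in no cell, unless it is in the cell `6j` and then `y > -1/10`
  and `z + i s` is in no cell.
* `k = 3`: if `y = -58812` then `z` is in the cell `6j+2`. Otherwise the point `z - s`
  (`X - s < 1/10`; it is above the second line because `z` is).
* `k = 4`: if `X ∉ [1/10, 1/5]` the point `z + i (1/10)` is above the second line, in no cell
  (for `x = dx` use `slab_C`). If `X ∈ [1/10, 1/5]` the point `z - s` with `X - s < 1/10` is above
  the second line (`y + 117624 > 120/119 X - 1/10 ≥ 120/119 (X - s)`), in no cell.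
-/

namespace MPc01941

open Metric

private theorem mem_ball_add {z : ℂ} {r dx dy : ℝ} (hr : 0 ≤ r) (h : dx ^ 2 + dy ^ 2 ≤ r ^ 2) :
    z + ⟨dx, dy⟩ ∈ closedBall z r := by
  rw [mem_closedBall, Complex.dist_eq, add_sub_cancel_left, Complex.norm_def, Complex.normSq_mk]
  rw [Real.sqrt_le_left hr]
  linarith [h, sq dx, sq dy]

namespace Cfg

variable (c : Cfg)

/-- description of the points of the region in the slab of portion `j` -/
theorem slab_cases {w : ℂ} (hw : w ∈ c.P) {j : ℕ} (h1 : 3 < w.re - c.ox j)
    (h2 : w.re < c.ox (j + 1)) : ∃ k < 6, c.inK j k (w.re - c.ox j) (w.im - c.oy j) := by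
  obtain ⟨i, hi, hwi⟩ := hw
  have h := c.slab hwi h1 h2
  refine ⟨i % 6, Nat.mod_lt _ (by norm_num), ?_⟩
  rw [← c.mem_K j (i % 6) (Nat.mod_lt _ (by norm_num))]
  rwa [show 6 * j + i % 6 = i by omega]

theorem below_top {w : ℂ} (hw : w ∈ c.P) {j : ℕ} (h1 : 3 < w.re - c.ox j)
    (h2 : w.re < c.ox (j + 1)) : w.im ≤ c.oy j := by
  obtain ⟨k, hk, h⟩ := c.slab_cases hw h1 h2
  have he := c.he j
  have hm := c.hm j
  interval_cases k
  · linarith [cL_bounds he h.1]
  · linarith [cA_bounds h]
  · linarith [cT_bounds h]
  · linarith [cB_bounds h]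
  · linarith [cM_bounds hm h]
  · linarith [cC_bounds h]

theorem ball_loc {z : ℂ} {r : ℝ} (hb : closedBall z r ⊆ c.P) (hr : 1 / 10 < r) :
    ∃ i ≤ 6 * c.n, z ∈ c.K i ∧ (i % 6 = 2 ∨ i % 6 = 5) := by
  obtain ⟨s, hs1, hs2, hs3⟩ : ∃ s : ℝ, 1 / 10 < s ∧ s ≤ 1 ∧ s ≤ r :=
    ⟨min r 1, lt_min hr (by norm_num), min_le_right _ _, min_le_left _ _⟩
  have hin : ∀ dx dy : ℝ, dx ^ 2 + dy ^ 2 ≤ s ^ 2 → z + ⟨dx, dy⟩ ∈ c.P := fun dx dy h =>
    hb (closedBall_subset_closedBall hs3 (mem_ball_add (by linarith) h))
  have hzP : z ∈ c.P := hb (mem_closedBall_self (by linarith))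
  obtain ⟨i, hi, hzi⟩ := hzP
  have hup : z + ⟨0, s⟩ ∈ c.P := hin 0 s (by ring_nf; exact le_refl _)
  have hup' : z + ⟨0, 1 / 10⟩ ∈ c.P := hin 0 (1 / 10) (by nlinarith)
  have hle : z + ⟨-s, 0⟩ ∈ c.P := hin (-s) 0 (by ring_nf; exact le_refl _)
  set j := i / 6 with hj
  have hk6 : i % 6 < 6 := Nat.mod_lt _ (by norm_num)
  have hij : 6 * j + i % 6 = i := by omega
  have hre := c.K_re j (i % 6) hk6 (by rw [hij]; exact hzi)
  have hzk : c.inK j (i % 6) (z.re - c.ox j) (z.im - c.oy j) := by
    rw [← c.mem_K j (i % 6) hk6, hij]; exact hzi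
  have he := c.he j
  have hm := c.hm j
  have hoxs := c.ox_succ j
  have hoys := c.oy_succ j
  have hcases : i % 6 = 0 ∨ i % 6 = 1 ∨ i % 6 = 2 ∨ i % 6 = 3 ∨ i % 6 = 4 ∨ i % 6 = 5 := by omega
  rcases hcases with hk | hk | hk | hk | hk | hk
  · -- first line
    exfalso
    rw [hk] at hzk
    have h := cL_bounds he hzk.1
    rcases eq_or_lt_of_le h.1 with h3 | h3
    · -- x = 3
      have hj0 : j ≠ 0 := by
        intro h0
        have := hzk.2.1 h0
        linarith [c.ha0.1, h.2.2.2]
      obtain ⟨j', hj'⟩ := Nat.exists_eq_succ_of_ne_zero hj0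
      rw [Nat.succ_eq_add_one] at hj'
      have hox' := c.ox_succ j'
      have hoy' := c.oy_succ j'
      rw [← hj'] at hox' hoy'
      obtain ⟨l, hl, hwl⟩ := hup
      rcases c.slab_C (j := j') hwl (by rw [← hj']; simp; linarith) (by rw [← hj']; simp; linarith)
        with rfl | rfl | rfl
      · have h6 := cM_bounds (c.hm j') ((c.mem_K j' 4 (by norm_num) _).1 hwl)
        simp only [Complex.add_re, Complex.add_im] at h6
        linarith
      · have h6 := cC_bounds ((c.mem_K j' 5 (by norm_num) _).1 hwl)
        simp only [Complex.add_re, Complex.add_im] at h6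
        linarith
      · have h6 := cL_bounds (c.he (j' + 1)) ((c.mem_K (j' + 1) 0 (by norm_num) _).1
          (by simpa [Nat.mul_add, Nat.mul_one] using hwl)).1
        rw [← hj'] at h6
        simp only [Complex.add_re, Complex.add_im] at h6
        linarith
    · have := c.below_top hup (j := j) (by simp; linarith) (by simp; linarith)
      simp only [Complex.add_im] at this
      linarith
  · -- upper arm
    rw [hk] at hzk
    have h := cA_bounds hzk
    obtain ⟨k', hk', hw⟩ := c.slab_cases hle (j := j) (by simp; linarith) (by simp; linarith)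
    simp only [Complex.add_re, Complex.add_im, add_zero] at hw
    interval_cases k'
    · exfalso
      have h6 := cL_bounds he hw.1
      have := c.below_top hup (j := j) (by simp; linarith) (by simp; linarith)
      simp only [Complex.add_im] at this
      linarith
    · exfalso
      have h6 := cA_bounds hw
      linarith
    · have h6 := cT_bounds hw
      refine ⟨6 * j + 2, by omega, ?_, Or.inl (by omega)⟩
      rw [c.mem_K j 2 (by norm_num)]
      refine ⟨by linarith, by linarith, by linarith, by linarith⟩
    · exfalso
      have h6 := cB_bounds hw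
      linarith
    · exfalso
      have h6 := cM_bounds hm hw
      linarith
    · exfalso
      have h6 := cC_bounds hw
      linarith
  · exact ⟨i, hi, hzi, Or.inl hk⟩
  · -- lower arm
    rw [hk] at hzk
    have h := cB_bounds hzk
    obtain ⟨k', hk', hw⟩ := c.slab_cases hle (j := j) (by simp; linarith) (by simp; linarith)
    simp only [Complex.add_re, Complex.add_im, add_zero] at hw
    interval_cases k'
    · exfalso
      have h6 := cL_bounds he hw.1
      linarith
    · exfalso
      have h6 := cA_bounds hw
      linarith
    · have h6 := cT_bounds hw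
      refine ⟨6 * j + 2, by omega, ?_, Or.inl (by omega)⟩
      rw [c.mem_K j 2 (by norm_num)]
      refine ⟨by linarith, by linarith, by linarith, by linarith⟩
    · exfalso
      have h6 := cB_bounds hw
      linarith
    · exfalso
      have h7 := hw.2.1
      have h8 := hzk.2.2.2
      linarith
    · exfalso
      have h6 := cC_bounds hw
      linarith
  · -- second line
    exfalso
    rw [hk] at hzk
    have h := cM_bounds hm hzk
    by_cases hX : z.re - c.ox j - (c.e j - 81120) < 1 / 10 ∨ 1 / 5 < z.re - c.ox j - (c.e j - 81120)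
    · rcases eq_or_lt_of_le h.2.1 with h3 | h3
      · obtain ⟨l, hl, hwl⟩ := hup'
        rcases c.slab_C (j := j) hwl (by simp; linarith) (by simp; linarith) with rfl | rfl | rfl
        · have h6 := cM_bounds (c.hm j) ((c.mem_K j 4 (by norm_num) _).1 hwl)
          simp only [Complex.add_re, Complex.add_im] at h6
          linarith
        · have h6 := cC_bounds ((c.mem_K j 5 (by norm_num) _).1 hwl)
          simp only [Complex.add_re, Complex.add_im] at h6
          linarith
        · have h6 := cL_bounds (c.he (j + 1)) ((c.mem_K (j + 1) 0 (by norm_num) _).1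
            (by simpa [Nat.mul_add, Nat.mul_one] using hwl)).1
          simp only [Complex.add_re, Complex.add_im] at h6
          linarith
      · obtain ⟨k', hk', hw⟩ := c.slab_cases hup' (j := j) (by simp; linarith) (by simp; linarith)
        simp only [Complex.add_re, Complex.add_im, add_zero] at hw
        interval_cases k'
        · have h6 := cL_bounds he hw.1
          linarith
        · have h6 := cA_bounds hw
          linarith
        · have h6 := cT_bounds hw
          linarith
        · have h6 := cB_bounds hw
          rcases hX with hX | hX <;> linarith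
        · have h6 := cM_bounds hm hw
          linarith
        · have h6 := cC_bounds hw
          linarith
    · push Not at hX
      obtain ⟨k', hk', hw⟩ := c.slab_cases hle (j := j) (by simp; linarith) (by simp; linarith)
      simp only [Complex.add_re, Complex.add_im, add_zero] at hw
      interval_cases k'
      · have h6 := cL_bounds he hw.1
        linarith
      · have h6 := cA_bounds hw
        linarith
      · have h6 := cT_bounds hw
        linarith
      · have h6 := cB_bounds hw
        linarith
      · have h6 := cM_bounds hm hw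
        linarith
      · have h6 := cC_bounds hw
        linarith
  · exact ⟨i, hi, hzi, Or.inr hk⟩

end Cfg

end MPc01941
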