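import Pool.Agent.Lib.MP_c01941_lc.KInter

/-!
FP-TentBall. A disk in the region with center in a room.
Relative coordinates in the room: `X = z.re - ox j - (e j - 81120)`, `Y = z.im - oy j + 58812`.
Choose `X''`: `X'' = X` if `X` is not in a slit, `X'' = 1/20` if `X ∈ [1/10, 1/5]`,
`X'' = -1/20` if `X ∈ [-1/5, -1/10]`; `|X'' - X| ≤ 3/20`, and `X''` is in no slit.
If `h^2 + (X'' - X)^2 ≤ r^2`, `0 ≤ h ≤ 3`, then the points `(X'', Y ± h)` are in the region, and
by `slab` they are in the room, so `Y - h ≥ 0` and `Y + h ≤ 41/20`.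
* `tent_r`: if `r > 26/25` take `h = 1029/1000`: `h^2 + 9/400 ≤ (26/25)^2`, `2 h > 41/20`.
* weak bounds in `TB`: `h = r - 1/70` (`r ≥ 9/10`).
* exact bounds: if `X ∉ [1/10, 1/5]` the point `(X, Y - r)` is in the room or (ordinates) nowhere;
  if `X ∉ [-1/5, -1/10]` the same with `(X, Y + r)`.
* walls: the point `z + r (-65, 72)/97` (resp. `z + r (65, 72)/97`) is in the region, in no arm
  (`0 < Y + 72 r/97 < 41/20` by the weak bounds), so in the room, and the wall inequality
  at this point is the claim (`65^2 + 72^2 = 97^2`).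
-/

namespace MPc01941

open Metric

/-- the disk with center `(X, Y)` (in room coordinates) and radius `r` has a good position -/
structure TB (X Y r : ℝ) : Prop where
  r_lo : 9 / 10 ≤ r
  r_hi : r ≤ 26 / 25
  lo : r - 1 / 70 ≤ Y
  hi : Y ≤ 41 / 20 - (r - 1 / 70)
  lo1 : X < 1 / 10 → r ≤ Y
  lo2 : 1 / 5 < X → r ≤ Y
  hi1 : X < -1 / 5 → Y ≤ 41 / 20 - r
  hi2 : -1 / 10 < X → Y ≤ 41 / 20 - r
  wl : 97 * r ≤ 65 * (X + 18 / 5) - 72 * Y
  wr : 97 * r ≤ 65 * (18 / 5 - X) - 72 * Y

private theorem mem_ball_add' {z : ℂ} {r dx dy : ℝ} (hr : 0 ≤ r) (h : dx ^ 2 + dy ^ 2 ≤ r ^ 2) :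
    z + ⟨dx, dy⟩ ∈ closedBall z r := by
  rw [mem_closedBall, Complex.dist_eq, add_sub_cancel_left, Complex.norm_def, Complex.normSq_mk]
  rw [Real.sqrt_le_left hr]
  linarith [h, sq dx, sq dy]

namespace Cfg

variable (c : Cfg)

/-- a point of the region with room coordinates `|X| ≤ 10`, `|Y| ≤ 10` is in the room, or in
the upper arm, or in the lower arm -/
private theorem near_room {w : ℂ} (hw : w ∈ c.P) {j : ℕ}
    (h1 : -10 ≤ w.re - c.ox j - (c.e j - 81120)) (h2 : w.re - c.ox j - (c.e j - 81120) ≤ 10)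
    (h3 : -10 ≤ w.im - c.oy j + 58812) (h4 : w.im - c.oy j + 58812 ≤ 10) :
    cT (c.e j) (w.re - c.ox j) (w.im - c.oy j) ∨ cA (c.e j) (w.re - c.ox j) (w.im - c.oy j) ∨
      cB (c.e j) (w.re - c.ox j) (w.im - c.oy j) := by
  have he := c.he j
  have hm := c.hm j
  have hoxs := c.ox_succ j
  obtain ⟨i, hi, hwi⟩ := hw
  have h := c.slab (j := j) hwi (by linarith) (by linarith)
  have hij : 6 * j + i % 6 = i := by omega
  rw [← hij, c.mem_K j (i % 6) (Nat.mod_lt _ (by norm_num))] at hwi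
  have hcases : i % 6 = 0 ∨ i % 6 = 1 ∨ i % 6 = 2 ∨ i % 6 = 3 ∨ i % 6 = 4 ∨ i % 6 = 5 := by omega
  rcases hcases with hk | hk | hk | hk | hk | hk <;> rw [hk] at hwi
  · linarith [cL_bounds he hwi.1]
  · exact Or.inr (Or.inl hwi)
  · exact Or.inl hwi
  · exact Or.inr (Or.inr hwi)
  · linarith [cM_bounds hm hwi]
  · linarith [cC_bounds hwi]

/-- vertical bounds -/
private theorem vert {z : ℂ} {r : ℝ} (hr : 0 ≤ r) (hb : closedBall z r ⊆ c.P) {j : ℕ}
    (hz : z ∈ c.K (6 * j + 2)) {d h : ℝ} (hh : 0 ≤ h) (hh3 : h ≤ 3) (hd : |d| ≤ 3 / 20)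
    (hdh : d ^ 2 + h ^ 2 ≤ r ^ 2) :
    ((z.re - c.ox j - (c.e j - 81120) + d < 1 / 10 ∨ 1 / 5 < z.re - c.ox j - (c.e j - 81120) + d) →
      h ≤ z.im - c.oy j + 58812) ∧
    ((z.re - c.ox j - (c.e j - 81120) + d < -1 / 5 ∨ -1 / 10 < z.re - c.ox j - (c.e j - 81120) + d) →
      z.im - c.oy j + 58812 + h ≤ 41 / 20) := by
  have hb0 := cT_bounds ((c.mem_K j 2 (by norm_num) z).1 hz)
  rw [abs_le] at hd
  constructor
  · intro hX
    have hp : z + ⟨d, -h⟩ ∈ c.P := hb (mem_ball_add' hr (by linarith [sq_nonneg h, neg_sq h]))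
    rcases c.near_room hp (j := j) (by simp; linarith) (by simp; linarith) (by simp; linarith)
      (by simp; linarith) with h1 | h1 | h1 <;> simp only [Complex.add_re, Complex.add_im] at h1
    · linarith [cT_bounds h1]
    · linarith [cA_bounds h1]
    · have h2 := cB_bounds h1
      rcases hX with hX | hX <;> linarith
  · intro hX
    have hp : z + ⟨d, h⟩ ∈ c.P := hb (mem_ball_add' hr (by linarith))
    rcases c.near_room hp (j := j) (by simp; linarith) (by simp; linarith) (by simp; linarith)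
      (by simp; linarith) with h1 | h1 | h1 <;> simp only [Complex.add_re, Complex.add_im] at h1
    · linarith [cT_bounds h1]
    · have h2 := cA_bounds h1
      rcases hX with hX | hX <;> linarith
    · linarith [cB_bounds h1]

/-- a horizontal shift that leaves the two slits -/
private theorem shift (X : ℝ) : ∃ d : ℝ, |d| ≤ 3 / 20 ∧ (X + d < 1 / 10 ∨ 1 / 5 < X + d) ∧
    (X + d < -1 / 5 ∨ -1 / 10 < X + d) := by
  by_cases h1 : 1 / 10 ≤ X ∧ X ≤ 1 / 5
  · refine ⟨1 / 20 - X, ?_, Or.inl (by linarith), Or.inr (by linarith)⟩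
    rw [abs_le]; constructor <;> linarith
  · by_cases h2 : -1 / 5 ≤ X ∧ X ≤ -1 / 10
    · refine ⟨-1 / 20 - X, ?_, Or.inl (by linarith), Or.inr (by linarith)⟩
      rw [abs_le]; constructor <;> linarith
    · refine ⟨0, by norm_num, ?_, ?_⟩
      · by_contra hc
        push Not at hc
        exact h1 ⟨by linarith, by linarith⟩
      · by_contra hc
        push Not at hc
        exact h2 ⟨by linarith, by linarith⟩

theorem tent_r {z : ℂ} {r : ℝ} (hb : closedBall z r ⊆ c.P) {j : ℕ}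
    (hz : z ∈ c.K (6 * j + 2)) : r ≤ 26 / 25 := by
  by_contra hc
  push Not at hc
  obtain ⟨d, hd, h1, h2⟩ := shift (z.re - c.ox j - (c.e j - 81120))
  have hd2 : d ^ 2 ≤ (3 / 20) ^ 2 := sq_le_sq' (by linarith [(abs_le.1 hd).1]) (abs_le.1 hd).2
  have := c.vert (by linarith) hb hz (d := d) (h := 1029 / 1000) (by norm_num) (by norm_num) hd
    (by nlinarith)
  linarith [this.1 h1, this.2 h2]

theorem tent_ball {z : ℂ} {r : ℝ} (hb : closedBall z r ⊆ c.P) {j : ℕ}
    (hz : z ∈ c.K (6 * j + 2)) (hr : 9 / 10 ≤ r) :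
    TB (z.re - c.ox j - (c.e j - 81120)) (z.im - c.oy j + 58812) r := by
  have hr2 := c.tent_r hb hz
  have hb0 := cT_bounds ((c.mem_K j 2 (by norm_num) z).1 hz)
  obtain ⟨d, hd, h1, h2⟩ := shift (z.re - c.ox j - (c.e j - 81120))
  have hd2 : d ^ 2 ≤ (3 / 20) ^ 2 := sq_le_sq' (by linarith [(abs_le.1 hd).1]) (abs_le.1 hd).2
  have hw := c.vert (by linarith) hb hz (d := d) (h := r - 1 / 70) (by linarith) (by linarith) hd
    (by nlinarith)
  have hx := c.vert (by linarith) hb hz (d := 0) (h := r) (by linarith) (by linarith) (by norm_num)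
    (by nlinarith)
  have hlo := hw.1 h1
  have hhi := hw.2 h2
  refine ⟨hr, hr2, hlo, by linarith, fun h => hx.1 (Or.inl (by linarith)),
    fun h => hx.1 (Or.inr (by linarith)), fun h => ?_, fun h => ?_, ?_, ?_⟩
  · linarith [hx.2 (Or.inl (by linarith))]
  · linarith [hx.2 (Or.inr (by linarith))]
  · have hp : z + ⟨-65 * r / 97, 72 * r / 97⟩ ∈ c.P := hb (mem_ball_add' (by linarith) (by nlinarith))
    rcases c.near_room hp (j := j) (by simp; linarith) (by simp; linarith) (by simp; linarith)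
      (by simp; linarith) with h3 | h3 | h3 <;> simp only [Complex.add_re, Complex.add_im] at h3
    · linarith [h3.2.2.1]
    · linarith [cA_bounds h3]
    · linarith [cB_bounds h3]
  · have hp : z + ⟨65 * r / 97, 72 * r / 97⟩ ∈ c.P := hb (mem_ball_add' (by linarith) (by nlinarith))
    rcases c.near_room hp (j := j) (by simp; linarith) (by simp; linarith) (by simp; linarith)
      (by simp; linarith) with h3 | h3 | h3 <;> simp only [Complex.add_re, Complex.add_im] at h3
    · linarith [h3.2.2.2]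
    · linarith [cA_bounds h3]
    · linarith [cB_bounds h3]

end Cfg

end MPc01941
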