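import Pool.Agent.Lib.MP_c01941_lc.WitSep
import Pool.Agent.Lib.MP_c01941_lc.BallLoc
import Pool.Agent.Lib.MP_c01941_lc.BallC
import Pool.Agent.Lib.MP_c01941_lc.TentBall

/-!
FP-Assign. Every piece contains exactly one witness.
`small`: the radius of a disk in the region is `≤ 15/13` (`ball_loc`, `ball_C`, `tent_r`;
if `r ≤ 1/10` trivial), so the diameter of `Q i` is `≤ 2 * 67600 * 15/13 = 156000`.
`assign`: choose `f` with `wit i ∈ Q (f i)` (witnesses are in the region by `wit0_mem` etc.);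
injective on `i < 3n` by `wit_sep`; `N ≤ 3n` gives surjectivity (pigeonhole) and `N = 3n`.
-/

namespace MPc01941

open Metric

theorem Cfg.ball_le (c : Cfg) {z : ℂ} {r : ℝ} (hb : closedBall z r ⊆ c.P) : r ≤ 15 / 13 := by
  by_cases hr : 1 / 10 < r
  · obtain ⟨i, hi, hz, h | h⟩ := c.ball_loc hb hr
    · have : i = 6 * (i / 6) + 2 := by omega
      rw [this] at hz
      linarith [c.tent_r hb hz]
    · have : i = 6 * (i / 6) + 5 := by omega
      rw [this] at hz
      exact c.ball_C (by linarith) hb hz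
  · linarith

/-- `f i` is the piece that contains the witness `i` -/
structure Asg {c : Cfg} (p : Part c) (f : ℕ → Fin p.N) : Prop where
  mem : ∀ i < 3 * c.n, c.wit i ∈ p.Q (f i)
  inj : ∀ i < 3 * c.n, ∀ k < 3 * c.n, f i = f k → i = k
  surj : ∀ k, ∃ i < 3 * c.n, f i = k

namespace Part

variable {c : Cfg} (p : Part c)

theorem sub (i : Fin p.N) : p.Q i ⊆ c.P := by
  rw [p.cover]
  exact Set.subset_iUnion p.Q i

/-- distances inside a piece -/
theorem dist_le (i : Fin p.N) {z w : ℂ} (hz : z ∈ p.Q i) (hw : w ∈ p.Q i) :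
    dist z w ≤ 135200 * p.r i := by
  have h1 := mem_closedBall.1 (p.outb i hz)
  have h2 := mem_closedBall.1 (p.outb i hw)
  have h3 := dist_triangle_right z w (p.ctr' i)
  linarith

theorem small (i : Fin p.N) : Small (p.Q i) := by
  intro z hz w hw
  have h1 := p.dist_le i hz hw
  have h2 := c.ball_le ((p.inb i).trans (p.sub i))
  linarith

theorem wit_cover {i : ℕ} (hi : i < 3 * c.n) : ∃ k, c.wit i ∈ p.Q k := by
  have h : c.wit i ∈ c.P := by
    have hi3 : i = 3 * (i / 3) ∨ i = 3 * (i / 3) + 1 ∨ i = 3 * (i / 3) + 2 := by omega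
    rcases hi3 with h | h | h
    · rw [h]
      exact ⟨6 * (i / 3), by omega, c.wit0_mem (by omega)⟩
    · rw [h]
      exact ⟨6 * (i / 3) + 4, by omega, c.wit1_mem _⟩
    · rw [h]
      exact ⟨6 * (i / 3) + 4, by omega, (c.wit2_mem _).1⟩
  rw [p.cover] at h
  exact Set.mem_iUnion.1 h

theorem sep {i k : ℕ} (hi : i < 3 * c.n) (hk : k < 3 * c.n) {q : Fin p.N} (h1 : c.wit i ∈ p.Q q)
    (h2 : c.wit k ∈ p.Q q) : i = k := by
  rcases lt_trichotomy i k with h | h | h
  · exact absurd h2 (c.wit_sep (p.conn q) (p.sub q) (p.small q) h hk h1)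
  · exact h
  · exact absurd h1 (c.wit_sep (p.conn q) (p.sub q) (p.small q) h hi h2)

theorem assign_aux : ∃ f : ℕ → Fin p.N, Asg p f ∧ p.N = 3 * c.n := by
  classical
  have h0 : 0 < 3 * c.n := by have := c.hn; omega
  obtain ⟨k0, -⟩ := p.wit_cover h0
  have : Nonempty (Fin p.N) := ⟨k0⟩
  choose! g hg using fun (i : ℕ) (hi : i < 3 * c.n) => p.wit_cover hi
  have hginj : ∀ i < 3 * c.n, ∀ k < 3 * c.n, g i = g k → i = k := by
    intro i hi k hk h
    have h1 := hg i hi
    have h2 := hg k hk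
    rw [← h] at h2
    exact p.sep hi hk h1 h2
  let F : Fin (3 * c.n) → Fin p.N := fun i => g i
  have hF : Function.Injective F := by
    intro a b hab
    exact Fin.ext (hginj a a.2 b b.2 hab)
  have hcard : 3 * c.n ≤ p.N := by
    simpa using Fintype.card_le_of_injective F hF
  have hN : p.N = 3 * c.n := le_antisymm p.hN hcard
  have hsurj : Function.Surjective F := by
    have := (Fintype.bijective_iff_injective_and_card F).2 ⟨hF, by simp [hN]⟩
    exact this.2
  refine ⟨g, ⟨hg, hginj, fun k => ?_⟩, hN⟩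
  obtain ⟨a, ha⟩ := hsurj k
  exact ⟨a, a.2, ha⟩

theorem assign : ∃ f : ℕ → Fin p.N, Asg p f := by
  obtain ⟨f, hf, -⟩ := p.assign_aux
  exact ⟨f, hf⟩

theorem N_eq : p.N = 3 * c.n := by
  obtain ⟨f, -, h⟩ := p.assign_aux
  exact h

end Part

end MPc01941
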