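import Pool.Agent.Lib.MP_c01941_lc.Verts

/-!
FP-BodyLow. Polygon of the lower part. The lower arm is the convex quadrilateral with vertices
`vF (1/5), vF (1/10), vM (1/1190), vM (1/595)` (in this order: top edge first), the second triangle is
`tri (vM e (-360)) (vM' e (119 m)) (vM e m)` (`vM e m = vD e m 0 0`), the C-room is
`quad (vD 0 0) (vD 0 (-30/13)) (vD 3 (-30/13)) (vD 3 0)`.
Glue the arm to the triangle with `glueSub` along `vM (1/595)`, `vM (1/1190)` (part of the edge from
`vM e m` to `vM e (-360)`); glue this to the C-room with `glueL` along `vD 0 0`, `vM' (119 m)` (part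
of its left edge from `vD 0 0` to `vD 0 (-30/13)`); insert the straight vertex
`vD 3 ((3 - e')/2400000)` (`IsPolygon.insert`); rotate.
-/

namespace MPc01941

private theorem bl_seg {a b z : ℂ} (h : z ∈ segment ℝ a b) : ∃ t : ℝ, 0 ≤ t ∧ t ≤ 1 ∧
    z.re = a.re + t * (b.re - a.re) ∧ z.im = a.im + t * (b.im - a.im) := by
  obtain ⟨t, h0, h1, rfl⟩ := ps_exists h
  refine ⟨t, h0, h1, ?_, ?_⟩
  · simp
  · simp

private theorem bl_arm_quad (e : ℝ) :
    {z : ℂ | cB e z.re z.im} = quad (vF e (1 / 5)) (vF e (1 / 10)) (vM e (1 / 1190))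
      (vM e (1 / 595)) := by
  ext z
  simp only [cB, quad, cr, vF, vM, Set.mem_setOf_eq]
  constructor
  · rintro ⟨h1, h2, h3, h4⟩
    refine ⟨?_, ?_, ?_, ?_⟩ <;> nlinarith
  · rintro ⟨h1, h2, h3, h4⟩
    refine ⟨?_, ?_, ?_, ?_⟩ <;> nlinarith

private theorem bl_arm (e : ℝ) :
    IsPolygon [vF e (1 / 5), vF e (1 / 10), vM e (1 / 1190), vM e (1 / 595)]
      {z : ℂ | cB e z.re z.im} := by
  rw [bl_arm_quad]
  apply isPolygon_quad <;> simp only [cr, vF, vM] <;> ring_nf <;> norm_num

private theorem bl_room_quad (e m : ℝ) :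
    {z : ℂ | cC e m z.re z.im} = quad (vD e m 0 0) (vD e m 0 (-30 / 13)) (vD e m 3 (-30 / 13))
      (vD e m 3 0) := by
  ext z
  simp only [cC, quad, cr, vD, Set.mem_setOf_eq]
  constructor
  · rintro ⟨h1, h2, h3, h4⟩
    refine ⟨?_, ?_, ?_, ?_⟩ <;> nlinarith
  · rintro ⟨h1, h2, h3, h4⟩
    refine ⟨?_, ?_, ?_, ?_⟩ <;> nlinarith

private theorem bl_room (e m : ℝ) :
    IsPolygon [vD e m 0 0, vD e m 0 (-30 / 13), vD e m 3 (-30 / 13), vD e m 3 0]
      {z : ℂ | cC e m z.re z.im} := by
  rw [bl_room_quad]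
  apply isPolygon_quad <;> simp only [cr, vD] <;> ring_nf <;> norm_num

private theorem bl_tri_eq (e m : ℝ) (hm : 938 ≤ m ∧ m ≤ 942) :
    {z : ℂ | cM e m z.re z.im} = tri (vM e (-360)) (vM' e (119 * m)) (vM e m) := by
  obtain ⟨m1, m2⟩ := hm
  ext z
  have k1 : 0 < (119 * m + 42840) / 190400000 := by
    apply div_pos <;> linarith
  have k2 : 0 < (14161 * m + 5097960) / 190400000 := by
    apply div_pos <;> linarith
  have k3 : 0 < m + 360 := by linarith
  have c1 : cr (vM e (-360)) (vM' e (119 * m)) z = (119 * m + 42840) / 190400000 *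
      (190400000 * (z.im + 117624) - (191999881 * (z.re - (e - 81120)) - 5097960)) := by
    simp only [cr, vM, vM']
    ring
  have c2 : cr (vM' e (119 * m)) (vM e m) z = (14161 * m + 5097960) / 190400000 *
      (e - 81120 + 119 * m - z.re) := by
    simp only [cr, vM, vM']
    ring
  have c3 : cr (vM e m) (vM e (-360)) z = (m + 360) *
      (120 * (z.re - (e - 81120)) - 119 * (z.im + 117624)) := by
    simp only [cr, vM]
    ring
  simp only [tri, Set.mem_setOf_eq, cM]
  rw [c1, c2, c3, mul_nonneg_iff_of_pos_left k1, mul_nonneg_iff_of_pos_left k2,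
    mul_nonneg_iff_of_pos_left k3, sub_nonneg, sub_nonneg, sub_nonneg]
  constructor
  · rintro ⟨h1, h2, h3⟩
    exact ⟨h3, h1, h2⟩
  · rintro ⟨h1, h2, h3⟩
    exact ⟨h2, h3, h1⟩

private theorem bl_tri (e m : ℝ) (hm : 938 ≤ m ∧ m ≤ 942) :
    IsPolygon [vM e (-360), vM' e (119 * m), vM e m] {z : ℂ | cM e m z.re z.im} := by
  rw [bl_tri_eq e m hm]
  apply isPolygon_tri
  have h : cr (vM e (-360)) (vM' e (119 * m)) (vM e m) =
      (14161 * m + 5097960) / 190400000 * (119 * (m + 360)) := by
    simp only [cr, vM, vM']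
    ring
  rw [h]
  obtain ⟨m1, m2⟩ := hm
  apply mul_pos
  · apply div_pos <;> linarith
  · linarith

private theorem bl_first {e m : ℝ} (hm : 938 ≤ m ∧ m ≤ 942) :
    IsPolygon [vM e m, vM e (1 / 595), vF e (1 / 5), vF e (1 / 10), vM e (1 / 1190),
      vM e (-360), vM' e (119 * m)]
      ({z : ℂ | cM e m z.re z.im} ∪ {z : ℂ | cB e z.re z.im}) := by
  have hT : IsPolygon [vM e m, vM e (-360), vM' e (119 * m)] {z : ℂ | cM e m z.re z.im} :=
    (bl_tri e m hm).rotate_append (A := [vM e (-360), vM' e (119 * m)]) (B := [vM e m])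
  have hA : IsPolygon [vM e (1 / 1190), vM e (1 / 595), vF e (1 / 5), vF e (1 / 10)]
      {z : ℂ | cB e z.re z.im} :=
    (bl_arm e).rotate_append (A := [vF e (1 / 5), vF e (1 / 10)])
      (B := [vM e (1 / 1190), vM e (1 / 595)])
  obtain ⟨m1, m2⟩ := hm
  have hx : 0 < m + 360 := by linarith
  refine glueSub (s := (m - 1 / 595) / (m + 360)) (t := (m - 1 / 1190) / (m + 360))
    (A := [vM' e (119 * m)]) (B := [vF e (1 / 5), vF e (1 / 10)]) hT hA ?_ ?_ ?_ ?_ ?_ ?_
  · apply div_pos _ hx
    linarith
  · rw [div_lt_div_iff_of_pos_right hx]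
    linarith
  · rw [div_lt_one hx]
    linarith
  · have hd : (m - 1 / 595) / (m + 360) * (m + 360) = m - 1 / 595 := div_mul_cancel₀ _ hx.ne'
    apply Complex.ext
    · simp only [vM, Complex.add_re, Complex.mul_re, Complex.sub_re, Complex.sub_im,
        Complex.ofReal_re, Complex.ofReal_im]
      linear_combination 119 * hd
    · simp only [vM, Complex.add_im, Complex.mul_im, Complex.sub_re, Complex.sub_im,
        Complex.ofReal_re, Complex.ofReal_im]
      linear_combination 120 * hd
  · have hd : (m - 1 / 1190) / (m + 360) * (m + 360) = m - 1 / 1190 := div_mul_cancel₀ _ hx.ne'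
    apply Complex.ext
    · simp only [vM, Complex.add_re, Complex.mul_re, Complex.sub_re, Complex.sub_im,
        Complex.ofReal_re, Complex.ofReal_im]
      linear_combination 119 * hd
    · simp only [vM, Complex.add_im, Complex.mul_im, Complex.sub_re, Complex.sub_im,
        Complex.ofReal_re, Complex.ofReal_im]
      linear_combination 120 * hd
  · apply Set.Subset.antisymm
    · rintro z ⟨⟨g1, g2, g3⟩, ⟨k1, k2, k3, k4⟩⟩
      have h5 : 119 * (z.im + 117624) = 120 * (z.re - (e - 81120)) := le_antisymm g2 k4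
      refine pg_mem (s := 10 * (1 / 5 - (z.re - (e - 81120)))) ?_ ?_ ?_
      · linarith
      · linarith
      · apply Complex.ext
        · simp only [vM, Complex.add_re, Complex.mul_re, Complex.sub_re, Complex.sub_im,
            Complex.ofReal_re, Complex.ofReal_im]
          ring
        · simp only [vM, Complex.add_im, Complex.mul_im, Complex.sub_re, Complex.sub_im,
            Complex.ofReal_re, Complex.ofReal_im]
          linarith
    · intro z hz
      obtain ⟨t, t0, t1, hr, hi⟩ := bl_seg hz
      simp only [vM] at hr hi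
      have hre : z.re = e - 81120 + 1 / 5 - t * (1 / 10) := by rw [hr]; ring
      have him : z.im = -117624 + 120 * (1 / 595 - t * (1 / 1190)) := by rw [hi]; ring
      refine ⟨?_, ?_⟩
      · simp only [Set.mem_setOf_eq, cM]
        rw [hre, him]
        refine ⟨?_, ?_, ?_⟩ <;> linarith
      · simp only [Set.mem_setOf_eq, cB]
        rw [hre, him]
        refine ⟨?_, ?_, ?_, ?_⟩ <;> linarith

private theorem bl_second {e m : ℝ} (hm : 938 ≤ m ∧ m ≤ 942) :
    IsPolygon [vD e m 0 0, vM e (1 / 595), vF e (1 / 5), vF e (1 / 10), vM e (1 / 1190),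
      vM e (-360), vM' e (119 * m), vD e m 0 (-30 / 13), vD e m 3 (-30 / 13), vD e m 3 0]
      ({z : ℂ | cC e m z.re z.im} ∪ ({z : ℂ | cM e m z.re z.im} ∪ {z : ℂ | cB e z.re z.im})) := by
  have hF := bl_first (e := e) hm
  have hv : vM e m = vD e m 0 0 := by
    simp only [vM, vD, add_zero]
  rw [hv] at hF
  have hF' : IsPolygon [vM' e (119 * m), vD e m 0 0, vM e (1 / 595), vF e (1 / 5),
      vF e (1 / 10), vM e (1 / 1190), vM e (-360)]
      ({z : ℂ | cM e m z.re z.im} ∪ {z : ℂ | cB e z.re z.im}) :=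
    hF.rotate_append (A := [vD e m 0 0, vM e (1 / 595), vF e (1 / 5), vF e (1 / 10),
      vM e (1 / 1190), vM e (-360)]) (B := [vM' e (119 * m)])
  obtain ⟨m1, m2⟩ := hm
  refine glueL (t := 13 / 30 * ((14161 * m + 5097960) / 190400000))
    (A := [vD e m 3 (-30 / 13), vD e m 3 0])
    (B := [vM e (1 / 595), vF e (1 / 5), vF e (1 / 10), vM e (1 / 1190), vM e (-360)])
    (bl_room e m) hF' ?_ ?_ ?_ ?_
  · have : 0 < (14161 * m + 5097960) / 190400000 := by
      apply div_pos <;> linarith
    linarith
  · linarith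
  · apply Complex.ext
    · simp only [vM', vD, Complex.add_re, Complex.mul_re, Complex.sub_re, Complex.sub_im,
        Complex.ofReal_re, Complex.ofReal_im]
      ring
    · simp only [vM', vD, Complex.add_im, Complex.mul_im, Complex.sub_re, Complex.sub_im,
        Complex.ofReal_re, Complex.ofReal_im]
      ring
  · have hh : 0 < (14161 * m + 5097960) / 190400000 := by
      apply div_pos <;> linarith
    apply Set.Subset.antisymm
    · rintro z ⟨⟨g1, g2, g3, g4⟩, ⟨k1, k2, k3⟩ | ⟨k1, k2, k3, k4⟩⟩
      · have h5 : z.re = e - 81120 + 119 * m := le_antisymm k1 g1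
        rw [h5] at k2 k3
        refine pg_mem (s := (-117624 + 120 * m - z.im) / ((14161 * m + 5097960) / 190400000))
          ?_ ?_ ?_
        · apply div_nonneg _ hh.le
          linarith
        · rw [div_le_one hh]
          linarith
        · have hd : (-117624 + 120 * m - z.im) / ((14161 * m + 5097960) / 190400000) *
              ((14161 * m + 5097960) / 190400000) = -117624 + 120 * m - z.im :=
            div_mul_cancel₀ _ hh.ne'
          apply Complex.ext
          · simp only [vM', vD, Complex.add_re, Complex.mul_re, Complex.sub_re, Complex.sub_im,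
              Complex.ofReal_re, Complex.ofReal_im]
            rw [h5]
            ring
          · simp only [vM', vD, Complex.add_im, Complex.mul_im, Complex.sub_re, Complex.sub_im,
              Complex.ofReal_re, Complex.ofReal_im]
            linear_combination hd
      · exfalso
        linarith
    · intro z hz
      obtain ⟨t, t0, t1, hr, hi⟩ := bl_seg hz
      simp only [vM', vD] at hr hi
      have hre : z.re = e - 81120 + 119 * m := by rw [hr]; ring
      have him : z.im = -117624 + 120 * m - t * ((14161 * m + 5097960) / 190400000) := by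
        rw [hi]; ring
      have h6 : 0 ≤ t * ((14161 * m + 5097960) / 190400000) := mul_nonneg t0 hh.le
      have h7 : t * ((14161 * m + 5097960) / 190400000) ≤
          1 * ((14161 * m + 5097960) / 190400000) := mul_le_mul_of_nonneg_right t1 hh.le
      refine ⟨?_, Or.inl ?_⟩
      · simp only [Set.mem_setOf_eq, cC]
        rw [hre, him]
        refine ⟨?_, ?_, ?_, ?_⟩ <;> linarith
      · simp only [Set.mem_setOf_eq, cM]
        rw [hre, him]
        refine ⟨?_, ?_, ?_⟩ <;> linarith

theorem isPolygon_low {e m e' : ℝ} (he : 219362 ≤ e ∧ e ≤ 220038) (hm : 938 ≤ m ∧ m ≤ 942)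
    (he' : 219362 ≤ e' ∧ e' ≤ 220038) : IsPolygon (lowV e m e') (lowSet e m) := by
  have h1 := (bl_second (e := e) hm).rotate_append
    (A := [vD e m 0 0, vM e (1 / 595), vF e (1 / 5), vF e (1 / 10), vM e (1 / 1190),
      vM e (-360), vM' e (119 * m), vD e m 0 (-30 / 13)])
    (B := [vD e m 3 (-30 / 13), vD e m 3 0])
  obtain ⟨f1, f2⟩ := he'
  have h2 : vD e m 3 ((3 - e') / 2400000) ∈ segment ℝ (vD e m 3 (-30 / 13)) (vD e m 3 0) := by
    refine pg_mem (s := 13 / 30 * ((3 - e') / 2400000 + 30 / 13)) ?_ ?_ ?_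
    · linarith
    · linarith
    · apply Complex.ext
      · simp only [vD, Complex.add_re, Complex.mul_re, Complex.sub_re, Complex.sub_im,
          Complex.ofReal_re, Complex.ofReal_im]
        ring
      · simp only [vD, Complex.add_im, Complex.mul_im, Complex.sub_re, Complex.sub_im,
          Complex.ofReal_re, Complex.ofReal_im]
        ring
  have h3 : vD e m 3 ((3 - e') / 2400000) ≠ vD e m 3 (-30 / 13) := by
    intro h
    have := congrArg Complex.im h
    simp only [vD] at this
    linarith
  have h4 : vD e m 3 ((3 - e') / 2400000) ≠ vD e m 3 0 := by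
    intro h
    have := congrArg Complex.im h
    simp only [vD] at this
    linarith
  have h5 := (IsPolygon.insert (A := [vD e m 0 0, vM e (1 / 595), vF e (1 / 5), vF e (1 / 10),
    vM e (1 / 1190), vM e (-360), vM' e (119 * m), vD e m 0 (-30 / 13)]) h1 h2 h3 h4).rotate_append
    (A := [vD e m 3 (-30 / 13), vD e m 3 ((3 - e') / 2400000), vD e m 3 0, vD e m 0 0,
      vM e (1 / 595), vF e (1 / 5)])
    (B := [vF e (1 / 10), vM e (1 / 1190), vM e (-360), vM' e (119 * m), vD e m 0 (-30 / 13)])
  have h6 : ({z : ℂ | cC e m z.re z.im} ∪ ({z : ℂ | cM e m z.re z.im} ∪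
      {z : ℂ | cB e z.re z.im})) = lowSet e m := by
    unfold lowSet
    ext z
    simp only [Set.mem_union]
    tauto
  rw [h6] at h5
  exact h5

end MPc01941
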