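import Pool.Agent.Lib.MP_c01941_lc.BodyUp
import Pool.Agent.Lib.MP_c01941_lc.BodyLow

/-!
FP-Body. Polygon of a whole portion: `upSet e s s' (18/5) (432/325)` and `lowSet e m` glued with
`glueSub` along `vF e (1/10)`, `vF e (1/5)` (part of the floor edge from `vF e (-18/5)` to
`vF e (18/5)`); rotation. Intersection: ordinates (`upSet` is above `-58812`, `cB` below,
`cM`, `cC` below `-4584`... note `cM`, `cC` have points above `-58812`, but then at abscissas far
from those of the room, use `x ≥ e - 81120 + 1000`, against `|x - (e - 81120)| ≤ 18/5` in the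
room and the arm, and against `y > -1/10` in the triangle).
-/

namespace MPc01941

private theorem bd_tri {e s s' : ℝ} (he : 219362 ≤ e ∧ e ≤ 220038) (h1 : 3 ≤ s) (h2 : s ≤ s')
    (h3 : s' ≤ 86000) {z : ℂ} (hz : z ∈ tri (vS s) (vS' e s') (vT e)) : -1 / 10 ≤ z.im := by
  obtain ⟨e1, e2⟩ := he
  have hcr : 0 < cr (vS s) (vS' e s') (vT e) := by
    have h4 : cr (vS s) (vS' e s') (vT e) = (e - s') * (e - s) / 2400000 := by
      simp only [cr, vS, vS', vT]
      ring
    rw [h4]
    have h5 : 0 < e - s' := by linarith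
    have h6 : 0 < e - s := by linarith
    positivity
  have hS : Convex ℝ {w : ℂ | -1 / 10 ≤ w.im} := convex_halfSpace_im_ge _
  refine tri_subset_of_convex hcr hS ?_ ?_ ?_ hz
  · show -1 / 10 ≤ (0 : ℝ)
    norm_num
  · show -1 / 10 ≤ (s' - e) / 2400000
    rw [le_div_iff₀ (by norm_num)]
    linarith
  · show -1 / 10 ≤ (0 : ℝ)
    norm_num

private theorem bd_quad {e : ℝ} (z : ℂ) :
    z ∈ quad (vF e (-18 / 5)) (vF e (18 / 5)) (vC e (432 / 325)) (vC e (-432 / 325)) ↔
      0 ≤ z.im + 58812 ∧ z.im + 58812 ≤ 41 / 20 ∧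
      72 * (z.im + 58812) ≤ 65 * (z.re - (e - 81120) + 18 / 5) ∧
      72 * (z.im + 58812) ≤ 65 * (18 / 5 - (z.re - (e - 81120))) := by
  have h1 : cr (vF e (-18 / 5)) (vF e (18 / 5)) z = 36 / 5 * (z.im + 58812) := by
    simp only [cr, vF]
    ring
  have h2 : cr (vF e (18 / 5)) (vC e (432 / 325)) z =
      41 / 1300 * (65 * (18 / 5 - (z.re - (e - 81120))) - 72 * (z.im + 58812)) := by
    simp only [cr, vF, vC]
    ring
  have h3 : cr (vC e (432 / 325)) (vC e (-432 / 325)) z = 864 / 325 * (41 / 20 - (z.im + 58812)) := by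
    simp only [cr, vC]
    ring
  have h4 : cr (vC e (-432 / 325)) (vF e (-18 / 5)) z =
      41 / 1300 * (65 * (z.re - (e - 81120) + 18 / 5) - 72 * (z.im + 58812)) := by
    simp only [cr, vF, vC]
    ring
  unfold quad
  rw [Set.mem_ofPred_eq, h1, h2, h3, h4, mul_nonneg_iff_of_pos_left (by norm_num : (0 : ℝ) < 36 / 5),
    mul_nonneg_iff_of_pos_left (by norm_num : (0 : ℝ) < 864 / 325),
    mul_nonneg_iff_of_pos_left (by norm_num : (0 : ℝ) < 41 / 1300),
    mul_nonneg_iff_of_pos_left (by norm_num : (0 : ℝ) < 41 / 1300)]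
  constructor
  · rintro ⟨g1, g2, g3, g4⟩
    refine ⟨?_, ?_, ?_, ?_⟩ <;> linarith
  · rintro ⟨g1, g2, g3, g4⟩
    refine ⟨?_, ?_, ?_, ?_⟩ <;> linarith

private theorem bd_inter {e m s s' : ℝ} (he : 219362 ≤ e ∧ e ≤ 220038) (hm : 938 ≤ m ∧ m ≤ 942)
    (h1 : 3 ≤ s) (h2 : s ≤ s') (h3 : s' ≤ 86000) :
    upSet e s s' (18 / 5) (432 / 325) ∩ lowSet e m = segment ℝ (vF e (1 / 10)) (vF e (1 / 5)) := by
  obtain ⟨m1, m2⟩ := hm
  ext z
  constructor
  · rintro ⟨hQ, hR⟩
    have key : 1 / 10 ≤ z.re - (e - 81120) ∧ z.re - (e - 81120) ≤ 1 / 5 ∧ z.im = -58812 := by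
      rcases hQ with (hQ | hQ) | hQ
      · exfalso
        have h4 := bd_tri he h1 h2 h3 hQ
        rcases hR with (hR | hR) | hR
        · obtain ⟨b1, b2, b3, b4⟩ := hR
          linarith
        · obtain ⟨b1, b2, b3⟩ := hR
          linarith
        · obtain ⟨b1, b2, b3, b4⟩ := hR
          linarith
      · exfalso
        obtain ⟨a1, a2, a3, a4⟩ := hQ
        rcases hR with (hR | hR) | hR
        · obtain ⟨b1, b2, b3, b4⟩ := hR
          linarith
        · obtain ⟨b1, b2, b3⟩ := hR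
          linarith
        · obtain ⟨b1, b2, b3, b4⟩ := hR
          linarith
      · rw [bd_quad] at hQ
        obtain ⟨a1, a2, a3, a4⟩ := hQ
        rcases hR with (hR | hR) | hR
        · obtain ⟨b1, b2, b3, b4⟩ := hR
          refine ⟨?_, ?_, ?_⟩ <;> linarith
        · exfalso
          obtain ⟨b1, b2, b3⟩ := hR
          linarith
        · exfalso
          obtain ⟨b1, b2, b3, b4⟩ := hR
          linarith
    obtain ⟨k1, k2, k3⟩ := key
    refine ⟨1 - 10 * (z.re - (e - 81120) - 1 / 10), 10 * (z.re - (e - 81120) - 1 / 10), by linarith,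
      by linarith, by ring, ?_⟩
    apply Complex.ext
    · simp only [vF, Complex.add_re, Complex.real_smul, Complex.mul_re,
        Complex.ofReal_re, Complex.ofReal_im]
      ring
    · simp only [vF, Complex.add_im, Complex.real_smul, Complex.mul_im,
        Complex.ofReal_re, Complex.ofReal_im]
      rw [k3]
      ring
  · rintro ⟨u, v, hu, hv, huv, rfl⟩
    have e1 : v = 1 - u := by linarith
    subst e1
    have hre : (u • vF e (1 / 10) + (1 - u) • vF e (1 / 5) : ℂ).re =
        e - 81120 + (1 / 5 - u / 10) := by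
      simp only [vF, Complex.add_re, Complex.real_smul, Complex.mul_re,
        Complex.ofReal_re, Complex.ofReal_im]
      ring
    have him : (u • vF e (1 / 10) + (1 - u) • vF e (1 / 5) : ℂ).im = -58812 := by
      simp only [vF, Complex.add_im, Complex.real_smul, Complex.mul_im,
        Complex.ofReal_re, Complex.ofReal_im]
      ring
    refine ⟨Or.inr ((bd_quad _).2 ?_), Or.inl (Or.inl ?_)⟩
    · rw [hre, him]
      refine ⟨?_, ?_, ?_, ?_⟩ <;> linarith
    · show cB e _ _
      rw [hre, him]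
      unfold cB
      refine ⟨?_, ?_, ?_, ?_⟩ <;> linarith

theorem isPolygon_body {e m e' s s' : ℝ} (he : 219362 ≤ e ∧ e ≤ 220038) (hm : 938 ≤ m ∧ m ≤ 942)
    (he' : 219362 ≤ e' ∧ e' ≤ 220038) (h1 : 3 ≤ s) (h2 : s ≤ s') (h3 : s' ≤ 86000) :
    IsPolygon (bodyV e m e' s s') (upSet e s s' (18 / 5) (432 / 325) ∪ lowSet e m) := by
  have hup := isPolygon_up he h1 h2 h3 (by norm_num) le_rfl (by norm_num) le_rfl
    (xf := 18 / 5) (xc := 432 / 325)
  have hlow := isPolygon_low he hm he'
  have hQ : IsPolygon (vF e (-18 / 5) :: vF e (18 / 5) :: [vC e (432 / 325), vBr e, vAr e, vT e,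
      vS s, vS' e s', vAl e, vBl e, vC e (-432 / 325)]) (upSet e s s' (18 / 5) (432 / 325)) :=
    IsPolygon.rotate_append (A := [vS s, vS' e s', vAl e, vBl e, vC e (-432 / 325)])
      (B := [vF e (-18 / 5), vF e (18 / 5), vC e (432 / 325), vBr e, vAr e, vT e]) hup
  have hR : IsPolygon (vF e (1 / 5) :: vF e (1 / 10) :: [vM e (1 / 1190), vM e (-360),
      vM' e (119 * m), vD e m 0 (-30 / 13), vD e m 3 (-30 / 13), vD e m 3 ((3 - e') / 2400000),
      vD e m 3 0, vD e m 0 0, vM e (1 / 595)]) (lowSet e m) :=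
    IsPolygon.rotate_append (A := [vF e (1 / 10), vM e (1 / 1190), vM e (-360),
      vM' e (119 * m), vD e m 0 (-30 / 13), vD e m 3 (-30 / 13), vD e m 3 ((3 - e') / 2400000),
      vD e m 3 0, vD e m 0 0, vM e (1 / 595)]) (B := [vF e (1 / 5)]) hlow
  have hu : vF e (1 / 10) = vF e (-18 / 5) + ((37 / 72 : ℝ) : ℂ) * (vF e (18 / 5) - vF e (-18 / 5)) := by
    apply Complex.ext
    · simp only [vF, Complex.add_re, Complex.mul_re, Complex.sub_re, Complex.sub_im,
        Complex.ofReal_re, Complex.ofReal_im]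
      ring
    · simp only [vF, Complex.add_im, Complex.mul_im, Complex.sub_re, Complex.sub_im,
        Complex.ofReal_re, Complex.ofReal_im]
      ring
  have hv : vF e (1 / 5) = vF e (-18 / 5) + ((19 / 36 : ℝ) : ℂ) * (vF e (18 / 5) - vF e (-18 / 5)) := by
    apply Complex.ext
    · simp only [vF, Complex.add_re, Complex.mul_re, Complex.sub_re, Complex.sub_im,
        Complex.ofReal_re, Complex.ofReal_im]
      ring
    · simp only [vF, Complex.add_im, Complex.mul_im, Complex.sub_re, Complex.sub_im,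
        Complex.ofReal_re, Complex.ofReal_im]
      ring
  have h := glueSub hQ hR (s := 37 / 72) (t := 19 / 36) (by norm_num) (by norm_num) (by norm_num)
    hu hv (bd_inter he hm h1 h2 h3)
  exact IsPolygon.rotate_append (A := [vF e (-18 / 5), vF e (1 / 10), vM e (1 / 1190), vM e (-360),
      vM' e (119 * m), vD e m 0 (-30 / 13), vD e m 3 (-30 / 13), vD e m 3 ((3 - e') / 2400000),
      vD e m 3 0, vD e m 0 0, vM e (1 / 595), vF e (1 / 5), vF e (18 / 5), vC e (432 / 325), vBr e,
      vAr e, vT e]) (B := [vS s, vS' e s', vAl e, vBl e, vC e (-432 / 325)]) h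

end MPc01941
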