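import Pool.Agent.Lib.MP_c01941_lc.Verts

/-!
FP-BodyUp. Polygon of the upper part: `tri` and the arm (a convex quadrilateral `vAr, vAl, vBl, vBr`)
glued with `glueSub` along `vAl vAr` (part of the edge `vS' vT`), the result and the `quad`
glued with `glueSub` along `vBr vBl` (part of the ceiling edge `vC e xc`, `vC e (-432/325)`),
then rotation. The intersections are computed with linear arithmetic.
-/

namespace MPc01941

private theorem bu_arm_quad (e : ℝ) :
    {z : ℂ | cA e z.re z.im} = quad (vAr e) (vAl e) (vBl e) (vBr e) := by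
  ext z
  simp only [cA, quad, cr, vAr, vAl, vBl, vBr, Set.mem_setOf_eq]
  constructor
  · rintro ⟨h1, h2, h3, h4⟩
    refine ⟨?_, ?_, ?_, ?_⟩ <;> nlinarith
  · rintro ⟨h1, h2, h3, h4⟩
    refine ⟨?_, ?_, ?_, ?_⟩ <;> nlinarith

private theorem bu_arm (e : ℝ) :
    IsPolygon [vAr e, vAl e, vBl e, vBr e] {z : ℂ | cA e z.re z.im} := by
  rw [bu_arm_quad]
  apply isPolygon_quad <;> simp only [cr, vAr, vAl, vBl, vBr] <;> ring_nf <;> norm_num

private theorem bu_seg {a b z : ℂ} (h : z ∈ segment ℝ a b) : ∃ t : ℝ, 0 ≤ t ∧ t ≤ 1 ∧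
    z.re = a.re + t * (b.re - a.re) ∧ z.im = a.im + t * (b.im - a.im) := by
  obtain ⟨t, h0, h1, rfl⟩ := ps_exists h
  refine ⟨t, h0, h1, ?_, ?_⟩
  · simp
  · simp

private theorem bu_first {e s s' : ℝ} (he : 219362 ≤ e ∧ e ≤ 220038) (h1 : 3 ≤ s)
    (h2 : s ≤ s') (h3 : s' ≤ 86000) :
    IsPolygon [vS' e s', vAl e, vBl e, vBr e, vAr e, vT e, vS s]
      (tri (vS s) (vS' e s') (vT e) ∪ {z | cA e z.re z.im}) := by
  obtain ⟨e1, e2⟩ := he
  have hD : 0 < cr (vS s) (vS' e s') (vT e) := by
    simp only [cr, vS, vS', vT]
    nlinarith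
  have hT := isPolygon_tri hD
  have hT' : IsPolygon [vS' e s', vT e, vS s] (tri (vS s) (vS' e s') (vT e)) :=
    hT.rotate_append (A := [vS s]) (B := [vS' e s', vT e])
  have hes : 0 < e - s' := by linarith
  refine glueSub (s := (e - 81120 - 1 / 5 - s') / (e - s'))
    (t := (e - 81120 - 1 / 10 - s') / (e - s')) (A := [vS s]) (B := [vBl e, vBr e]) hT'
    (bu_arm e) ?_ ?_ ?_ ?_ ?_ ?_
  · apply div_pos _ hes
    linarith
  · rw [div_lt_div_iff_of_pos_right hes]
    linarith
  · rw [div_lt_one hes]
    linarith
  · apply Complex.ext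
    · simp only [vAl, vS', vT, Complex.add_re, Complex.mul_re, Complex.sub_re, Complex.sub_im,
        Complex.ofReal_re, Complex.ofReal_im]
      field_simp
      ring
    · simp only [vAl, vS', vT, Complex.add_im, Complex.mul_im, Complex.sub_re, Complex.sub_im,
        Complex.ofReal_re, Complex.ofReal_im]
      field_simp
      ring
  · apply Complex.ext
    · simp only [vAr, vS', vT, Complex.add_re, Complex.mul_re, Complex.sub_re, Complex.sub_im,
        Complex.ofReal_re, Complex.ofReal_im]
      field_simp
      ring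
    · simp only [vAr, vS', vT, Complex.add_im, Complex.mul_im, Complex.sub_re, Complex.sub_im,
        Complex.ofReal_re, Complex.ofReal_im]
      field_simp
      ring
  · apply Set.Subset.antisymm
    · rintro z ⟨hz1, hz2⟩
      have hz3 : z ∈ quad (vAr e) (vAl e) (vBl e) (vBr e) := by
        rw [← bu_arm_quad]
        exact hz2
      rw [segment_symm]
      refine mem_segment_of_quad ?_ ?_ ?_ ?_ hz3 ?_
      · simp only [cr, vAr, vAl, vBl, vBr]; ring_nf; norm_num
      · simp only [cr, vAr, vAl, vBl, vBr]; ring_nf; norm_num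
      · simp only [cr, vAr, vAl, vBl, vBr]; ring_nf; norm_num
      · simp only [cr, vAr, vAl, vBl, vBr]; ring_nf; norm_num
      · obtain ⟨-, g, -⟩ := hz1
        obtain ⟨-, -, -, g4⟩ := hz2
        simp only [cr, vS', vT] at g
        have g1 : z.re - e ≤ 2400000 * z.im := by
          by_contra hc
          push Not at hc
          have : (e - s') * (2400000 * z.im - (z.re - e)) < 0 :=
            mul_neg_of_pos_of_neg hes (by linarith)
          nlinarith
        have g5 : 2400000 * z.im = z.re - e := le_antisymm g4 g1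
        simp only [cr, vAr, vAl]
        have g6 : z.im = (z.re - e) / 2400000 := by linarith
        rw [g6]
        ring
    · intro z hz
      obtain ⟨t, t0, t1, hr, hi⟩ := bu_seg hz
      simp only [vAl, vAr] at hr hi
      have hre : z.re = e - 81120 - 1 / 5 + t * (1 / 10) := by rw [hr]; ring
      have him : z.im = (-81120 - 1 / 5 + t * (1 / 10)) / 2400000 := by rw [hi]; ring
      refine ⟨⟨?_, ?_, ?_⟩, ?_⟩
      · simp only [cr, vS, vS']
        rw [hre, him]
        nlinarith [mul_nonneg t0 (sub_nonneg.2 h2)]
      · simp only [cr, vS', vT]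
        rw [hre, him]
        apply le_of_eq
        ring
      · simp only [cr, vS, vT]
        rw [hre, him]
        nlinarith
      · simp only [Set.mem_setOf_eq, cA]
        rw [hre, him]
        refine ⟨?_, ?_, ?_, ?_⟩ <;> linarith

theorem isPolygon_up {e s s' xf xc : ℝ} (he : 219362 ≤ e ∧ e ≤ 220038) (h1 : 3 ≤ s)
    (h2 : s ≤ s') (h3 : s' ≤ 86000) (h4 : -1 / 20 < xf) (h5 : xf ≤ 18 / 5) (h6 : -1 / 20 < xc)
    (h7 : xc ≤ 432 / 325) : IsPolygon (upV e s s' xf xc) (upSet e s s' xf xc) := by
  obtain ⟨e1, e2⟩ := he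
  have hD : 0 < cr (vS s) (vS' e s') (vT e) := by
    simp only [cr, vS, vS', vT]
    nlinarith
  have hA := bu_first ⟨e1, e2⟩ h1 h2 h3
  have hA' : IsPolygon [vBl e, vBr e, vAr e, vT e, vS s, vS' e s', vAl e]
      (tri (vS s) (vS' e s') (vT e) ∪ {z | cA e z.re z.im}) :=
    hA.rotate_append (A := [vS' e s', vAl e]) (B := [vBl e, vBr e, vAr e, vT e, vS s])
  have hQ : IsPolygon [vF e (-18 / 5), vF e xf, vC e xc, vC e (-432 / 325)]
      (quad (vF e (-18 / 5)) (vF e xf) (vC e xc) (vC e (-432 / 325))) := by
    apply isPolygon_quad <;> simp only [cr, vF, vC] <;> nlinarith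
  have hQ' : IsPolygon [vC e xc, vC e (-432 / 325), vF e (-18 / 5), vF e xf]
      (quad (vF e (-18 / 5)) (vF e xf) (vC e xc) (vC e (-432 / 325))) :=
    hQ.rotate_append (A := [vF e (-18 / 5), vF e xf]) (B := [vC e xc, vC e (-432 / 325)])
  have hx : 0 < xc + 432 / 325 := by linarith
  have hmain : IsPolygon [vC e xc, vBr e, vAr e, vT e, vS s, vS' e s', vAl e, vBl e,
      vC e (-432 / 325), vF e (-18 / 5), vF e xf]
      (quad (vF e (-18 / 5)) (vF e xf) (vC e xc) (vC e (-432 / 325)) ∪
        (tri (vS s) (vS' e s') (vT e) ∪ {z | cA e z.re z.im})) := by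
    refine glueSub (s := (xc + 1 / 10) / (xc + 432 / 325))
      (t := (xc + 1 / 5) / (xc + 432 / 325)) (A := [vF e (-18 / 5), vF e xf])
      (B := [vAr e, vT e, vS s, vS' e s', vAl e]) hQ' hA' ?_ ?_ ?_ ?_ ?_ ?_
    · apply div_pos _ hx
      linarith
    · rw [div_lt_div_iff_of_pos_right hx]
      linarith
    · rw [div_lt_one hx]
      linarith
    · apply Complex.ext
      · simp only [vBr, vC, Complex.add_re, Complex.mul_re, Complex.sub_re, Complex.sub_im,
          Complex.ofReal_re, Complex.ofReal_im]
        have hd : (xc + 1 / 10) / (xc + 432 / 325) * (xc + 432 / 325) = xc + 1 / 10 :=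
          div_mul_cancel₀ _ hx.ne'
        linear_combination hd
      · simp only [vBr, vC, Complex.add_im, Complex.mul_im, Complex.sub_re, Complex.sub_im,
          Complex.ofReal_re, Complex.ofReal_im]
        ring
    · apply Complex.ext
      · simp only [vBl, vC, Complex.add_re, Complex.mul_re, Complex.sub_re, Complex.sub_im,
          Complex.ofReal_re, Complex.ofReal_im]
        have hd : (xc + 1 / 5) / (xc + 432 / 325) * (xc + 432 / 325) = xc + 1 / 5 :=
          div_mul_cancel₀ _ hx.ne'
        linear_combination hd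
      · simp only [vBl, vC, Complex.add_im, Complex.mul_im, Complex.sub_re, Complex.sub_im,
          Complex.ofReal_re, Complex.ofReal_im]
        ring
    · apply Set.Subset.antisymm
      · rintro z ⟨hz1, hz2⟩
        obtain ⟨-, -, g, -⟩ := hz1
        simp only [cr, vC] at g
        have hz : z.im ≤ -58812 + 41 / 20 := by
          by_contra hc
          push Not at hc
          have : 0 < (xc + 432 / 325) * (z.im - (-58812 + 41 / 20)) :=
            mul_pos hx (by linarith)
          nlinarith
        rcases hz2 with hz2 | hz2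
        · exfalso
          have hS : tri (vS s) (vS' e s') (vT e) ⊆ {z : ℂ | -1 ≤ z.im} := by
            refine tri_subset_of_convex hD ?_ ?_ ?_ ?_
            · exact convex_halfSpace_im_ge (-1)
            · simp only [vS, Set.mem_setOf_eq]; norm_num
            · simp only [vS', Set.mem_setOf_eq]; linarith
            · simp only [vT, Set.mem_setOf_eq]; norm_num
          have := hS hz2
          simp only [Set.mem_setOf_eq] at this
          linarith
        · obtain ⟨g1, g2, g3, -⟩ := hz2
          refine pg_mem (s := 10 * (e - 81120 - 1 / 10 - z.re)) ?_ ?_ ?_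
          · linarith
          · linarith
          · apply Complex.ext
            · simp only [vBr, vBl, Complex.add_re, Complex.mul_re, Complex.sub_re,
                Complex.sub_im, Complex.ofReal_re, Complex.ofReal_im]
              ring
            · simp only [vBr, vBl, Complex.add_im, Complex.mul_im, Complex.sub_re,
                Complex.sub_im, Complex.ofReal_re, Complex.ofReal_im]
              linarith
      · intro z hz
        obtain ⟨t, t0, t1, hr, hi⟩ := bu_seg hz
        simp only [vBr, vBl] at hr hi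
        have hre : z.re = e - 81120 - 1 / 10 - t * (1 / 10) := by rw [hr]; ring
        have him : z.im = -58812 + 41 / 20 := by rw [hi]; ring
        refine ⟨⟨?_, ?_, ?_, ?_⟩, Or.inr ?_⟩
        · simp only [cr, vF]
          rw [hre, him]
          nlinarith
        · simp only [cr, vF, vC]
          rw [hre, him]
          nlinarith
        · simp only [cr, vC]
          rw [hre, him]
          apply le_of_eq
          ring
        · simp only [cr, vF, vC]
          rw [hre, him]
          nlinarith
        · simp only [Set.mem_setOf_eq, cA]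
          rw [hre, him]
          refine ⟨?_, ?_, ?_, ?_⟩ <;> linarith
  have h9 := hmain.rotate_append (A := [vC e xc, vBr e, vAr e, vT e])
    (B := [vS s, vS' e s', vAl e, vBl e, vC e (-432 / 325), vF e (-18 / 5), vF e xf])
  rw [Set.union_comm] at h9
  exact h9

end MPc01941
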