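import Pool.Agent.Lib.MP_c01941_lc.Core

/-!
FP-Bounds. Numerical consequences of the cell predicates. Everything is `linarith`/`nlinarith`
with the bounds `219362 ≤ e ≤ 220038`, `938 ≤ m ≤ 942`.
-/

namespace MPc01941

theorem cL_bounds {e x y : ℝ} (he : 219362 ≤ e ∧ e ≤ 220038) (h : cL e x y) :
    3 ≤ x ∧ x ≤ e ∧ -(1 / 10) < y ∧ y ≤ 0 := by
  obtain ⟨h1, h2, h3⟩ := h
  refine ⟨h1, by linarith, by linarith [he.2], h2⟩

theorem cA_bounds {e x y : ℝ} (h : cA e x y) :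
    e - 81120 - 1 / 5 ≤ x ∧ x ≤ e - 81120 - 1 / 10 ∧ -58812 + 41 / 20 ≤ y ∧ y ≤ -(1 / 100) := by
  obtain ⟨h1, h2, h3, h4⟩ := h
  refine ⟨h1, h2, h3, by linarith⟩

/-- in the room: `|x - (e - 81120)| ≤ 18/5` and the range of `y` -/
theorem cT_bounds {e x y : ℝ} (h : cT e x y) :
    e - 81120 - 18 / 5 ≤ x ∧ x ≤ e - 81120 + 18 / 5 ∧ -58812 ≤ y ∧ y ≤ -58812 + 41 / 20 := by
  obtain ⟨h1, h2, h3, h4⟩ := h
  refine ⟨by linarith, by linarith, h1, h2⟩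

theorem cB_bounds {e x y : ℝ} (h : cB e x y) :
    e - 81120 + 1 / 10 ≤ x ∧ x ≤ e - 81120 + 1 / 5 ∧ -117624 < y ∧ y ≤ -58812 := by
  obtain ⟨h1, h2, h3, h4⟩ := h
  refine ⟨h1, h2, by linarith, h3⟩

/-- The last two inequalities: the point is at vertical distance `≤ 1/10` below the line. -/
theorem cM_bounds {e m x y : ℝ} (hm : 938 ≤ m ∧ m ≤ 942) (h : cM e m x y) :
    e - 81120 - 42840 ≤ x ∧ x ≤ e - 81120 + 119 * m ∧
      -117624 - 43200 - 1 / 10 < y ∧ y ≤ -117624 + 120 * m ∧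
      y + 117624 ≤ 120 / 119 * (x - (e - 81120)) ∧
      120 / 119 * (x - (e - 81120)) - 1 / 10 < y + 117624 := by
  obtain ⟨h1, h2, h3⟩ := h
  have h4 : e - 81120 - 42840 ≤ x := by linarith
  refine ⟨h4, h1, ?_, ?_, ?_, ?_⟩ <;> linarith [hm.1, hm.2]

theorem cC_bounds {e m x y : ℝ} (h : cC e m x y) :
    e - 81120 + 119 * m ≤ x ∧ x ≤ e - 81120 + 119 * m + 3 ∧
      -117624 + 120 * m - 30 / 13 ≤ y ∧ y ≤ -117624 + 120 * m := h

end MPc01941
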