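import Pool.Agent.Lib.MP_c01941_lc.Bounds

/-!
FP-Off. Offsets of the portions, slabs. From `he`, `hm`:
`249864 ≤ ox (j+1) - ox j ≤ 251016` and `-5064 ≤ oy (j+1) - oy j ≤ -4584`.
The abscissa of a point of a cell of portion `i` (relative to `ox i`) is `≥ 3` (cells 0..4;
for cell 4: `e - 123960 ≥ 95402`), cell 5 lies over `[dx, dx + 3]`, `dx = e - 81120 + 119 m`,
cells 0..4 have abscissa `≤ dx` (cell 0: `≤ e ≤ 220038 < 249864 ≤ dx`).
The slab statements follow by comparing `i / 6` with `j` (`<`, `=`, `>`), with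
`ox_add` for the difference of the offsets.
-/

namespace MPc01941

namespace Cfg

variable (c : Cfg)

theorem ox_succ (j : ℕ) : c.ox (j + 1) = c.ox j + (c.e j - 81120 + 119 * c.m j) := rfl
theorem oy_succ (j : ℕ) : c.oy (j + 1) = c.oy j + (-117624 + 120 * c.m j) := rfl

theorem ox_step (j : ℕ) : 249864 ≤ c.ox (j + 1) - c.ox j ∧ c.ox (j + 1) - c.ox j ≤ 251016 := by
  rw [ox_succ]
  constructor <;> linarith [(c.he j).1, (c.he j).2, (c.hm j).1, (c.hm j).2]

theorem ox_add (j k : ℕ) : 249864 * (k : ℝ) ≤ c.ox (j + k) - c.ox j := by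
  induction k with
  | zero => simp
  | succ k ih =>
    have := (c.ox_step (j + k)).1
    push_cast
    rw [← add_assoc]
    linarith

/-- membership in the cell with index `6 j + k` -/
theorem mem_K (j k : ℕ) (hk : k < 6) (z : ℂ) :
    z ∈ c.K (6 * j + k) ↔ c.inK j k (z.re - c.ox j) (z.im - c.oy j) := by
  have h1 : (6 * j + k) / 6 = j := by omega
  have h2 : (6 * j + k) % 6 = k := by omega
  simp only [K, Set.mem_ofPred_eq, h1, h2]

/-- abscissas of the points of the cells -/
theorem K_re (j k : ℕ) (hk : k < 6) {z : ℂ} (hz : z ∈ c.K (6 * j + k)) :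
    3 ≤ z.re - c.ox j ∧ z.re ≤ c.ox (j + 1) + 3 ∧ (k < 5 → z.re ≤ c.ox (j + 1)) ∧
      (1 ≤ k → 90000 ≤ z.re - c.ox j) := by
  rw [mem_K c j k hk] at hz
  have he := c.he j
  have hm := c.hm j
  have h0 := c.ox_succ j
  interval_cases k
  · have h := cL_bounds he hz.1
    refine ⟨by linarith, by linarith, fun _ => by linarith, fun h => by omega⟩
  · have h := cA_bounds hz
    refine ⟨by linarith, by linarith, fun _ => by linarith, fun h => by linarith⟩
  · have h := cT_bounds hz
    refine ⟨by linarith, by linarith, fun _ => by linarith, fun h => by linarith⟩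
  · have h := cB_bounds hz
    refine ⟨by linarith, by linarith, fun _ => by linarith, fun h => by linarith⟩
  · have h := cM_bounds hm hz
    refine ⟨by linarith, by linarith, fun _ => by linarith, fun h => by linarith⟩
  · have h := cC_bounds hz
    refine ⟨by linarith, by linarith, fun h => by omega, fun h => by linarith⟩

/-- a point of the region strictly inside the slab of portion `j` lies in a cell of portion `j` -/
theorem slab {i j : ℕ} {z : ℂ} (hz : z ∈ c.K i) (h1 : 3 < z.re - c.ox j)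
    (h2 : z.re < c.ox (j + 1)) : i / 6 = j := by
  have hi : 6 * (i / 6) + i % 6 = i := by omega
  rw [← hi] at hz
  have h := c.K_re (i / 6) (i % 6) (Nat.mod_lt _ (by norm_num)) hz
  rcases lt_trichotomy (i / 6) j with hlt | heq | hgt
  · exfalso
    obtain ⟨k, hk⟩ := Nat.exists_eq_add_of_lt hlt
    have h3 := c.ox_add (i / 6 + 1) k
    rw [show i / 6 + 1 + k = j by omega] at h3
    have : (0 : ℝ) ≤ k := Nat.cast_nonneg k
    linarith [h.2.1]
  · exact heq
  · exfalso
    obtain ⟨k, hk⟩ := Nat.exists_eq_add_of_lt hgt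
    have h3 := c.ox_add (j + 1) k
    rw [show j + 1 + k = i / 6 by omega] at h3
    have : (0 : ℝ) ≤ k := Nat.cast_nonneg k
    linarith [h.1]

/-- a point of the region over the C-room of portion `j` -/
theorem slab_C {i j : ℕ} {z : ℂ} (hz : z ∈ c.K i) (h1 : c.ox (j + 1) ≤ z.re)
    (h2 : z.re ≤ c.ox (j + 1) + 3) : i = 6 * j + 4 ∨ i = 6 * j + 5 ∨ i = 6 * j + 6 := by
  have hi : 6 * (i / 6) + i % 6 = i := by omega
  have hz' := hz
  rw [← hi] at hz'
  have h := c.K_re (i / 6) (i % 6) (Nat.mod_lt _ (by norm_num)) hz'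
  have hlo : ¬ i / 6 < j := by
    intro hlt
    obtain ⟨k, hk⟩ := Nat.exists_eq_add_of_lt hlt
    have h3 := c.ox_add (i / 6 + 1) (k + 1)
    rw [show i / 6 + 1 + (k + 1) = j + 1 by omega] at h3
    have : (0 : ℝ) ≤ k := Nat.cast_nonneg k
    push_cast at h3
    linarith [h.2.1]
  have hhi : ¬ j + 1 < i / 6 := by
    intro hlt
    obtain ⟨k, hk⟩ := Nat.exists_eq_add_of_lt hlt
    have h3 := c.ox_add (j + 1) (k + 1)
    rw [show j + 1 + (k + 1) = i / 6 by omega] at h3
    have : (0 : ℝ) ≤ k := Nat.cast_nonneg k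
    push_cast at h3
    linarith [h.1]
  rcases Nat.lt_or_ge (i / 6) (j + 1) with hlt | hge
  · have hj : i / 6 = j := by omega
    by_contra hcon
    have hk : i % 6 < 4 := by omega
    rw [hj] at h hz'
    rw [mem_K c j (i % 6) (by omega)] at hz'
    have he := c.he j
    have hm := c.hm j
    have h0 := c.ox_succ j
    have hcases : i % 6 = 0 ∨ i % 6 = 1 ∨ i % 6 = 2 ∨ i % 6 = 3 := by omega
    rcases hcases with hc | hc | hc | hc <;> rw [hc] at hz'
    · have h4 := cL_bounds he hz'.1
      linarith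
    · have h4 := cA_bounds hz'
      linarith
    · have h4 := cT_bounds hz'
      linarith
    · have h4 := cB_bounds hz'
      linarith
  · have hj : i / 6 = j + 1 := by omega
    by_contra hcon
    have hk : 1 ≤ i % 6 := by omega
    rw [hj] at h
    have := h.2.2.2 hk
    linarith

/-- a point of the region in the last cell -/
theorem slab_last {i : ℕ} {z : ℂ} (hi : i ≤ 6 * c.n) (hz : z ∈ c.K i) (h1 : 3 < z.re - c.ox c.n) :
    i = 6 * c.n := by
  by_contra hne
  have hlt : i / 6 < c.n := by omega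
  have hi : 6 * (i / 6) + i % 6 = i := by omega
  rw [← hi] at hz
  have h := c.K_re (i / 6) (i % 6) (Nat.mod_lt _ (by norm_num)) hz
  obtain ⟨k, hk⟩ := Nat.exists_eq_add_of_lt hlt
  have h3 := c.ox_add (i / 6 + 1) k
  rw [show i / 6 + 1 + k = c.n by omega] at h3
  have : (0 : ℝ) ≤ k := Nat.cast_nonneg k
  linarith [h.2.1]

end Cfg

end MPc01941
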