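import Pool.Agent.Lib.MP_c01941_lc.TailDefs
import Pool.Agent.Lib.MP_c01941_lc.Off

/-!
FP-CellSets. The cells of a portion as `upSet ∪ lowSet` (translated). `cL` is the triangle
`vS 3, vS' e 3, vT e`; with the cut `10 a0 ≤ 10 x + y` it is
`vS a0, vS' e (cbx a0 e), vT e` (`x ≥ 3` is then automatic); `cT` is the quadrilateral with
`xf = 18/5`, `xc = 432/325`; the last cell (`3 ≤ x`, `10 x + y ≤ 10 a1`) is the quadrilateral
`vS 3, vS' e 3, vS' e (cbx a1 e), vS a1`. All by (non)linear arithmetic.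
-/

namespace MPc01941

private theorem cs_iff {E k L : ℝ} (hk : 0 < k) (h : E = k * L) : 0 ≤ E ↔ 0 ≤ L := by
  rw [h, mul_nonneg_iff_of_pos_left hk]

private theorem cs_tri3 {e : ℝ} (he : 219362 ≤ e ∧ e ≤ 220038) (w : ℂ) :
    w ∈ tri (vS 3) (vS' e 3) (vT e) ↔ cL e w.re w.im := by
  have h1 : 0 ≤ cr (vS 3) (vS' e 3) w ↔ 0 ≤ w.re - 3 :=
    cs_iff (k := (e - 3) / 2400000) (by linarith [he.1]) (by
      simp only [cr, vS, vS']; ring)
  have h2 : 0 ≤ cr (vS' e 3) (vT e) w ↔ 0 ≤ 2400000 * w.im - (w.re - e) :=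
    cs_iff (k := (e - 3) / 2400000) (by linarith [he.1]) (by
      simp only [cr, vT, vS']; ring)
  have h3 : 0 ≤ cr (vT e) (vS 3) w ↔ 0 ≤ - w.im :=
    cs_iff (k := e - 3) (by linarith [he.1]) (by
      simp only [cr, vT, vS]; ring)
  constructor
  · rintro ⟨g1, g2, g3⟩
    rw [h1] at g1
    rw [h2] at g2
    rw [h3] at g3
    exact ⟨by linarith, by linarith, by linarith⟩
  · rintro ⟨g1, g2, g3⟩
    exact ⟨h1.mpr (by linarith), h2.mpr (by linarith), h3.mpr (by linarith)⟩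

private theorem cs_tri0 {e a : ℝ} (he : 219362 ≤ e ∧ e ≤ 220038) (ha : 84000 ≤ a ∧ a ≤ 85000)
    (w : ℂ) :
    w ∈ tri (vS a) (vS' e (cbx a e)) (vT e) ↔
      cL e w.re w.im ∧ 10 * a ≤ 10 * w.re + w.im := by
  have h1 : 0 ≤ cr (vS a) (vS' e (cbx a e)) w ↔ 0 ≤ w.im + 10 * (w.re - a) :=
    cs_iff (k := (e - a) / 24000001) (by linarith [he.1, ha.2]) (by
      simp only [cr, vS, vS', cbx]; ring)
  have h2 : 0 ≤ cr (vS' e (cbx a e)) (vT e) w ↔ 0 ≤ 2400000 * w.im - (w.re - e) :=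
    cs_iff (k := 24000000 * (e - a) / 24000001 / 2400000) (by linarith [he.1, ha.2]) (by
      simp only [cr, vT, vS', cbx]; ring)
  have h3 : 0 ≤ cr (vT e) (vS a) w ↔ 0 ≤ - w.im :=
    cs_iff (k := e - a) (by linarith [he.1, ha.2]) (by
      simp only [cr, vT, vS]; ring)
  constructor
  · rintro ⟨g1, g2, g3⟩
    rw [h1] at g1
    rw [h2] at g2
    rw [h3] at g3
    exact ⟨⟨by linarith [ha.1], by linarith, by linarith⟩, by linarith⟩
  · rintro ⟨⟨g1, g2, g3⟩, g4⟩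
    exact ⟨h1.mpr (by linarith), h2.mpr (by linarith), h3.mpr (by linarith)⟩

private theorem cs_quadT (e : ℝ) (w : ℂ) :
    w ∈ quad (vF e (-18 / 5)) (vF e (18 / 5)) (vC e (432 / 325)) (vC e (-432 / 325)) ↔
      cT e w.re w.im := by
  have h1 : 0 ≤ cr (vF e (-18 / 5)) (vF e (18 / 5)) w ↔ 0 ≤ w.im + 58812 :=
    cs_iff (k := 36 / 5) (by norm_num) (by
      simp only [cr, vF]; ring)
  have h2 : 0 ≤ cr (vF e (18 / 5)) (vC e (432 / 325)) w ↔
      0 ≤ 65 * (18 / 5 - (w.re - (e - 81120))) - 72 * (w.im + 58812) :=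
    cs_iff (k := 41 / 1300) (by norm_num) (by
      simp only [cr, vF, vC]; ring)
  have h3 : 0 ≤ cr (vC e (432 / 325)) (vC e (-432 / 325)) w ↔ 0 ≤ -58812 + 41 / 20 - w.im :=
    cs_iff (k := 864 / 325) (by norm_num) (by
      simp only [cr, vC]; ring)
  have h4 : 0 ≤ cr (vC e (-432 / 325)) (vF e (-18 / 5)) w ↔
      0 ≤ 65 * (w.re - (e - 81120) + 18 / 5) - 72 * (w.im + 58812) :=
    cs_iff (k := 41 / 1300) (by norm_num) (by
      simp only [cr, vF, vC]; ring)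
  constructor
  · rintro ⟨g1, g2, g3, g4⟩
    rw [h1] at g1
    rw [h2] at g2
    rw [h3] at g3
    rw [h4] at g4
    exact ⟨by linarith, by linarith, by linarith, by linarith⟩
  · rintro ⟨g1, g2, g3, g4⟩
    exact ⟨h1.mpr (by linarith), h2.mpr (by linarith), h3.mpr (by linarith), h4.mpr (by linarith)⟩

private theorem cs_quadL {e a : ℝ} (he : 219362 ≤ e ∧ e ≤ 220038) (ha : 84000 ≤ a ∧ a ≤ 85000)
    (w : ℂ) :
    w ∈ quad (vS 3) (vS' e 3) (vS' e (cbx a e)) (vS a) ↔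
      cL e w.re w.im ∧ 10 * w.re + w.im ≤ 10 * a := by
  have h1 : 0 ≤ cr (vS 3) (vS' e 3) w ↔ 0 ≤ w.re - 3 :=
    cs_iff (k := (e - 3) / 2400000) (by linarith [he.1]) (by
      simp only [cr, vS, vS']; ring)
  have h2 : 0 ≤ cr (vS' e 3) (vS' e (cbx a e)) w ↔ 0 ≤ 2400000 * w.im - (w.re - e) :=
    cs_iff (k := ((24000000 * a + e) / 24000001 - 3) / 2400000) (by linarith [he.1, ha.1]) (by
      simp only [cr, vS', cbx]; ring)
  have h3 : 0 ≤ cr (vS' e (cbx a e)) (vS a) w ↔ 0 ≤ 10 * a - (10 * w.re + w.im) :=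
    cs_iff (k := (e - a) / 24000001) (by linarith [he.1, ha.2]) (by
      simp only [cr, vS, vS', cbx]; ring)
  have h4 : 0 ≤ cr (vS a) (vS 3) w ↔ 0 ≤ - w.im :=
    cs_iff (k := a - 3) (by linarith [ha.1]) (by
      simp only [cr, vS]; ring)
  constructor
  · rintro ⟨g1, g2, g3, g4⟩
    rw [h1] at g1
    rw [h2] at g2
    rw [h3] at g3
    rw [h4] at g4
    exact ⟨⟨by linarith, by linarith, by linarith⟩, by linarith⟩
  · rintro ⟨⟨g1, g2, g3⟩, g4⟩
    exact ⟨h1.mpr (by linarith), h2.mpr (by linarith), h3.mpr (by linarith), h4.mpr (by linarith)⟩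

namespace Cfg

variable (c : Cfg)

private theorem cs_re (j : ℕ) (z : ℂ) : (z - c.org j).re = z.re - c.ox j := rfl

private theorem cs_im (j : ℕ) (z : ℂ) : (z - c.org j).im = z.im - c.oy j := rfl

private theorem cs_cases (j : ℕ) (z : ℂ) : (∃ i, 6 * j ≤ i ∧ i < 6 * (j + 1) ∧ z ∈ c.K i) ↔
    (c.inK j 0 (z.re - c.ox j) (z.im - c.oy j) ∨ cA (c.e j) (z.re - c.ox j) (z.im - c.oy j) ∨
      cT (c.e j) (z.re - c.ox j) (z.im - c.oy j) ∨ cB (c.e j) (z.re - c.ox j) (z.im - c.oy j) ∨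
      cM (c.e j) (c.m j) (z.re - c.ox j) (z.im - c.oy j) ∨
      cC (c.e j) (c.m j) (z.re - c.ox j) (z.im - c.oy j)) := by
  constructor
  · rintro ⟨i, h1, h2, h3⟩
    obtain ⟨k, rfl⟩ := Nat.exists_eq_add_of_le h1
    have hk : k < 6 := by omega
    rw [c.mem_K j k hk] at h3
    interval_cases k
    · exact Or.inl h3
    · exact Or.inr (Or.inl h3)
    · exact Or.inr (Or.inr (Or.inl h3))
    · exact Or.inr (Or.inr (Or.inr (Or.inl h3)))
    · exact Or.inr (Or.inr (Or.inr (Or.inr (Or.inl h3))))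
    · exact Or.inr (Or.inr (Or.inr (Or.inr (Or.inr h3))))
  · intro h
    rcases h with h | h | h | h | h | h
    · exact ⟨6 * j + 0, by omega, by omega, (c.mem_K j 0 (by norm_num) z).mpr h⟩
    · exact ⟨6 * j + 1, by omega, by omega, (c.mem_K j 1 (by norm_num) z).mpr h⟩
    · exact ⟨6 * j + 2, by omega, by omega, (c.mem_K j 2 (by norm_num) z).mpr h⟩
    · exact ⟨6 * j + 3, by omega, by omega, (c.mem_K j 3 (by norm_num) z).mpr h⟩
    · exact ⟨6 * j + 4, by omega, by omega, (c.mem_K j 4 (by norm_num) z).mpr h⟩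
    · exact ⟨6 * j + 5, by omega, by omega, (c.mem_K j 5 (by norm_num) z).mpr h⟩

theorem portion_eq {j : ℕ} (h1 : 1 ≤ j) (hj : j < c.n) :
    {z | ∃ i, 6 * j ≤ i ∧ i < 6 * (j + 1) ∧ z ∈ c.K i} =
      {z | z - c.org j ∈ upSet (c.e j) 3 3 (18 / 5) (432 / 325) ∪ lowSet (c.e j) (c.m j)} := by
  ext z
  have h0 : c.inK j 0 (z.re - c.ox j) (z.im - c.oy j) ↔
      z - c.org j ∈ tri (vS 3) (vS' (c.e j) 3) (vT (c.e j)) := by
    rw [cs_tri3 (c.he j), cs_re, cs_im]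
    constructor
    · intro h
      exact h.1
    · intro h
      exact ⟨h, fun h => by omega, fun h => by omega⟩
  have h2 := cs_quadT (c.e j) (z - c.org j)
  rw [cs_re, cs_im] at h2
  rw [Set.mem_ofPred_eq, Set.mem_ofPred_eq, cs_cases, h0, ← h2]
  simp only [upSet, lowSet, Set.mem_union, Set.mem_ofPred_eq, cs_re, cs_im]
  tauto

theorem portion_zero :
    {z | ∃ i, i < 6 ∧ z ∈ c.K i} =
      {z | z - c.org 0 ∈ upSet (c.e 0) c.a0 (cbx c.a0 (c.e 0)) (18 / 5) (432 / 325) ∪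
        lowSet (c.e 0) (c.m 0)} := by
  ext z
  have h0 : c.inK 0 0 (z.re - c.ox 0) (z.im - c.oy 0) ↔
      z - c.org 0 ∈ tri (vS c.a0) (vS' (c.e 0) (cbx c.a0 (c.e 0))) (vT (c.e 0)) := by
    rw [cs_tri0 (c.he 0) c.ha0, cs_re, cs_im]
    constructor
    · intro h
      exact ⟨h.1, h.2.1 rfl⟩
    · intro h
      exact ⟨h.1, fun _ => h.2, fun h => by have := c.hn; omega⟩
  have h2 := cs_quadT (c.e 0) (z - c.org 0)
  rw [cs_re, cs_im] at h2
  have h3 : (∃ i, i < 6 ∧ z ∈ c.K i) ↔ ∃ i, 6 * 0 ≤ i ∧ i < 6 * (0 + 1) ∧ z ∈ c.K i := by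
    constructor
    · rintro ⟨i, hi, hz⟩
      exact ⟨i, by omega, by omega, hz⟩
    · rintro ⟨i, -, hi, hz⟩
      exact ⟨i, by omega, hz⟩
  rw [Set.mem_ofPred_eq, Set.mem_ofPred_eq, h3, cs_cases, h0, ← h2]
  simp only [upSet, lowSet, Set.mem_union, Set.mem_ofPred_eq, cs_re, cs_im]
  tauto

theorem last_eq :
    c.K (6 * c.n) = {z | z - c.org c.n ∈
      quad (vS 3) (vS' (c.e c.n) 3) (vS' (c.e c.n) (cbx c.a1 (c.e c.n))) (vS c.a1)} := by
  ext z
  rw [Set.mem_ofPred_eq, cs_quadL (c.he c.n) c.ha1, cs_re, cs_im]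
  have h := c.mem_K c.n 0 (by norm_num) z
  rw [Nat.add_zero] at h
  rw [h]
  constructor
  · intro h
    exact ⟨h.1, h.2.2 rfl⟩
  · intro h
    exact ⟨h.1, fun h => by have := c.hn; omega, fun _ => h.2⟩

theorem tailSet_step {j : ℕ} (hj : j < c.n) :
    c.tailSet j = {z | ∃ i, 6 * j ≤ i ∧ i < 6 * (j + 1) ∧ z ∈ c.K i} ∪ c.tailSet (j + 1) := by
  ext z
  constructor
  · rintro ⟨i, h1, h2, h3⟩
    by_cases h : i < 6 * (j + 1)
    · exact Or.inl ⟨i, h1, h, h3⟩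
    · exact Or.inr ⟨i, by omega, h2, h3⟩
  · rintro (⟨i, h1, h2, h3⟩ | ⟨i, h1, h2, h3⟩)
    · exact ⟨i, h1, by omega, h3⟩
    · exact ⟨i, by omega, h2, h3⟩

theorem tailSet_last : c.tailSet c.n = c.K (6 * c.n) := by
  ext z
  constructor
  · rintro ⟨i, h1, h2, h3⟩
    have : i = 6 * c.n := by omega
    rw [← this]
    exact h3
  · intro h
    exact ⟨6 * c.n, le_refl _, le_refl _, h⟩

theorem tailSet_zero : c.tailSet 0 = c.P := by
  ext z
  constructor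
  · rintro ⟨i, h1, h2, h3⟩
    exact ⟨i, h2, h3⟩
  · rintro ⟨i, h2, h3⟩
    exact ⟨i, by omega, h2, h3⟩

end Cfg

end MPc01941
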