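import Pool.Agent.Lib.MP_c01941_lc.Seq

/-!
FP-CfgN. The parameters of the `n`-th region.
-/

namespace MPc01941

def eq' (n j : ℕ) : ℚ := 219700 - 135200 * ttq n (2 * j)

def mq (n j : ℕ) : ℚ := 940 + 800 * ttq n (2 * j + 1)

private theorem ttq_bounds' (n i : ℕ) : -1 / 400 ≤ ttq n i ∧ ttq n i ≤ 1 / 400 := by
  unfold ttq
  split_ifs <;> norm_num

theorem eq'_bounds (n j : ℕ) : 219362 ≤ eq' n j ∧ eq' n j ≤ 220038 := by
  obtain ⟨h1, h2⟩ := ttq_bounds' n (2 * j)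
  unfold eq'
  constructor <;> linarith

theorem mq_bounds (n j : ℕ) : 938 ≤ mq n j ∧ mq n j ≤ 942 := by
  obtain ⟨h1, h2⟩ := ttq_bounds' n (2 * j + 1)
  unfold mq
  constructor <;> linarith

/-- the `n`-th region -/
noncomputable def cfg (n : ℕ) (hn : 1 ≤ n) : Cfg where
  n := n
  e j := (eq' n j : ℝ)
  m j := (mq n j : ℝ)
  a0 := 421824 / 5
  a1 := 421824 / 5
  hn := hn
  he j := ⟨by exact_mod_cast (eq'_bounds n j).1, by exact_mod_cast (eq'_bounds n j).2⟩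
  hm j := ⟨by exact_mod_cast (mq_bounds n j).1, by exact_mod_cast (mq_bounds n j).2⟩
  ha0 := by norm_num
  ha1 := by norm_num

theorem cfg_e (n : ℕ) (hn : 1 ≤ n) (j : ℕ) :
    (cfg n hn).e j = 219700 - 135200 * tt n (2 * j) := by
  unfold cfg tt eq'
  push_cast
  ring

theorem cfg_m (n : ℕ) (hn : 1 ≤ n) (j : ℕ) :
    (cfg n hn).m j = 940 + 800 * tt n (2 * j + 1) := by
  unfold cfg tt mq
  push_cast
  ring

end MPc01941
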