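import Pool.Agent.Lib.MP_c01941_lc.Seq

/-!
FP-ChainIneq. The chain of inequalities forces equality. `A = 135200`, `13/8 A = 219700`.
Put `u j = 13/8 - r j`, `u' j = 13/8 - r' j` (positive since `r ≤ 26/25`).
Forward: `a j ≤ A z_{2j}` for `j ≤ n`: `u j ≤ 13/8 - (e j - a j)/A = t_{2j} + a j / A
≤ z_{2j} + t_{2j}`, so `FF (z_{2j} + t_{2j}) (u' j) ≥ FF (u j) (u' j) ≥ 225`,
`u' j ≥ kap (..) = z_{2j+1}`, `b j ≥ 219700 + A t_{2j+1} - A r' j = A (u' j + t_{2j+1})
≥ A (z_{2j+1} + t_{2j+1})`, and `FF (b j) (a (j+1)) ≤ 225 A^2` gives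
`a (j+1) / A ≤ kap (z_{2j+1} + t_{2j+1}) = z_{2j+2}`.
Backward: `a j = A z_{2j}` for `j = n, n-1, ..`: from `a (j+1) = A z_{2j+2}`:
`b j / A ≤ kap z_{2j+2} = z_{2j+1} + t_{2j+1}` (`kap_kap`), so `b j = A (z_{2j+1} + t_{2j+1})`;
then `u' j ≤ z_{2j+1}`, `u j ≥ kap z_{2j+1} = z_{2j} + t_{2j}`, `a j ≥ A z_{2j}`.
-/

namespace MPc01941

private theorem ci_mono {x y x' y' : ℝ} (hx : 0 ≤ x) (hy : 0 ≤ y) (hxx : x ≤ x') (hyy : y ≤ y') :
    FF x y ≤ FF x' y' := by
  unfold FF
  have h1 : x * y ≤ x' * y' := mul_le_mul hxx hyy hy (hx.trans hxx)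
  have h2 : x ^ 2 ≤ x' ^ 2 := pow_le_pow_left₀ hx hxx 2
  have h3 : y ^ 2 ≤ y' ^ 2 := pow_le_pow_left₀ hy hyy 2
  linarith

private theorem ci_scale (x y : ℝ) : FF (135200 * x) (135200 * y) = 135200 ^ 2 * FF x y := by
  unfold FF
  ring

private theorem ci_comm (x y : ℝ) : FF x y = FF y x := by
  unfold FF
  ring

theorem chain_ineq {n : ℕ} (hn : 1 ≤ n) {r r' a b : ℕ → ℝ}
    (h1 : ∀ j < n, 0 < r j ∧ r j ≤ 26 / 25 ∧ 0 < r' j ∧ r' j ≤ 26 / 25)
    (h2 : ∀ j < n, 225 ≤ FF (13 / 8 - r j) (13 / 8 - r' j))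
    (h0 : a 0 = 135200 * (78 / 125)) (hn' : a n = 135200 * (78 / 125))
    (ha : ∀ j ≤ n, 0 ≤ a j) (hb : ∀ j < n, 0 ≤ b j)
    (h3 : ∀ j < n, 219700 - 135200 * tt n (2 * j) - a j ≤ 135200 * r j)
    (h4 : ∀ j < n, 219700 + 135200 * tt n (2 * j + 1) - b j ≤ 135200 * r' j)
    (h5 : ∀ j < n, FF (b j) (a (j + 1)) ≤ 225 * 135200 ^ 2) :
    ∀ j < n, b j = 135200 * (zz n (2 * j + 1) + tt n (2 * j + 1)) ∧
      FF (b j) (a (j + 1)) = 225 * 135200 ^ 2 := by
  have hz : ∀ i ≤ 2 * n, 249 / 400 ≤ zz n i ∧ zz n i ≤ 251 / 400 ∧ 249 / 400 ≤ zz n i + tt n i ∧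
      zz n i + tt n i ≤ 251 / 400 := fun i hi => zz_bounds hn hi
  -- the step on the left
  have stepb : ∀ j < n, a j ≤ 135200 * zz n (2 * j) →
      zz n (2 * j + 1) ≤ 13 / 8 - r' j ∧
        135200 * (13 / 8 - r' j + tt n (2 * j + 1)) ≤ b j := by
    intro j hj haj
    obtain ⟨hr1, hr2, hr3, hr4⟩ := h1 j hj
    obtain ⟨hz1, hz2, hz3, hz4⟩ := hz (2 * j) (by omega)
    have e3 := h3 j hj
    have e4 := h4 j hj
    refine ⟨?_, by linarith⟩
    rw [zz_succ]
    apply kap_le_of_le_FF (by linarith) (by linarith) (by linarith)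
    exact (h2 j hj).trans (ci_mono (by linarith) (by linarith) (by linarith) le_rfl)
  have fwd : ∀ j ≤ n, a j ≤ 135200 * zz n (2 * j) := by
    intro j
    induction j with
    | zero =>
      intro _
      rw [h0, Nat.mul_zero, zz_zero]
    | succ j ih =>
      intro hj
      have hj' : j < n := by omega
      obtain ⟨g1, g2⟩ := stepb j hj' (ih (by omega))
      obtain ⟨hz1, hz2, hz3, hz4⟩ := hz (2 * j + 1) (by omega)
      have h6 : zz n (2 * (j + 1)) = kap (zz n (2 * j + 1) + tt n (2 * j + 1)) := by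
        rw [← zz_succ]
        rfl
      have h7 : a (j + 1) / 135200 ≤ zz n (2 * (j + 1)) := by
        rw [h6]
        apply le_kap_of_FF_le (by linarith) (by linarith) (div_nonneg (ha _ hj) (by norm_num))
        have h8 : FF (135200 * (zz n (2 * j + 1) + tt n (2 * j + 1))) (135200 * (a (j + 1) / 135200)) ≤
            225 * 135200 ^ 2 := by
          refine le_trans (ci_mono (by linarith) ?_ ?_ ?_) (h5 j hj')
          · rw [mul_div_cancel₀ _ (by norm_num)]
            exact ha _ hj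
          · linarith
          · rw [mul_div_cancel₀ _ (by norm_num)]
        rw [ci_scale] at h8
        linarith
      rw [div_le_iff₀ (by norm_num)] at h7
      linarith
  -- the step on the right
  have back : ∀ j < n, a (j + 1) = 135200 * zz n (2 * (j + 1)) →
      b j = 135200 * (zz n (2 * j + 1) + tt n (2 * j + 1)) ∧ a j = 135200 * zz n (2 * j) ∧
        FF (b j) (a (j + 1)) = 225 * 135200 ^ 2 := by
    intro j hj haj
    obtain ⟨g1, g2⟩ := stepb j hj (fwd j (by omega))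
    obtain ⟨hr1, hr2, hr3, hr4⟩ := h1 j hj
    obtain ⟨hz1, hz2, hz3, hz4⟩ := hz (2 * j + 1) (by omega)
    obtain ⟨hy1, hy2, hy3, hy4⟩ := hz (2 * j) (by omega)
    obtain ⟨hx1, hx2, hx3, hx4⟩ := hz (2 * (j + 1)) (by omega)
    have h6 : zz n (2 * (j + 1)) = kap (zz n (2 * j + 1) + tt n (2 * j + 1)) := by
      rw [← zz_succ]
      rfl
    have h7 : b j / 135200 ≤ kap (zz n (2 * (j + 1))) := by
      apply le_kap_of_FF_le (by linarith) (by linarith) (div_nonneg (hb _ hj) (by norm_num))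
      have h8 := h5 j hj
      have h9 : b j = 135200 * (b j / 135200) := by
        rw [mul_div_cancel₀ _ (by norm_num)]
      rw [haj, h9, ci_scale, ci_comm] at h8
      linarith
    rw [h6, kap_kap (by linarith) (by linarith), div_le_iff₀ (by norm_num)] at h7
    have hbj : b j = 135200 * (zz n (2 * j + 1) + tt n (2 * j + 1)) := by linarith
    have hu' : 13 / 8 - r' j = zz n (2 * j + 1) := by linarith
    have h10 : kap (zz n (2 * j + 1)) ≤ 13 / 8 - r j := by
      apply kap_le_of_le_FF (by linarith) (by linarith) (by linarith)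
      rw [ci_comm, ← hu']
      exact h2 j hj
    rw [zz_succ, kap_kap (by linarith) (by linarith)] at h10
    have e3 := h3 j hj
    refine ⟨hbj, le_antisymm (fwd j (by omega)) (by linarith), ?_⟩
    rw [hbj, haj, ci_scale, h6, FF_kap (by linarith) (by linarith)]
    ring
  have eqa : ∀ k ≤ n, a (n - k) = 135200 * zz n (2 * (n - k)) := by
    intro k
    induction k with
    | zero =>
      intro _
      rw [Nat.sub_zero, zz_end hn, hn']
    | succ k ih =>
      intro hk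
      have h6 := ih (by omega)
      have h7 : n - k = n - (k + 1) + 1 := by omega
      rw [h7] at h6
      exact (back (n - (k + 1)) (by omega) h6).2.1
  intro j hj
  have h6 := eqa (n - (j + 1)) (by omega)
  have h7 : n - (n - (j + 1)) = j + 1 := by omega
  rw [h7] at h6
  obtain ⟨g1, _, g3⟩ := back j hj h6
  exact ⟨g1, g3⟩

end MPc01941
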