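import Pool.Agent.Lib.MP_c01941_lc.Defs

/-!
MP_c01941_lc: the chain shaped regions (set level), witnesses, and data of a partition.

All cells are described in coordinates relative to the origin `o j` of their portion.
Numbers: arm `T = 81120`, `T' = 60840 = 169*360` (so `119*360 = 42840`, `120*360 = 43200`),
room floor at depth `58812`, second line through depth `117624`,
slope of the second line `120/119` (unit vector `(119,120)/169`),
room: trapezoid of half width `18/5`, height `41/20`, walls of slope `±65/72`,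
C-room: rectangle `3 × 30/13`.
-/

namespace MPc01941

open Metric

/-- thin triangle below the line `y = 0`, tip `(e, 0)`, left end at `x = 3` -/
def cL (e x y : ℝ) : Prop := 3 ≤ x ∧ y ≤ 0 ∧ x - e ≤ 2400000 * y

/-- upper vertical arm -/
def cA (e x y : ℝ) : Prop :=
  e - 81120 - 1 / 5 ≤ x ∧ x ≤ e - 81120 - 1 / 10 ∧ -58812 + 41 / 20 ≤ y ∧ 2400000 * y ≤ x - e

/-- the room (trapezoid) -/
def cT (e x y : ℝ) : Prop :=
  -58812 ≤ y ∧ y ≤ -58812 + 41 / 20 ∧
    72 * (y + 58812) ≤ 65 * (x - (e - 81120) + 18 / 5) ∧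
    72 * (y + 58812) ≤ 65 * (18 / 5 - (x - (e - 81120)))

/-- lower vertical arm -/
def cB (e x y : ℝ) : Prop :=
  e - 81120 + 1 / 10 ≤ x ∧ x ≤ e - 81120 + 1 / 5 ∧ y ≤ -58812 ∧
    120 * (x - (e - 81120)) ≤ 119 * (y + 117624)

/-- thin triangle below the second line, tip at distance `60840` on the left of the foot -/
def cM (e m x y : ℝ) : Prop :=
  x ≤ e - 81120 + 119 * m ∧ 119 * (y + 117624) ≤ 120 * (x - (e - 81120)) ∧
    191999881 * (x - (e - 81120)) - 5097960 ≤ 190400000 * (y + 117624)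

/-- the rectangular room at the bend -/
def cC (e m x y : ℝ) : Prop :=
  e - 81120 + 119 * m ≤ x ∧ x ≤ e - 81120 + 119 * m + 3 ∧
    -117624 + 120 * m - 30 / 13 ≤ y ∧ y ≤ -117624 + 120 * m

/-- parameters of a chain shaped region with `n` portions -/
structure Cfg where
  n : ℕ
  e : ℕ → ℝ
  m : ℕ → ℝ
  a0 : ℝ
  a1 : ℝ
  hn : 1 ≤ n
  he : ∀ j, 219362 ≤ e j ∧ e j ≤ 220038
  hm : ∀ j, 938 ≤ m j ∧ m j ≤ 942
  ha0 : 84000 ≤ a0 ∧ a0 ≤ 85000
  ha1 : 84000 ≤ a1 ∧ a1 ≤ 85000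

namespace Cfg

variable (c : Cfg)

/-- abscissa of the origin of portion `j` -/
def ox : ℕ → ℝ
  | 0 => 0
  | j + 1 => ox j + (c.e j - 81120 + 119 * c.m j)

/-- ordinate of the origin of portion `j` -/
def oy : ℕ → ℝ
  | 0 => 0
  | j + 1 => oy j + (-117624 + 120 * c.m j)

/-- the point with coordinates `(x, y)` relative to the origin of portion `j` -/
def pt (j : ℕ) (x y : ℝ) : ℂ := ⟨c.ox j + x, c.oy j + y⟩

/-- cell `k` of portion `j` in relative coordinates -/
def inK (j k : ℕ) (x y : ℝ) : Prop :=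
  match k with
  | 0 => cL (c.e j) x y ∧ (j = 0 → 10 * c.a0 ≤ 10 * x + y) ∧ (j = c.n → 10 * x + y ≤ 10 * c.a1)
  | 1 => cA (c.e j) x y
  | 2 => cT (c.e j) x y
  | 3 => cB (c.e j) x y
  | 4 => cM (c.e j) (c.m j) x y
  | _ => cC (c.e j) (c.m j) x y

/-- the cells in their order along the chain -/
def K (i : ℕ) : Set ℂ := {z | c.inK (i / 6) (i % 6) (z.re - c.ox (i / 6)) (z.im - c.oy (i / 6))}

/-- the region -/
def P : Set ℂ := {z | ∃ i ≤ 6 * c.n, z ∈ c.K i}

/-- the witnesses: `3j`: tip of the first line, `3j+1`: tip of the second line,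
`3j+2`: the bend -/
def wit (i : ℕ) : ℂ :=
  match i % 3 with
  | 0 => c.pt (i / 3) (c.e (i / 3)) 0
  | 1 => c.pt (i / 3) (c.e (i / 3) - 123960) (-160824)
  | _ => c.pt (i / 3 + 1) 0 0

end Cfg

/-- the quadratic form of the two couplings -/
def FF (x y : ℝ) : ℝ := 169 * x ^ 2 + 238 * x * y + 169 * y ^ 2

/-- a partition into at most `3 n` fat connected pieces -/
structure Part (c : Cfg) where
  N : ℕ
  Q : Fin N → Set ℂ
  r : Fin N → ℝ
  ctr : Fin N → ℂ
  ctr' : Fin N → ℂ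
  hN : N ≤ 3 * c.n
  conn : ∀ i, IsPreconnected (Q i)
  closed : ∀ i, IsClosed (Q i)
  pos : ∀ i, 0 < r i
  inb : ∀ i, closedBall (ctr i) (r i) ⊆ Q i
  outb : ∀ i, Q i ⊆ closedBall (ctr' i) (67600 * r i)
  cover : c.P = ⋃ i, Q i
  disj : ∀ i k, i ≠ k → Disjoint (interior (Q i)) (interior (Q k))

end MPc01941
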