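import Pool.Agent.Lib.MP_c01941_lc.Verts

/-!
MP_c01941_lc: definitions for the polygon of the region, obtained by adding the portions
from right to left.
-/

namespace MPc01941

/-- abscissa of the intersection of the line `10 x + y = 10 a` with the lower side of the first
triangle -/
noncomputable def cbx (a e : ℝ) : ℝ := (24000000 * a + e) / 24000001

namespace Cfg

variable (c : Cfg)

/-- origin of portion `j` -/
noncomputable def org (j : ℕ) : ℂ := ⟨c.ox j, c.oy j⟩

/-- the cells `6 j, .., 6 n` -/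
def tailSet (j : ℕ) : Set ℂ := {z | ∃ i, 6 * j ≤ i ∧ i ≤ 6 * c.n ∧ z ∈ c.K i}

/-- lower chain of portion `j` (relative coordinates) -/
noncomputable def lo (j : ℕ) : List ℂ :=
  [vAl (c.e j), vBl (c.e j), vC (c.e j) (-432 / 325), vF (c.e j) (-18 / 5), vF (c.e j) (1 / 10),
    vM (c.e j) (1 / 1190), vM (c.e j) (-360), vM' (c.e j) (119 * c.m j),
    vD (c.e j) (c.m j) 0 (-30 / 13), vD (c.e j) (c.m j) 3 (-30 / 13),
    vD (c.e j) (c.m j) 3 ((3 - c.e (j + 1)) / 2400000)]

/-- upper chain of portion `j` (relative coordinates) -/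
noncomputable def hi (j : ℕ) : List ℂ :=
  [vD (c.e j) (c.m j) 0 0, vM (c.e j) (1 / 595), vF (c.e j) (1 / 5), vF (c.e j) (18 / 5),
    vC (c.e j) (432 / 325), vBr (c.e j), vAr (c.e j), vT (c.e j)]

/-- the vertices of the portions `j, .., j + k - 1` and of the last cell, without the two
vertices of the left edge -/
noncomputable def tl : ℕ → ℕ → List ℂ
  | 0, j => [vS' (c.e j) (cbx c.a1 (c.e j)) + c.org j, vS c.a1 + c.org j]
  | k + 1, j => (c.lo j).map (fun z => z + c.org j) ++ tl k (j + 1) ++
      (c.hi j).map (fun z => z + c.org j)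

/-- the vertices of the region -/
noncomputable def verts : List ℂ :=
  vS c.a0 :: vS' (c.e 0) (cbx c.a0 (c.e 0)) :: c.tl c.n 0

end Cfg

end MPc01941
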