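import Pool.Agent.Lib.MP_c01941_lc.PieceDefs
import Pool.Agent.Lib.MP_c01941_lc.TailDefs
import Pool.Agent.Lib.MP_c01941_lc.Off

/-!
FP-Cover. The pieces of the partition cover the region. Cell by cell: with relative coordinates,
`K (6j) = {cut ≥} ∪ {cut ≤}` between `M_j` and `C_{j-1}` (for `j = 0` the condition of the cell is
the one of `M_0`, as `a 0 = a0`; for `j = n` the one of `C_{n-1}`, as `a n = a1`), etc.
`cM` relative to the bend: `x = x' + (e - 81120 + 119 m)`, `y = y' + (-117624 + 120 m)`.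
-/

namespace MPc01941

namespace Cfg

variable (c : Cfg)

/-- the pieces, in their order along the chain: `3j` is `M_j`, `3j+1` is `N_j`, `3j+2` is `C_j` -/
def piece (a r r' μ : ℕ → ℝ) (i : ℕ) : Set ℂ :=
  match i % 3 with
  | 0 => {z | z - c.org (i / 3) ∈ pM (c.e (i / 3)) (a (i / 3)) (r (i / 3)) (r' (i / 3))}
  | 1 => {z | z - c.org (i / 3) ∈
      pN (c.e (i / 3)) (c.m (i / 3)) (μ (i / 3)) (r (i / 3)) (r' (i / 3))}
  | _ => {z | z - c.org (i / 3 + 1) ∈
      pC (c.m (i / 3)) (μ (i / 3)) (c.e (i / 3 + 1)) (a (i / 3 + 1))}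

private theorem cov_p0 (a r r' μ : ℕ → ℝ) (j : ℕ) (z : ℂ) : z ∈ c.piece a r r' μ (3 * j) ↔
    z - c.org j ∈ pM (c.e j) (a j) (r j) (r' j) := by
  have h1 : 3 * j / 3 = j := by omega
  have h2 : 3 * j % 3 = 0 := by omega
  unfold piece
  rw [h1, h2]
  rfl

private theorem cov_p1 (a r r' μ : ℕ → ℝ) (j : ℕ) (z : ℂ) : z ∈ c.piece a r r' μ (3 * j + 1) ↔
    z - c.org j ∈ pN (c.e j) (c.m j) (μ j) (r j) (r' j) := by
  have h1 : (3 * j + 1) / 3 = j := by omega
  have h2 : (3 * j + 1) % 3 = 1 := by omega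
  unfold piece
  rw [h1, h2]
  rfl

private theorem cov_p2 (a r r' μ : ℕ → ℝ) (j : ℕ) (z : ℂ) : z ∈ c.piece a r r' μ (3 * j + 2) ↔
    z - c.org (j + 1) ∈ pC (c.m j) (μ j) (c.e (j + 1)) (a (j + 1)) := by
  have h1 : (3 * j + 2) / 3 = j := by omega
  have h2 : (3 * j + 2) % 3 = 2 := by omega
  unfold piece
  rw [h1, h2]
  rfl

private theorem cov_re (j : ℕ) (z : ℂ) : (z - c.org j).re = z.re - c.ox j := rfl

private theorem cov_im (j : ℕ) (z : ℂ) : (z - c.org j).im = z.im - c.oy j := rfl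

/-- a piece lies in three consecutive cells -/
theorem piece_sub (a r r' μ : ℕ → ℝ) (i : ℕ) (ha : a 0 = c.a0) (ha' : a c.n = c.a1)
    (hi : i < 3 * c.n) :
    c.piece a r r' μ i ⊆ c.K (2 * i) ∪ c.K (2 * i + 1) ∪ c.K (2 * i + 2) := by
  intro z hz
  have hi3 : i = 3 * (i / 3) ∨ i = 3 * (i / 3) + 1 ∨ i = 3 * (i / 3) + 2 := by omega
  obtain ⟨j, hj⟩ : ∃ j, j = i / 3 := ⟨_, rfl⟩
  rw [← hj] at hi3
  rcases hi3 with h | h | h
  · subst h
    rw [cov_p0] at hz
    have hjn : j < c.n := by omega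
    rcases hz with ⟨h1, h2⟩ | h1 | ⟨h1, h2⟩
    · refine Or.inl (Or.inl ?_)
      have h3 : 2 * (3 * j) = 6 * j + 0 := by ring
      rw [h3, c.mem_K j 0 (by norm_num)]
      refine ⟨h1, fun h0 => ?_, fun h0 => by omega⟩
      subst h0
      rw [cov_re, cov_im, ha] at h2
      exact h2
    · refine Or.inl (Or.inr ?_)
      have h3 : 2 * (3 * j) + 1 = 6 * j + 1 := by ring
      rw [h3, c.mem_K j 1 (by norm_num)]
      exact h1
    · refine Or.inr ?_
      have h3 : 2 * (3 * j) + 2 = 6 * j + 2 := by ring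
      rw [h3, c.mem_K j 2 (by norm_num)]
      exact h1
  · subst h
    rw [cov_p1] at hz
    rcases hz with ⟨h1, h2⟩ | h1 | ⟨h1, h2⟩
    · refine Or.inl (Or.inl ?_)
      have h3 : 2 * (3 * j + 1) = 6 * j + 2 := by ring
      rw [h3, c.mem_K j 2 (by norm_num)]
      exact h1
    · refine Or.inl (Or.inr ?_)
      have h3 : 2 * (3 * j + 1) + 1 = 6 * j + 3 := by ring
      rw [h3, c.mem_K j 3 (by norm_num)]
      exact h1
    · refine Or.inr ?_
      have h3 : 2 * (3 * j + 1) + 2 = 6 * j + 4 := by ring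
      rw [h3, c.mem_K j 4 (by norm_num)]
      exact h1
  · subst h
    rw [cov_p2] at hz
    have hx := c.ox_succ j
    have hy := c.oy_succ j
    rcases hz with ⟨h1, h2, h3, h4⟩ | ⟨h1, h2, h3, h4⟩ | ⟨h1, h2⟩
    · refine Or.inl (Or.inl ?_)
      have h5 : 2 * (3 * j + 2) = 6 * j + 4 := by ring
      rw [h5, c.mem_K j 4 (by norm_num)]
      simp only [cov_re, cov_im] at h1 h2 h3 h4
      refine ⟨by linarith, by linarith, by linarith⟩
    · refine Or.inl (Or.inr ?_)
      have h5 : 2 * (3 * j + 2) + 1 = 6 * j + 5 := by ring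
      rw [h5, c.mem_K j 5 (by norm_num)]
      simp only [cov_re, cov_im] at h1 h2 h3 h4
      refine ⟨by linarith, by linarith, by linarith, by linarith⟩
    · refine Or.inr ?_
      have h5 : 2 * (3 * j + 2) + 2 = 6 * (j + 1) + 0 := by ring
      rw [h5, c.mem_K (j + 1) 0 (by norm_num)]
      refine ⟨h1, fun h0 => by omega, fun h0 => ?_⟩
      rw [cov_re, cov_im, h0, ha'] at h2
      rw [h0]
      exact h2

theorem piece_cover (a r r' μ : ℕ → ℝ) (ha : a 0 = c.a0) (ha' : a c.n = c.a1) :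
    c.P = ⋃ i ∈ Finset.range (3 * c.n), c.piece a r r' μ i := by
  ext z
  simp only [Set.mem_iUnion, Finset.mem_range, exists_prop]
  constructor
  · rintro ⟨i, hi, hz⟩
    obtain ⟨j, k, hk, rfl⟩ : ∃ j k, k < 6 ∧ i = 6 * j + k :=
      ⟨i / 6, i % 6, Nat.mod_lt _ (by norm_num), by omega⟩
    rw [c.mem_K j k hk] at hz
    have hx := c.ox_succ j
    have hy := c.oy_succ j
    interval_cases k
    · -- cell 0
      obtain ⟨h1, h2, h3⟩ := hz
      by_cases hcut : j < c.n ∧ 10 * a j ≤ 10 * (z.re - c.ox j) + (z.im - c.oy j)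
      · refine ⟨3 * j, by omega, ?_⟩
        rw [cov_p0]
        exact Or.inl ⟨h1, hcut.2⟩
      · have hj0 : j ≠ 0 := by
          intro h0
          apply hcut
          refine ⟨by have := c.hn; omega, ?_⟩
          have := h2 h0
          subst h0
          rw [ha]
          exact this
        obtain ⟨l, rfl⟩ := Nat.exists_eq_succ_of_ne_zero hj0
        refine ⟨3 * l + 2, by omega, ?_⟩
        rw [cov_p2]
        refine Or.inr (Or.inr ⟨h1, ?_⟩)
        by_cases hn : l.succ = c.n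
        · have := h3 hn
          have e1 : a (l + 1) = c.a1 := by rw [← ha', ← hn]
          rw [e1]
          exact this
        · have hlt : l.succ < c.n := by omega
          have : ¬ (10 * a l.succ ≤ 10 * (z.re - c.ox l.succ) + (z.im - c.oy l.succ)) :=
            fun h => hcut ⟨hlt, h⟩
          exact (not_le.1 this).le
    · refine ⟨3 * j, by omega, ?_⟩
      rw [cov_p0]
      exact Or.inr (Or.inl hz)
    · rcases le_total (cutT (r j) (r' j) ((z - c.org j).re - (c.e j - 81120))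
        ((z - c.org j).im + 58812)) 0 with h | h
      · refine ⟨3 * j, by omega, ?_⟩
        rw [cov_p0]
        exact Or.inr (Or.inr ⟨hz, h⟩)
      · refine ⟨3 * j + 1, by omega, ?_⟩
        rw [cov_p1]
        exact Or.inl ⟨hz, h⟩
    · refine ⟨3 * j + 1, by omega, ?_⟩
      rw [cov_p1]
      exact Or.inr (Or.inl hz)
    · rcases le_total (4 * (z - c.org j).re + 3 * (z - c.org j).im)
        (4 * (c.e j - 81120 + 119 * μ j) + 3 * (-117624 + 120 * μ j)) with h | h
      · refine ⟨3 * j + 1, by omega, ?_⟩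
        rw [cov_p1]
        exact Or.inr (Or.inr ⟨hz, h⟩)
      · refine ⟨3 * j + 2, by omega, ?_⟩
        rw [cov_p2]
        obtain ⟨h1, h2, h3⟩ := hz
        simp only [cov_re, cov_im] at h
        refine Or.inl ⟨?_, ?_, ?_, ?_⟩
        · rw [cov_re]; linarith
        · rw [cov_re, cov_im]; linarith
        · rw [cov_re, cov_im]; linarith
        · rw [cov_re, cov_im]; linarith
    · refine ⟨3 * j + 2, by omega, ?_⟩
      rw [cov_p2]
      obtain ⟨h1, h2, h3, h4⟩ := hz
      refine Or.inr (Or.inl ⟨?_, ?_, ?_, ?_⟩)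
      · rw [cov_re]; linarith
      · rw [cov_re]; linarith
      · rw [cov_im]; linarith
      · rw [cov_im]; linarith
  · rintro ⟨i, hi, hz⟩
    rcases c.piece_sub a r r' μ i ha ha' hi hz with (h | h) | h
    · exact ⟨2 * i, by omega, h⟩
    · exact ⟨2 * i + 1, by omega, h⟩
    · exact ⟨2 * i + 2, by omega, h⟩

end Cfg

end MPc01941
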