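import Mathlib

/-!
MP_c01941_lc: definitions used in the final statement.

The plane is `ℂ` with its Euclidean distance.
-/

namespace MPc01941

open Metric

/-- the half-open segment from `a` (included) to `b` (excluded) -/
def hseg (a b : ℂ) : Set ℂ := {z | ∃ t : ℝ, 0 ≤ t ∧ t < 1 ∧ z = a + t * (b - a)}

/-- the cyclic list of the edges of the closed polygonal curve with vertex sequence `v` -/
def cyc (v : List ℂ) : List (ℂ × ℂ) := v.zip (v.rotate 1)

/-- `Q` is the compact region bounded by the closed polygonal curve with vertex sequence `v`,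
and this curve is simple: its half-open edges are nondegenerate and pairwise disjoint. -/
structure IsPolygon (v : List ℂ) (Q : Set ℂ) : Prop where
  len : 3 ≤ v.length
  nondeg : ∀ e ∈ cyc v, e.1 ≠ e.2
  simple : (cyc v).Pairwise fun e f => Disjoint (hseg e.1 e.2) (hseg f.1 f.2)
  compact : IsCompact Q
  regular : closure (interior Q) = Q
  nonempty : Q.Nonempty
  frontier_eq : frontier Q = {z | ∃ e ∈ cyc v, z ∈ segment ℝ e.1 e.2}

/-- radius of a largest disk contained in `Q` -/
noncomputable def Rin (Q : Set ℂ) : ℝ := sSup {r : ℝ | 0 ≤ r ∧ ∃ c : ℂ, closedBall c r ⊆ Q}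

/-- radius of the smallest disk containing `Q` -/
noncomputable def Rout (Q : Set ℂ) : ℝ := sInf {r : ℝ | 0 ≤ r ∧ ∃ c : ℂ, Q ⊆ closedBall c r}

/-- the aspect ratio `D_out(Q) / D_in(Q)` -/
noncomputable def aspect (Q : Set ℂ) : ℝ := (2 * Rout Q) / (2 * Rin Q)

/-- The list `W` of vertex sequences is an `α`-bounded partition of `P`: it lists polygons
with pairwise disjoint interiors and union `P`, all of aspect ratio at most `α`. -/
def IsBoundedPartition (α : ℝ) (P : Set ℂ) (W : List (List ℂ)) : Prop :=
  ∃ R : List (Set ℂ), List.Forall₂ IsPolygon W R ∧ (⋃ Q ∈ R, Q) = P ∧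
    R.Pairwise (fun A B => Disjoint (interior A) (interior B)) ∧ ∀ Q ∈ R, aspect Q ≤ α

/-- `m_α(P) = k` -/
def MinPieces (α : ℝ) (P : Set ℂ) (k : ℕ) : Prop :=
  IsLeast {l : ℕ | ∃ W : List (List ℂ), W.length = l ∧ IsBoundedPartition α P W} k

/-- an integer polynomial, written either as the list of all its coefficients (constant
coefficient first) or as a list of terms `(c, k)`, where `(c, k)` stands for `c x^k` -/
inductive PolyRep
  | dense (coeffs : List ℤ)
  | sparse (terms : List (ℤ × ℕ))

/-- the polynomial written in this way -/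
noncomputable def PolyRep.poly : PolyRep → Polynomial ℤ
  | .dense l => l.foldr (fun c p => Polynomial.C c + Polynomial.X * p) 0
  | .sparse l => l.foldr (fun t p => Polynomial.monomial t.2 t.1 + p) 0

/-- an exactly given real algebraic number: an integer polynomial and the two rational ends of
an isolating interval -/
structure AlgNum where
  rep : PolyRep
  lo : ℚ
  hi : ℚ

/-- `a` represents `x`: its polynomial is not zero and `x` is its only root in `[lo, hi]` -/
def AlgNum.Represents (a : AlgNum) (x : ℝ) : Prop :=
  a.rep.poly ≠ 0 ∧ (a.lo : ℝ) ≤ x ∧ x ≤ a.hi ∧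
    ∀ y : ℝ, (a.lo : ℝ) ≤ y → y ≤ a.hi → (Polynomial.aeval y a.rep.poly = 0 ↔ y = x)

/-- An output: `none` if there is no `α`-bounded partition, otherwise the list of the pieces,
each given by its vertex sequence, each vertex by its two coordinates. -/
abbrev Output : Type := Option (List (List (AlgNum × AlgNum)))

/-- the output `O` is right for the input `(P, α)` -/
def OutputCorrect (α : ℝ) (P : Set ℂ) : Output → Prop
  | none => ∀ W, ¬ IsBoundedPartition α P W
  | some O => ∃ W : List (List ℂ), IsBoundedPartition α P W ∧
      (∀ W', IsBoundedPartition α P W' → W.length ≤ W'.length) ∧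
      List.Forall₂ (List.Forall₂ fun a z => a.1.Represents z.re ∧ a.2.Represents z.im) O W

/-- the symbols used to write inputs and outputs -/
inductive Sym
  | zero | one | neg | slash | comma | pow | endPoly | endNum | endPiece | endAll | noPartition
  deriving DecidableEq, Fintype

/-- binary notation -/
def encNat (n : ℕ) : List Sym := (Nat.bits n).map fun b => if b then Sym.one else Sym.zero

def encInt (z : ℤ) : List Sym := (if z < 0 then [Sym.neg] else []) ++ encNat z.natAbs

def encRat (q : ℚ) : List Sym := encInt q.num ++ [Sym.slash] ++ encNat q.den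

/-- the input: the vertices of the polygon and the number `α` -/
def encIn (v : List (ℚ × ℚ)) (α : ℚ) : List Sym :=
  (v.flatMap fun p => encRat p.1 ++ [Sym.comma] ++ encRat p.2 ++ [Sym.endNum]) ++ encRat α

/-- all integers (coefficients and exponents) are in binary notation -/
def encPoly : PolyRep → List Sym
  | .dense l => (l.flatMap fun c => encInt c ++ [Sym.comma]) ++ [Sym.endPoly]
  | .sparse l => (l.flatMap fun t => encInt t.1 ++ [Sym.pow] ++ encNat t.2 ++ [Sym.comma]) ++
      [Sym.endPoly]

def encAlg (a : AlgNum) : List Sym :=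
  encPoly a.rep ++ encRat a.lo ++ [Sym.comma] ++ encRat a.hi ++ [Sym.endNum]

def encOut : Output → List Sym
  | none => [Sym.noPartition]
  | some O => (O.flatMap fun v => (v.flatMap fun p => encAlg p.1 ++ encAlg p.2) ++
      [Sym.endPiece]) ++ [Sym.endAll]

/-- the point of the plane with the given rational coordinates -/
def toC (p : ℚ × ℚ) : ℂ := ⟨(p.1 : ℝ), (p.2 : ℝ)⟩

/-- no three consecutive vertices (cyclically) are collinear -/
def NoStraight (v : List ℂ) : Prop :=
  ∀ x y z : ℂ, [x, y, z] <:+: v ++ v.take 2 → ¬ Collinear ℝ ({x, y, z} : Set ℂ)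

/-- The machine `M`, within the time bound given by the polynomial `f`, solves the problem:
for every polygon `P` (given by its vertices, with rational coordinates) and every rational
`α > 1` it halts with a right output, after at most `f L` steps if there is no
`α`-bounded partition, and after at most `f (L + m_α(P))` steps otherwise
(`L` is the length of the input). -/
def Solves (M : Turing.TM2ComputableAux Sym Sym) (f : Polynomial ℕ) : Prop :=
  ∀ (v : List (ℚ × ℚ)) (P : Set ℂ) (α : ℚ), 1 < α → IsPolygon (v.map toC) P →
    NoStraight (v.map toC) →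
    ∃ (out : Output) (t : ℕ), OutputCorrect α P out ∧
      Nonempty (Turing.TM2OutputsInTime M.tm ((encIn v α).map M.inputAlphabet.invFun)
        (some ((encOut out).map M.outputAlphabet.invFun)) t) ∧
      ((∀ k, ¬ MinPieces α P k) → t ≤ f.eval (encIn v α).length) ∧
      ∀ k, MinPieces α P k → t ≤ f.eval ((encIn v α).length + k)

end MPc01941
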