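import Mathlib

/-!
FP-DegVal. A valuation of `ℝ` that extends (up to equivalence) the `7`-adic valuation of `ℚ`.
Proof: by `Ideal.image_subset_nonunits_valuationSubring` there is a valuation subring `A` of `ℝ`
such that all elements of the ideal `(7)` of `ℤ` are nonunits of `A`; take `A.valuation`.
An integer prime to `7` has value `1` by Bezout.
-/

namespace MPc01941

theorem exists_valuation : ∃ (Γ : Type) (_ : LinearOrderedCommGroupWithZero Γ) (v : Valuation ℝ Γ),
    v 7 < 1 ∧ ∀ m : ℤ, ¬ (7 ∣ m) → v (m : ℝ) = 1 := by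
  let A : Subring ℝ := (Int.castRingHom ℝ).range
  let s : A := (Int.castRingHom ℝ).rangeRestrict 7
  have hI : Ideal.span {s} ≠ ⊤ := by
    intro h
    rw [Ideal.span_singleton_eq_top] at h
    obtain ⟨t, ht⟩ := isUnit_iff_exists_inv.mp h
    obtain ⟨⟨_, ⟨k, rfl⟩⟩, rfl⟩ : ∃ u : A, u = t := ⟨t, rfl⟩
    have h1 : (7 : ℝ) * (k : ℝ) = 1 := by
      have h3 : (((7 : ℤ) : ℝ)) * (k : ℝ) = 1 := congrArg Subtype.val ht
      have h4 : (((7 : ℤ) : ℝ)) = 7 := by norm_num
      rwa [h4] at h3
    have h2 : (7 : ℤ) * k = 1 := by exact_mod_cast h1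
    omega
  obtain ⟨B, hAB, hB⟩ := Ideal.image_subset_nonunits_valuationSubring (Ideal.span {s}) hI
  refine ⟨B.ValueGroup, inferInstance, B.valuation, ?_, ?_⟩
  · have h7 : (7 : ℝ) ∈ B.nonunits := by
      apply hB
      refine ⟨s, Ideal.subset_span rfl, ?_⟩
      show (((7 : ℤ) : ℝ)) = 7
      norm_num
    exact h7
  · intro m hm
    have h7 : B.valuation (7 : ℝ) < 1 := by
      have h7 : (7 : ℝ) ∈ B.nonunits := by
        apply hB
        refine ⟨s, Ideal.subset_span rfl, ?_⟩
        show (((7 : ℤ) : ℝ)) = 7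
        norm_num
      exact h7
    have hle : ∀ k : ℤ, B.valuation (k : ℝ) ≤ 1 := by
      intro k
      rw [B.valuation_le_one_iff]
      exact hAB ⟨k, rfl⟩
    refine le_antisymm (hle m) ?_
    by_contra hlt
    push Not at hlt
    have hp : Prime (7 : ℤ) := by
      rw [Int.prime_iff_natAbs_prime]; norm_num
    have hc : IsCoprime (7 : ℤ) m := (Prime.coprime_iff_not_dvd hp).mpr hm
    obtain ⟨a, b, hab⟩ := hc
    have h1 : ((a : ℝ) * 7 + (b : ℝ) * (m : ℝ)) = 1 := by exact_mod_cast hab
    have h2 : B.valuation ((a : ℝ) * 7 + (b : ℝ) * (m : ℝ)) < 1 := by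
      apply Valuation.map_add_lt
      · rw [map_mul]
        calc B.valuation (a : ℝ) * B.valuation 7 ≤ 1 * B.valuation 7 := by
              gcongr
              exact hle a
          _ < 1 := by simpa using h7
      · rw [map_mul]
        calc B.valuation (b : ℝ) * B.valuation (m : ℝ) ≤ 1 * B.valuation (m : ℝ) := by
              gcongr
              exact hle b
          _ < 1 := by simpa using hlt
    rw [h1, map_one] at h2
    exact lt_irrefl _ h2

end MPc01941
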