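import Pool.Agent.Lib.MP_c01941_lc.Seq
import Pool.Agent.Lib.MP_c01941_lc.DegVal

/-!
FP-Deg. The degree of `zz n i`, `1 ≤ i ≤ n`, is at least `2^i`.
`deg_of_val`: if `v z ^ (2^i) = v 7`, `p ≠ 0`, `p.natDegree < 2^i`, then the nonzero monomials
`c_k z^k` of `p (z)` have pairwise different valuations: `v c_k = (v 7) ^ n_k` with an integer `n_k`
(for `c ∈ ℚ`, `c ≠ 0`), and `v 7 = v z ^ (2^i)`, exponents `2^i n_k + k`, `0 < v z < 1`; so
the valuation of the sum is the maximum, not `0`.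
`val_step`: let `x = z + t`, `y = kap x`, so `169 y^2 + 238 x y + (13 x - 15) (13 x + 15) = 0`
(`FF_kap`). For `t = -1/400`: `13 t - 15 = - 7 * 859 / 400`, `13 t + 15 = 5987/400`
(`7 ∤ 5987`), so if `v 7 < v z < 1`: `v (13 x - 15) = v z`, `v (13 x + 15) = 1`, `v x = 1`,
`v 238 = v 7`; the dominating terms force `v y ^ 2 = v z`.
First step: `x = 78/125`, `13 x - 15 = - 7 * 123 / 125`, `13 x + 15 = 2889/125` (`7 ∤ 2889`),
`v y ^ 2 = v 7`.
-/

namespace MPc01941

private theorem val_int {Γ : Type} [LinearOrderedCommGroupWithZero Γ] {v : Valuation ℝ Γ}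
    (hm : ∀ m : ℤ, ¬ (7 ∣ m) → v (m : ℝ) = 1) (a : ℤ) (ha : a ≠ 0) :
    ∃ n : ℕ, v (a : ℝ) = v 7 ^ n := by
  have hf : FiniteMultiplicity (7 : ℤ) a :=
    Int.finiteMultiplicity_iff.mpr ⟨by norm_num, ha⟩
  obtain ⟨c, hc, hc'⟩ := hf.exists_eq_pow_mul_and_not_dvd
  refine ⟨multiplicity (7 : ℤ) a, ?_⟩
  have h1 : (a : ℝ) = (7 : ℝ) ^ (multiplicity (7 : ℤ) a) * (c : ℝ) := by
    have := congrArg (fun t : ℤ => (t : ℝ)) hc
    push_cast at this
    exact this
  rw [h1, map_mul, map_pow, hm c hc', mul_one]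

private theorem val_rat {Γ : Type} [LinearOrderedCommGroupWithZero Γ] {v : Valuation ℝ Γ}
    (hm : ∀ m : ℤ, ¬ (7 ∣ m) → v (m : ℝ) = 1) (q : ℚ) (hq : q ≠ 0) :
    ∃ n : ℤ, v (q : ℝ) = v 7 ^ n := by
  have h70 : v 7 ≠ 0 := by
    rw [Valuation.ne_zero_iff]; norm_num
  obtain ⟨m, hm1⟩ := val_int hm q.num (Rat.num_ne_zero.mpr hq)
  obtain ⟨k, hk1⟩ := val_int hm (q.den : ℤ) (by exact_mod_cast q.den_ne_zero)
  refine ⟨(m : ℤ) - (k : ℤ), ?_⟩
  have h1 : (q : ℝ) = ((q.num : ℤ) : ℝ) / (((q.den : ℤ)) : ℝ) := by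
    rw [Rat.cast_def]; push_cast; rfl
  rw [h1, map_div₀, hm1, hk1, zpow_sub₀ h70, zpow_natCast, zpow_natCast]

theorem deg_of_val {Γ : Type} [LinearOrderedCommGroupWithZero Γ] {v : Valuation ℝ Γ}
    (h7 : v 7 < 1) (hm : ∀ m : ℤ, ¬ (7 ∣ m) → v (m : ℝ) = 1) {z : ℝ} {i : ℕ}
    (hz : v z ^ (2 ^ i) = v 7) {p : Polynomial ℚ} (hp : p ≠ 0) (h : Polynomial.aeval z p = 0) :
    2 ^ i ≤ p.natDegree := by
  classical
  by_contra hlt
  push Not at hlt
  have h70 : v 7 ≠ 0 := by
    rw [Valuation.ne_zero_iff]; norm_num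
  have hN : 0 < 2 ^ i := by positivity
  have hw0 : v z ≠ 0 := by
    intro h0
    rw [h0, zero_pow hN.ne'] at hz
    exact h70 hz.symm
  have hw1 : v z < 1 := by
    by_contra hge
    push Not at hge
    have : 1 ≤ v z ^ (2 ^ i) := one_le_pow₀ hge
    rw [hz] at this
    exact absurd h7 (not_lt.mpr this)
  have hwpos : 0 < v z := zero_lt_iff.mpr hw0
  -- the valuation of the monomials
  have hmon : ∀ k ∈ p.support, ∃ n : ℤ,
      v ((p.coeff k : ℝ) * z ^ k) = v z ^ ((2 ^ i : ℕ) * n + (k : ℤ)) := by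
    intro k hk
    obtain ⟨n, hn⟩ := val_rat hm (p.coeff k) (Polynomial.mem_support_iff.mp hk)
    refine ⟨n, ?_⟩
    rw [map_mul, map_pow, hn, zpow_add₀ hw0, zpow_natCast, zpow_mul, zpow_natCast, hz]
  have hdist : ∀ k ∈ p.support, ∀ l ∈ p.support,
      v ((p.coeff k : ℝ) * z ^ k) = v ((p.coeff l : ℝ) * z ^ l) → k = l := by
    intro k hk l hl hkl
    obtain ⟨n, hn⟩ := hmon k hk
    obtain ⟨m, hm'⟩ := hmon l hl
    rw [hn, hm', zpow_right_inj₀ hwpos hw1.ne] at hkl
    have hk' : k < 2 ^ i := lt_of_le_of_lt (Polynomial.le_natDegree_of_mem_supp k hk) hlt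
    have hl' : l < 2 ^ i := lt_of_le_of_lt (Polynomial.le_natDegree_of_mem_supp l hl) hlt
    have h1 : ((2 ^ i : ℕ) : ℤ) ∣ ((k : ℤ) - (l : ℤ)) := ⟨m - n, by linarith⟩
    have h2 : (k : ℤ) - (l : ℤ) = 0 := by
      apply Int.eq_zero_of_abs_lt_dvd h1
      have hk2 : (k : ℤ) < ((2 ^ i : ℕ) : ℤ) := by exact_mod_cast hk'
      have hl2 : (l : ℤ) < ((2 ^ i : ℕ) : ℤ) := by exact_mod_cast hl'
      have hk3 : (0 : ℤ) ≤ (k : ℤ) := Int.natCast_nonneg k
      have hl3 : (0 : ℤ) ≤ (l : ℤ) := Int.natCast_nonneg l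
      rw [abs_lt]
      constructor <;> linarith
    omega
  have hne : p.support.Nonempty := Polynomial.nonempty_support_iff.mpr hp
  obtain ⟨j, hj, hjmax⟩ := Finset.exists_max_image p.support
    (fun k => v ((p.coeff k : ℝ) * z ^ k)) hne
  have hsum : Polynomial.aeval z p = ∑ k ∈ p.support, ((p.coeff k : ℝ) * z ^ k) := by
    rw [Polynomial.aeval_def, Polynomial.eval₂_eq_sum, Polynomial.sum_def]
    simp
  have hv : v (∑ k ∈ p.support, ((p.coeff k : ℝ) * z ^ k)) = v ((p.coeff j : ℝ) * z ^ j) := by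
    apply Valuation.map_sum_eq_of_lt v hj
    intro k hk
    rw [Finset.mem_sdiff, Finset.mem_singleton] at hk
    refine lt_of_le_of_ne (hjmax k hk.1) ?_
    intro heq
    exact hk.2 (hdist k hk.1 j hj heq)
  rw [← hsum, h, map_zero] at hv
  obtain ⟨n, hn⟩ := hmon j hj
  rw [hn] at hv
  exact zpow_ne_zero _ hw0 hv.symm

/-- the quadratic equation -/
private theorem quad_val {Γ : Type} [LinearOrderedCommGroupWithZero Γ] {v : Valuation ℝ Γ}
    (h7 : v 7 < 1) (hm : ∀ m : ℤ, ¬ (7 ∣ m) → v (m : ℝ) = 1) {y B C : ℝ}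
    (heq : 169 * y ^ 2 + B * y + C = 0) (hB : v B ≤ v 7) (hC : v 7 ≤ v C) (hC1 : v C < 1) :
    v y ^ 2 = v C := by
  have h70 : v 7 ≠ 0 := by
    rw [Valuation.ne_zero_iff]; norm_num
  have h7pos : 0 < v 7 := zero_lt_iff.mpr h70
  have h169 : v (169 : ℝ) = 1 := by
    have := hm 169 (by norm_num)
    exact_mod_cast this
  have hq : v (169 * y ^ 2) = v y ^ 2 := by rw [map_mul, map_pow, h169, one_mul]
  have hl : v (B * y) ≤ v 7 * v y := by
    rw [map_mul]; gcongr
  rcases lt_trichotomy (v y ^ 2) (v C) with hlt | heq' | hgt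
  · exfalso
    have hy1 : v y < 1 := by
      by_contra hge
      push Not at hge
      have : 1 ≤ v y ^ 2 := one_le_pow₀ hge
      exact absurd (hlt.trans hC1) (not_lt.mpr this)
    have h1 : v (B * y) < v C := by
      refine lt_of_le_of_lt hl (lt_of_lt_of_le ?_ hC)
      calc v 7 * v y < v 7 * 1 := by gcongr
        _ = v 7 := mul_one _
    have h2 : v (169 * y ^ 2 + B * y) < v C := by
      apply Valuation.map_add_lt
      · rw [hq]; exact hlt
      · exact h1
    have h3 : C = -(169 * y ^ 2 + B * y) := by linarith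
    have h4 : v C = v (169 * y ^ 2 + B * y) := by
      rw [h3, Valuation.map_neg]
    exact absurd h2 (by rw [h4]; exact lt_irrefl _)
  · exact heq'
  · exfalso
    have hy0 : v y ≠ 0 := by
      intro h0
      rw [h0] at hgt
      simp at hgt
    have hypos : 0 < v y := zero_lt_iff.mpr hy0
    have h7y : v 7 < v y := by
      rcases lt_or_ge (v y) 1 with hy1 | hy1
      · calc v 7 ≤ v C := hC
          _ < v y ^ 2 := hgt
          _ = v y * v y := sq _
          _ < v y * 1 := by gcongr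
          _ = v y := mul_one _
      · exact lt_of_lt_of_le h7 hy1
    have h1 : v (B * y) < v y ^ 2 := by
      refine lt_of_le_of_lt hl ?_
      rw [sq]
      gcongr
    have h2 : v (B * y + C) < v y ^ 2 := Valuation.map_add_lt _ h1 hgt
    have h3 : 169 * y ^ 2 = -(B * y + C) := by linarith
    rw [← hq, h3, Valuation.map_neg] at h2
    exact lt_irrefl _ h2

private theorem kap_quad {x : ℝ} (h0 : 0 ≤ x) (h1 : x ≤ 15 / 13) :
    169 * (kap x) ^ 2 + (238 * x) * kap x + (13 * x - 15) * (13 * x + 15) = 0 := by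
  have := FF_kap h0 h1
  unfold FF at this
  linear_combination this

theorem val_zz {Γ : Type} [LinearOrderedCommGroupWithZero Γ] {v : Valuation ℝ Γ}
    (h7 : v 7 < 1) (hm : ∀ m : ℤ, ¬ (7 ∣ m) → v (m : ℝ) = 1) {n i : ℕ} (h1 : 1 ≤ i) (hi : i ≤ n) :
    v (zz n i) ^ (2 ^ i) = v 7 := by
  have h70 : v 7 ≠ 0 := by
    rw [Valuation.ne_zero_iff]; norm_num
  have h7pos : 0 < v 7 := zero_lt_iff.mpr h70
  have hint : ∀ m : ℤ, v (m : ℝ) ≤ 1 := by
    intro m
    rcases eq_or_ne m 0 with rfl | hm0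
    · simp
    · obtain ⟨k, hk⟩ := val_int hm m hm0
      rw [hk]
      exact pow_le_one₀ zero_le h7.le
  have hq : ∀ a b : ℤ, ¬ (7 ∣ a) → ¬ (7 ∣ b) → v ((a : ℝ) / (b : ℝ)) = 1 := by
    intro a b ha hb
    rw [map_div₀, hm a ha, hm b hb, div_one]
  have h238 : v (238 : ℝ) = v 7 := by
    have h34 := hm 34 (by norm_num)
    have : (238 : ℝ) = 7 * ((34 : ℤ) : ℝ) := by norm_num
    rw [this, map_mul, h34, mul_one]
  induction i, h1 using Nat.le_induction with
  | base =>
    have hx : zz n 1 = kap (78 / 125) := by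
      rw [zz_succ, zz_zero]
      have : tt n 0 = 0 := by
        unfold tt ttq
        simp
      rw [this, add_zero]
    rw [hx, pow_one]
    have hk := kap_quad (x := 78 / 125) (by norm_num) (by norm_num)
    have hC : v ((13 * (78 / 125 : ℝ) - 15) * (13 * (78 / 125) + 15)) = v 7 := by
      have e : ((13 * (78 / 125 : ℝ) - 15) * (13 * (78 / 125) + 15))
          = 7 * (((-123 * 2889 : ℤ) : ℝ) / ((125 * 125 : ℤ) : ℝ)) := by
        push_cast; norm_num
      rw [e, map_mul, hq _ _ (by norm_num) (by norm_num), mul_one]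
    have hB : v (238 * (78 / 125 : ℝ)) ≤ v 7 := by
      have e : (238 * (78 / 125 : ℝ)) = 238 * (((78 : ℤ) : ℝ) / ((125 : ℤ) : ℝ)) := by
        push_cast; norm_num
      rw [e, map_mul, hq _ _ (by norm_num) (by norm_num), mul_one, h238]
    rw [← hC]
    exact quad_val h7 hm hk hB hC.ge (by rw [hC]; exact h7)
  | succ i h1 ih =>
    have ih' := ih (by omega)
    have hb := zz_bounds (n := n) (i := i) (by omega) (by omega)
    have ht : tt n i = -1 / 400 := by
      unfold tt ttq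
      rw [if_neg (by omega), if_pos (by omega)]
      push_cast; norm_num
    have hpos : 0 < 2 ^ i := by positivity
    have hz0 : v (zz n i) ≠ 0 := by
      intro h0
      rw [h0, zero_pow hpos.ne'] at ih'
      exact h70 ih'.symm
    have hzpos : 0 < v (zz n i) := zero_lt_iff.mpr hz0
    have hz1 : v (zz n i) < 1 := by
      by_contra hge
      push Not at hge
      have : 1 ≤ v (zz n i) ^ (2 ^ i) := one_le_pow₀ hge
      rw [ih'] at this
      exact absurd h7 (not_lt.mpr this)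
    have h7z : v 7 < v (zz n i) := by
      rw [← ih']
      calc v (zz n i) ^ (2 ^ i) < v (zz n i) ^ 1 := by
            apply pow_lt_pow_right_of_lt_one₀ hzpos hz1
            exact Nat.one_lt_two_pow (by omega)
        _ = v (zz n i) := pow_one _
    have h13 : v (13 * zz n i) = v (zz n i) := by
      have : (13 : ℝ) = ((13 : ℤ) : ℝ) := by norm_num
      rw [map_mul, this, hm 13 (by norm_num), one_mul]
    rw [zz_succ, ht]
    set z := zz n i with hz
    have hk := kap_quad (x := z + -1 / 400) (by linarith [hb.2.2.1, ht]) (by linarith [hb.2.2.2, ht])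
    have hx : v (z + -1 / 400) = 1 := by
      have e : v (-1 / 400 : ℝ) = 1 := by
        have e : (-1 / 400 : ℝ) = (((-1 : ℤ) : ℝ) / ((400 : ℤ) : ℝ)) := by push_cast; norm_num
        rw [e, hq _ _ (by norm_num) (by norm_num)]
      rw [Valuation.map_add_eq_of_lt_right _ (by rw [e]; exact hz1), e]
    have hB : v (238 * (z + -1 / 400)) ≤ v 7 := by
      rw [map_mul, hx, mul_one, h238]
    have hC : v ((13 * (z + -1 / 400) - 15) * (13 * (z + -1 / 400) + 15)) = v z := by
      have e1 : 13 * (z + -1 / 400) - 15 = 13 * z + 7 * (((-859 : ℤ) : ℝ) / ((400 : ℤ) : ℝ)) := by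
        push_cast; ring
      have e2 : 13 * (z + -1 / 400) + 15 = 13 * z + (((5987 : ℤ) : ℝ) / ((400 : ℤ) : ℝ)) := by
        push_cast; ring
      rw [e1, e2, map_mul]
      have f1 : v (7 * (((-859 : ℤ) : ℝ) / ((400 : ℤ) : ℝ))) = v 7 := by
        rw [map_mul, hq _ _ (by norm_num) (by norm_num), mul_one]
      have f2 : v (((5987 : ℤ) : ℝ) / ((400 : ℤ) : ℝ)) = 1 := hq _ _ (by norm_num) (by norm_num)
      rw [Valuation.map_add_eq_of_lt_left _ (by rw [f1, h13]; exact h7z),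
        Valuation.map_add_eq_of_lt_right _ (by rw [f2, h13]; exact hz1), f2, mul_one, h13]
    have := quad_val h7 hm hk hB (by rw [hC]; exact h7z.le) (by rw [hC]; exact hz1)
    rw [pow_succ', pow_mul, this, hC, ih']

theorem deg_zz {n i : ℕ} (h1 : 1 ≤ i) (hi : i ≤ n) {p : Polynomial ℚ} (hp : p ≠ 0)
    (h : Polynomial.aeval (zz n i) p = 0) : 2 ^ i ≤ p.natDegree := by
  obtain ⟨Γ, _, v, h7, hm⟩ := exists_valuation
  exact deg_of_val h7 hm (val_zz h7 hm h1 hi) hp h

/-- the same for a rational affine function of `zz n i` -/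
theorem deg_affine {n i : ℕ} (h1 : 1 ≤ i) (hi : i ≤ n) {s t : ℚ} (hs : s ≠ 0) {p : Polynomial ℚ}
    (hp : p ≠ 0) (h : Polynomial.aeval (t + s * zz n i : ℝ) p = 0) : 2 ^ i ≤ p.natDegree := by
  have hd : (Polynomial.C t + Polynomial.C s * Polynomial.X).natDegree = 1 := by
    rw [add_comm]
    exact Polynomial.natDegree_linear hs
  have hcomp : (p.comp (Polynomial.C t + Polynomial.C s * Polynomial.X)).natDegree
      = p.natDegree := by
    rw [Polynomial.natDegree_comp, hd, mul_one]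
  rw [← hcomp]
  apply deg_zz h1 hi
  · intro h0
    rw [Polynomial.comp_eq_zero_iff] at h0
    rcases h0 with h0 | h0
    · exact hp h0
    · have := congrArg Polynomial.natDegree h0.2
      rw [hd, Polynomial.natDegree_C] at this
      omega
  · rw [Polynomial.aeval_comp]
    simpa using h

end MPc01941
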