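import Pool.Agent.Lib.MP_c01941_lc.Off

/-!
FP-KDisj. Cells that are not neighbours are disjoint.
Write `i = 6 j + k`, `l = 6 j' + k'`. If `j' ≥ j + 2`, or `j' = j + 1` and (`k ≤ 4` or `k' ≥ 1`),
compare abscissas (`K_re`, `ox_add`); the case `k = 5`, `k' = 0` is the case of neighbours.
If `j = j'` there are ten pairs `(k, k')`, `k + 2 ≤ k'`:
(0,2),(0,3),(0,4): ordinates (`y > -1/10` against `y ≤ -58812 + 41/20`, for cell 4 the ordinate is
`≤ -117624 + 120*942 < -4584`); (0,5),(1,5),(2,5),(3,5): abscissas; (1,3): ordinates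
`-58812 + 41/20 ≤ y ≤ -58812` impossible; (1,4): abscissa `≤ e - 81120 - 1/10` gives
`y + 117624 ≤ 0`; (2,4): abscissa `≤ e - 81120 + 18/5` gives `y + 117624 ≤ 4`.
-/

namespace MPc01941

theorem Cfg.K_disj (c : Cfg) {i l : ℕ} (h : i + 2 ≤ l) : Disjoint (c.K i) (c.K l) := by
  rw [Set.disjoint_left]
  intro z hi hl
  have ei : 6 * (i / 6) + i % 6 = i := by omega
  have el : 6 * (l / 6) + l % 6 = l := by omega
  have hki : i % 6 < 6 := Nat.mod_lt _ (by norm_num)
  have hkl : l % 6 < 6 := Nat.mod_lt _ (by norm_num)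
  rw [← ei] at hi
  rw [← el] at hl
  have ri := c.K_re (i / 6) (i % 6) hki hi
  have rl := c.K_re (l / 6) (l % 6) hkl hl
  have hle : i / 6 ≤ l / 6 := by omega
  rcases Nat.lt_or_ge (i / 6 + 1) (l / 6) with h2 | h2
  · -- two portions apart
    obtain ⟨k, hk⟩ := Nat.exists_eq_add_of_lt h2
    have h3 := c.ox_add (i / 6 + 1) (k + 1)
    rw [show i / 6 + 1 + (k + 1) = l / 6 by omega] at h3
    have : (0 : ℝ) ≤ k := Nat.cast_nonneg k
    push_cast at h3
    linarith [ri.2.1, rl.1]
  rcases Nat.lt_or_ge (i / 6) (l / 6) with h3 | h3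
  · -- consecutive portions
    have h4 : l / 6 = i / 6 + 1 := by omega
    rw [h4] at rl
    by_cases hk : i % 6 < 5
    · linarith [ri.2.2.1 hk, rl.1]
    · have : 1 ≤ l % 6 := by omega
      linarith [ri.2.1, rl.2.2.2 this]
  · -- the same portion
    have h4 : l / 6 = i / 6 := by omega
    rw [h4] at hl
    rw [c.mem_K _ _ hki] at hi
    rw [c.mem_K _ _ hkl] at hl
    have he := c.he (i / 6)
    have hm := c.hm (i / 6)
    have hki2 : i % 6 + 2 ≤ l % 6 := by omega
    generalize i % 6 = a at *
    generalize l % 6 = b at *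
    generalize i / 6 = j at *
    have ha : a < 4 := by omega
    interval_cases a
    · have hb : b = 2 ∨ b = 3 ∨ b = 4 ∨ b = 5 := by omega
      have h5 := cL_bounds he hi.1
      rcases hb with rfl | rfl | rfl | rfl
      · have h6 := cT_bounds hl
        linarith
      · have h6 := cB_bounds hl
        linarith
      · have h6 := cM_bounds hm hl
        linarith
      · have h6 := cC_bounds hl
        linarith
    · have hb : b = 3 ∨ b = 4 ∨ b = 5 := by omega
      have h5 := cA_bounds hi
      rcases hb with rfl | rfl | rfl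
      · have h6 := cB_bounds hl
        linarith
      · have h6 := cM_bounds hm hl
        linarith
      · have h6 := cC_bounds hl
        linarith
    · have hb : b = 4 ∨ b = 5 := by omega
      have h5 := cT_bounds hi
      rcases hb with rfl | rfl
      · have h6 := cM_bounds hm hl
        linarith
      · have h6 := cC_bounds hl
        linarith
    · have hb : b = 5 := by omega
      have h5 := cB_bounds hi
      subst hb
      have h6 := cC_bounds hl
      linarith

end MPc01941
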