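import Pool.Agent.Lib.MP_c01941_lc.PieceDefs

/-!
FP-TentCut. The two tangent disks in the room. `D = 36/5 - 13/5 (r + r')`, `V = r' - r`, `s = r + r'`:
`D^2 + V^2 = s^2` is `FF (13/8 - r) (13/8 - r') = 225`. The centers are
`(-18/5 + 13 r/5, r)` and `(18/5 - 13 r'/5, r')` in room coordinates.
`xfl`, `xce`: with `|V| ≤ 1/200`, `D` and `s` close to `2`.
`left_disk`: `cutT ≤ 0` by Cauchy–Schwarz (`D (X - cx) + V (Y - cy) ≤ r s`), floor: `Y ≥ r - r`,
ceiling `2 r ≤ 41/20`, left wall: `65 (X + 18/5) - 72 Y ≥ 169 r - 72 r - 97 r` (Cauchy–Schwarz),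
right wall similar. `right_disk` symmetric.
-/

namespace MPc01941

private theorem tc_cs {a b u v r t : ℝ} (hr : 0 ≤ r) (ht : 0 ≤ t) (h1 : a ^ 2 + b ^ 2 = t ^ 2)
    (h2 : u ^ 2 + v ^ 2 ≤ r ^ 2) : -(t * r) ≤ a * u + b * v ∧ a * u + b * v ≤ t * r := by
  rw [← abs_le]
  refine abs_le_of_sq_le_sq ?_ (mul_nonneg ht hr)
  have h3 : (a * u + b * v) ^ 2 = (a ^ 2 + b ^ 2) * (u ^ 2 + v ^ 2) - (a * v - b * u) ^ 2 := by ring
  have h4 : (a ^ 2 + b ^ 2) * (u ^ 2 + v ^ 2) ≤ (a ^ 2 + b ^ 2) * r ^ 2 :=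
    mul_le_mul_of_nonneg_left h2 (by positivity)
  rw [h3, mul_pow, ← h1]
  nlinarith [sq_nonneg (a * v - b * u)]

theorem cut_norm {r r' : ℝ} (h : RR r r') :
    (36 / 5 - 13 / 5 * (r + r')) ^ 2 + (r' - r) ^ 2 = (r + r') ^ 2 := by
  have h1 := h.hF
  unfold FF at h1
  linear_combination (1 / 25) * h1

private theorem tc_D {r r' : ℝ} (h : RR r r') :
    1987 / 1000 ≤ 36 / 5 - 13 / 5 * (r + r') ∧ 36 / 5 - 13 / 5 * (r + r') ≤ 2013 / 1000 := by
  have h1 := h.h1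
  have h2 := h.h2
  have h3 := h.h3
  have h4 := h.h4
  constructor <;> linarith

theorem xfl_bounds {r r' : ℝ} (h : RR r r') : -1 / 20 < xfl r r' ∧ xfl r r' < 1 / 20 := by
  obtain ⟨hD1, hD2⟩ := tc_D h
  have h1 := h.h1
  have h2 := h.h2
  have h3 := h.h3
  have h4 := h.h4
  have hD : 0 < 36 / 5 - 13 / 5 * (r + r') := by linarith
  have hlow : 97 / 100 < 2 * r * r' / (36 / 5 - 13 / 5 * (r + r')) := by
    rw [lt_div_iff₀ hD]
    nlinarith [mul_nonneg (sub_nonneg.2 h1) (sub_nonneg.2 h3)]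
  have hup : 2 * r * r' / (36 / 5 - 13 / 5 * (r + r')) < 103 / 100 := by
    rw [div_lt_iff₀ hD]
    nlinarith [mul_nonneg (sub_nonneg.2 h2) (sub_nonneg.2 h3),
      mul_nonneg (sub_nonneg.2 h2) (sub_nonneg.2 h4)]
  unfold xfl
  constructor <;> linarith

theorem xce_bounds {r r' : ℝ} (h : RR r r') : -1 / 20 < xce r r' ∧ xce r r' < 1 / 20 := by
  obtain ⟨hD1, hD2⟩ := tc_D h
  have h1 := h.h1
  have h2 := h.h2
  have h3 := h.h3
  have h4 := h.h4
  have hD : 0 < 36 / 5 - 13 / 5 * (r + r') := by linarith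
  have hv : |(r' - r) * (41 / 20 - r)| ≤ 1 / 200 * (11 / 10) := by
    rw [abs_mul]
    refine mul_le_mul ?_ ?_ (abs_nonneg _) (by norm_num)
    · rw [abs_le]; constructor <;> linarith
    · rw [abs_le]; constructor <;> linarith
  rw [abs_le] at hv
  have hlow : 97 / 100 < (r * (r + r') - (r' - r) * (41 / 20 - r)) /
      (36 / 5 - 13 / 5 * (r + r')) := by
    rw [lt_div_iff₀ hD]
    nlinarith [mul_nonneg (sub_nonneg.2 h1) (sub_nonneg.2 h3),
      mul_nonneg (sub_nonneg.2 h1) (sub_nonneg.2 h1)]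
  have hup : (r * (r + r') - (r' - r) * (41 / 20 - r)) /
      (36 / 5 - 13 / 5 * (r + r')) < 103 / 100 := by
    rw [div_lt_iff₀ hD]
    nlinarith [mul_nonneg (sub_nonneg.2 h2) (sub_nonneg.2 h3),
      mul_nonneg (sub_nonneg.2 h2) (sub_nonneg.2 h1)]
  unfold xce
  constructor <;> linarith

theorem cut_xfl {r r' : ℝ} (h : RR r r') : cutT r r' (xfl r r') 0 = 0 := by
  have hD : (36 / 5 - 13 / 5 * (r + r')) ≠ 0 := by
    have := (tc_D h).1
    intro h0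
    linarith
  unfold cutT xfl
  have h1 : (36 / 5 - 13 / 5 * (r + r')) *
      (-18 / 5 + 13 * r / 5 + 2 * r * r' / (36 / 5 - 13 / 5 * (r + r')) + 18 / 5 - 13 * r / 5) =
      2 * r * r' := by
    have h2 : (-18 / 5 + 13 * r / 5 + 2 * r * r' / (36 / 5 - 13 / 5 * (r + r')) + 18 / 5 -
      13 * r / 5) = 2 * r * r' / (36 / 5 - 13 / 5 * (r + r')) := by ring
    rw [h2]
    exact mul_div_cancel₀ _ hD
  rw [h1]
  ring

theorem cut_xce {r r' : ℝ} (h : RR r r') : cutT r r' (xce r r') (41 / 20) = 0 := by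
  have hD : (36 / 5 - 13 / 5 * (r + r')) ≠ 0 := by
    have := (tc_D h).1
    intro h0
    linarith
  unfold cutT xce
  have h1 : (36 / 5 - 13 / 5 * (r + r')) *
      (-18 / 5 + 13 * r / 5 + (r * (r + r') - (r' - r) * (41 / 20 - r)) /
        (36 / 5 - 13 / 5 * (r + r')) + 18 / 5 - 13 * r / 5) =
      r * (r + r') - (r' - r) * (41 / 20 - r) := by
    have h2 : (-18 / 5 + 13 * r / 5 + (r * (r + r') - (r' - r) * (41 / 20 - r)) /
        (36 / 5 - 13 / 5 * (r + r')) + 18 / 5 - 13 * r / 5) =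
        (r * (r + r') - (r' - r) * (41 / 20 - r)) / (36 / 5 - 13 / 5 * (r + r')) := by ring
    rw [h2]
    exact mul_div_cancel₀ _ hD
  rw [h1]
  ring

theorem left_disk {r r' X Y : ℝ} (h : RR r r')
    (hd : (X - (-18 / 5 + 13 * r / 5)) ^ 2 + (Y - r) ^ 2 ≤ r ^ 2) :
    0 ≤ Y ∧ Y ≤ 41 / 20 ∧ 72 * Y ≤ 65 * (X + 18 / 5) ∧ 72 * Y ≤ 65 * (18 / 5 - X) ∧
      cutT r r' X Y ≤ 0 := by
  have h1 := h.h1
  have h2 := h.h2
  have h3 := h.h3
  have h4 := h.h4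
  have hr : 0 ≤ r := by linarith
  have c1 := tc_cs (a := 0) (b := 1) (t := 1) hr (by norm_num) (by norm_num) hd
  have c2 := tc_cs (a := 65) (b := -72) (t := 97) hr (by norm_num) (by norm_num) hd
  have c3 := tc_cs (a := 65) (b := 72) (t := 97) hr (by norm_num) (by norm_num) hd
  have c4 := tc_cs (t := r + r') hr (by linarith) (cut_norm h) hd
  refine ⟨by linarith [c1.1], by linarith [c1.2], by linarith [c2.1], by linarith [c3.2], ?_⟩
  unfold cutT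
  have h5 := c4.2
  have h6 : (36 / 5 - 13 / 5 * (r + r')) * (X - (-18 / 5 + 13 * r / 5)) =
      (36 / 5 - 13 / 5 * (r + r')) * (X + 18 / 5 - 13 * r / 5) := by ring
  rw [h6] at h5
  linarith

theorem right_disk {r r' X Y : ℝ} (h : RR r r')
    (hd : (X - (18 / 5 - 13 * r' / 5)) ^ 2 + (Y - r') ^ 2 ≤ r' ^ 2) :
    0 ≤ Y ∧ Y ≤ 41 / 20 ∧ 72 * Y ≤ 65 * (X + 18 / 5) ∧ 72 * Y ≤ 65 * (18 / 5 - X) ∧
      0 ≤ cutT r r' X Y := by
  have h1 := h.h1
  have h2 := h.h2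
  have h3 := h.h3
  have h4 := h.h4
  have hr : 0 ≤ r' := by linarith
  have c1 := tc_cs (a := 0) (b := 1) (t := 1) hr (by norm_num) (by norm_num) hd
  have c2 := tc_cs (a := 65) (b := -72) (t := 97) hr (by norm_num) (by norm_num) hd
  have c3 := tc_cs (a := 65) (b := 72) (t := 97) hr (by norm_num) (by norm_num) hd
  have c4 := tc_cs (t := r + r') hr (by linarith) (cut_norm h) hd
  refine ⟨by linarith [c1.1], by linarith [c1.2], by linarith [c2.1], by linarith [c3.2], ?_⟩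
  have h5 := c4.1
  have h6 := cut_norm h
  have h7 : cutT r r' X Y = (36 / 5 - 13 / 5 * (r + r')) * (X - (18 / 5 - 13 * r' / 5)) +
      (r' - r) * (Y - r') + ((36 / 5 - 13 / 5 * (r + r')) ^ 2 + (r' - r) ^ 2) - r * (r + r') := by
    unfold cutT; ring
  rw [h7, h6]
  linarith

end MPc01941
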