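import Pool.Agent.Lib.MP_c01941_lc.Cover
import Pool.Agent.Lib.MP_c01941_lc.KDisj
import Pool.Agent.Lib.MP_c01941_lc.TentCut

/-!
FP-Disj. The interiors of the pieces are pairwise disjoint. If `k ≥ i + 2`, the pieces are disjoint
(`piece_sub`, `K_disj`). If `k = i + 1` the intersection of the two pieces is
contained in a finite union of lines, which has empty interior, and
`interior A ∩ interior B = interior (A ∩ B)`:
* `M_j`, `N_j`: the line `cutT = 0` (a line because `36/5 - 13/5 (r + r') ≠ 0`), the lines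
  `y = -58812 + 41/20` and `y = -58812` (relative coordinates); other pairs of cells are disjoint.
* `N_j`, `C_j`: the lines `119 (y + 117624) = 120 (x - (e - 81120))`, `4 x + 3 y = const`,
  `x = e - 81120 + 119 m`.
* `C_j`, `M_{j+1}`: the lines `x = 3`, `10 x + y = 10 a`, `x - e = 2400000 y`.
-/

namespace MPc01941

private theorem disj_line (a b c : ℝ) (h : a ≠ 0 ∨ b ≠ 0) :
    IsClosed {z : ℂ | a * z.re + b * z.im + c = 0} ∧
      interior {z : ℂ | a * z.re + b * z.im + c = 0} = ∅ := by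
  refine ⟨isClosed_eq (by fun_prop) continuous_const, ?_⟩
  rw [Set.eq_empty_iff_forall_notMem]
  intro z hz
  rw [mem_interior_iff_mem_nhds, Metric.mem_nhds_iff] at hz
  obtain ⟨ε, hε, hsub⟩ := hz
  have hab : 0 < a ^ 2 + b ^ 2 := by
    rcases h with h | h
    · have := pow_pos (abs_pos.mpr h) 2
      rw [sq_abs] at this
      nlinarith [sq_nonneg b]
    · have := pow_pos (abs_pos.mpr h) 2
      rw [sq_abs] at this
      nlinarith [sq_nonneg a]
  have h0 : z ∈ {z : ℂ | a * z.re + b * z.im + c = 0} := hsub (Metric.mem_ball_self hε)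
  have hw0 : 0 ≤ ‖(⟨a, b⟩ : ℂ)‖ := norm_nonneg _
  obtain ⟨t, ht, ht'⟩ : ∃ t : ℝ, 0 < t ∧ t * ‖(⟨a, b⟩ : ℂ)‖ < ε := by
    refine ⟨ε / (2 * (‖(⟨a, b⟩ : ℂ)‖ + 1)), by positivity, ?_⟩
    rw [div_mul_eq_mul_div, div_lt_iff₀ (by positivity)]
    nlinarith
  have h1 : z + (t : ℂ) * ⟨a, b⟩ ∈ {z : ℂ | a * z.re + b * z.im + c = 0} := by
    apply hsub
    rw [Metric.mem_ball, dist_eq_norm, add_sub_cancel_left, norm_mul, Complex.norm_real,
      Real.norm_of_nonneg ht.le]
    exact ht'
  have h0' : a * z.re + b * z.im + c = 0 := h0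
  have h1' : a * (z + (t : ℂ) * ⟨a, b⟩).re + b * (z + (t : ℂ) * ⟨a, b⟩).im + c = 0 := h1
  simp only [Complex.add_re, Complex.add_im, Complex.mul_re, Complex.mul_im, Complex.ofReal_re,
    Complex.ofReal_im, zero_mul, sub_zero, add_zero] at h1'
  have h2 : t * (a ^ 2 + b ^ 2) = 0 := by linarith
  have h3 : 0 < t * (a ^ 2 + b ^ 2) := mul_pos ht hab
  linarith

/-- a line has empty interior, finite unions too -/
theorem interior_lines {S : Set ℂ} (L : List (ℝ × ℝ × ℝ)) (hL : ∀ l ∈ L, l.1 ≠ 0 ∨ l.2.1 ≠ 0)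
    (hS : ∀ z ∈ S, ∃ l ∈ L, l.1 * z.re + l.2.1 * z.im + l.2.2 = 0) : interior S = ∅ := by
  induction L generalizing S with
  | nil =>
    have : S = ∅ := by
      rw [Set.eq_empty_iff_forall_notMem]
      intro z hz
      obtain ⟨l, hl, _⟩ := hS z hz
      simp at hl
    rw [this, interior_empty]
  | cons l L ih =>
    obtain ⟨h1, h2⟩ := disj_line l.1 l.2.1 l.2.2 (hL l List.mem_cons_self)
    have h3 : interior {z : ℂ | ∃ l ∈ L, l.1 * z.re + l.2.1 * z.im + l.2.2 = 0} = ∅ :=
      ih (fun l' hl' => hL l' (List.mem_cons_of_mem l hl')) (fun z hz => hz)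
    have h4 : interior ({z : ℂ | l.1 * z.re + l.2.1 * z.im + l.2.2 = 0} ∪
        {z : ℂ | ∃ l ∈ L, l.1 * z.re + l.2.1 * z.im + l.2.2 = 0}) = ∅ := by
      rw [interior_union_isClosed_of_interior_empty h1 h3, h2]
    refine Set.eq_empty_of_subset_empty ?_
    rw [← h4]
    refine interior_mono fun z hz => ?_
    obtain ⟨l', hl', h5⟩ := hS z hz
    rcases List.mem_cons.mp hl' with rfl | hl'
    · exact Or.inl h5
    · exact Or.inr ⟨l', hl', h5⟩

private theorem disj_MN {c : Cfg} {j : ℕ} {a r r' μ : ℝ} {z : ℂ} (h1 : z - c.org j ∈ pM (c.e j) a r r')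
    (h2 : z - c.org j ∈ pN (c.e j) (c.m j) μ r r') :
    z.im - c.oy j = -58812 + 41 / 20 ∨ z.im - c.oy j = -58812 ∨
      cutT r r' (z.re - c.ox j - (c.e j - 81120)) (z.im - c.oy j + 58812) = 0 := by
  have he := c.he j
  have hm := c.hm j
  have hre : (z - c.org j).re = z.re - c.ox j := rfl
  have him : (z - c.org j).im = z.im - c.oy j := rfl
  simp only [pM, pN, Set.mem_ofPred_eq, hre, him] at h1 h2
  rcases h1 with ⟨h1, _⟩ | h1 | ⟨h1, h1'⟩
  · have h3 := cL_bounds he h1
    rcases h2 with ⟨h2, _⟩ | h2 | ⟨h2, _⟩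
    · have h4 := cT_bounds h2
      exfalso; linarith
    · have h4 := cB_bounds h2
      exfalso; linarith
    · have h4 := cM_bounds hm h2
      exfalso; linarith
  · have h3 := cA_bounds h1
    rcases h2 with ⟨h2, _⟩ | h2 | ⟨h2, _⟩
    · have h4 := cT_bounds h2
      left; linarith
    · have h4 := cB_bounds h2
      exfalso; linarith
    · have h4 := cM_bounds hm h2
      exfalso; linarith
  · have h3 := cT_bounds h1
    rcases h2 with ⟨h2, h2'⟩ | h2 | ⟨h2, _⟩
    · right; right; linarith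
    · have h4 := cB_bounds h2
      right; left; linarith
    · have h4 := cM_bounds hm h2
      exfalso; linarith

private theorem disj_NC {c : Cfg} {j : ℕ} {a r r' μ : ℝ} {z : ℂ}
    (h1 : z - c.org j ∈ pN (c.e j) (c.m j) μ r r')
    (h2 : z - c.org (j + 1) ∈ pC (c.m j) μ (c.e (j + 1)) a) :
    119 * (z.im - c.oy (j + 1)) = 120 * (z.re - c.ox (j + 1)) ∨ z.re - c.ox (j + 1) = 0 ∨
      4 * (z.re - c.ox (j + 1)) + 3 * (z.im - c.oy (j + 1)) = 836 * (μ - c.m j) := by
  have he := c.he j
  have hm := c.hm j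
  have h0x := c.ox_succ j
  have h0y := c.oy_succ j
  have hre : (z - c.org j).re = z.re - c.ox j := rfl
  have him : (z - c.org j).im = z.im - c.oy j := rfl
  have hre' : (z - c.org (j + 1)).re = z.re - c.ox (j + 1) := rfl
  have him' : (z - c.org (j + 1)).im = z.im - c.oy (j + 1) := rfl
  simp only [pN, Set.mem_ofPred_eq, hre, him] at h1
  simp only [pC, Set.mem_ofPred_eq, hre', him'] at h2
  rcases h1 with ⟨h1, _⟩ | h1 | ⟨h1, h1'⟩
  · have h3 := cT_bounds h1
    rcases h2 with ⟨h2, h4, _, _⟩ | ⟨h2, _, _, _⟩ | ⟨⟨h2, _, _⟩, _⟩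
    · exfalso; linarith
    · exfalso; linarith
    · exfalso; linarith
  · have h3 := cB_bounds h1
    obtain ⟨_, _, _, h5⟩ := h1
    rcases h2 with ⟨h2, h4, _, _⟩ | ⟨h2, _, _, _⟩ | ⟨⟨h2, _, _⟩, _⟩
    · left; linarith
    · exfalso; linarith
    · exfalso; linarith
  · have h3 := cM_bounds hm h1
    rcases h2 with ⟨h2, h4, _, h5⟩ | ⟨h2, _, _, _⟩ | ⟨⟨h2, _, _⟩, _⟩
    · right; right; linarith
    · right; left; linarith
    · exfalso; linarith

private theorem disj_CM {c : Cfg} {j : ℕ} {a r r' μ : ℝ} {z : ℂ}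
    (h1 : z - c.org (j + 1) ∈ pC (c.m j) μ (c.e (j + 1)) a)
    (h2 : z - c.org (j + 1) ∈ pM (c.e (j + 1)) a r r') :
    z.re - c.ox (j + 1) = 3 ∨ 10 * (z.re - c.ox (j + 1)) + (z.im - c.oy (j + 1)) = 10 * a ∨
      z.re - c.ox (j + 1) - c.e (j + 1) = 2400000 * (z.im - c.oy (j + 1)) := by
  have he := c.he (j + 1)
  have hre' : (z - c.org (j + 1)).re = z.re - c.ox (j + 1) := rfl
  have him' : (z - c.org (j + 1)).im = z.im - c.oy (j + 1) := rfl
  simp only [pC, pM, Set.mem_ofPred_eq, hre', him'] at h1 h2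
  rcases h2 with ⟨h2, h2'⟩ | h2 | ⟨h2, _⟩
  · have h3 := cL_bounds he h2
    rcases h1 with ⟨h1, _, _, _⟩ | ⟨_, h1, _, _⟩ | ⟨_, h1⟩
    · exfalso; linarith
    · left; linarith
    · right; left; linarith
  · have h3 := cA_bounds h2
    rcases h1 with ⟨h1, _, _, _⟩ | ⟨_, h1, _, _⟩ | ⟨h1, _⟩
    · exfalso; linarith
    · exfalso; linarith
    · right; right
      obtain ⟨_, _, h4⟩ := h1
      obtain ⟨_, _, _, h5⟩ := h2
      linarith
  · have h3 := cT_bounds h2
    rcases h1 with ⟨h1, _, _, _⟩ | ⟨_, h1, _, _⟩ | ⟨h1, _⟩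
    · exfalso; linarith
    · exfalso; linarith
    · have h4 := cL_bounds he h1
      exfalso; linarith

theorem Cfg.piece_disj (c : Cfg) (a r r' μ : ℕ → ℝ) (ha : a 0 = c.a0) (ha' : a c.n = c.a1)
    (hr : ∀ j < c.n, RR (r j) (r' j)) {i k : ℕ} (hik : i < k) (hk : k < 3 * c.n) :
    Disjoint (interior (c.piece a r r' μ i)) (interior (c.piece a r r' μ k)) := by
  rcases Nat.lt_or_ge (i + 1) k with hfar | hnear
  · refine Disjoint.mono interior_subset interior_subset ?_
    refine Disjoint.mono (c.piece_sub a r r' μ i ha ha' (by omega))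
      (c.piece_sub a r r' μ k ha ha' hk) ?_
    simp only [Set.disjoint_union_left, Set.disjoint_union_right]
    refine ⟨⟨⟨⟨?_, ?_⟩, ?_⟩, ⟨?_, ?_⟩, ?_⟩, ⟨?_, ?_⟩, ?_⟩ <;> exact c.K_disj (by omega)
  · have hk1 : k = i + 1 := by omega
    subst hk1
    rw [Set.disjoint_iff_inter_eq_empty, ← interior_inter]
    have hcase : i % 3 = 0 ∨ i % 3 = 1 ∨ i % 3 = 2 := by omega
    rcases hcase with h3 | h3 | h3
    · have e1 : (i + 1) % 3 = 1 := by omega
      have e2 : (i + 1) / 3 = i / 3 := by omega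
      have hj : i / 3 < c.n := by omega
      have hRR := hr _ hj
      refine interior_lines
        [(0, 1, -c.oy (i / 3) + 58812 - 41 / 20), (0, 1, -c.oy (i / 3) + 58812),
          (36 / 5 - 13 / 5 * (r (i / 3) + r' (i / 3)), r' (i / 3) - r (i / 3),
            cutT (r (i / 3)) (r' (i / 3)) (-c.ox (i / 3) - (c.e (i / 3) - 81120))
              (-c.oy (i / 3) + 58812))] ?_ ?_
      · intro l hl
        simp only [List.mem_cons, List.not_mem_nil, or_false] at hl
        rcases hl with rfl | rfl | rfl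
        · right; norm_num
        · right; norm_num
        · left
          have h4 := hRR.h2
          have h5 := hRR.h4
          simp only
          intro h6
          linarith
      · rintro z ⟨hz1, hz2⟩
        simp only [Cfg.piece, h3, e1, e2, Set.mem_ofPred_eq] at hz1 hz2
        rcases disj_MN hz1 hz2 with h4 | h4 | h4
        · exact ⟨_, List.mem_cons_self, by simp only; linarith⟩
        · exact ⟨_, List.mem_cons_of_mem _ List.mem_cons_self, by simp only; linarith⟩
        · refine ⟨_, List.mem_cons_of_mem _ (List.mem_cons_of_mem _ List.mem_cons_self), ?_⟩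
          simp only
          unfold cutT at h4 ⊢
          linarith
    · have e1 : (i + 1) % 3 = 2 := by omega
      have e2 : (i + 1) / 3 = i / 3 := by omega
      refine interior_lines
        [(-120, 119, -119 * c.oy (i / 3 + 1) + 120 * c.ox (i / 3 + 1)), (1, 0, -c.ox (i / 3 + 1)),
          (4, 3, -4 * c.ox (i / 3 + 1) - 3 * c.oy (i / 3 + 1) -
            836 * (μ (i / 3) - c.m (i / 3)))] ?_ ?_
      · intro l hl
        simp only [List.mem_cons, List.not_mem_nil, or_false] at hl
        rcases hl with rfl | rfl | rfl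
        · left; norm_num
        · left; norm_num
        · left; norm_num
      · rintro z ⟨hz1, hz2⟩
        simp only [Cfg.piece, h3, e1, e2, Set.mem_ofPred_eq] at hz1 hz2
        rcases disj_NC hz1 hz2 with h4 | h4 | h4
        · exact ⟨_, List.mem_cons_self, by simp only; linarith⟩
        · exact ⟨_, List.mem_cons_of_mem _ List.mem_cons_self, by simp only; linarith⟩
        · exact ⟨_, List.mem_cons_of_mem _ (List.mem_cons_of_mem _ List.mem_cons_self), by
            simp only; linarith⟩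
    · have e1 : (i + 1) % 3 = 0 := by omega
      have e2 : (i + 1) / 3 = i / 3 + 1 := by omega
      refine interior_lines
        [(1, 0, -c.ox (i / 3 + 1) - 3), (10, 1, -10 * c.ox (i / 3 + 1) - c.oy (i / 3 + 1) -
            10 * a (i / 3 + 1)),
          (1, -2400000, -c.ox (i / 3 + 1) - c.e (i / 3 + 1) + 2400000 * c.oy (i / 3 + 1))] ?_ ?_
      · intro l hl
        simp only [List.mem_cons, List.not_mem_nil, or_false] at hl
        rcases hl with rfl | rfl | rfl
        · left; norm_num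
        · left; norm_num
        · left; norm_num
      · rintro z ⟨hz1, hz2⟩
        simp only [Cfg.piece, h3, e1, e2, Set.mem_ofPred_eq] at hz1 hz2
        rcases disj_CM hz1 hz2 with h4 | h4 | h4
        · exact ⟨_, List.mem_cons_self, by simp only; linarith⟩
        · exact ⟨_, List.mem_cons_of_mem _ List.mem_cons_self, by simp only; linarith⟩
        · exact ⟨_, List.mem_cons_of_mem _ (List.mem_cons_of_mem _ List.mem_cons_self), by
            simp only; linarith⟩

end MPc01941
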