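import Pool.Agent.Lib.MP_c01941_lc.PolyBase

/-!
FP-EdgeLocal. Near a point `p` in the open edge `x y` of a polygon `Q`, the polygon is exactly one of
the two sides of the edge. Proof: the other edges are compact and do not contain `p` (by `simple`;
for the end of an edge use that it is the beginning of the next edge), so in a small ball `B` around
`p` the frontier is `B ∩ line(x, y)`. The two open half disks of `B` are convex and miss
the frontier, so each of them lies in `interior Q` or in `Qᶜ`. Both in `Q`: then `B ⊆ Q`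
(`Q` is closed), so `p` is interior. Both in `Qᶜ`: then `interior Q ∩ B = ∅` (an open set
cannot lie in a line), so `p ∉ closure (interior Q) = Q`.
-/

namespace MPc01941

open Metric

/-- twice the signed area of the triangle `a b z` -/
def cr (a b z : ℂ) : ℝ := (b.re - a.re) * (z.im - a.im) - (b.im - a.im) * (z.re - a.re)

/-- the end of an edge of a path is the beginning of an edge, or the last point -/
theorem el_pe_end : ∀ (l : List ℂ) (y : ℂ) (e : ℂ × ℂ), e ∈ pe l y →
    e.2 = y ∨ ∃ e' ∈ pe l y, e'.1 = e.2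
  | [], y, e, h => by simp [pe] at h
  | [a], y, e, h => by
      simp only [pe, List.mem_singleton] at h
      left; rw [h]
  | a :: b :: l, y, e, h => by
      rw [pe, List.mem_cons] at h
      rcases h with h | h
      · right
        cases l with
        | nil => exact ⟨(b, y), by simp [pe], by rw [h]⟩
        | cons c l => exact ⟨(b, c), by simp [pe], by rw [h]⟩
      · rcases el_pe_end (b :: l) y e h with h1 | ⟨e', h1, h2⟩
        · left; exact h1
        · right; exact ⟨e', by rw [pe]; exact List.mem_cons_of_mem _ h1, h2⟩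

theorem el_left_mem_hseg (a b : ℂ) : a ∈ hseg a b := ⟨0, le_rfl, one_pos, by simp⟩

/-- the head of a path is the beginning of an edge -/
theorem el_pe_head (a : ℂ) (l : List ℂ) (y : ℂ) : ∃ e ∈ pe (a :: l) y, e.1 = a := by
  cases l with
  | nil => exact ⟨(a, y), by simp [pe], rfl⟩
  | cons b l => exact ⟨(a, b), by simp [pe], rfl⟩

theorem el_cyc (x y : ℂ) (A : List ℂ) : cyc (x :: y :: A) = (x, y) :: pe (y :: A) x := by
  rw [cyc_cons, pe]

/-- a point of the edge `x y`, not an end, lies on no other edge -/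
theorem el_not_mem {x y : ℂ} {A : List ℂ} {Q : Set ℂ} (h : IsPolygon (x :: y :: A) Q) {p : ℂ}
    (hp : p ∈ segment ℝ x y) (hx : p ≠ x) (hy : p ≠ y) {e : ℂ × ℂ} (he : e ∈ pe (y :: A) x) :
    p ∉ segment ℝ e.1 e.2 := by
  have hs := h.simple
  rw [el_cyc, List.pairwise_cons] at hs
  have hph : p ∈ hseg x y := by
    rw [segment_eq_hseg] at hp
    rcases hp with hp | hp
    · exact hp
    · exact absurd hp hy
  intro hpe
  rw [segment_eq_hseg] at hpe
  rcases hpe with hpe | hpe
  · exact Set.disjoint_left.1 (hs.1 e he) hph hpe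
  · rw [Set.mem_singleton_iff] at hpe
    rcases el_pe_end (y :: A) x e he with h1 | ⟨e', h1, h2⟩
    · exact hx (hpe.trans h1)
    · refine Set.disjoint_left.1 (hs.1 e' h1) hph ?_
      have : p = e'.1 := by rw [h2, hpe]
      rw [this]
      exact el_left_mem_hseg _ _

theorem el_cr_convex (x y : ℂ) (z w : ℂ) (a b : ℝ) (hab : a + b = 1) :
    cr x y (a • z + b • w) = a * cr x y z + b * cr x y w := by
  have : b = 1 - a := by linarith
  subst this
  simp only [cr, Complex.add_re, Complex.add_im, Complex.smul_re, Complex.smul_im, smul_eq_mul]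
  ring

theorem el_subset_or {S Q : Set ℂ} (hS : IsPreconnected S) (h : ∀ z ∈ S, z ∉ frontier Q) :
    S ⊆ interior Q ∨ S ⊆ Qᶜ := by
  have h1 : S ⊆ interior Q ∪ interior Qᶜ := by
    intro z hz
    by_contra hc
    rw [Set.mem_union, not_or] at hc
    apply h z hz
    rw [frontier_eq_closure_inter_closure]
    constructor
    · by_contra hh
      apply hc.2
      rw [interior_compl]
      exact hh
    · rw [closure_compl]
      exact hc.1
  have h2 : Disjoint (interior Q) (interior Qᶜ) :=
    Set.disjoint_left.2 fun z hz hz' => interior_subset hz' (interior_subset hz)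
  rcases hS.subset_or_subset isOpen_interior isOpen_interior h2 h1 with h3 | h3
  · exact Or.inl h3
  · exact Or.inr (h3.trans interior_subset)

/-- a point on the line `x y` near the point `x + t (y - x)` is on the segment -/
theorem el_line {x y : ℂ} (hxy : x ≠ y) {t : ℝ} {z : ℂ} (ht0 : 0 < t) (ht1 : t < 1)
    (hz : dist z (x + t * (y - x)) < min t (1 - t) * ‖y - x‖) (hc : cr x y z = 0) :
    z ∈ segment ℝ x y := by
  have hd : y - x ≠ 0 := sub_ne_zero.2 (Ne.symm hxy)
  have hn : 0 < ‖y - x‖ := norm_pos_iff.2 hd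
  -- z = x + s (y - x)
  obtain ⟨s, hs⟩ : ∃ s : ℝ, z = x + s * (y - x) := by
    have him : ((z - x) / (y - x)).im = 0 := by
      rw [Complex.div_im]
      simp only [cr] at hc
      simp only [Complex.sub_re, Complex.sub_im]
      have : (z.im - x.im) * (y.re - x.re) - (z.re - x.re) * (y.im - x.im) = 0 := by linarith
      rw [div_sub_div_same, this, zero_div]
    refine ⟨((z - x) / (y - x)).re, ?_⟩
    have h1 : ((((z - x) / (y - x)).re : ℝ) : ℂ) = (z - x) / (y - x) := by
      apply Complex.ext
      · simp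
      · rw [him]; simp
    rw [h1, div_mul_cancel₀ _ hd]
    ring
  have h2 : dist z (x + t * (y - x)) = |s - t| * ‖y - x‖ := by
    rw [hs, dist_eq_norm]
    have : x + (s : ℂ) * (y - x) - (x + t * (y - x)) = ((s - t : ℝ) : ℂ) * (y - x) := by
      push_cast; ring
    rw [this, norm_mul, Complex.norm_real, Real.norm_eq_abs]
  rw [h2] at hz
  have h3 : |s - t| < min t (1 - t) := lt_of_mul_lt_mul_right hz hn.le
  rw [lt_min_iff, abs_lt, abs_lt] at h3
  rw [segment_eq_image']
  refine ⟨s, ⟨by linarith [h3.1.1], by linarith [h3.2.2]⟩, ?_⟩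
  rw [hs]
  simp [Complex.real_smul]

theorem edge_local {x y : ℂ} {A : List ℂ} {Q : Set ℂ} (h : IsPolygon (x :: y :: A) Q) {p : ℂ}
    (hp : p ∈ segment ℝ x y) (hx : p ≠ x) (hy : p ≠ y) :
    ∃ δ > 0, (∀ z ∈ ball p δ, cr x y z = 0 → z ∈ frontier Q) ∧
      (((∀ z ∈ ball p δ, 0 < cr x y z → z ∈ interior Q) ∧ (∀ z ∈ ball p δ, cr x y z < 0 → z ∉ Q)) ∨
       ((∀ z ∈ ball p δ, cr x y z < 0 → z ∈ interior Q) ∧ (∀ z ∈ ball p δ, 0 < cr x y z → z ∉ Q))) := by
  have hxy : x ≠ y := h.nondeg (x, y) (by rw [el_cyc]; simp)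
  have hfr := h.frontier_eq
  rw [el_cyc] at hfr
  -- the other edges
  set K : Set ℂ := ⋃ e ∈ {e | e ∈ pe (y :: A) x}, segment ℝ e.1 e.2 with hK
  have hKc : IsClosed K := by
    apply Set.Finite.isClosed_biUnion
    · exact List.finite_toSet _
    · intro e _
      have : segment ℝ e.1 e.2 = (fun θ : ℝ => e.1 + θ • (e.2 - e.1)) '' Set.Icc (0:ℝ) 1 :=
        segment_eq_image' ℝ _ _
      rw [this]
      exact (isCompact_Icc.image (by fun_prop)).isClosed
  have hpK : p ∉ K := by
    intro hh
    rw [hK] at hh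
    simp only [Set.mem_iUnion, Set.mem_setOf_eq] at hh
    obtain ⟨e, he, hpe⟩ := hh
    exact el_not_mem h hp hx hy he hpe
  obtain ⟨δ1, hδ1, hb1⟩ := Metric.isOpen_iff.1 hKc.isOpen_compl p hpK
  obtain ⟨t, ht0, ht1, hpt⟩ : ∃ t : ℝ, 0 < t ∧ t < 1 ∧ p = x + t * (y - x) := by
    rw [segment_eq_image'] at hp
    obtain ⟨t, ⟨h0, h1⟩, hpt⟩ := hp
    simp only [Complex.real_smul] at hpt
    refine ⟨t, lt_of_le_of_ne h0 ?_, lt_of_le_of_ne h1 ?_, hpt.symm⟩
    · rintro rfl
      apply hx
      rw [← hpt]; simp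
    · rintro rfl
      apply hy
      rw [← hpt]; simp
  have hn : 0 < ‖y - x‖ := norm_pos_iff.2 (sub_ne_zero.2 (Ne.symm hxy))
  have hδ2 : 0 < min t (1 - t) * ‖y - x‖ := by
    apply mul_pos _ hn
    exact lt_min ht0 (by linarith)
  set δ := min δ1 (min t (1 - t) * ‖y - x‖) with hδ
  have hδp : 0 < δ := lt_min hδ1 hδ2
  have hline : ∀ z ∈ ball p δ, cr x y z = 0 → z ∈ frontier Q := by
    intro z hz hc
    rw [hfr]
    refine ⟨(x, y), by simp, ?_⟩
    apply el_line hxy ht0 ht1 _ hc
    rw [← hpt]
    exact lt_of_lt_of_le (mem_ball.1 hz) (min_le_right _ _)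
  have hoff : ∀ z ∈ ball p δ, cr x y z ≠ 0 → z ∉ frontier Q := by
    intro z hz hc hf
    rw [hfr] at hf
    obtain ⟨e, he, hze⟩ := hf
    rw [List.mem_cons] at he
    rcases he with he | he
    · apply hc
      rw [he] at hze
      rw [segment_eq_image'] at hze
      obtain ⟨s, _, hs⟩ := hze
      rw [← hs]
      simp only [cr, Complex.add_re, Complex.add_im, Complex.smul_re, Complex.smul_im,
        smul_eq_mul, Complex.sub_re, Complex.sub_im]
      ring
    · have hz1 : z ∈ ball p δ1 := ball_subset_ball (min_le_left _ _) hz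
      apply hb1 hz1
      rw [hK]
      simp only [Set.mem_iUnion, Set.mem_setOf_eq]
      exact ⟨e, he, hze⟩
  -- the two half disks
  have hconvP : Convex ℝ (ball p δ ∩ {z | 0 < cr x y z}) := by
    apply (convex_ball p δ).inter
    intro z hz w hw a b ha hb hab
    simp only [Set.mem_setOf_eq] at hz hw ⊢
    rw [el_cr_convex x y z w a b hab]
    rcases ha.eq_or_lt with h0 | h0
    · subst h0
      have : b = 1 := by linarith
      subst this
      linarith
    · have := mul_pos h0 hz
      have := mul_nonneg hb hw.le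
      linarith
  have hconvN : Convex ℝ (ball p δ ∩ {z | cr x y z < 0}) := by
    apply (convex_ball p δ).inter
    intro z hz w hw a b ha hb hab
    simp only [Set.mem_setOf_eq] at hz hw ⊢
    rw [el_cr_convex x y z w a b hab]
    rcases ha.eq_or_lt with h0 | h0
    · subst h0
      have : b = 1 := by linarith
      subst this
      linarith
    · have := mul_neg_of_pos_of_neg h0 hz
      have := mul_nonpos_of_nonneg_of_nonpos hb hw.le
      linarith
  have hP := el_subset_or (Q := Q) hconvP.isPreconnected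
    (fun z hz => hoff z hz.1 (ne_of_gt hz.2))
  have hN := el_subset_or (Q := Q) hconvN.isPreconnected
    (fun z hz => hoff z hz.1 (ne_of_lt hz.2))
  have hpf : p ∈ frontier Q := hline p (mem_ball_self hδp) (by
    rw [hpt]
    simp only [cr, Complex.add_re, Complex.add_im, Complex.mul_re, Complex.mul_im,
      Complex.ofReal_re, Complex.ofReal_im, Complex.sub_re, Complex.sub_im]
    ring)
  have hQc : IsClosed Q := h.compact.isClosed
  refine ⟨δ, hδp, hline, ?_⟩
  rcases hP with hP | hP <;> rcases hN with hN | hN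
  · exfalso
    apply hpf.2
    rw [mem_interior]
    refine ⟨ball p δ, ?_, isOpen_ball, mem_ball_self hδp⟩
    intro z hz
    rcases lt_trichotomy (cr x y z) 0 with h1 | h1 | h1
    · exact interior_subset (hN ⟨hz, h1⟩)
    · have := (hline z hz h1).1
      rwa [hQc.closure_eq] at this
    · exact interior_subset (hP ⟨hz, h1⟩)
  · left
    exact ⟨fun z hz h1 => hP ⟨hz, h1⟩, fun z hz h1 => hN ⟨hz, h1⟩⟩
  · right
    exact ⟨fun z hz h1 => hN ⟨hz, h1⟩, fun z hz h1 => hP ⟨hz, h1⟩⟩
  · exfalso
    have hpQ : p ∈ closure (interior Q) := by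
      rw [h.regular]
      have := hpf.1
      rwa [hQc.closure_eq] at this
    rw [Metric.mem_closure_iff] at hpQ
    obtain ⟨w, hw, hd⟩ := hpQ δ hδp
    have hwb : w ∈ ball p δ := by rw [mem_ball, dist_comm]; exact hd
    rcases lt_trichotomy (cr x y w) 0 with h1 | h1 | h1
    · exact hN ⟨hwb, h1⟩ (interior_subset hw)
    · exact (hline w hwb h1).2 hw
    · exact hP ⟨hwb, h1⟩ (interior_subset hw)

end MPc01941
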