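import Pool.Agent.Lib.MP_c01941_lc.PieceDefs
import Pool.Agent.Lib.MP_c01941_lc.TailDefs

/-!
FP-PCFat. Inner disk: center `(3/2, -15/13)`, radius `15/13`. Outer disk: the disk with diameter
from `p' = (-119 σ, -120 σ)`, `σ = m - μ`, to `(a', 0)`: the square of its diameter is
`FF (169 σ) a' / 169 = (2 * 67600 * 15/13)^2`. It is `(x - a') (x + 119 σ) + y (y + 120 σ) ≤ 0`,
`494 ≤ σ ≤ 506`.
* `C`-room: `0 ≤ x ≤ 3`, `-30/13 ≤ y ≤ 0`: both products are `≤ 0`.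
* part of the next first triangle: `x - a' ≤ -y/10`, `x + 119 σ ≤ 150000`, so the sum is
  `≤ (-y) (15000 - (y + 120 σ)) ≤ 0`.
* part of the second triangle: `x = -119 t + 120 s`, `y = -120 t - 119 s`, `w = σ - t`: the disk is
  `28561 (s^2 - t w) - a' (119 w + 120 s) ≤ 0`, with `0 ≤ s ≤ 1/1000`, `836 w + 123 s ≥ 0`.
-/

namespace MPc01941

open Metric

private theorem mem_cb {cx cy r : ℝ} (hr : 0 ≤ r) (z : ℂ) :
    z ∈ closedBall (⟨cx, cy⟩ : ℂ) r ↔ (z.re - cx) ^ 2 + (z.im - cy) ^ 2 ≤ r ^ 2 := by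
  rw [mem_closedBall, Complex.dist_eq, Complex.norm_def, Real.sqrt_le_left hr,
    Complex.normSq_apply, Complex.sub_re, Complex.sub_im]
  constructor <;> intro h <;> linarith [h]

private theorem part_a {x y m σ a' : ℝ} (hm2 : m ≤ 942) (hσ2 : σ ≤ 506)
    (ha : 84000 ≤ a') (h1 : x ≤ 0) (h2 : 119 * y ≤ 120 * x)
    (h3 : 191999881 * x - 14161 * (m + 360) ≤ 190400000 * y) (h4 : -836 * σ ≤ 4 * x + 3 * y) :
    (x - a') * (x + 119 * σ) + y * (y + 120 * σ) ≤ 0 := by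
  obtain ⟨s, hs⟩ : ∃ s : ℝ, s = (120 * x - 119 * y) / 28561 := ⟨_, rfl⟩
  obtain ⟨t, ht⟩ : ∃ t : ℝ, t = -(119 * x + 120 * y) / 28561 := ⟨_, rfl⟩
  have hX : x = -119 * t + 120 * s := by rw [hs, ht]; ring
  have hY : y = -120 * t - 119 * s := by rw [hs, ht]; ring
  have hs0 : 0 ≤ s := by rw [hs]; linarith
  have ht0 : 0 ≤ t := by rw [hX] at h1; linarith
  have hs1 : s ≤ 1 / 1000 := by
    rw [hX, hY] at h3
    linarith
  obtain ⟨w, hw⟩ : ∃ w : ℝ, w = σ - t := ⟨_, rfl⟩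
  have hσ : σ = w + t := by linarith
  have h6 : 0 ≤ 836 * w + 123 * s := by
    rw [hX, hY] at h4
    linarith
  have hss : s ^ 2 ≤ s / 1000 := by nlinarith
  have key : 28561 * (s ^ 2 - t * w) - a' * (119 * w + 120 * s) ≤ 0 := by
    rcases le_or_gt 0 w with hw0 | hw0
    · have h7 : 0 ≤ t * w := mul_nonneg ht0 hw0
      have h8 : 84000 * (119 * w + 120 * s) ≤ a' * (119 * w + 120 * s) :=
        mul_le_mul_of_nonneg_right ha (by linarith)
      linarith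
    · have h7 : t * (-w) ≤ 507 * (-w) := mul_le_mul_of_nonneg_right (by linarith) (by linarith)
      have h8 : 84000 * (119 * w + 120 * s) ≤ a' * (119 * w + 120 * s) :=
        mul_le_mul_of_nonneg_right ha (by linarith)
      linarith
  have e1 : (x - a') * (x + 119 * σ) + y * (y + 120 * σ) =
      28561 * (s ^ 2 - t * w) - a' * (119 * w + 120 * s) := by
    rw [hX, hY, hσ]; ring
  rw [e1]; exact key

private theorem part_b {x y σ a' : ℝ} (hσ1 : 494 ≤ σ)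
    (ha : 84000 ≤ a') (h1 : 0 ≤ x) (h2 : x ≤ 3) (h3 : -30 / 13 ≤ y) (h4 : y ≤ 0) :
    (x - a') * (x + 119 * σ) + y * (y + 120 * σ) ≤ 0 := by
  have h5 : (x - a') * (x + 119 * σ) ≤ 0 :=
    mul_nonpos_of_nonpos_of_nonneg (by linarith) (by linarith)
  have h6 : y * (y + 120 * σ) ≤ 0 := mul_nonpos_of_nonpos_of_nonneg h4 (by linarith)
  linarith

private theorem part_c {x y σ a' e' : ℝ} (hσ1 : 494 ≤ σ) (hσ2 : σ ≤ 506) (he : e' ≤ 220038)
    (ha' : a' ≤ 85000) (h1 : 3 ≤ x) (h2 : y ≤ 0) (h3 : x - e' ≤ 2400000 * y)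
    (h4 : 10 * x + y ≤ 10 * a') :
    (x - a') * (x + 119 * σ) + y * (y + 120 * σ) ≤ 0 := by
  have h5 : -(1 / 10) ≤ y := by linarith
  have h6 : (x - a') * (x + 119 * σ) ≤ (-y / 10) * (x + 119 * σ) :=
    mul_le_mul_of_nonneg_right (by linarith) (by linarith)
  have h7 : (-y / 10) * (x + 119 * σ) ≤ (-y / 10) * 150000 :=
    mul_le_mul_of_nonneg_left (by linarith) (by linarith)
  have h8 : (-y) * 15000 ≤ (-y) * (y + 120 * σ) :=
    mul_le_mul_of_nonneg_left (by linarith) (by linarith)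
  linarith

theorem pC_fat {m μ e' a' : ℝ} (h : HC m μ e' a') : FatSet (pC m μ e' a') := by
  have hm1 := h.m1
  have hm2 := h.m2
  have hμ1 := h.μ1
  have hμ2 := h.μ2
  have he2 := h.e2
  have ha1 := h.a1
  have ha2 := h.a2
  have hF := h.hF
  refine ⟨15 / 13, ⟨3 / 2, -15 / 13⟩, ⟨(a' - 119 * (m - μ)) / 2, -60 * (m - μ)⟩,
    by norm_num, ?_, ?_⟩
  · intro z hz
    rw [mem_cb (by norm_num)] at hz
    have h1 : (z.re - 3 / 2) ^ 2 ≤ (15 / 13) ^ 2 := by nlinarith [sq_nonneg (z.im - -15 / 13)]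
    have h2 : (z.im - -15 / 13) ^ 2 ≤ (15 / 13) ^ 2 := by nlinarith [sq_nonneg (z.re - 3 / 2)]
    have h3 := abs_le_of_sq_le_sq' h1 (by norm_num)
    have h4 := abs_le_of_sq_le_sq' h2 (by norm_num)
    exact Or.inr (Or.inl ⟨by linarith [h3.1], by linarith [h3.2], by linarith [h4.1],
      by linarith [h4.2]⟩)
  · intro z hz
    rw [mem_cb (by norm_num)]
    have hgoal : (z.re - a') * (z.re + 119 * (m - μ)) + z.im * (z.im + 120 * (m - μ)) ≤ 0 →
        (z.re - (a' - 119 * (m - μ)) / 2) ^ 2 + (z.im - -60 * (m - μ)) ^ 2 ≤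
        (67600 * (15 / 13)) ^ 2 := by
      intro hh
      simp only [FF] at hF
      nlinarith [hh, hF]
    apply hgoal
    rcases hz with ⟨h1, h2, h3, h4⟩ | ⟨h1, h2, h3, h4⟩ | ⟨⟨h1, h2, h3⟩, h4⟩
    · exact part_a hm2 (by linarith) ha1 h1 h2 h3 (by linarith)
    · exact part_b (by linarith) ha1 h1 h2 h3 h4
    · exact part_c (by linarith) (by linarith) he2 ha2 h1 h2 h3 h4

end MPc01941
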