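import Pool.Agent.Lib.MP_c01941_lc.PieceDefs
import Pool.Agent.Lib.MP_c01941_lc.TailDefs

/-!
FP-PCPoly. The piece C (relative to the bend). Points: `p' = (-119 σ, -120 σ)`, `σ = m - μ`;
`w'` = intersection of the lines `4 x + 3 y = -836 σ` and
`191999881 x - 14161 (m + 360) = 190400000 y`; `q = (0, -119 (m + 360)/1600000)`; `O = (0, 0)`;
`d = (0, -30/13)`, `d' = (3, -30/13)`, `Q0 = (3, 0)`, `Qw = (3, (3 - e')/2400000)`,
`CB = vS' e' (cbx a' e')`, `A = (a', 0)`.
Three convex quadrilaterals: `p', w', q, O`; `O, d, d', Q0`; `Q0, Qw, CB, A`.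
`glueL` along `O q` (part of the edge from `O` to `d`); `glueR` along `Qw Q0` (part of the edge from
`d'` to `Q0`).
-/

namespace MPc01941

private theorem pc_seg {p q x y z : ℂ} (hx : 0 ≤ cr p q x) (hy : 0 ≤ cr p q y)
    (hz : z ∈ segment ℝ x y) : 0 ≤ cr p q z := by
  obtain ⟨u, v, hu, hv, huv, rfl⟩ := hz
  have e : cr p q (u • x + v • y) = u * cr p q x + v * cr p q y := by
    have e1 : v = 1 - u := by linarith
    subst e1
    simp only [cr, Complex.add_re, Complex.add_im, Complex.real_smul, Complex.mul_re,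
      Complex.mul_im, Complex.ofReal_re, Complex.ofReal_im]
    ring
  rw [e]
  positivity

private theorem pc_seg_quad {a b c d x y : ℂ} (hx : x ∈ quad a b c d) (hy : y ∈ quad a b c d) :
    segment ℝ x y ⊆ quad a b c d := by
  intro z hz
  exact ⟨pc_seg hx.1 hy.1 hz, pc_seg hx.2.1 hy.2.1 hz, pc_seg hx.2.2.1 hy.2.2.1 hz,
    pc_seg hx.2.2.2 hy.2.2.2 hz⟩

/-- abscissa of `w'` -/
private noncomputable def wx (m σ : ℝ) : ℝ := (42483 * (m + 360) - 159174400000 * σ) / 1337599643

private theorem wx_mul (m σ : ℝ) :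
    1337599643 * wx m σ = 42483 * (m + 360) - 159174400000 * σ := by
  unfold wx
  ring

private noncomputable def cp (σ : ℝ) : ℂ := ⟨-119 * σ, -120 * σ⟩
private noncomputable def cw (m σ : ℝ) : ℂ := ⟨wx m σ, (-836 * σ - 4 * wx m σ) / 3⟩
private noncomputable def cq (m : ℝ) : ℂ := ⟨0, -119 * (m + 360) / 1600000⟩
private def cO : ℂ := ⟨0, 0⟩
private noncomputable def cd0 : ℂ := ⟨0, -30 / 13⟩
private noncomputable def cd3 : ℂ := ⟨3, -30 / 13⟩
private def cQ0 : ℂ := ⟨3, 0⟩
private noncomputable def cQw (e' : ℝ) : ℂ := ⟨3, (3 - e') / 2400000⟩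
private noncomputable def cCB (e' a' : ℝ) : ℂ := ⟨cbx a' e', (cbx a' e' - e') / 2400000⟩
private def cA' (a' : ℝ) : ℂ := ⟨a', 0⟩

private theorem q1_iff {m σ : ℝ} (hm1 : 938 ≤ m) (hm2 : m ≤ 942) (hσ1 : 490 ≤ σ) (hσ2 : σ ≤ 510)
    (z : ℂ) : z ∈ quad (cp σ) (cw m σ) (cq m) cO ↔
      (z.re ≤ 0 ∧ 119 * z.im ≤ 120 * z.re ∧
      191999881 * z.re - 14161 * (m + 360) ≤ 190400000 * z.im ∧
      -836 * σ ≤ 4 * z.re + 3 * z.im) := by
  have hw := wx_mul m σ
  obtain ⟨x, hx⟩ : ∃ x, x = wx m σ := ⟨_, rfl⟩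
  have hxlo : x ≤ -119 * σ + 1 := by rw [← hx] at hw; linarith
  have hxhi : -119 * σ < x := by rw [← hx] at hw; linarith
  have e1 : cr (cp σ) (cw m σ) z = (x + 119 * σ) / 3 * (4 * z.re + 3 * z.im + 836 * σ) := by
    simp only [cr, cp, cw, ← hx]
    ring
  have e2 : cr (cw m σ) (cq m) z = (-x) / 190400000 *
      (190400000 * z.im - (191999881 * z.re - 14161 * (m + 360))) := by
    have hy : (-836 * σ - 4 * x) / 3 = (191999881 * x - 14161 * (m + 360)) / 190400000 := by
      rw [← hx] at hw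
      linarith
    simp only [cr, cw, cq, ← hx]
    rw [hy]
    ring
  have e3 : cr (cq m) cO z = -(119 * (m + 360) / 1600000) * z.re := by
    simp only [cr, cq, cO]
    ring
  have e4 : cr cO (cp σ) z = σ * (120 * z.re - 119 * z.im) := by
    simp only [cr, cO, cp]
    ring
  have hc1 : 0 < (x + 119 * σ) / 3 := by linarith
  have hc2 : 0 < (-x) / 190400000 := by
    have : x < 0 := by linarith
    linarith
  have hc3 : 0 < 119 * (m + 360) / 1600000 := by linarith
  have hc4 : 0 < σ := by linarith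
  constructor
  · rintro ⟨h1, h2, h3, h4⟩
    rw [e1] at h1
    rw [e2] at h2
    rw [e3] at h3
    rw [e4] at h4
    have g1 := nonneg_of_mul_nonneg_right h1 hc1
    have g2 := nonneg_of_mul_nonneg_right h2 hc2
    have g4 := nonneg_of_mul_nonneg_right h4 hc4
    have g3 : z.re ≤ 0 := by
      by_contra hcon
      push Not at hcon
      have := mul_pos hc3 hcon
      linarith
    exact ⟨g3, by linarith, by linarith, by linarith⟩
  · rintro ⟨g3, g4, g2, g1⟩
    refine ⟨?_, ?_, ?_, ?_⟩
    · rw [e1]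
      exact mul_nonneg hc1.le (by linarith)
    · rw [e2]
      exact mul_nonneg hc2.le (by linarith)
    · rw [e3]
      have := mul_nonneg hc3.le (neg_nonneg.mpr g3)
      linarith
    · rw [e4]
      exact mul_nonneg hc4.le (by linarith)

private theorem q1_poly {m σ : ℝ} (hm1 : 938 ≤ m) (hm2 : m ≤ 942) (hσ1 : 490 ≤ σ)
    (hσ2 : σ ≤ 510) : IsPolygon [cp σ, cw m σ, cq m, cO] (quad (cp σ) (cw m σ) (cq m) cO) := by
  have hw := wx_mul m σ
  obtain ⟨x, hx⟩ : ∃ x, x = wx m σ := ⟨_, rfl⟩
  rw [← hx] at hw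
  have hxlo : x ≤ -119 * σ + 1 := by linarith
  have hxhi : -119 * σ < x := by linarith
  have hy : (-836 * σ - 4 * x) / 3 = (191999881 * x - 14161 * (m + 360)) / 190400000 := by
    linarith
  apply isPolygon_quad
  · have e : cr (cp σ) (cw m σ) (cq m) =
        (x + 119 * σ) / 3 * (836 * σ - 357 * (m + 360) / 1600000) := by
      simp only [cr, cp, cw, cq, ← hx]
      ring
    rw [e]
    exact mul_pos (by linarith) (by linarith)
  · have e : cr (cw m σ) (cq m) cO = (-x) * (119 * (m + 360) / 1600000) := by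
      simp only [cr, cw, cq, cO, ← hx]
      ring
    rw [e]
    exact mul_pos (by linarith) (by linarith)
  · have e : cr (cq m) cO (cp σ) = (119 * (m + 360) / 1600000) * (119 * σ) := by
      simp only [cr, cq, cO, cp]
      ring
    rw [e]
    exact mul_pos (by linarith) (by linarith)
  · have e : cr cO (cp σ) (cw m σ) = σ * (120 * x - 119 * ((-836 * σ - 4 * x) / 3)) := by
      simp only [cr, cO, cp, cw, ← hx]
      ring
    rw [e]
    exact mul_pos (by linarith) (by linarith)

private theorem q2_iff (z : ℂ) : z ∈ quad cO cd0 cd3 cQ0 ↔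
    (0 ≤ z.re ∧ z.re ≤ 3 ∧ -30 / 13 ≤ z.im ∧ z.im ≤ 0) := by
  have e1 : cr cO cd0 z = 30 / 13 * z.re := by
    simp only [cr, cO, cd0]
    ring
  have e2 : cr cd0 cd3 z = 3 * (z.im + 30 / 13) := by
    simp only [cr, cd0, cd3]
    ring
  have e3 : cr cd3 cQ0 z = 30 / 13 * (3 - z.re) := by
    simp only [cr, cd3, cQ0]
    ring
  have e4 : cr cQ0 cO z = 3 * (-z.im) := by
    simp only [cr, cQ0, cO]
    ring
  constructor
  · rintro ⟨h1, h2, h3, h4⟩
    rw [e1] at h1
    rw [e2] at h2
    rw [e3] at h3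
    rw [e4] at h4
    exact ⟨by linarith, by linarith, by linarith, by linarith⟩
  · rintro ⟨g1, g2, g3, g4⟩
    refine ⟨?_, ?_, ?_, ?_⟩
    · rw [e1]; linarith
    · rw [e2]; linarith
    · rw [e3]; linarith
    · rw [e4]; linarith

private theorem q2_poly : IsPolygon [cO, cd0, cd3, cQ0] (quad cO cd0 cd3 cQ0) := by
  apply isPolygon_quad <;> simp only [cr, cO, cd0, cd3, cQ0] <;> norm_num

private theorem cbx_mul (a e : ℝ) : 24000001 * cbx a e = 24000000 * a + e := by
  unfold cbx
  ring

private theorem q3_iff {e' a' : ℝ} (he1 : 219362 ≤ e') (he2 : e' ≤ 220038) (ha1 : 84000 ≤ a')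
    (ha2 : a' ≤ 85000) (z : ℂ) : z ∈ quad cQ0 (cQw e') (cCB e' a') (cA' a') ↔
      (cL e' z.re z.im ∧ 10 * z.re + z.im ≤ 10 * a') := by
  have hw := cbx_mul a' e'
  obtain ⟨x, hx⟩ : ∃ x, x = cbx a' e' := ⟨_, rfl⟩
  rw [← hx] at hw
  have hx1 : a' < x := by linarith
  have hx2 : x ≤ a' + 1 := by linarith
  have e1 : cr cQ0 (cQw e') z = (e' - 3) / 2400000 * (z.re - 3) := by
    simp only [cr, cQ0, cQw]
    ring
  have e2 : cr (cQw e') (cCB e' a') z = (x - 3) / 2400000 * (2400000 * z.im - (z.re - e')) := by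
    simp only [cr, cQw, cCB, ← hx]
    ring
  have e3 : cr (cCB e' a') (cA' a') z = (x - a') * (10 * a' - (10 * z.re + z.im)) := by
    have hy : (x - e') / 2400000 = -10 * (x - a') := by linarith
    simp only [cr, cCB, cA', ← hx]
    rw [hy]
    ring
  have e4 : cr (cA' a') cQ0 z = (a' - 3) * (-z.im) := by
    simp only [cr, cA', cQ0]
    ring
  have hc1 : 0 < (e' - 3) / 2400000 := by linarith
  have hc2 : 0 < (x - 3) / 2400000 := by linarith
  have hc3 : 0 < x - a' := by linarith
  have hc4 : 0 < a' - 3 := by linarith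
  constructor
  · rintro ⟨h1, h2, h3, h4⟩
    rw [e1] at h1
    rw [e2] at h2
    rw [e3] at h3
    rw [e4] at h4
    have g1 := nonneg_of_mul_nonneg_right h1 hc1
    have g2 := nonneg_of_mul_nonneg_right h2 hc2
    have g3 := nonneg_of_mul_nonneg_right h3 hc3
    have g4 := nonneg_of_mul_nonneg_right h4 hc4
    exact ⟨⟨by linarith, by linarith, by linarith⟩, by linarith⟩
  · rintro ⟨⟨g1, g4, g2⟩, g3⟩
    refine ⟨?_, ?_, ?_, ?_⟩
    · rw [e1]
      exact mul_nonneg hc1.le (by linarith)
    · rw [e2]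
      exact mul_nonneg hc2.le (by linarith)
    · rw [e3]
      exact mul_nonneg hc3.le (by linarith)
    · rw [e4]
      exact mul_nonneg hc4.le (by linarith)

private theorem q3_poly {e' a' : ℝ} (he1 : 219362 ≤ e') (he2 : e' ≤ 220038) (ha1 : 84000 ≤ a')
    (ha2 : a' ≤ 85000) : IsPolygon [cQ0, cQw e', cCB e' a', cA' a']
      (quad cQ0 (cQw e') (cCB e' a') (cA' a')) := by
  have hw := cbx_mul a' e'
  obtain ⟨x, hx⟩ : ∃ x, x = cbx a' e' := ⟨_, rfl⟩
  rw [← hx] at hw
  have hx1 : a' < x := by linarith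
  have hx2 : x ≤ a' + 1 := by linarith
  have hy : (x - e') / 2400000 = -10 * (x - a') := by linarith
  apply isPolygon_quad
  · have e : cr cQ0 (cQw e') (cCB e' a') = (e' - 3) / 2400000 * (x - 3) := by
      simp only [cr, cQ0, cQw, cCB, ← hx]
      ring
    rw [e]
    exact mul_pos (by linarith) (by linarith)
  · have e : cr (cQw e') (cCB e' a') (cA' a') = (x - 3) / 2400000 * (e' - a') := by
      simp only [cr, cQw, cCB, cA', ← hx]
      ring
    rw [e]
    exact mul_pos (by linarith) (by linarith)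
  · have e : cr (cCB e' a') (cA' a') cQ0 = (x - a') * (10 * (a' - 3)) := by
      simp only [cr, cCB, cA', cQ0, ← hx]
      rw [hy]
      ring
    rw [e]
    exact mul_pos (by linarith) (by linarith)
  · have e : cr (cA' a') cQ0 (cQw e') = (a' - 3) * ((e' - 3) / 2400000) := by
      simp only [cr, cA', cQ0, cQw]
      ring
    rw [e]
    exact mul_pos (by linarith) (by linarith)

theorem pC_poly {m μ e' a' : ℝ} (h : HC m μ e' a') : ∃ v, IsPolygon v (pC m μ e' a') := by
  obtain ⟨hm1, hm2, hμ1, hμ2, he1, he2, ha1, ha2, _⟩ := h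
  obtain ⟨σ, hσ⟩ : ∃ σ, σ = m - μ := ⟨_, rfl⟩
  have hσ1 : 490 ≤ σ := by linarith
  have hσ2 : σ ≤ 510 := by linarith
  have hset : pC m μ e' a' = (quad cO cd0 cd3 cQ0 ∪ quad (cp σ) (cw m σ) (cq m) cO) ∪
      quad cQ0 (cQw e') (cCB e' a') (cA' a') := by
    ext z
    rw [Set.mem_union, Set.mem_union, q2_iff, q1_iff hm1 hm2 hσ1 hσ2, q3_iff he1 he2 ha1 ha2]
    have h1 : -836 * σ = 836 * (μ - m) := by rw [hσ]; ring
    rw [h1]
    constructor
    · rintro (h | h | h)
      · exact Or.inl (Or.inr h)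
      · exact Or.inl (Or.inl h)
      · exact Or.inr h
    · rintro ((h | h) | h)
      · exact Or.inr (Or.inl h)
      · exact Or.inl h
      · exact Or.inr (Or.inr h)
  -- the first gluing
  have hR1 : IsPolygon (cq m :: cO :: [cp σ, cw m σ]) (quad (cp σ) (cw m σ) (cq m) cO) :=
    IsPolygon.rotate_append (A := [cp σ, cw m σ]) (B := [cq m, cO]) (q1_poly hm1 hm2 hσ1 hσ2)
  have hint1 : quad cO cd0 cd3 cQ0 ∩ quad (cp σ) (cw m σ) (cq m) cO = segment ℝ cO (cq m) := by
    apply Set.Subset.antisymm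
    · rintro z ⟨hz1, hz2⟩
      rw [q2_iff] at hz1
      have hz2' := hz2
      rw [q1_iff hm1 hm2 hσ1 hσ2] at hz2'
      have hre : z.re = 0 := le_antisymm hz2'.1 hz1.1
      have hq : z ∈ quad (cq m) cO (cp σ) (cw m σ) := ⟨hz2.2.2.1, hz2.2.2.2, hz2.1, hz2.2.1⟩
      have hQ := q1_poly hm1 hm2 hσ1 hσ2
      rw [segment_symm]
      have hw := wx_mul m σ
      obtain ⟨x, hx⟩ : ∃ x, x = wx m σ := ⟨_, rfl⟩
      rw [← hx] at hw
      refine mem_segment_of_quad ?_ ?_ ?_ ?_ hq ?_
      · have e : cr (cq m) cO (cp σ) = (119 * (m + 360) / 1600000) * (119 * σ) := by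
          simp only [cr, cq, cO, cp]
          ring
        rw [e]
        exact mul_pos (by linarith) (by linarith)
      · have e : cr cO (cp σ) (cw m σ) = σ * (120 * x - 119 * ((-836 * σ - 4 * x) / 3)) := by
          simp only [cr, cO, cp, cw, ← hx]
          ring
        rw [e]
        exact mul_pos (by linarith) (by linarith)
      · have e : cr (cp σ) (cw m σ) (cq m) =
            (x + 119 * σ) / 3 * (836 * σ - 357 * (m + 360) / 1600000) := by
          simp only [cr, cp, cw, cq, ← hx]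
          ring
        rw [e]
        exact mul_pos (by linarith) (by linarith)
      · have e : cr (cw m σ) (cq m) cO = (-x) * (119 * (m + 360) / 1600000) := by
          simp only [cr, cw, cq, cO, ← hx]
          ring
        rw [e]
        exact mul_pos (by linarith) (by linarith)
      · simp only [cr, cq, cO, hre]
        ring
    · have hO2 : cO ∈ quad cO cd0 cd3 cQ0 := by
        rw [q2_iff]
        simp only [cO]
        norm_num
      have hq2 : cq m ∈ quad cO cd0 cd3 cQ0 := by
        rw [q2_iff]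
        simp only [cq]
        refine ⟨le_refl _, by norm_num, by linarith, by linarith⟩
      have hO1 : cO ∈ quad (cp σ) (cw m σ) (cq m) cO := by
        rw [q1_iff hm1 hm2 hσ1 hσ2]
        simp only [cO]
        refine ⟨le_refl _, by norm_num, by linarith, by linarith⟩
      have hq1 : cq m ∈ quad (cp σ) (cw m σ) (cq m) cO := by
        rw [q1_iff hm1 hm2 hσ1 hσ2]
        simp only [cq]
        refine ⟨le_refl _, by linarith, by linarith, by linarith⟩
      intro z hz
      exact ⟨pc_seg_quad hO2 hq2 hz, pc_seg_quad hO1 hq1 hz⟩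
  have hG1 : IsPolygon (cO :: [cp σ, cw m σ] ++ cq m :: cd0 :: [cd3, cQ0])
      (quad cO cd0 cd3 cQ0 ∪ quad (cp σ) (cw m σ) (cq m) cO) := by
    refine glueL (t := (119 * (m + 360) / 1600000) / (30 / 13)) q2_poly hR1 ?_ ?_ ?_ hint1
    · apply div_pos <;> linarith
    · rw [div_lt_one (by norm_num)]
      linarith
    · apply Complex.ext
      · simp only [cO, cq, cd0, Complex.add_re, Complex.mul_re, Complex.sub_im, Complex.sub_re,
          Complex.ofReal_re, Complex.ofReal_im]
        ring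
      · simp only [cO, cq, cd0, Complex.add_im, Complex.mul_im, Complex.sub_im, Complex.sub_re,
          Complex.ofReal_re, Complex.ofReal_im]
        ring
  -- the second gluing
  have hG1' : IsPolygon (cd3 :: cQ0 :: [cO, cp σ, cw m σ, cq m, cd0])
      (quad cO cd0 cd3 cQ0 ∪ quad (cp σ) (cw m σ) (cq m) cO) :=
    IsPolygon.rotate_append (A := [cO, cp σ, cw m σ, cq m, cd0]) (B := [cd3, cQ0]) hG1
  have hint2 : (quad cO cd0 cd3 cQ0 ∪ quad (cp σ) (cw m σ) (cq m) cO) ∩
      quad cQ0 (cQw e') (cCB e' a') (cA' a') = segment ℝ (cQw e') cQ0 := by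
    apply Set.Subset.antisymm
    · rintro z ⟨hz1, hz2⟩
      have hz2' := hz2
      rw [q3_iff he1 he2 ha1 ha2] at hz2'
      obtain ⟨⟨g1, g2, g3⟩, g4⟩ := hz2'
      have hre : z.re = 3 := by
        rcases hz1 with hz1 | hz1
        · rw [q2_iff] at hz1
          exact le_antisymm hz1.2.1 g1
        · rw [q1_iff hm1 hm2 hσ1 hσ2] at hz1
          have := hz1.1
          linarith
      rw [segment_symm]
      have hw := cbx_mul a' e'
      obtain ⟨x, hx⟩ : ∃ x, x = cbx a' e' := ⟨_, rfl⟩
      rw [← hx] at hw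
      have hy : (x - e') / 2400000 = -10 * (x - a') := by linarith
      refine mem_segment_of_quad ?_ ?_ ?_ ?_ hz2 ?_
      · have e : cr cQ0 (cQw e') (cCB e' a') = (e' - 3) / 2400000 * (x - 3) := by
          simp only [cr, cQ0, cQw, cCB, ← hx]
          ring
        rw [e]
        exact mul_pos (by linarith) (by linarith)
      · have e : cr (cQw e') (cCB e' a') (cA' a') = (x - 3) / 2400000 * (e' - a') := by
          simp only [cr, cQw, cCB, cA', ← hx]
          ring
        rw [e]
        exact mul_pos (by linarith) (by linarith)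
      · have e : cr (cCB e' a') (cA' a') cQ0 = (x - a') * (10 * (a' - 3)) := by
          simp only [cr, cCB, cA', cQ0, ← hx]
          rw [hy]
          ring
        rw [e]
        exact mul_pos (by linarith) (by linarith)
      · have e : cr (cA' a') cQ0 (cQw e') = (a' - 3) * ((e' - 3) / 2400000) := by
          simp only [cr, cA', cQ0, cQw]
          ring
        rw [e]
        exact mul_pos (by linarith) (by linarith)
      · simp only [cr, cQ0, cQw, hre]
        ring
    · have h1 : cQ0 ∈ quad cO cd0 cd3 cQ0 := by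
        rw [q2_iff]
        simp only [cQ0]
        norm_num
      have h2 : cQw e' ∈ quad cO cd0 cd3 cQ0 := by
        rw [q2_iff]
        simp only [cQw]
        refine ⟨by norm_num, le_refl _, by linarith, by linarith⟩
      have h3 : cQ0 ∈ quad cQ0 (cQw e') (cCB e' a') (cA' a') := by
        rw [q3_iff he1 he2 ha1 ha2]
        simp only [cQ0, cL]
        refine ⟨⟨le_refl _, le_refl _, by linarith⟩, by linarith⟩
      have h4 : cQw e' ∈ quad cQ0 (cQw e') (cCB e' a') (cA' a') := by
        rw [q3_iff he1 he2 ha1 ha2]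
        simp only [cQw, cL]
        refine ⟨⟨le_refl _, by linarith, by linarith⟩, by linarith⟩
      intro z hz
      exact ⟨Or.inl (pc_seg_quad h2 h1 hz), pc_seg_quad h4 h3 hz⟩
  have hG2 : IsPolygon (cd3 :: cQw e' :: [cCB e' a', cA' a'] ++
      cQ0 :: [cO, cp σ, cw m σ, cq m, cd0])
      ((quad cO cd0 cd3 cQ0 ∪ quad (cp σ) (cw m σ) (cq m) cO) ∪
        quad cQ0 (cQw e') (cCB e' a') (cA' a')) := by
    refine glueR (s := 1 - ((e' - 3) / 2400000) / (30 / 13)) hG1' (q3_poly he1 he2 ha1 ha2)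
      ?_ ?_ ?_ hint2
    · rw [sub_pos, div_lt_one (by norm_num)]
      linarith
    · have : 0 < ((e' - 3) / 2400000) / (30 / 13) := by
        apply div_pos <;> linarith
      linarith
    · apply Complex.ext
      · simp only [cQw, cd3, cQ0, Complex.add_re, Complex.mul_re, Complex.sub_im, Complex.sub_re,
          Complex.ofReal_re, Complex.ofReal_im]
        ring
      · simp only [cQw, cd3, cQ0, Complex.add_im, Complex.mul_im, Complex.sub_im, Complex.sub_re,
          Complex.ofReal_re, Complex.ofReal_im]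
        ring
  rw [hset]
  exact ⟨_, hG2⟩

end MPc01941
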