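import Pool.Agent.Lib.MP_c01941_lc.TentCut

/-!
FP-PMFat. Inner disk: `left_disk`, center `(e - 81120 - 18/5 + 13 r/5, -58812 + r)`.
Outer disk: the disk with diameter from `(a, 0)` to `(e, 0)`; it is
`(x - a) (x - e) + y^2 ≤ 0` and its radius is `(e - a)/2 = 67600 r`.
* first triangle with `10 a ≤ 10 x + y`: `x - a ≥ -y/10`, `e - x ≥ -2400000 y`, product `≥ y^2`.
* upper arm and room: `x - a ≥ 53200`, `e - x ≥ 81116`, `|y| ≤ 58812`.
-/

namespace MPc01941

open Metric

private theorem mem_cb {cx cy r : ℝ} (hr : 0 ≤ r) (z : ℂ) :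
    z ∈ closedBall (⟨cx, cy⟩ : ℂ) r ↔ (z.re - cx) ^ 2 + (z.im - cy) ^ 2 ≤ r ^ 2 := by
  rw [mem_closedBall, Complex.dist_eq, Complex.norm_def, Real.sqrt_le_left hr,
    Complex.normSq_apply, Complex.sub_re, Complex.sub_im]
  constructor <;> intro h <;> linarith [h]

theorem pM_fat {e a r r' : ℝ} (h : HM e a r r') : FatSet (pM e a r r') := by
  have hr := h.rr
  have hr1 := hr.h1
  have hr2 := hr.h2
  have he1 := h.e1
  have he2 := h.e2
  have ha1 := h.a1
  have ha2 := h.a2
  have her := h.er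
  refine ⟨r, ⟨e - 81120 - 18 / 5 + 13 * r / 5, -58812 + r⟩, ⟨(a + e) / 2, 0⟩, by linarith, ?_, ?_⟩
  · intro z hz
    rw [mem_cb (by linarith)] at hz
    have h1 := left_disk hr (X := z.re - (e - 81120)) (Y := z.im + 58812) (by
      calc _ = (z.re - (e - 81120 - 18 / 5 + 13 * r / 5)) ^ 2 + (z.im - (-58812 + r)) ^ 2 := by ring
        _ ≤ _ := hz)
    obtain ⟨h2, h3, h4, h5, h6⟩ := h1
    refine Or.inr (Or.inr ⟨⟨by linarith, by linarith, h4, h5⟩, h6⟩)
  · intro z hz
    rw [mem_cb (by linarith)]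
    have hgoal : (z.re - a) * (z.re - e) + z.im ^ 2 ≤ 0 → (z.re - (a + e) / 2) ^ 2 +
        (z.im - 0) ^ 2 ≤ (67600 * r) ^ 2 := by
      intro hh
      have h1 : 67600 * r = (e - a) / 2 := by linarith
      rw [h1]
      nlinarith [hh]
    apply hgoal
    rcases hz with ⟨⟨h1, h2, h3⟩, h4⟩ | ⟨h1, h2, h3, h4⟩ | ⟨⟨h1, h2, h3, h4⟩, -⟩
    · have h5 : -z.im / 10 ≤ z.re - a := by linarith
      have h6 : -2400000 * z.im ≤ e - z.re := by linarith
      have h7 : (-z.im / 10) * (-2400000 * z.im) ≤ (z.re - a) * (e - z.re) :=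
        mul_le_mul h5 h6 (by linarith) (by linarith)
      nlinarith [sq_nonneg z.im]
    · have h5 : (53200 : ℝ) ≤ z.re - a := by linarith
      have h6 : (81116 : ℝ) ≤ e - z.re := by linarith
      have h7 : (53200 : ℝ) * 81116 ≤ (z.re - a) * (e - z.re) :=
        mul_le_mul h5 h6 (by norm_num) (by linarith)
      have h8 : z.im ^ 2 ≤ 58812 ^ 2 := by
        apply sq_le_sq'
        · linarith
        · linarith
      nlinarith
    · have h5 : (53200 : ℝ) ≤ z.re - a := by linarith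
      have h6 : (81116 : ℝ) ≤ e - z.re := by linarith
      have h7 : (53200 : ℝ) * 81116 ≤ (z.re - a) * (e - z.re) :=
        mul_le_mul h5 h6 (by norm_num) (by linarith)
      have h8 : z.im ^ 2 ≤ 58812 ^ 2 := by
        apply sq_le_sq'
        · linarith
        · linarith
      nlinarith

end MPc01941
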