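import Pool.Agent.Lib.MP_c01941_lc.TentCut

/-!
FP-PNFat. Inner disk: `right_disk`, center `(e - 81120 + 18/5 - 13 r'/5, -58812 + r')`.
Outer disk: the disk with diameter from `vM e (-360)` to `vM e μ`, of length
`169 (360 + μ) = 135200 r'`; with `X = x - (e - 81120)`, `Y = y + 117624` it is
`(X + 42840) (X - 119 μ) + (Y + 43200) (Y - 120 μ) ≤ 0`.
* part of the second triangle: with `X = 119 t + 120 s`, `Y = 120 t - 119 s` the disk is
  `(t + 360) (t - μ) + s^2 ≤ 0`, and `t + 360 ≥ 3000000 s`, `μ - t ≥ s / 10`, `s ≥ 0`.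
* room and lower arm: `-4 ≤ X ≤ 4`, `0 ≤ Y ≤ 58815`: the first product is
  `≤ -42836 * 51880`, the second one `≤ 102015 * 6495`.
-/

namespace MPc01941

open Metric

private theorem mem_cb {cx cy r : ℝ} (hr : 0 ≤ r) (z : ℂ) :
    z ∈ closedBall (⟨cx, cy⟩ : ℂ) r ↔ (z.re - cx) ^ 2 + (z.im - cy) ^ 2 ≤ r ^ 2 := by
  rw [mem_closedBall, Complex.dist_eq, Complex.norm_def, Real.sqrt_le_left hr,
    Complex.normSq_apply, Complex.sub_re, Complex.sub_im]
  constructor <;> intro h <;> linarith [h]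

private theorem far_part {X Y μ : ℝ} (hμ : 436 ≤ μ) (hX1 : -4 ≤ X) (hX2 : X ≤ 4) (hY1 : 0 ≤ Y)
    (hY2 : Y ≤ 58815) : (X + 42840) * (X - 119 * μ) + (Y + 43200) * (Y - 120 * μ) ≤ 0 := by
  have h1 : (42836 : ℝ) * 51880 ≤ (X + 42840) * (119 * μ - X) :=
    mul_le_mul (by linarith) (by linarith) (by norm_num) (by linarith)
  have h2 : (Y + 43200) * (Y - 120 * μ) ≤ (Y + 43200) * 6495 :=
    mul_le_mul_of_nonneg_left (by linarith) (by linarith)
  nlinarith

private theorem near_part {X Y μ : ℝ} (h2 : 119 * Y ≤ 120 * X)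
    (h3 : 191999881 * X - 5097960 ≤ 190400000 * Y) (h4 : 4 * X + 3 * Y ≤ 836 * μ) :
    (X + 42840) * (X - 119 * μ) + (Y + 43200) * (Y - 120 * μ) ≤ 0 := by
  obtain ⟨s, hs⟩ : ∃ s : ℝ, s = (120 * X - 119 * Y) / 28561 := ⟨_, rfl⟩
  obtain ⟨t, ht⟩ : ∃ t : ℝ, t = (119 * X + 120 * Y) / 28561 := ⟨_, rfl⟩
  have hX : X = 119 * t + 120 * s := by rw [hs, ht]; ring
  have hY : Y = 120 * t - 119 * s := by rw [hs, ht]; ring
  have hs0 : 0 ≤ s := by rw [hs]; linarith
  have h5 : 3000000 * s ≤ t + 360 := by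
    rw [hX, hY] at h3
    linarith
  have h6 : s / 10 ≤ μ - t := by
    rw [hX, hY] at h4
    linarith
  have h7 : (3000000 * s) * (s / 10) ≤ (t + 360) * (μ - t) :=
    mul_le_mul h5 h6 (by linarith) (by linarith)
  rw [hX, hY]
  nlinarith [sq_nonneg s]

theorem pN_fat {e m μ r r' : ℝ} (h : HN e m μ r r') : FatSet (pN e m μ r r') := by
  have hr := h.rr
  have hr3 := hr.h3
  have hr4 := hr.h4
  have hμ1 := h.μ1
  have hμ2 := h.μ2
  have her := h.er
  refine ⟨r', ⟨e - 81120 + 18 / 5 - 13 * r' / 5, -58812 + r'⟩,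
    ⟨e - 81120 + 119 * (μ - 360) / 2, -117624 + 120 * (μ - 360) / 2⟩, by linarith, ?_, ?_⟩
  · intro z hz
    rw [mem_cb (by linarith)] at hz
    have h1 := right_disk hr (X := z.re - (e - 81120)) (Y := z.im + 58812) (by
      calc _ = (z.re - (e - 81120 + 18 / 5 - 13 * r' / 5)) ^ 2 +
            (z.im - (-58812 + r')) ^ 2 := by ring
        _ ≤ _ := hz)
    obtain ⟨h2, h3, h4, h5, h6⟩ := h1
    exact Or.inl ⟨⟨by linarith, by linarith, h4, h5⟩, h6⟩
  · intro z hz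
    rw [mem_cb (by linarith)]
    have hgoal : ((z.re - (e - 81120)) + 42840) * ((z.re - (e - 81120)) - 119 * μ) +
        ((z.im + 117624) + 43200) * ((z.im + 117624) - 120 * μ) ≤ 0 →
        (z.re - (e - 81120 + 119 * (μ - 360) / 2)) ^ 2 +
        (z.im - (-117624 + 120 * (μ - 360) / 2)) ^ 2 ≤ (67600 * r') ^ 2 := by
      intro hh
      have h1 : 67600 * r' = 169 * (360 + μ) / 2 := by linarith
      rw [h1]
      nlinarith [hh]
    apply hgoal
    rcases hz with ⟨⟨h1, h2, h3, h4⟩, -⟩ | ⟨h1, h2, h3, h4⟩ | ⟨⟨h1, h2, h3⟩, h4⟩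
    · exact far_part hμ1 (by linarith) (by linarith) (by linarith) (by linarith)
    · exact far_part hμ1 (by linarith) (by linarith) (by linarith) (by linarith)
    · exact near_part h2 h3 (by linarith)

end MPc01941
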