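import Pool.Agent.Lib.MP_c01941_lc.TentCut

/-!
FP-PNPoly. The piece N is `quad (vF xfl) (vF (18/5)) (vC (432/325)) (vC xce)`, the lower arm
(convex quadrilateral `vF (1/5), vF (1/10), vM (1/1190), vM (1/595)`), and the triangle
`vM e (-360), w, vM e μ` with `w` the point of the lower side of the second triangle on the line
`4 x + 3 y = 4 (e - 81120 + 119 μ) + 3 (-117624 + 120 μ)`, i.e. `w = vM' e X`,
`X = (159174400000 μ + 15293880) / 1337599643`. (The constraint `x ≤ e - 81120 + 119 m` is implied.)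
Glue the arm to the triangle (`glueSub` along `vM (1/595), vM (1/1190)`, part of the edge
`vM e μ, vM e (-360)`), and the result to the quadrilateral (`glueSub` along `vF (1/10), vF (1/5)`, part
of the floor edge from `vF xfl` to `vF (18/5)`; `xfl < 1/20`).
-/

namespace MPc01941

private theorem pn_seg {p q x y z : ℂ} (hx : 0 ≤ cr p q x) (hy : 0 ≤ cr p q y)
    (hz : z ∈ segment ℝ x y) : 0 ≤ cr p q z := by
  obtain ⟨u, v, hu, hv, huv, rfl⟩ := hz
  have e : cr p q (u • x + v • y) = u * cr p q x + v * cr p q y := by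
    have e1 : v = 1 - u := by linarith
    subst e1
    simp only [cr, Complex.add_re, Complex.add_im, Complex.real_smul, Complex.mul_re,
      Complex.mul_im, Complex.ofReal_re, Complex.ofReal_im]
    ring
  rw [e]
  positivity

private theorem pn_seg_quad {a b c d x y : ℂ} (hx : x ∈ quad a b c d) (hy : y ∈ quad a b c d) :
    segment ℝ x y ⊆ quad a b c d := by
  intro z hz
  exact ⟨pn_seg hx.1 hy.1 hz, pn_seg hx.2.1 hy.2.1 hz, pn_seg hx.2.2.1 hy.2.2.1 hz,
    pn_seg hx.2.2.2 hy.2.2.2 hz⟩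

private theorem pn_seg_tri {a b c x y : ℂ} (hx : x ∈ tri a b c) (hy : y ∈ tri a b c) :
    segment ℝ x y ⊆ tri a b c := by
  intro z hz
  exact ⟨pn_seg hx.1 hy.1 hz, pn_seg hx.2.1 hy.2.1 hz, pn_seg hx.2.2 hy.2.2 hz⟩

/-- abscissa of `w` -/
private noncomputable def nx (μ : ℝ) : ℝ := (159174400000 * μ + 15293880) / 1337599643

private theorem nx_mul (μ : ℝ) : 1337599643 * nx μ = 159174400000 * μ + 15293880 := by
  unfold nx
  ring

/-! ### the room part -/

private theorem cut_eq {r r' : ℝ} (h : RR r r') (X Y : ℝ) :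
    cutT r r' X Y = (36 / 5 - 13 / 5 * (r + r')) *
      ((X - xce r r') + (xfl r r' - xce r r') * (20 / 41) * (Y - 41 / 20)) := by
  have h0 := cut_xfl h
  have h1 := cut_xce h
  unfold cutT at h0 h1 ⊢
  linear_combination (1 - 20 / 41 * Y) * h0 + (20 / 41 * Y) * h1

private theorem room_iff {e r r' : ℝ} (h : RR r r') (z : ℂ) :
    z ∈ quad (vF e (xfl r r')) (vF e (18 / 5)) (vC e (432 / 325)) (vC e (xce r r')) ↔
      (cT e z.re z.im ∧ 0 ≤ cutT r r' (z.re - (e - 81120)) (z.im + 58812)) := by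
  obtain ⟨f1, f2⟩ := xfl_bounds h
  obtain ⟨c1, c2⟩ := xce_bounds h
  rw [cut_eq h]
  obtain ⟨f, hf⟩ : ∃ f, f = xfl r r' := ⟨_, rfl⟩
  obtain ⟨c, hc⟩ : ∃ c, c = xce r r' := ⟨_, rfl⟩
  rw [← hf] at f1 f2 ⊢
  rw [← hc] at c1 c2 ⊢
  have hD : 0 < 36 / 5 - 13 / 5 * (r + r') := by
    have := h.h2
    have := h.h4
    linarith
  obtain ⟨X, hX⟩ : ∃ X, X = z.re - (e - 81120) := ⟨_, rfl⟩
  obtain ⟨Y, hY⟩ : ∃ Y, Y = z.im + 58812 := ⟨_, rfl⟩
  have hre : z.re = X + (e - 81120) := by rw [hX]; ring
  have him : z.im = Y - 58812 := by rw [hY]; ring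
  have e1 : cr (vF e f) (vF e (18 / 5)) z = (18 / 5 - f) * Y := by
    simp only [cr, vF, hre, him]
    ring
  have e2 : cr (vF e (18 / 5)) (vC e (432 / 325)) z = 41 / 1300 * (65 * (18 / 5 - X) - 72 * Y) := by
    simp only [cr, vF, vC, hre, him]
    ring
  have e3 : cr (vC e (432 / 325)) (vC e c) z = (432 / 325 - c) * (41 / 20 - Y) := by
    simp only [cr, vC, hre, him]
    ring
  have e4 : cr (vC e c) (vF e f) z =
      41 / 20 * ((X - c) + (f - c) * (20 / 41) * (Y - 41 / 20)) := by
    simp only [cr, vF, vC, hre, him]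
    ring
  have hc1 : 0 < 18 / 5 - f := by linarith
  have hc3 : 0 < 432 / 325 - c := by linarith
  unfold cT
  rw [← hX, ← hY]
  constructor
  · rintro ⟨h1, h2, h3, h4⟩
    rw [e1] at h1
    rw [e2] at h2
    rw [e3] at h3
    rw [e4] at h4
    have g1 := nonneg_of_mul_nonneg_right h1 hc1
    have g3 := nonneg_of_mul_nonneg_right h3 hc3
    have g4 : 0 ≤ (X - c) + (f - c) * (20 / 41) * (Y - 41 / 20) := by linarith
    have g5 : -1 / 20 ≤ X := by
      have i1 : 0 ≤ (c + 1 / 20) * Y := mul_nonneg (by linarith) g1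
      have i2 : 0 ≤ (f + 1 / 20) * (41 / 20 - Y) := mul_nonneg (by linarith) g3
      nlinarith [i1, i2, g4]
    refine ⟨⟨by linarith, by linarith, ?_, by linarith⟩, mul_nonneg hD.le g4⟩
    have : z.im + 58812 = Y := hY.symm
    linarith
  · rintro ⟨⟨h1, h2, _, h4⟩, h5⟩
    have g5 := nonneg_of_mul_nonneg_right h5 hD
    refine ⟨?_, ?_, ?_, ?_⟩
    · rw [e1]
      exact mul_nonneg hc1.le (by linarith)
    · rw [e2]
      linarith
    · rw [e3]
      exact mul_nonneg hc3.le (by linarith)
    · rw [e4]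
      linarith

private theorem room_poly {e r r' : ℝ} (h : RR r r') :
    IsPolygon [vF e (xfl r r'), vF e (18 / 5), vC e (432 / 325), vC e (xce r r')]
      (quad (vF e (xfl r r')) (vF e (18 / 5)) (vC e (432 / 325)) (vC e (xce r r'))) := by
  obtain ⟨f1, f2⟩ := xfl_bounds h
  obtain ⟨c1, c2⟩ := xce_bounds h
  obtain ⟨f, hf⟩ : ∃ f, f = xfl r r' := ⟨_, rfl⟩
  obtain ⟨c, hc⟩ : ∃ c, c = xce r r' := ⟨_, rfl⟩
  rw [← hf] at f1 f2 ⊢
  rw [← hc] at c1 c2 ⊢
  apply isPolygon_quad
  · have e1 : cr (vF e f) (vF e (18 / 5)) (vC e (432 / 325)) = (18 / 5 - f) * (41 / 20) := by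
      simp only [cr, vF, vC]
      ring
    rw [e1]
    exact mul_pos (by linarith) (by norm_num)
  · have e1 : cr (vF e (18 / 5)) (vC e (432 / 325)) (vC e c) = (41 / 20) * (432 / 325 - c) := by
      simp only [cr, vF, vC]
      ring
    rw [e1]
    exact mul_pos (by norm_num) (by linarith)
  · have e1 : cr (vC e (432 / 325)) (vC e c) (vF e f) = (432 / 325 - c) * (41 / 20) := by
      simp only [cr, vF, vC]
      ring
    rw [e1]
    exact mul_pos (by linarith) (by norm_num)
  · have e1 : cr (vC e c) (vF e f) (vF e (18 / 5)) = (41 / 20) * (18 / 5 - f) := by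
      simp only [cr, vF, vC]
      ring
    rw [e1]
    exact mul_pos (by norm_num) (by linarith)

/-! ### the arm -/

private theorem arm_iff {e : ℝ} (z : ℂ) :
    z ∈ quad (vM e (1 / 1190)) (vM e (1 / 595)) (vF e (1 / 5)) (vF e (1 / 10)) ↔
      cB e z.re z.im := by
  obtain ⟨X, hX⟩ : ∃ X, X = z.re - (e - 81120) := ⟨_, rfl⟩
  obtain ⟨Y, hY⟩ : ∃ Y, Y = z.im + 117624 := ⟨_, rfl⟩
  have hre : z.re = X + (e - 81120) := by rw [hX]; ring
  have him : z.im = Y - 117624 := by rw [hY]; ring
  have e1 : cr (vM e (1 / 1190)) (vM e (1 / 595)) z = 1 / 1190 * (119 * Y - 120 * X) := by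
    simp only [cr, vM, hre, him]
    ring
  have e2 : cr (vM e (1 / 595)) (vF e (1 / 5)) z = (58812 - 24 / 119) * (1 / 5 - X) := by
    simp only [cr, vM, vF, hre, him]
    ring
  have e3 : cr (vF e (1 / 5)) (vF e (1 / 10)) z = 1 / 10 * (58812 - Y) := by
    simp only [cr, vF, hre, him]
    ring
  have e4 : cr (vF e (1 / 10)) (vM e (1 / 1190)) z = (58812 - 12 / 119) * (X - 1 / 10) := by
    simp only [cr, vM, vF, hre, him]
    ring
  unfold cB
  rw [← hX, ← hY]
  constructor
  · rintro ⟨h1, h2, h3, h4⟩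
    rw [e1] at h1
    rw [e2] at h2
    rw [e3] at h3
    rw [e4] at h4
    exact ⟨by linarith, by linarith, by linarith, by linarith⟩
  · rintro ⟨g1, g2, g3, g4⟩
    refine ⟨?_, ?_, ?_, ?_⟩
    · rw [e1]; linarith
    · rw [e2]; linarith
    · rw [e3]; linarith
    · rw [e4]; linarith

private theorem arm_pos (e : ℝ) : 0 < cr (vM e (1 / 1190)) (vM e (1 / 595)) (vF e (1 / 5)) ∧
    0 < cr (vM e (1 / 595)) (vF e (1 / 5)) (vF e (1 / 10)) ∧
    0 < cr (vF e (1 / 5)) (vF e (1 / 10)) (vM e (1 / 1190)) ∧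
    0 < cr (vF e (1 / 10)) (vM e (1 / 1190)) (vM e (1 / 595)) := by
  refine ⟨?_, ?_, ?_, ?_⟩
  · have e1 : cr (vM e (1 / 1190)) (vM e (1 / 595)) (vF e (1 / 5)) =
        1 / 1190 * (119 * 58812 - 24) := by
      simp only [cr, vM, vF]
      ring
    rw [e1]
    norm_num
  · have e1 : cr (vM e (1 / 595)) (vF e (1 / 5)) (vF e (1 / 10)) =
        (58812 - 24 / 119) * (1 / 10) := by
      simp only [cr, vM, vF]
      ring
    rw [e1]
    norm_num
  · have e1 : cr (vF e (1 / 5)) (vF e (1 / 10)) (vM e (1 / 1190)) =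
        1 / 10 * (58812 - 12 / 119) := by
      simp only [cr, vM, vF]
      ring
    rw [e1]
    norm_num
  · have e1 : cr (vF e (1 / 10)) (vM e (1 / 1190)) (vM e (1 / 595)) =
        (58812 - 12 / 119) * (1 / 10) := by
      simp only [cr, vM, vF]
      ring
    rw [e1]
    norm_num

/-! ### the triangle -/

private theorem ntri_iff {e m μ : ℝ} (hm1 : 938 ≤ m) (hμ1 : 436 ≤ μ) (hμ2 : μ ≤ 444) (z : ℂ) :
    z ∈ tri (vM e μ) (vM e (-360)) (vM' e (nx μ)) ↔
      (cM e m z.re z.im ∧
      4 * z.re + 3 * z.im ≤ 4 * (e - 81120 + 119 * μ) + 3 * (-117624 + 120 * μ)) := by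
  have hw := nx_mul μ
  obtain ⟨x, hx⟩ : ∃ x, x = nx μ := ⟨_, rfl⟩
  rw [← hx] at hw ⊢
  have hx1 : 119 * μ < x := by linarith
  have hx2 : x ≤ 119 * μ + 1 := by linarith
  obtain ⟨X, hX⟩ : ∃ X, X = z.re - (e - 81120) := ⟨_, rfl⟩
  obtain ⟨Y, hY⟩ : ∃ Y, Y = z.im + 117624 := ⟨_, rfl⟩
  have hre : z.re = X + (e - 81120) := by rw [hX]; ring
  have him : z.im = Y - 117624 := by rw [hY]; ring
  have e1 : cr (vM e μ) (vM e (-360)) z = (μ + 360) * (120 * X - 119 * Y) := by
    simp only [cr, vM, hre, him]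
    ring
  have e2 : cr (vM e (-360)) (vM' e x) z = (x + 42840) / 190400000 *
      (190400000 * Y - (191999881 * X - 5097960)) := by
    simp only [cr, vM, vM', hre, him]
    ring
  have e3 : cr (vM' e x) (vM e μ) z = (x - 119 * μ) / 3 * (836 * μ - (4 * X + 3 * Y)) := by
    have hy : (191999881 * x - 5097960) / 190400000 = 120 * μ - 4 / 3 * (x - 119 * μ) := by
      linarith
    simp only [cr, vM, vM', hre, him]
    rw [hy]
    ring
  have hc1 : 0 < μ + 360 := by linarith
  have hc2 : 0 < (x + 42840) / 190400000 := by linarith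
  have hc3 : 0 < (x - 119 * μ) / 3 := by linarith
  unfold cM
  rw [← hX, ← hY]
  constructor
  · rintro ⟨h1, h2, h3⟩
    rw [e1] at h1
    rw [e2] at h2
    rw [e3] at h3
    have g1 := nonneg_of_mul_nonneg_right h1 hc1
    have g2 := nonneg_of_mul_nonneg_right h2 hc2
    have g3 := nonneg_of_mul_nonneg_right h3 hc3
    refine ⟨⟨?_, by linarith, by linarith⟩, by linarith⟩
    have hX2 : X ≤ 119 * μ + 1 := by linarith
    linarith
  · rintro ⟨⟨_, g1, g2⟩, g3⟩
    refine ⟨?_, ?_, ?_⟩
    · rw [e1]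
      exact mul_nonneg hc1.le (by linarith)
    · rw [e2]
      exact mul_nonneg hc2.le (by linarith)
    · rw [e3]
      exact mul_nonneg hc3.le (by linarith)

private theorem ntri_pos {e μ : ℝ} (hμ1 : 436 ≤ μ) (hμ2 : μ ≤ 444) :
    0 < cr (vM e μ) (vM e (-360)) (vM' e (nx μ)) := by
  have hw := nx_mul μ
  obtain ⟨x, hx⟩ : ∃ x, x = nx μ := ⟨_, rfl⟩
  rw [← hx] at hw ⊢
  have hy : (191999881 * x - 5097960) / 190400000 = 120 * μ - 4 / 3 * (x - 119 * μ) := by
    linarith
  have e1 : cr (vM e μ) (vM e (-360)) (vM' e x) = (μ + 360) * (836 / 3 * (x - 119 * μ)) := by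
    simp only [cr, vM, vM']
    rw [hy]
    ring
  rw [e1]
  exact mul_pos (by linarith) (by linarith)

theorem pN_poly {e m μ r r' : ℝ} (h : HN e m μ r r') : ∃ v, IsPolygon v (pN e m μ r r') := by
  obtain ⟨he1, he2, hm1, hm2, hμ1, hμ2, _, hrr⟩ := h
  obtain ⟨f1, f2⟩ := xfl_bounds hrr
  have hset : pN e m μ r r' =
      quad (vF e (xfl r r')) (vF e (18 / 5)) (vC e (432 / 325)) (vC e (xce r r')) ∪
      (tri (vM e μ) (vM e (-360)) (vM' e (nx μ)) ∪
        quad (vM e (1 / 1190)) (vM e (1 / 595)) (vF e (1 / 5)) (vF e (1 / 10))) := by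
    ext z
    rw [Set.mem_union, Set.mem_union, room_iff hrr, arm_iff, ntri_iff hm1 hμ1 hμ2]
    constructor
    · rintro (h | h | h)
      · exact Or.inl h
      · exact Or.inr (Or.inr h)
      · exact Or.inr (Or.inl h)
    · rintro (h | h | h)
      · exact Or.inl h
      · exact Or.inr (Or.inr h)
      · exact Or.inr (Or.inl h)
  obtain ⟨p1, p2, p3, p4⟩ := arm_pos e
  have hT := isPolygon_tri (ntri_pos (e := e) hμ1 hμ2)
  have hA := isPolygon_quad p1 p2 p3 p4
  have hR := room_poly (e := e) hrr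
  -- the first gluing
  have hint1 : tri (vM e μ) (vM e (-360)) (vM' e (nx μ)) ∩
      quad (vM e (1 / 1190)) (vM e (1 / 595)) (vF e (1 / 5)) (vF e (1 / 10)) =
      segment ℝ (vM e (1 / 595)) (vM e (1 / 1190)) := by
    apply Set.Subset.antisymm
    · rintro z ⟨hz1, hz2⟩
      rw [segment_symm]
      refine mem_segment_of_quad p1 p2 p3 p4 hz2 ?_
      rw [ntri_iff hm1 hμ1 hμ2] at hz1
      rw [arm_iff] at hz2
      obtain ⟨⟨_, g1, _⟩, _⟩ := hz1
      obtain ⟨_, _, _, g2⟩ := hz2
      have g3 : 119 * (z.im + 117624) = 120 * (z.re - (e - 81120)) := le_antisymm g1 g2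
      have e1 : cr (vM e (1 / 1190)) (vM e (1 / 595)) z =
          1 / 1190 * (119 * (z.im + 117624) - 120 * (z.re - (e - 81120))) := by
        simp only [cr, vM]
        ring
      rw [e1, g3, sub_self, mul_zero]
    · have h1 : vM e (1 / 595) ∈ tri (vM e μ) (vM e (-360)) (vM' e (nx μ)) := by
        rw [ntri_iff hm1 hμ1 hμ2]
        simp only [vM, cM]
        refine ⟨⟨by linarith, by linarith, by linarith⟩, by linarith⟩
      have h2 : vM e (1 / 1190) ∈ tri (vM e μ) (vM e (-360)) (vM' e (nx μ)) := by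
        rw [ntri_iff hm1 hμ1 hμ2]
        simp only [vM, cM]
        refine ⟨⟨by linarith, by linarith, by linarith⟩, by linarith⟩
      have h3 : vM e (1 / 595) ∈
          quad (vM e (1 / 1190)) (vM e (1 / 595)) (vF e (1 / 5)) (vF e (1 / 10)) := by
        rw [arm_iff]
        simp only [vM, cB]
        refine ⟨by linarith, by linarith, by linarith, by linarith⟩
      have h4 : vM e (1 / 1190) ∈
          quad (vM e (1 / 1190)) (vM e (1 / 595)) (vF e (1 / 5)) (vF e (1 / 10)) := by
        rw [arm_iff]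
        simp only [vM, cB]
        refine ⟨by linarith, by linarith, by linarith, by linarith⟩
      intro z hz
      exact ⟨pn_seg_tri h1 h2 hz, pn_seg_quad h3 h4 hz⟩
  have hc1 : 0 < μ + 360 := by linarith
  have hG1 : IsPolygon (vM e μ :: vM e (1 / 595) :: [vF e (1 / 5), vF e (1 / 10)] ++
      vM e (1 / 1190) :: vM e (-360) :: [vM' e (nx μ)])
      (tri (vM e μ) (vM e (-360)) (vM' e (nx μ)) ∪
        quad (vM e (1 / 1190)) (vM e (1 / 595)) (vF e (1 / 5)) (vF e (1 / 10))) := by
    refine glueSub (s := (μ - 1 / 595) / (μ + 360)) (t := (μ - 1 / 1190) / (μ + 360))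
      hT hA ?_ ?_ ?_ ?_ ?_ hint1
    · apply div_pos <;> linarith
    · exact div_lt_div_of_pos_right (by linarith) hc1
    · rw [div_lt_one hc1]
      linarith
    · apply Complex.ext
      · simp only [vM, Complex.add_re, Complex.mul_re, Complex.sub_im, Complex.sub_re,
          Complex.ofReal_re, Complex.ofReal_im]
        field_simp
        ring
      · simp only [vM, Complex.add_im, Complex.mul_im, Complex.sub_im, Complex.sub_re,
          Complex.ofReal_re, Complex.ofReal_im]
        field_simp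
        ring
    · apply Complex.ext
      · simp only [vM, Complex.add_re, Complex.mul_re, Complex.sub_im, Complex.sub_re,
          Complex.ofReal_re, Complex.ofReal_im]
        field_simp
        ring
      · simp only [vM, Complex.add_im, Complex.mul_im, Complex.sub_im, Complex.sub_re,
          Complex.ofReal_re, Complex.ofReal_im]
        field_simp
        ring
  -- the second gluing
  have hG1' : IsPolygon (vF e (1 / 5) :: vF e (1 / 10) ::
      [vM e (1 / 1190), vM e (-360), vM' e (nx μ), vM e μ, vM e (1 / 595)])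
      (tri (vM e μ) (vM e (-360)) (vM' e (nx μ)) ∪
        quad (vM e (1 / 1190)) (vM e (1 / 595)) (vF e (1 / 5)) (vF e (1 / 10))) :=
    IsPolygon.rotate_append (A := [vM e μ, vM e (1 / 595)])
      (B := [vF e (1 / 5), vF e (1 / 10), vM e (1 / 1190), vM e (-360), vM' e (nx μ)]) hG1
  have hint2 : quad (vF e (xfl r r')) (vF e (18 / 5)) (vC e (432 / 325)) (vC e (xce r r')) ∩
      (tri (vM e μ) (vM e (-360)) (vM' e (nx μ)) ∪
        quad (vM e (1 / 1190)) (vM e (1 / 595)) (vF e (1 / 5)) (vF e (1 / 10))) =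
      segment ℝ (vF e (1 / 10)) (vF e (1 / 5)) := by
    apply Set.Subset.antisymm
    · rintro z ⟨hz1, hz2⟩
      rw [room_iff hrr] at hz1
      obtain ⟨⟨g1, g2, g3, g4⟩, _⟩ := hz1
      rcases hz2 with hz2 | hz2
      · exfalso
        rw [ntri_iff hm1 hμ1 hμ2] at hz2
        obtain ⟨⟨_, g5, _⟩, _⟩ := hz2
        linarith
      · have hz2' := hz2
        rw [arm_iff] at hz2'
        obtain ⟨_, _, g5, _⟩ := hz2'
        have him : z.im = -58812 := le_antisymm g5 g1
        rw [segment_symm]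
        refine mem_segment_of_quad p3 p4 p1 p2 ⟨hz2.2.2.1, hz2.2.2.2, hz2.1, hz2.2.1⟩ ?_
        simp only [cr, vF, him]
        ring
    · have h1 : vF e (1 / 10) ∈
          quad (vF e (xfl r r')) (vF e (18 / 5)) (vC e (432 / 325)) (vC e (xce r r')) := by
        obtain ⟨c1, c2⟩ := xce_bounds hrr
        refine ⟨?_, ?_, ?_, ?_⟩
        · simp only [cr, vF]
          ring_nf
          exact le_refl _
        · simp only [cr, vF, vC]
          norm_num
        · have e1 : cr (vC e (432 / 325)) (vC e (xce r r')) (vF e (1 / 10)) =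
              (432 / 325 - xce r r') * (41 / 20) := by
            simp only [cr, vF, vC]
            ring
          rw [e1]
          exact mul_nonneg (by linarith) (by norm_num)
        · have e1 : cr (vC e (xce r r')) (vF e (xfl r r')) (vF e (1 / 10)) =
              41 / 20 * (1 / 10 - xfl r r') := by
            simp only [cr, vF, vC]
            ring
          rw [e1]
          exact mul_nonneg (by norm_num) (by linarith)
      have h2 : vF e (1 / 5) ∈
          quad (vF e (xfl r r')) (vF e (18 / 5)) (vC e (432 / 325)) (vC e (xce r r')) := by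
        obtain ⟨c1, c2⟩ := xce_bounds hrr
        refine ⟨?_, ?_, ?_, ?_⟩
        · simp only [cr, vF]
          ring_nf
          exact le_refl _
        · simp only [cr, vF, vC]
          norm_num
        · have e1 : cr (vC e (432 / 325)) (vC e (xce r r')) (vF e (1 / 5)) =
              (432 / 325 - xce r r') * (41 / 20) := by
            simp only [cr, vF, vC]
            ring
          rw [e1]
          exact mul_nonneg (by linarith) (by norm_num)
        · have e1 : cr (vC e (xce r r')) (vF e (xfl r r')) (vF e (1 / 5)) =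
              41 / 20 * (1 / 5 - xfl r r') := by
            simp only [cr, vF, vC]
            ring
          rw [e1]
          exact mul_nonneg (by norm_num) (by linarith)
      have h3 : vF e (1 / 10) ∈
          quad (vM e (1 / 1190)) (vM e (1 / 595)) (vF e (1 / 5)) (vF e (1 / 10)) := by
        rw [arm_iff]
        simp only [vF, cB]
        refine ⟨by linarith, by linarith, by linarith, by linarith⟩
      have h4 : vF e (1 / 5) ∈
          quad (vM e (1 / 1190)) (vM e (1 / 595)) (vF e (1 / 5)) (vF e (1 / 10)) := by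
        rw [arm_iff]
        simp only [vF, cB]
        refine ⟨by linarith, by linarith, by linarith, by linarith⟩
      intro z hz
      exact ⟨pn_seg_quad h1 h2 hz, Or.inr (pn_seg_quad h3 h4 hz)⟩
  have hfx : 0 < 18 / 5 - xfl r r' := by linarith
  have hpt : ∀ q : ℝ, vF e q = vF e (xfl r r') +
      (((q - xfl r r') / (18 / 5 - xfl r r') : ℝ) : ℂ) * (vF e (18 / 5) - vF e (xfl r r')) := by
    intro q
    apply Complex.ext
    · simp only [vF, Complex.add_re, Complex.mul_re, Complex.sub_im, Complex.sub_re,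
        Complex.ofReal_re, Complex.ofReal_im]
      have h1 : e - 81120 + 18 / 5 - (e - 81120 + xfl r r') = 18 / 5 - xfl r r' := by ring
      rw [h1, div_mul_cancel₀ _ hfx.ne']
      ring
    · simp only [vF, Complex.add_im, Complex.mul_im, Complex.sub_im, Complex.sub_re,
        Complex.ofReal_re, Complex.ofReal_im]
      ring
  have hG2 := glueSub (s := (1 / 10 - xfl r r') / (18 / 5 - xfl r r'))
    (t := (1 / 5 - xfl r r') / (18 / 5 - xfl r r')) hR hG1' (by apply div_pos <;> linarith)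
    (div_lt_div_of_pos_right (by linarith) hfx) (by rw [div_lt_one hfx]; linarith) (hpt _) (hpt _)
    hint2
  rw [hset]
  exact ⟨_, hG2⟩

end MPc01941
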