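import Pool.Agent.Lib.MP_c01941_lc.PMPoly
import Pool.Agent.Lib.MP_c01941_lc.PMFat
import Pool.Agent.Lib.MP_c01941_lc.PNPoly
import Pool.Agent.Lib.MP_c01941_lc.PNFat
import Pool.Agent.Lib.MP_c01941_lc.PCPoly
import Pool.Agent.Lib.MP_c01941_lc.PCFat
import Pool.Agent.Lib.MP_c01941_lc.Disj
import Pool.Agent.Lib.MP_c01941_lc.CfgN

/-!
FP-Exist. The region has a `67600`-bounded partition into `3n` pieces. Sequences
`a j = 135200 z_{2j}`, `r j = 13/8 - (z_{2j} + t_{2j})`, `r' j = 13/8 - z_{2j+1}`,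
`μ j = 940 - 800 z_{2j+1}`. The hypotheses `HM`, `HN`, `HC` hold by `zz_bounds`, `cfg_e`, `cfg_m`,
`FF_kap` and `zz_succ`, `zz_end` (`169 (m j - μ j) = 135200 (z_{2j+1} + t_{2j+1})`).
Translated pieces are good (`IsPolygon.translate`), `aspect_le`. The list of pieces:
`(List.range (3n)).map (piece ..)`, with vertex lists chosen.
-/

namespace MPc01941

open Metric

theorem Good.translate {Q : Set ℂ} (h : Good Q) (w : ℂ) : Good {z | z - w ∈ Q} := by
  obtain ⟨⟨v, hv⟩, r, c, c', hr, h1, h2⟩ := h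
  refine ⟨⟨_, hv.translate w⟩, r, c + w, c' + w, hr, ?_, ?_⟩
  · intro z hz
    refine h1 ?_
    rw [mem_closedBall, dist_eq_norm] at hz ⊢
    rwa [sub_sub, add_comm w c]
  · intro z hz
    have h3 := h2 hz
    rw [mem_closedBall, dist_eq_norm] at h3 ⊢
    rwa [sub_sub, add_comm w c'] at h3

private noncomputable def exa (n j : ℕ) : ℝ := 135200 * zz n (2 * j)
private noncomputable def exr (n j : ℕ) : ℝ := 13 / 8 - (zz n (2 * j) + tt n (2 * j))
private noncomputable def exr' (n j : ℕ) : ℝ := 13 / 8 - zz n (2 * j + 1)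
private noncomputable def exμ (n j : ℕ) : ℝ := 940 - 800 * zz n (2 * j + 1)

private theorem ex_a0 (n : ℕ) (hn : 1 ≤ n) : exa n 0 = (cfg n hn).a0 := by
  have h : zz n (2 * 0) = 78 / 125 := zz_zero n
  unfold exa
  rw [h]
  show (135200 * (78 / 125) : ℝ) = 421824 / 5
  norm_num

private theorem ex_an (n : ℕ) (hn : 1 ≤ n) : exa n (cfg n hn).n = (cfg n hn).a1 := by
  have h : zz n (2 * (cfg n hn).n) = 78 / 125 := zz_end hn
  unfold exa
  rw [h]
  show (135200 * (78 / 125) : ℝ) = 421824 / 5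
  norm_num

private theorem ex_RR {n j : ℕ} (hn : 1 ≤ n) (hj : j < n) : RR (exr n j) (exr' n j) := by
  obtain ⟨_, _, h3, h4⟩ := zz_bounds hn (i := 2 * j) (by omega)
  obtain ⟨h5, h6, _, _⟩ := zz_bounds hn (i := 2 * j + 1) (by omega)
  unfold exr exr'
  refine ⟨by linarith, by linarith, by linarith, by linarith, ?_⟩
  have h7 : 13 / 8 - (13 / 8 - (zz n (2 * j) + tt n (2 * j))) = zz n (2 * j) + tt n (2 * j) := by
    ring
  have h8 : 13 / 8 - (13 / 8 - zz n (2 * j + 1)) = zz n (2 * j + 1) := by ring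
  rw [h7, h8, zz_succ]
  exact FF_kap (by linarith) (by linarith)

private theorem ex_HM {n j : ℕ} (hn : 1 ≤ n) (hj : j < n) :
    HM ((cfg n hn).e j) (exa n j) (exr n j) (exr' n j) := by
  obtain ⟨h1, h2, _, _⟩ := zz_bounds hn (i := 2 * j) (by omega)
  refine ⟨((cfg n hn).he j).1, ((cfg n hn).he j).2, ?_, ?_, ?_, ex_RR hn hj⟩
  · unfold exa; linarith
  · unfold exa; linarith
  · rw [cfg_e]; unfold exa exr; ring

private theorem ex_μ {n j : ℕ} (hn : 1 ≤ n) (hj : j < n) : 436 ≤ exμ n j ∧ exμ n j ≤ 444 := by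
  obtain ⟨h5, h6, _, _⟩ := zz_bounds hn (i := 2 * j + 1) (by omega)
  unfold exμ
  constructor <;> linarith

private theorem ex_HN {n j : ℕ} (hn : 1 ≤ n) (hj : j < n) :
    HN ((cfg n hn).e j) ((cfg n hn).m j) (exμ n j) (exr n j) (exr' n j) := by
  refine ⟨((cfg n hn).he j).1, ((cfg n hn).he j).2, ((cfg n hn).hm j).1, ((cfg n hn).hm j).2,
    (ex_μ hn hj).1, (ex_μ hn hj).2, ?_, ex_RR hn hj⟩
  unfold exμ exr'
  ring

private theorem ex_HC {n j : ℕ} (hn : 1 ≤ n) (hj : j < n) :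
    HC ((cfg n hn).m j) (exμ n j) ((cfg n hn).e (j + 1)) (exa n (j + 1)) := by
  obtain ⟨h1, h2, _, _⟩ := zz_bounds hn (i := 2 * (j + 1)) (by omega)
  obtain ⟨h5, h6, h7, h8⟩ := zz_bounds hn (i := 2 * j + 1) (by omega)
  refine ⟨((cfg n hn).hm j).1, ((cfg n hn).hm j).2, (ex_μ hn hj).1, (ex_μ hn hj).2,
    ((cfg n hn).he (j + 1)).1, ((cfg n hn).he (j + 1)).2, ?_, ?_, ?_⟩
  · unfold exa; linarith
  · unfold exa; linarith
  · rw [cfg_m]
    unfold exμ exa
    have e1 : 2 * (j + 1) = 2 * j + 1 + 1 := by ring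
    rw [e1, zz_succ n (2 * j + 1)]
    have h9 := FF_kap (x := zz n (2 * j + 1) + tt n (2 * j + 1)) (by linarith) (by linarith)
    set k := kap (zz n (2 * j + 1) + tt n (2 * j + 1))
    unfold FF at h9 ⊢
    linear_combination (135200 ^ 2 : ℝ) * h9

private theorem ex_good {n : ℕ} (hn : 1 ≤ n) {i : ℕ} (hi : i < 3 * n) :
    Good ((cfg n hn).piece (exa n) (exr n) (exr' n) (exμ n) i) := by
  have hj : i / 3 < n := by omega
  have h3 : i % 3 < 3 := Nat.mod_lt _ (by norm_num)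
  unfold Cfg.piece
  rcases h : i % 3 with _ | _ | k
  · exact Good.translate ⟨pM_poly (ex_HM hn hj), pM_fat (ex_HM hn hj)⟩ _
  · exact Good.translate ⟨pN_poly (ex_HN hn hj), pN_fat (ex_HN hn hj)⟩ _
  · exact Good.translate ⟨pC_poly (ex_HC hn hj), pC_fat (ex_HC hn hj)⟩ _

theorem exists_partition {n : ℕ} (hn : 1 ≤ n) :
    ∃ W, W.length = 3 * n ∧ IsBoundedPartition 67600 (cfg n hn).P W := by
  classical
  have hgood : ∀ i, i < 3 * n → Good ((cfg n hn).piece (exa n) (exr n) (exr' n) (exμ n) i) :=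
    fun i hi => ex_good hn hi
  set p : ℕ → Set ℂ := (cfg n hn).piece (exa n) (exr n) (exr' n) (exμ n) with hp
  have hv : ∀ i, ∃ v, i < 3 * n → IsPolygon v (p i) := by
    intro i
    by_cases hi : i < 3 * n
    · obtain ⟨⟨v, hv⟩, _⟩ := hgood i hi
      exact ⟨v, fun _ => hv⟩
    · exact ⟨[], fun h => absurd h hi⟩
  choose v hv using hv
  refine ⟨(List.range (3 * n)).map v, by simp, (List.range (3 * n)).map p, ?_, ?_, ?_, ?_⟩
  · rw [List.forall₂_map_left_iff, List.forall₂_map_right_iff, List.forall₂_same]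
    intro i hi
    exact hv i (List.mem_range.1 hi)
  · have h := (cfg n hn).piece_cover (exa n) (exr n) (exr' n) (exμ n) (ex_a0 n hn) (ex_an n hn)
    rw [h]
    ext z
    simp only [List.mem_map, List.mem_range, Set.mem_iUnion, exists_prop, Finset.mem_range]
    constructor
    · rintro ⟨_, ⟨i, hi, rfl⟩, hz⟩
      exact ⟨i, hi, hz⟩
    · rintro ⟨i, hi, hz⟩
      exact ⟨_, ⟨i, hi, rfl⟩, hz⟩
  · rw [List.pairwise_map]
    refine List.Pairwise.imp_of_mem ?_ List.pairwise_lt_range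
    intro i k _ hk hik
    exact (cfg n hn).piece_disj (exa n) (exr n) (exr' n) (exμ n) (ex_a0 n hn) (ex_an n hn)
      (fun j hj => ex_RR hn hj) hik (List.mem_range.1 hk)
  · intro Q hQ
    obtain ⟨i, hi, rfl⟩ := List.mem_map.1 hQ
    obtain ⟨_, r, c, c', hr, h1, h2⟩ := hgood i (List.mem_range.1 hi)
    exact aspect_le hr h1 h2 le_rfl

end MPc01941
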