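import Pool.Agent.Lib.MP_c01941_lc.InT2

/-!
FP-Ext. Extents of the piece of the bend on the two lines.
`extL`: `S = {x ∈ [0, e] | pt (j+1) x 0 ∈ Q (f (3j+2))}` is closed, contains `0`, bounded by `156000`
(`small`); `a = sSup S ∈ S`. For `x ∈ (a, e]`, `x ≥ 3`, the point `pt (j+1) x 0` is in the cell
`6 (j+1)`, so by `coverL` in the piece `f (3 (j+1))`, which contains `t_{j+1}`: `dist_le` gives
`e - x ≤ 135200 r`. If `a < 3`, `x = 3` contradicts `r ≤ 15/13`. So `a ≥ 3`, let `x → a`.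
`extM`: the same with the points `pt (j+1) (-119 s/169) (-120 s/169)`, `0 ≤ s ≤ 60840 + 169 m`,
which are in the cell `6j+4`; the end `s = 60840 + 169 m` is the witness `t'_j`.
`ext_first`: `pt 0 a0 0` is in the cell `0`. `ext_last`: `pt n a1 0` is in the cell `6n`.
-/

namespace MPc01941

open Metric

variable {c : Cfg} {p : Part c} {f : ℕ → Fin p.N}

/-- the last parameter of a closed set in an interval -/
private theorem ext_aux {L R : ℝ} (hL : 0 ≤ L) (hR : 0 ≤ R) {S : Set ℝ} (hS : IsClosed S)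
    (h0 : (0 : ℝ) ∈ S) {s0 : ℝ} (hs0 : L - s0 > R ∨ s0 ≤ 0)
    (h : ∀ s, s0 ≤ s → 0 ≤ s → s ≤ L → s ∉ S → L - s ≤ R) :
    ∃ a : ℝ, 0 ≤ a ∧ a ∈ S ∧ L - a ≤ R := by
  set T : Set ℝ := S ∩ Set.Icc 0 L with hT
  have hTc : IsCompact T := isCompact_Icc.inter_left hS
  have hTn : T.Nonempty := ⟨0, h0, le_rfl, hL⟩
  have ha := hTc.sSup_mem hTn
  set a := sSup T with haT
  refine ⟨a, ha.2.1, ha.1, ?_⟩
  have hup : ∀ s, a < s → s ≤ L → s ∉ S := by
    intro s h1 h2 h3
    have h4 : s ∈ T := ⟨h3, by linarith [ha.2.1], h2⟩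
    have h5 : s ≤ a := le_csSup hTc.bddAbove h4
    linarith
  by_contra hcon
  push Not at hcon
  -- `a < L - R`
  have key : ∀ s, a < s → s0 ≤ s → s ≤ L → L - s ≤ R := fun s h1 h2 h3 =>
    h s h2 (by linarith [ha.2.1]) h3 (hup s h1 h3)
  rcases hs0 with hs0 | hs0
  · set s := max ((a + (L - R)) / 2) s0 with hs
    have h1 : (a + (L - R)) / 2 ≤ s := le_max_left _ _
    have h2 : s0 ≤ s := le_max_right _ _
    have h3 : s < L - R := by
      rw [hs]
      exact max_lt (by linarith) (by linarith)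
    have h4 := key s (by linarith) h2 (by linarith)
    linarith
  · have h4 := key ((a + (L - R)) / 2) (by linarith) (by linarith [ha.2.1]) (by linarith)
    linarith

private theorem ext_mem_P (c : Cfg) {z : ℂ} {i : ℕ} (hi : i ≤ 6 * c.n) (hz : z ∈ c.K i) :
    z ∈ c.P := ⟨i, hi, hz⟩

private theorem ext_piece (p : Part c) {z : ℂ} {i : ℕ} (hi : i ≤ 6 * c.n) (hz : z ∈ c.K i) :
    ∃ k, z ∈ p.Q k := by
  have h := ext_mem_P c hi hz
  rw [p.cover] at h
  simpa using h

private theorem ext_pt_cont (c : Cfg) (j : ℕ) (u v : ℝ) :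
    Continuous fun s : ℝ => c.pt j (u * s) (v * s) := by
  have h : (fun s : ℝ => c.pt j (u * s) (v * s)) =
      fun s : ℝ => ((c.ox j + u * s : ℝ) : ℂ) + ((c.oy j + v * s : ℝ) : ℂ) * Complex.I := by
    funext s
    apply Complex.ext <;> simp [Cfg.pt]
  rw [h]
  fun_prop

private theorem ext_re_le {z w : ℂ} : w.re - z.re ≤ dist z w := by
  rw [dist_comm, dist_eq_norm]
  calc w.re - z.re = (w - z).re := by simp
    _ ≤ ‖w - z‖ := Complex.re_le_norm _

private theorem ext_L_mem (c : Cfg) {j : ℕ} (hj : j < c.n) (h1 : 1 ≤ j) {x : ℝ} (h3 : 3 ≤ x)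
    (hx : x ≤ c.e j) : c.pt j x 0 ∈ c.K (6 * j) := by
  have h := c.mem_K j 0 (by norm_num) (c.pt j x 0)
  rw [add_zero] at h
  rw [h]
  have e1 : (c.pt j x 0).re - c.ox j = x := by simp [Cfg.pt]
  have e2 : (c.pt j x 0).im - c.oy j = 0 := by simp [Cfg.pt]
  rw [e1, e2]
  exact ⟨⟨h3, le_rfl, by linarith⟩, fun h => by omega, fun h => by omega⟩

theorem Asg.extL (h : Asg p f) {j : ℕ} (hj : j + 1 < c.n) :
    ∃ a : ℝ, 0 ≤ a ∧ c.pt (j + 1) a 0 ∈ p.Q (f (3 * j + 2)) ∧
      c.e (j + 1) - a ≤ 135200 * p.r (f (3 * (j + 1))) := by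
  have he := c.he (j + 1)
  have hr : p.r (f (3 * (j + 1))) ≤ 15 / 13 :=
    c.ball_le ((p.inb (f (3 * (j + 1)))).trans (p.sub _))
  have hr0 := p.pos (f (3 * (j + 1)))
  set S : Set ℝ := {s | c.pt (j + 1) (1 * s) (0 * s) ∈ p.Q (f (3 * j + 2))} with hS
  have hSc : IsClosed S := (p.closed _).preimage (ext_pt_cont c (j + 1) 1 0)
  have h0 : (0 : ℝ) ∈ S := by
    have := h.mem (3 * j + 2) (by omega)
    rw [c.wit2] at this
    simpa [hS] using this
  obtain ⟨a, ha0, haS, ha⟩ := ext_aux (L := c.e (j + 1)) (R := 135200 * p.r (f (3 * (j + 1))))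
    (by linarith) (by positivity) hSc h0 (s0 := 3) (Or.inl (by linarith)) (by
      intro s hs3 hs0 hsL hsS
      have hK := ext_L_mem c hj (by omega) hs3 hsL
      obtain ⟨k, hk⟩ := ext_piece p (by omega) hK
      rcases h.coverL (by omega) hk hK with ⟨_, rfl⟩ | ⟨j', hj', rfl⟩
      · have hw := h.mem (3 * (j + 1)) (by omega)
        have hd := p.dist_le _ hk hw
        refine le_trans ?_ hd
        refine le_trans (le_of_eq ?_) ext_re_le
        rw [c.wit0]
        simp [Cfg.pt]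
      · exfalso
        have : j' = j := by omega
        subst this
        apply hsS
        simpa [hS] using hk)
  refine ⟨a, ha0, ?_, ha⟩
  simpa [hS] using haS

private theorem ext_M_mem (c : Cfg) (j : ℕ) {s : ℝ} (h0 : 0 ≤ s)
    (hs : s ≤ 60840 + 169 * c.m j) :
    c.pt (j + 1) (-119 / 169 * s) (-120 / 169 * s) ∈ c.K (6 * j + 4) := by
  rw [c.mem_K j 4 (by norm_num)]
  have e1 : (c.pt (j + 1) (-119 / 169 * s) (-120 / 169 * s)).re - c.ox j =
      c.e j - 81120 + 119 * c.m j - 119 / 169 * s := by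
    simp only [Cfg.pt]
    rw [c.ox_succ]
    ring
  have e2 : (c.pt (j + 1) (-119 / 169 * s) (-120 / 169 * s)).im - c.oy j =
      -117624 + 120 * c.m j - 120 / 169 * s := by
    simp only [Cfg.pt]
    rw [c.oy_succ]
    ring
  rw [e1, e2]
  refine ⟨?_, ?_, ?_⟩ <;> linarith

theorem Asg.extM (h : Asg p f) {j : ℕ} (hj : j < c.n) :
    ∃ b : ℝ, 0 ≤ b ∧ c.pt (j + 1) (-119 * b / 169) (-120 * b / 169) ∈ p.Q (f (3 * j + 2)) ∧
      60840 + 169 * c.m j - b ≤ 135200 * p.r (f (3 * j + 1)) := by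
  have hm := c.hm j
  have hr0 := p.pos (f (3 * j + 1))
  set S : Set ℝ := {s | c.pt (j + 1) (-119 / 169 * s) (-120 / 169 * s) ∈ p.Q (f (3 * j + 2))}
    with hS
  have hSc : IsClosed S := (p.closed _).preimage (ext_pt_cont c (j + 1) (-119 / 169) (-120 / 169))
  have h0 : (0 : ℝ) ∈ S := by
    have := h.mem (3 * j + 2) (by omega)
    rw [c.wit2] at this
    simpa [hS] using this
  obtain ⟨a, ha0, haS, ha⟩ := ext_aux (L := 60840 + 169 * c.m j)
    (R := 135200 * p.r (f (3 * j + 1))) (by linarith) (by positivity) hSc h0 (s0 := 0)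
    (Or.inr le_rfl) (by
      intro s _ hs0 hsL hsS
      have hK := ext_M_mem c j hs0 hsL
      obtain ⟨k, hk⟩ := ext_piece p (by omega) hK
      rcases h.coverM hj hk hK with rfl | rfl
      · have hw := h.mem (3 * j + 1) (by omega)
        have hd := p.dist_le _ hk hw
        refine le_trans ?_ hd
        rw [c.wit1, dist_eq_norm]
        have e1 : (c.pt (j + 1) (-119 / 169 * s) (-120 / 169 * s) -
            c.pt j (c.e j - 123960) (-160824)) =
            (⟨119 / 169 * (60840 + 169 * c.m j - s), 120 / 169 * (60840 + 169 * c.m j - s)⟩ : ℂ) := by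
          apply Complex.ext
          · simp only [Cfg.pt, Complex.sub_re]
            rw [c.ox_succ]
            ring
          · simp only [Cfg.pt, Complex.sub_im]
            rw [c.oy_succ]
            ring
        rw [e1, Complex.norm_eq_sqrt_sq_add_sq]
        apply Real.le_sqrt_of_sq_le
        nlinarith
      · exfalso
        exact hsS hk)
  refine ⟨a, ha0, ?_, ha⟩
  have e1 : -119 * a / 169 = -119 / 169 * a := by ring
  have e2 : -120 * a / 169 = -120 / 169 * a := by ring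
  rw [e1, e2]
  exact haS

theorem Asg.ext_first (h : Asg p f) : c.e 0 - c.a0 ≤ 135200 * p.r (f 0) := by
  have hn := c.hn
  have he := c.he 0
  have ha := c.ha0
  have hK : c.pt 0 c.a0 0 ∈ c.K (6 * 0) := by
    have h := c.mem_K 0 0 (by norm_num) (c.pt 0 c.a0 0)
    rw [add_zero] at h
    rw [h]
    have e1 : (c.pt 0 c.a0 0).re - c.ox 0 = c.a0 := by simp [Cfg.pt]
    have e2 : (c.pt 0 c.a0 0).im - c.oy 0 = 0 := by simp [Cfg.pt]
    rw [e1, e2]
    exact ⟨⟨by linarith, le_rfl, by linarith⟩, fun _ => by linarith, fun h => by omega⟩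
  obtain ⟨k, hk⟩ := ext_piece p (by omega) hK
  rcases h.coverL (by omega) hk hK with ⟨_, rfl⟩ | ⟨j', hj', _⟩
  · have hw := h.mem (3 * 0) (by omega)
    have hd := p.dist_le _ hk hw
    refine le_trans ?_ hd
    refine le_trans (le_of_eq ?_) ext_re_le
    rw [c.wit0]
    simp [Cfg.pt]
  · omega

theorem Asg.ext_last (h : Asg p f) {j : ℕ} (hj : j + 1 = c.n) :
    c.pt (j + 1) c.a1 0 ∈ p.Q (f (3 * j + 2)) := by
  have hn := c.hn
  have he := c.he (j + 1)
  have ha := c.ha1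
  have hK : c.pt (j + 1) c.a1 0 ∈ c.K (6 * (j + 1)) := by
    have h := c.mem_K (j + 1) 0 (by norm_num) (c.pt (j + 1) c.a1 0)
    rw [add_zero] at h
    rw [h]
    have e1 : (c.pt (j + 1) c.a1 0).re - c.ox (j + 1) = c.a1 := by simp [Cfg.pt]
    have e2 : (c.pt (j + 1) c.a1 0).im - c.oy (j + 1) = 0 := by simp [Cfg.pt]
    rw [e1, e2]
    exact ⟨⟨by linarith, le_rfl, by linarith⟩, fun h => by omega, fun _ => by linarith⟩
  obtain ⟨k, hk⟩ := ext_piece p (by omega) hK
  rcases h.coverL (by omega) hk hK with ⟨h1, _⟩ | ⟨j', hj', rfl⟩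
  · omega
  · have : j' = j := by omega
    subst this
    exact hk

end MPc01941
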