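import Pool.Agent.Lib.MP_c01941_lc.PolyBase

/-!
FP-Fat. The aspect ratio in terms of disks. For `fat_of_aspect_le`: the sets of pairs `(c, r)` with
`closedBall c r ⊆ Q`, and of pairs `(c, R)` with `Q ⊆ closedBall c R`, `R ≤ R₀`, are compact, so
`Rin` and `Rout` are attained; `Rin Q > 0` since `interior Q ≠ ∅`.
-/

namespace MPc01941

open Metric

private theorem fat_le {c c' : ℂ} {r R : ℝ} (hr : 0 ≤ r) (h : closedBall c r ⊆ closedBall c' R) :
    r ≤ R := by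
  have h1 : c + (r : ℂ) ∈ closedBall c' R := h (by
    rw [mem_closedBall, dist_eq_norm, add_sub_cancel_left, Complex.norm_real, Real.norm_eq_abs,
      abs_of_nonneg hr])
  have h2 : c - (r : ℂ) ∈ closedBall c' R := h (by
    rw [mem_closedBall, dist_eq_norm, sub_sub_cancel_left, norm_neg, Complex.norm_real,
      Real.norm_eq_abs, abs_of_nonneg hr])
  have h3 : dist (c + (r : ℂ)) (c - (r : ℂ)) = 2 * r := by
    rw [dist_eq_norm]
    have h4 : c + (r : ℂ) - (c - (r : ℂ)) = ((2 * r : ℝ) : ℂ) := by push_cast; ring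
    rw [h4, Complex.norm_real, Real.norm_eq_abs, abs_of_nonneg (by linarith)]
  have h4 := dist_triangle_right (c + (r : ℂ)) (c - (r : ℂ)) c'
  rw [mem_closedBall] at h1 h2
  linarith

theorem aspect_le {Q : Set ℂ} {c c' : ℂ} {r R α : ℝ} (hr : 0 < r) (h1 : closedBall c r ⊆ Q)
    (h2 : Q ⊆ closedBall c' R) (h : R ≤ α * r) : aspect Q ≤ α := by
  have hrR : r ≤ R := fat_le hr.le (h1.trans h2)
  have hin : r ≤ Rin Q := by
    refine le_csSup ⟨R, ?_⟩ ⟨hr.le, c, h1⟩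
    rintro s ⟨hs, c₁, hc₁⟩
    exact fat_le hs (hc₁.trans h2)
  have hout : Rout Q ≤ R := by
    refine csInf_le ⟨0, ?_⟩ ⟨hr.le.trans hrR, c', h2⟩
    rintro s ⟨hs, -⟩
    exact hs
  have hpos : 0 < Rin Q := hr.trans_le hin
  have hα : 0 ≤ α := by
    by_contra hneg
    push Not at hneg
    have := mul_neg_of_neg_of_pos hneg hr
    linarith
  unfold aspect
  rw [div_le_iff₀ (by linarith)]
  have h3 : α * r ≤ α * Rin Q := mul_le_mul_of_nonneg_left hin hα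
  linarith

private theorem fat_ball_iff {c : ℂ} {r : ℝ} (hr : 0 ≤ r) (Q : Set ℂ) :
    closedBall c r ⊆ Q ↔ ∀ u ∈ closedBall (0 : ℂ) 1, c + (r : ℂ) * u ∈ Q := by
  constructor
  · intro h u hu
    refine h ?_
    rw [mem_closedBall, dist_eq_norm, add_sub_cancel_left, norm_mul, Complex.norm_real,
      Real.norm_eq_abs, abs_of_nonneg hr]
    rw [mem_closedBall, dist_zero_right] at hu
    nlinarith [norm_nonneg u]
  · intro h z hz
    rcases hr.eq_or_lt with h0 | h0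
    · rw [← h0, closedBall_zero, Set.mem_singleton_iff] at hz
      have h1 := h 0 (by simp)
      rw [mul_zero, add_zero] at h1
      rw [hz]; exact h1
    · have h1 := h ((z - c) / r) (by
        rw [mem_closedBall, dist_zero_right, norm_div, Complex.norm_real, Real.norm_eq_abs,
          abs_of_pos h0, div_le_one h0]
        rw [mem_closedBall, dist_eq_norm] at hz
        exact hz)
      have h2 : (r : ℂ) ≠ 0 := by exact_mod_cast h0.ne'
      rw [mul_div_cancel₀ _ h2, add_sub_cancel] at h1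
      exact h1

theorem IsPolygon.fat {v : List ℂ} {Q : Set ℂ} (h : IsPolygon v Q) {α : ℝ} (hα : aspect Q ≤ α) :
    ∃ (r : ℝ) (c c' : ℂ), 0 < r ∧ closedBall c r ⊆ Q ∧ Q ⊆ closedBall c' (α * r) := by
  obtain ⟨R₀, hR₀⟩ := h.compact.isBounded.subset_closedBall (0 : ℂ)
  obtain ⟨z₀, hz₀⟩ := h.nonempty
  have hR₀0 : 0 ≤ R₀ := nonempty_closedBall.1 ⟨z₀, hR₀ hz₀⟩
  -- the inner disk
  have hA : ∃ p : ℝ × ℂ, (0 ≤ p.1 ∧ closedBall p.2 p.1 ⊆ Q) ∧
      ∀ q : ℝ × ℂ, (0 ≤ q.1 ∧ closedBall q.2 q.1 ⊆ Q) → q.1 ≤ p.1 := by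
    have hcl : IsClosed {q : ℝ × ℂ | 0 ≤ q.1 ∧ closedBall q.2 q.1 ⊆ Q} := by
      have h1 : {q : ℝ × ℂ | 0 ≤ q.1 ∧ closedBall q.2 q.1 ⊆ Q} =
          {q : ℝ × ℂ | 0 ≤ q.1} ∩ ⋂ u ∈ closedBall (0 : ℂ) 1, {q : ℝ × ℂ | q.2 + (q.1 : ℂ) * u ∈ Q} := by
        ext q
        simp only [Set.mem_ofPred_eq, Set.mem_inter_iff, Set.mem_iInter]
        constructor
        · rintro ⟨h1, h2⟩
          exact ⟨h1, (fat_ball_iff h1 Q).1 h2⟩
        · rintro ⟨h1, h2⟩
          exact ⟨h1, (fat_ball_iff h1 Q).2 h2⟩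
      rw [h1]
      refine (isClosed_le continuous_const continuous_fst).inter
        (isClosed_biInter fun u _ => ?_)
      exact h.compact.isClosed.preimage (continuous_snd.add
        ((Complex.continuous_ofReal.comp continuous_fst).mul continuous_const))
    have hcomp : IsCompact {q : ℝ × ℂ | 0 ≤ q.1 ∧ closedBall q.2 q.1 ⊆ Q} := by
      refine ((isCompact_Icc (a := (0 : ℝ)) (b := R₀)).prod h.compact).of_isClosed_subset hcl ?_
      rintro ⟨q1, q2⟩ ⟨h1, h2⟩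
      exact ⟨⟨h1, fat_le h1 (h2.trans hR₀)⟩, h2 (mem_closedBall_self h1)⟩
    obtain ⟨p, hp, hp'⟩ := hcomp.exists_isMaxOn ⟨(0, z₀), le_rfl, by
      simp only [closedBall_zero]; exact Set.singleton_subset_iff.2 hz₀⟩
      continuous_fst.continuousOn
    exact ⟨p, hp, fun q hq => hp' hq⟩
  obtain ⟨⟨r, c⟩, ⟨hr0, hrQ⟩, hmax⟩ := hA
  simp only at hr0 hrQ hmax
  have hr : 0 < r := by
    have h1 : (interior Q).Nonempty := by
      rw [← closure_nonempty_iff, h.regular]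
      exact h.nonempty
    obtain ⟨z, hz⟩ := h1
    obtain ⟨ε, hε, hε'⟩ := Metric.isOpen_iff.1 isOpen_interior z hz
    have h2 := hmax (ε / 2, z) ⟨by simp only; linarith,
      (closedBall_subset_ball (by simp only; linarith)).trans (hε'.trans interior_subset)⟩
    simp only at h2
    linarith
  have hRin : Rin Q = r := by
    refine IsGreatest.csSup_eq ⟨⟨hr0, c, hrQ⟩, ?_⟩
    rintro s ⟨hs, c₁, hc₁⟩
    exact hmax (s, c₁) ⟨hs, hc₁⟩
  -- the outer disk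
  have hB : ∃ p : ℝ × ℂ, (0 ≤ p.1 ∧ p.1 ≤ R₀ ∧ Q ⊆ closedBall p.2 p.1) ∧
      ∀ q : ℝ × ℂ, (0 ≤ q.1 ∧ q.1 ≤ R₀ ∧ Q ⊆ closedBall q.2 q.1) → p.1 ≤ q.1 := by
    have hcl : IsClosed {q : ℝ × ℂ | 0 ≤ q.1 ∧ q.1 ≤ R₀ ∧ Q ⊆ closedBall q.2 q.1} := by
      have h1 : {q : ℝ × ℂ | 0 ≤ q.1 ∧ q.1 ≤ R₀ ∧ Q ⊆ closedBall q.2 q.1} =
          {q : ℝ × ℂ | 0 ≤ q.1} ∩ ({q : ℝ × ℂ | q.1 ≤ R₀} ∩
            ⋂ z ∈ Q, {q : ℝ × ℂ | dist z q.2 ≤ q.1}) := by
        ext q
        simp only [Set.mem_ofPred_eq, Set.mem_inter_iff, Set.mem_iInter]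
        rfl
      rw [h1]
      refine (isClosed_le continuous_const continuous_fst).inter
        ((isClosed_le continuous_fst continuous_const).inter (isClosed_biInter fun u _ => ?_))
      exact isClosed_le (continuous_const.dist continuous_snd) continuous_fst
    have hcomp : IsCompact {q : ℝ × ℂ | 0 ≤ q.1 ∧ q.1 ≤ R₀ ∧ Q ⊆ closedBall q.2 q.1} := by
      refine ((isCompact_Icc (a := (0 : ℝ)) (b := R₀)).prod
        (isCompact_closedBall z₀ R₀)).of_isClosed_subset hcl ?_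
      rintro ⟨q1, q2⟩ ⟨h1, h2, h3⟩
      refine ⟨⟨h1, h2⟩, ?_⟩
      have h4 := h3 hz₀
      simp only at h2
      rw [mem_closedBall, dist_comm] at h4 ⊢
      rw [dist_comm] at h4 ⊢
      have h5 : dist z₀ q2 ≤ q1 := h4
      rw [dist_comm]
      exact h5.trans h2
    obtain ⟨p, hp, hp'⟩ := hcomp.exists_isMinOn ⟨(R₀, 0), hR₀0, le_rfl, hR₀⟩
      continuous_fst.continuousOn
    exact ⟨p, hp, fun q hq => hp' hq⟩
  obtain ⟨⟨R, c'⟩, ⟨hR0, hRR, hRQ⟩, hmin⟩ := hB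
  simp only at hR0 hRR hRQ hmin
  have hRout : Rout Q = R := by
    refine IsLeast.csInf_eq ⟨⟨hR0, c', hRQ⟩, ?_⟩
    rintro s ⟨hs, c₁, hc₁⟩
    by_cases hsR : s ≤ R₀
    · exact hmin (s, c₁) ⟨hs, hsR, hc₁⟩
    · push Not at hsR
      exact hRR.trans hsR.le
  refine ⟨r, c, c', hr, hrQ, hRQ.trans (closedBall_subset_closedBall ?_)⟩
  unfold aspect at hα
  rw [hRin, hRout, div_le_iff₀ (by linarith)] at hα
  linarith

end MPc01941
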