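import Mathlib

/-!
FP-SRolle. A nonzero real polynomial with `t` terms has at most `2 t - 1` different real roots.
By induction on the degree (divide by `x`, differentiate, Rolle).
-/

namespace MPc01941

open Polynomial

private lemma srolle_divX (p : ℝ[X]) : (divX p).support.card ≤ p.support.card := by
  refine Finset.card_le_card_of_injOn (fun n => n + 1) ?_ ?_
  · intro n hn
    rw [Finset.mem_coe, mem_support_iff, coeff_divX] at hn
    rw [Finset.mem_coe, mem_support_iff]
    exact hn
  · intro a _ b _ h
    simpa using h

private lemma srolle_der (p : ℝ[X]) (h0 : p.coeff 0 ≠ 0) :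
    (derivative p).support.card + 1 ≤ p.support.card := by
  have h1 : (derivative p).support.card ≤ (p.support.erase 0).card := by
    refine Finset.card_le_card_of_injOn (fun n => n + 1) ?_ ?_
    · intro n hn
      rw [Finset.mem_coe, mem_support_iff, coeff_derivative] at hn
      rw [Finset.mem_coe, Finset.mem_erase, mem_support_iff]
      exact ⟨by simp, left_ne_zero_of_mul hn⟩
    · intro a _ b _ h
      simpa using h
  rw [Finset.card_erase_of_mem (mem_support_iff.2 h0)] at h1
  have h2 : 0 < p.support.card := Finset.card_pos.2 ⟨0, mem_support_iff.2 h0⟩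
  omega

private lemma srolle_side {D : Set ℝ} (hD : D.OrdConnected) (h0 : (0 : ℝ) ∉ D) :
    ∀ n : ℕ, ∀ p : ℝ[X], p ≠ 0 → p.natDegree ≤ n → ∀ S : Finset ℝ, (∀ x ∈ S, x ∈ D) →
      (∀ x ∈ S, p.eval x = 0) → S.card + 1 ≤ p.support.card := by
  intro n
  induction n with
  | zero =>
    intro p hp hn S _ hS
    have h1 : p = C (p.coeff 0) := eq_C_of_natDegree_le_zero hn
    have h2 : p.coeff 0 ≠ 0 := by
      intro h
      rw [h, C_0] at h1
      exact hp h1
    have h3 : S = ∅ := by
      rw [Finset.eq_empty_iff_forall_notMem]
      intro x hx
      have h4 := hS x hx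
      rw [h1, eval_C] at h4
      exact h2 h4
    rw [h3, Finset.card_empty, zero_add]
    exact Finset.card_pos.2 ⟨0, mem_support_iff.2 h2⟩
  | succ n ih =>
    intro p hp hn S hSD hS
    by_cases hc : p.coeff 0 = 0
    · have h1 : divX p * X = p := by
        have := divX_mul_X_add p
        rw [hc, C_0, add_zero] at this
        exact this
      have h2 : divX p ≠ 0 := by
        intro h
        rw [h, zero_mul] at h1
        exact hp h1.symm
      have h3 : (divX p).natDegree ≤ n := by
        rw [natDegree_divX_eq_natDegree_tsub_one]
        omega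
      refine (ih (divX p) h2 h3 S hSD fun x hx => ?_).trans (srolle_divX p)
      have h4 := hS x hx
      rw [← h1, eval_mul, eval_X] at h4
      rcases mul_eq_zero.1 h4 with h5 | h5
      · exact h5
      · exfalso
        apply h0
        rw [← h5]
        exact hSD x hx
    · by_cases hd : derivative p = 0
      · have h1 : p = C (p.coeff 0) := eq_C_of_derivative_eq_zero hd
        have h3 : S = ∅ := by
          rw [Finset.eq_empty_iff_forall_notMem]
          intro x hx
          have h4 := hS x hx
          rw [h1, eval_C] at h4
          exact hc h4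
        rw [h3, Finset.card_empty, zero_add]
        exact Finset.card_pos.2 ⟨0, mem_support_iff.2 hc⟩
      · classical
        have h1 : (derivative p).natDegree ≤ n := by
          have := natDegree_derivative_le p
          omega
        obtain ⟨T, hT⟩ : ∃ T : Finset ℝ, T = (derivative p).roots.toFinset.filter
          (fun x => x ∈ D) := ⟨_, rfl⟩
        have h2 := ih (derivative p) hd h1 T (fun x hx => by
          rw [hT, Finset.mem_filter] at hx
          exact hx.2) (fun x hx => by
          rw [hT, Finset.mem_filter, Multiset.mem_toFinset, mem_roots hd] at hx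
          exact hx.1)
        have h3 : S.card ≤ T.card + 1 := by
          apply Finset.card_le_of_interleaved
          intro x hx y hy hxy _
          have h4 : p.eval x = p.eval y := by rw [hS x hx, hS y hy]
          obtain ⟨z, hz, hz'⟩ := exists_deriv_eq_zero hxy p.continuousOn h4
          refine ⟨z, ?_, hz.1, hz.2⟩
          rw [hT, Finset.mem_filter, Multiset.mem_toFinset, mem_roots hd]
          refine ⟨?_, hD.out (hSD x hx) (hSD y hy) ⟨hz.1.le, hz.2.le⟩⟩
          rw [Polynomial.deriv] at hz'
          exact hz'
        have h4 := srolle_der p hc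
        omega

theorem card_roots_le {p : ℝ[X]} (hp : p ≠ 0) {S : Finset ℝ} (hS : ∀ x ∈ S, p.eval x = 0) :
    S.card + 1 ≤ 2 * p.support.card := by
  classical
  have h1 : S.card ≤ (S.filter (fun x => 0 < x)).card + (S.filter (fun x => x < 0)).card + 1 := by
    have h2 : S ⊆ (S.filter (fun x => 0 < x) ∪ S.filter (fun x => x < 0)) ∪ {0} := by
      intro x hx
      rw [Finset.mem_union, Finset.mem_union, Finset.mem_filter, Finset.mem_filter,
        Finset.mem_singleton]
      rcases lt_trichotomy x 0 with h | h | h
      · left; right; exact ⟨hx, h⟩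
      · right; exact h
      · left; left; exact ⟨hx, h⟩
    refine (Finset.card_le_card h2).trans ?_
    refine (Finset.card_union_le _ _).trans ?_
    rw [Finset.card_singleton]
    exact Nat.add_le_add_right (Finset.card_union_le _ _) 1
  have h2 := srolle_side (D := Set.Ioi 0) Set.ordConnected_Ioi (by simp) p.natDegree p hp le_rfl
    (S.filter (fun x => 0 < x)) (fun x hx => (Finset.mem_filter.1 hx).2)
    (fun x hx => hS x (Finset.mem_filter.1 hx).1)
  have h3 := srolle_side (D := Set.Iio 0) Set.ordConnected_Iio (by simp) p.natDegree p hp le_rfl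
    (S.filter (fun x => x < 0)) (fun x hx => (Finset.mem_filter.1 hx).2)
    (fun x hx => hS x (Finset.mem_filter.1 hx).1)
  omega

end MPc01941
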