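import Pool.Agent.Lib.MP_c01941_lc.SCount
import Pool.Agent.Lib.MP_c01941_lc.SRolle

/-!
FP-SDeg. Every nonzero rational polynomial `p` that vanishes at `x = t + s z_i` has exponentially
many terms: `p (t + s X)` vanishes at `z_i`, so at all real branch values (`conj`), so `p` has
at least `2^(i/2)` real roots (`real_branches`, `s ≠ 0`); `card_roots_le` for `p` mapped to
`ℝ` (same support).
-/

namespace MPc01941

open Polynomial

theorem support_affine {n i : ℕ} (hi : i ≤ n) {s t : ℚ} (hs : s ≠ 0) {p : ℚ[X]}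
    (hp : p ≠ 0) (h : aeval (t + s * zz n i : ℝ) p = 0) : 2 ^ (i / 2) + 1 ≤ 2 * p.support.card := by
  classical
  obtain ⟨S, hS, hb⟩ := real_branches (n := n) (i := i) hi
  have hcomp : ∀ w : ℝ, aeval w (p.comp (C t + C s * X)) = aeval (t + s * w : ℝ) p := by
    intro w
    rw [aeval_comp]
    congr 1
    simp
  have hq : aeval (zz n i) (p.comp (C t + C s * X)) = 0 := by rw [hcomp]; exact h
  have hsR : (s : ℝ) ≠ 0 := by exact_mod_cast hs
  have hroots : ∀ x ∈ S.image (fun w : ℝ => (t + s * w : ℝ)),
      (p.map (algebraMap ℚ ℝ)).eval x = 0 := by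
    intro x hx
    obtain ⟨w, hw, rfl⟩ := Finset.mem_image.1 hx
    rw [eval_map_algebraMap, ← hcomp]
    exact conj hi hq (hb w hw)
  have hp' : p.map (algebraMap ℚ ℝ) ≠ 0 :=
    (Polynomial.map_ne_zero_iff (algebraMap ℚ ℝ).injective).2 hp
  have h1 := card_roots_le hp' hroots
  rw [support_map_of_injective p (algebraMap ℚ ℝ).injective] at h1
  rw [Finset.card_image_of_injective] at h1
  · omega
  · intro x y hxy
    have h2 : (s : ℝ) * x = s * y := by
      have := hxy
      simp only at this
      linarith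
    exact mul_left_cancel₀ hsR h2

end MPc01941
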