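import Pool.Agent.Lib.MP_c01941_lc.Lower
import Pool.Agent.Lib.MP_c01941_lc.Deg
import Pool.Agent.Lib.MP_c01941_lc.SDeg

/-!
FP-OutLen. Every right output for the `n`-th region is long.
`j = (n-1)/2`, `i = 2 j + 1 ∈ {n, n-1}`, `1 ≤ i ≤ n`.
By `lower_vertex` the output (which is not `none`: hypothesis `hex`; it has at most `3n` pieces
by minimality and `hex`) contains a number that represents
`x = ox (j+1) - 95200 (z_i + t_i) = t + s z_i` with `t, s` rational (`ox` is rational: `ox_rat`).
Its polynomial is a nonzero integer polynomial that vanishes at `x`, so it has exponentially many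
terms by `support_affine`, and every term takes at least one symbol in the output.
-/

namespace MPc01941

theorem ox_rat (n : ℕ) (hn : 1 ≤ n) (j : ℕ) : ∃ q : ℚ, (cfg n hn).ox j = q := by
  induction j with
  | zero => exact ⟨0, by simp [Cfg.ox]⟩
  | succ j ih =>
    obtain ⟨q, hq⟩ := ih
    refine ⟨q + (eq' n j - 81120 + 119 * mq n j), ?_⟩
    have h1 : (cfg n hn).ox (j + 1) = (cfg n hn).ox j +
      ((cfg n hn).e j - 81120 + 119 * (cfg n hn).m j) := rfl
    have h2 : (cfg n hn).e j = (eq' n j : ℝ) := rfl
    have h3 : (cfg n hn).m j = (mq n j : ℝ) := rfl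
    rw [h1, hq, h2, h3]
    push_cast
    ring

private theorem ol_length_flatMap_ge {α β : Type} {l : List α} {f : α → List β} {a : α}
    (h : a ∈ l) : (f a).length ≤ (l.flatMap f).length := by
  induction l with
  | nil => simp at h
  | cons b l ih =>
    rw [List.flatMap_cons, List.length_append]
    rcases List.mem_cons.1 h with h | h
    · subst h; omega
    · have := ih h; omega

private theorem ol_length_flatMap_ge' {α β : Type} {l : List α} {f : α → List β}
    (h : ∀ a ∈ l, 1 ≤ (f a).length) : l.length ≤ (l.flatMap f).length := by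
  induction l with
  | nil => simp
  | cons b l ih =>
    rw [List.flatMap_cons, List.length_append, List.length_cons]
    have h1 := h b (by simp)
    have h2 := ih (fun a ha => h a (List.mem_cons_of_mem _ ha))
    omega

private theorem ol_dense_card (l : List ℤ) : (PolyRep.dense l).poly.support.card ≤ l.length := by
  have h : ∀ k, l.length ≤ k → (PolyRep.dense l).poly.coeff k = 0 := by
    induction l with
    | nil => intro k _; simp [PolyRep.poly]
    | cons c l ih =>
      intro k hk
      have e : (PolyRep.dense (c :: l)).poly = Polynomial.C c + Polynomial.X * (PolyRep.dense l).poly :=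
        rfl
      rw [e]
      cases k with
      | zero => simp at hk
      | succ k =>
        rw [Polynomial.coeff_add, Polynomial.coeff_C_succ, zero_add, Polynomial.coeff_X_mul]
        exact ih k (by simpa using hk)
  have h2 : (PolyRep.dense l).poly.support ⊆ Finset.range l.length := by
    intro k hk
    rw [Finset.mem_range]
    by_contra hc
    push Not at hc
    exact (Polynomial.mem_support_iff.1 hk) (h k hc)
  simpa using Finset.card_le_card h2

private theorem ol_sparse_card (l : List (ℤ × ℕ)) :
    (PolyRep.sparse l).poly.support.card ≤ l.length := by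
  classical
  induction l with
  | nil => simp [PolyRep.poly]
  | cons t l ih =>
    have e : (PolyRep.sparse (t :: l)).poly = Polynomial.monomial t.2 t.1 + (PolyRep.sparse l).poly :=
      rfl
    rw [e, List.length_cons]
    have h1 := Finset.card_le_card (Polynomial.support_add (p := Polynomial.monomial t.2 t.1)
      (q := (PolyRep.sparse l).poly))
    have h2 := Finset.card_union_le (Polynomial.monomial t.2 t.1).support
      (PolyRep.sparse l).poly.support
    have h3 := Finset.card_le_card (Polynomial.support_monomial_subset t.2 t.1)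
    rw [Finset.card_singleton] at h3
    omega

theorem card_le_encPoly (a : PolyRep) : a.poly.support.card ≤ (encPoly a).length := by
  cases a with
  | dense l =>
    have h1 := ol_dense_card l
    have h2 : l.length ≤ (l.flatMap fun c => encInt c ++ [Sym.comma]).length :=
      ol_length_flatMap_ge' (fun a _ => by simp)
    simp only [encPoly, List.length_append]
    omega
  | sparse l =>
    have h1 := ol_sparse_card l
    have h2 : l.length ≤ (l.flatMap fun t : ℤ × ℕ =>
        encInt t.1 ++ [Sym.pow] ++ encNat t.2 ++ [Sym.comma]).length :=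
      ol_length_flatMap_ge' (fun a _ => by
        simp only [List.length_append, List.length_singleton]; omega)
    simp only [encPoly, List.length_append] at h2 ⊢
    omega

theorem card_le_encOut {O : List (List (AlgNum × AlgNum))} {v : List (AlgNum × AlgNum)}
    (hv : v ∈ O) {p : AlgNum × AlgNum} (hp : p ∈ v) :
    p.1.rep.poly.support.card ≤ (encOut (some O)).length := by
  have h1 : p.1.rep.poly.support.card ≤ (encAlg p.1).length := by
    have h2 := card_le_encPoly p.1.rep
    unfold encAlg
    simp only [List.length_append]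
    omega
  have h4 : (encAlg p.1 ++ encAlg p.2).length ≤
      (v.flatMap fun p => encAlg p.1 ++ encAlg p.2).length :=
    ol_length_flatMap_ge (f := fun p : AlgNum × AlgNum => encAlg p.1 ++ encAlg p.2) hp
  have h5 : ((v.flatMap fun p => encAlg p.1 ++ encAlg p.2) ++ [Sym.endPiece]).length ≤
      (O.flatMap fun v => (v.flatMap fun p => encAlg p.1 ++ encAlg p.2) ++
        [Sym.endPiece]).length :=
    ol_length_flatMap_ge (f := fun v : List (AlgNum × AlgNum) =>
      (v.flatMap fun p => encAlg p.1 ++ encAlg p.2) ++ [Sym.endPiece]) hv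
  have h6 : (O.flatMap fun v => (v.flatMap fun p => encAlg p.1 ++ encAlg p.2) ++
      [Sym.endPiece]).length ≤ (encOut (some O)).length := by
    unfold encOut
    simp only [List.length_append]
    omega
  simp only [List.length_append] at h4 h5
  omega

theorem represents_card {a : AlgNum} {x : ℝ} (h : a.Represents x) {d : ℕ}
    (hd : ∀ p : Polynomial ℚ, p ≠ 0 → Polynomial.aeval x p = 0 → d ≤ p.support.card) :
    d ≤ a.rep.poly.support.card := by
  obtain ⟨h1, h2, h3, h4⟩ := h
  have h6 : Polynomial.aeval x a.rep.poly = 0 := (h4 x h2 h3).2 rfl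
  have hinj : Function.Injective (Int.castRingHom ℚ) := Int.cast_injective
  have h7 := hd (a.rep.poly.map (Int.castRingHom ℚ))
    ((Polynomial.map_ne_zero_iff hinj).2 h1) (by
      rw [Polynomial.aeval_def, Polynomial.eval₂_map]
      rw [Polynomial.aeval_def] at h6
      have e : (algebraMap ℚ ℝ).comp (Int.castRingHom ℚ) = algebraMap ℤ ℝ :=
        RingHom.ext_int _ _
      rw [e]
      exact h6)
  rwa [Polynomial.support_map_of_injective _ hinj] at h7

private theorem ol_forall₂ {α β : Type} {R : α → β → Prop} {l : List α} {m : List β}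
    (h : List.Forall₂ R l m) {b : β} (hb : b ∈ m) : ∃ a ∈ l, R a b := by
  induction h with
  | nil => simp at hb
  | cons h1 _ ih =>
    rcases List.mem_cons.1 hb with hb | hb
    · subst hb
      exact ⟨_, by simp, h1⟩
    · obtain ⟨a, ha, ha'⟩ := ih hb
      exact ⟨a, List.mem_cons_of_mem _ ha, ha'⟩

/-- the vertex of high degree and with many terms -/
theorem vertex_degree {n : ℕ} (hn : 1 ≤ n) {W : List (List ℂ)}
    (h : IsBoundedPartition 67600 (cfg n hn).P W) (hW : W.length ≤ 3 * n) :
    ∃ v ∈ W, ∃ z ∈ v, ∀ p : Polynomial ℚ, p ≠ 0 → Polynomial.aeval z.re p = 0 →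
      2 ^ (n - 1) ≤ p.natDegree ∧ 2 ^ ((n - 1) / 2) + 1 ≤ 2 * p.support.card := by
  have hj : (n - 1) / 2 < n := by omega
  obtain ⟨v, hv, z, hz, hzre⟩ := lower_vertex hn h hW hj
  have hi1 : 1 ≤ 2 * ((n - 1) / 2) + 1 := by omega
  have hi2 : 2 * ((n - 1) / 2) + 1 ≤ n := by omega
  have hi3 : n - 1 ≤ 2 * ((n - 1) / 2) + 1 := by omega
  have hi4 : (2 * ((n - 1) / 2) + 1) / 2 = (n - 1) / 2 := by omega
  obtain ⟨q, hq⟩ := ox_rat n hn ((n - 1) / 2 + 1)
  have hx : z.re = (((q - 95200 * ttq n (2 * ((n - 1) / 2) + 1) : ℚ)) : ℝ) +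
      ((-95200 : ℚ) : ℝ) * zz n (2 * ((n - 1) / 2) + 1) := by
    rw [hzre, hq]
    unfold tt
    push_cast
    ring
  refine ⟨v, hv, z, hz, fun p hp hp0 => ⟨?_, ?_⟩⟩
  · rw [hx] at hp0
    exact (Nat.pow_le_pow_right (by norm_num) hi3).trans (deg_affine hi1 hi2 (by norm_num) hp hp0)
  · rw [hx] at hp0
    have := support_affine hi2 (by norm_num) hp hp0
    rwa [hi4] at this

theorem out_long {n : ℕ} (hn : 1 ≤ n) {O : Output}
    (hex : ∃ W, W.length = 3 * n ∧ IsBoundedPartition 67600 (cfg n hn).P W)
    (hO : OutputCorrect 67600 (cfg n hn).P O) : 2 ^ ((n - 1) / 2) < 2 * (encOut O).length := by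
  obtain ⟨W₀, hW₀, hW₀'⟩ := hex
  cases O with
  | none => exact absurd hW₀' (hO W₀)
  | some O =>
    obtain ⟨W, hW, hmin, hrep⟩ := hO
    have hlen : W.length ≤ 3 * n := by
      rw [← hW₀]
      exact hmin W₀ hW₀'
    obtain ⟨v, hv, z, hz, hdeg⟩ := vertex_degree hn hW hlen
    obtain ⟨v', hv', hvv⟩ := ol_forall₂ hrep hv
    obtain ⟨p, hp, hpz, -⟩ := ol_forall₂ hvv hz
    have h1 := card_le_encOut hv' hp
    have h2 := represents_card hpz (d := 2 ^ ((n - 1) / 2) / 2 + 1) fun P hP hP0 => by
      have := (hdeg P hP hP0).2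
      omega
    omega

end MPc01941
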