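import Pool.Agent.Lib.MP_c01941_lc.QList

/-!
FP-QEnc. The input is short. Crude bounds are enough: the coordinates of the vertices are
`z + r` with an integer `z`, `|z| ≤ 251016 (n + 1)`, and `r` in a finite set which does not depend
on `n` (`eq'` and `mq` take three values each).
-/

namespace MPc01941

private theorem encNat_length (m : ℕ) : (encNat m).length ≤ m := by
  unfold encNat
  rw [List.length_map, Nat.size_eq_bits_len, Nat.size_le]
  exact Nat.lt_two_pow_self

private theorem encInt_length (z : ℤ) : (encInt z).length ≤ z.natAbs + 1 := by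
  unfold encInt
  rw [List.length_append]
  have := encNat_length z.natAbs
  split_ifs
  · simp only [List.length_cons, List.length_nil]; omega
  · simp only [List.length_nil]; omega

private theorem encRat_length (q : ℚ) : (encRat q).length ≤ q.num.natAbs + q.den + 2 := by
  unfold encRat
  rw [List.length_append, List.length_append]
  have h1 := encInt_length q.num
  have h2 := encNat_length q.den
  simp only [List.length_cons, List.length_nil]
  omega

private theorem encRat_add (z : ℤ) (r : ℚ) (K C : ℕ) (hz : z.natAbs ≤ K)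
    (hr : r.num.natAbs + r.den ≤ C) : (encRat ((z : ℚ) + r)).length ≤ K * C + C + C + 2 := by
  refine (encRat_length _).trans ?_
  have hq : (z : ℚ) + r = ((z * r.den + r.num : ℤ) : ℚ) / ((r.den : ℤ) : ℚ) := by
    have hd : (r.den : ℚ) ≠ 0 := by exact_mod_cast r.den_ne_zero
    have h1 : r = (r.num : ℚ) / (r.den : ℚ) := (Rat.num_div_den r).symm
    push_cast
    rw [add_div, mul_div_assoc, div_self hd, mul_one, ← h1]
  have hden : ((z : ℚ) + r).den ≤ r.den := by
    have h1 : (((z : ℚ) + r).den : ℤ) ∣ (r.den : ℤ) := by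
      rw [hq, ← Rat.divInt_eq_div]
      exact Rat.den_dvd _ _
    have h2 := Int.le_of_dvd (by exact_mod_cast r.den_pos) h1
    exact_mod_cast h2
  have hnum : ((z : ℚ) + r).num.natAbs ≤ (z * r.den + r.num).natAbs := by
    rcases eq_or_ne (z * r.den + r.num) 0 with h0 | h0
    · rw [hq, h0]; simp
    · have h1 : ((z : ℚ) + r).num ∣ (z * r.den + r.num) := by
        rw [hq, ← Rat.divInt_eq_div]
        exact Rat.num_dvd _ (by exact_mod_cast r.den_ne_zero)
      exact Int.natAbs_le_of_dvd_ne_zero h1 h0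
  have h3 : (z * r.den + r.num).natAbs ≤ z.natAbs * r.den + r.num.natAbs := by
    refine (Int.natAbs_add_le _ _).trans ?_
    rw [Int.natAbs_mul, Int.natAbs_natCast]
  have h4 : z.natAbs * r.den ≤ K * C := Nat.mul_le_mul hz (by omega)
  omega

/-- all relative positions -/
private def relPts (E M E' : ℚ) : List (ℚ × ℚ) :=
  [(E - 81120 - 1 / 5, (-81120 - 1 / 5) / 2400000),
    (E - 81120 - 1 / 5, -58812 + 41 / 20),
    (E - 81120 - 432 / 325, -58812 + 41 / 20),
    (E - 81120 - 18 / 5, -58812),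
    (E - 81120 + 1 / 10, -58812),
    (E - 81120 + 1 / 10, -117624 + 12 / 119),
    (E - 81120 - 42840, -160824),
    (E - 81120 + 119 * M,
      -117624 + (191999881 * (119 * M) - 5097960) / 190400000),
    (E - 81120 + 119 * M, -117624 + 120 * M - 30 / 13),
    (E - 81120 + 119 * M + 3, -117624 + 120 * M - 30 / 13),
    (E - 81120 + 119 * M + 3,
      -117624 + 120 * M + (3 - E') / 2400000)] ++
  [(E - 81120 + 119 * M, -117624 + 120 * M),
    (E - 81120 + 1 / 5, -117624 + 24 / 119),
    (E - 81120 + 1 / 5, -58812),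
    (E - 81120 + 18 / 5, -58812),
    (E - 81120 + 432 / 325, -58812 + 41 / 20),
    (E - 81120 - 1 / 10, -58812 + 41 / 20),
    (E - 81120 - 1 / 10, (-81120 - 1 / 10) / 2400000),
    (E, 0)] ++
  [((24000000 * (421824 / 5) + E) / 24000001,
      ((24000000 * (421824 / 5) + E) / 24000001 - E) / 2400000),
      (421824 / 5, 0)]

private theorem mem_qtl (n k j : ℕ) (v : ℚ × ℚ) (hv : v ∈ qtl n k j) :
    ∃ i, i ≤ j + k ∧ ∃ p ∈ relPts (eq' n i) (mq n i) (eq' n (i + 1)),
      v = (oxq n i + p.1, oyq n i + p.2) := by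
  induction k generalizing j with
  | zero =>
    refine ⟨j, le_refl _, ?_⟩
    unfold qtl at hv
    rw [List.mem_cons, List.mem_cons] at hv
    rcases hv with rfl | rfl | hv
    · exact ⟨((24000000 * (421824 / 5) + eq' n j) / 24000001,
        ((24000000 * (421824 / 5) + eq' n j) / 24000001 - eq' n j) / 2400000),
        List.mem_append_right _ (List.mem_cons_self ..), rfl⟩
    · exact ⟨(421824 / 5, 0), List.mem_append_right _ (List.mem_cons_of_mem _
        (List.mem_cons_self ..)), by simp⟩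
    · exact absurd hv (List.not_mem_nil)
  | succ k ih =>
    unfold qtl at hv
    rw [List.mem_append, List.mem_append] at hv
    rcases hv with (hv | hv) | hv
    · unfold qlo at hv
      rw [List.mem_map] at hv
      obtain ⟨p, hp, rfl⟩ := hv
      exact ⟨j, by omega, p, List.mem_append_left _ (List.mem_append_left _ hp), rfl⟩
    · obtain ⟨i, hi, h⟩ := ih (j + 1) hv
      exact ⟨i, by omega, h⟩
    · unfold qhi at hv
      rw [List.mem_map] at hv
      obtain ⟨p, hp, rfl⟩ := hv
      exact ⟨j, by omega, p, List.mem_append_left _ (List.mem_append_right _ hp), rfl⟩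

private theorem mem_qV (n : ℕ) (v : ℚ × ℚ) (hv : v ∈ qV n) :
    ∃ i, i ≤ n ∧ ∃ p ∈ relPts (eq' n i) (mq n i) (eq' n (i + 1)),
      v = (oxq n i + p.1, oyq n i + p.2) := by
  unfold qV at hv
  rw [List.mem_cons, List.mem_cons] at hv
  rcases hv with rfl | rfl | hv
  · exact ⟨0, Nat.zero_le _, (421824 / 5, 0), List.mem_append_right _ (List.mem_cons_of_mem _
      (List.mem_cons_self ..)), by simp [oxq, oyq]⟩
  · exact ⟨0, Nat.zero_le _, ((24000000 * (421824 / 5) + eq' n 0) / 24000001,
        ((24000000 * (421824 / 5) + eq' n 0) / 24000001 - eq' n 0) / 2400000),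
        List.mem_append_right _ (List.mem_cons_self ..), by simp [oxq, oyq]⟩
  · obtain ⟨i, hi, h⟩ := mem_qtl n n 0 v hv
    exact ⟨i, by omega, h⟩

private theorem ttq_cases (n i : ℕ) : ttq n i = 0 ∨ ttq n i = -1 / 400 ∨ ttq n i = 1 / 400 := by
  unfold ttq
  split_ifs <;> simp

private def SE : Finset ℚ := {219700, 220038, 219362}
private def SM : Finset ℚ := {940, 938, 942}

private theorem eq'_mem (n j : ℕ) : eq' n j ∈ SE := by
  unfold eq' SE
  rcases ttq_cases n (2 * j) with h | h | h <;> rw [h] <;> norm_num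

private theorem mq_mem (n j : ℕ) : mq n j ∈ SM := by
  unfold mq SM
  rcases ttq_cases n (2 * j + 1) with h | h | h <;> rw [h] <;> norm_num

private theorem SE_int (x : ℚ) (hx : x ∈ SE) : ∃ z : ℤ, x = z ∧ 219362 ≤ z ∧ z ≤ 220038 := by
  unfold SE at hx
  simp only [Finset.mem_insert, Finset.mem_singleton] at hx
  rcases hx with rfl | rfl | rfl
  · exact ⟨219700, by norm_num, by norm_num, by norm_num⟩
  · exact ⟨220038, by norm_num, by norm_num, by norm_num⟩
  · exact ⟨219362, by norm_num, by norm_num, by norm_num⟩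

private theorem SM_int (x : ℚ) (hx : x ∈ SM) : ∃ z : ℤ, x = z ∧ 938 ≤ z ∧ z ≤ 942 := by
  unfold SM at hx
  simp only [Finset.mem_insert, Finset.mem_singleton] at hx
  rcases hx with rfl | rfl | rfl
  · exact ⟨940, by norm_num, by norm_num, by norm_num⟩
  · exact ⟨938, by norm_num, by norm_num, by norm_num⟩
  · exact ⟨942, by norm_num, by norm_num, by norm_num⟩

private theorem oxq_int (n j : ℕ) : ∃ z : ℤ, oxq n j = z ∧ z.natAbs ≤ 251016 * j := by
  induction j with
  | zero => exact ⟨0, by simp [oxq], by simp⟩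
  | succ j ih =>
    obtain ⟨z, h1, h2⟩ := ih
    obtain ⟨E, h3, h4, h5⟩ := SE_int _ (eq'_mem n j)
    obtain ⟨M, h6, h7, h8⟩ := SM_int _ (mq_mem n j)
    refine ⟨z + (E - 81120 + 119 * M), ?_, ?_⟩
    · unfold oxq
      rw [h1, h3, h6]; push_cast; ring
    · omega

private theorem oyq_int (n j : ℕ) : ∃ z : ℤ, oyq n j = z ∧ z.natAbs ≤ 251016 * j := by
  induction j with
  | zero => exact ⟨0, by simp [oyq], by simp⟩
  | succ j ih =>
    obtain ⟨z, h1, h2⟩ := ih
    obtain ⟨M, h6, h7, h8⟩ := SM_int _ (mq_mem n j)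
    refine ⟨z + (-117624 + 120 * M), ?_, ?_⟩
    · unfold oyq
      rw [h1, h6]; push_cast; ring
    · omega

/-- the finite set of the relative coordinates -/
private noncomputable def relSet : Finset ℚ :=
  (SE ×ˢ (SM ×ˢ SE)).biUnion (fun s =>
    (((relPts s.1 s.2.1 s.2.2).map Prod.fst) ++ ((relPts s.1 s.2.1 s.2.2).map Prod.snd)).toFinset)

theorem qV_enc : ∃ C : ℕ, ∀ n : ℕ, 1 ≤ n → (encIn (qV n) 67600).length ≤ C * (n + 1) ^ 2 := by
  obtain ⟨C0, hC0⟩ : ∃ C0 : ℕ, ∀ r ∈ relSet, r.num.natAbs + r.den ≤ C0 := by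
    refine ⟨∑ r ∈ relSet, (r.num.natAbs + r.den), fun r hr => ?_⟩
    exact Finset.single_le_sum (f := fun r : ℚ => r.num.natAbs + r.den)
      (fun _ _ => Nat.zero_le _) hr
  obtain ⟨L0, hL0⟩ : ∃ L0 : ℕ, L0 = (encRat 67600).length := ⟨_, rfl⟩
  refine ⟨23 * (2 * (251016 * C0 + C0 + C0 + 2) + 2) + L0, ?_⟩
  intro n hn
  have hvert : ∀ v ∈ qV n, (encRat v.1 ++ [Sym.comma] ++ encRat v.2 ++ [Sym.endNum]).length ≤
      (2 * (251016 * C0 + C0 + C0 + 2) + 2) * (n + 1) := by
    intro v hv
    obtain ⟨i, hi, p, hp, rfl⟩ := mem_qV n v hv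
    obtain ⟨x, hx1, hx2⟩ := oxq_int n i
    obtain ⟨y, hy1, hy2⟩ := oyq_int n i
    have hmem : (eq' n i, mq n i, eq' n (i + 1)) ∈ SE ×ˢ (SM ×ˢ SE) := by
      rw [Finset.mem_product, Finset.mem_product]
      exact ⟨eq'_mem n i, mq_mem n i, eq'_mem n (i + 1)⟩
    have hp1 : p.1.num.natAbs + p.1.den ≤ C0 := by
      apply hC0
      unfold relSet
      rw [Finset.mem_biUnion]
      refine ⟨_, hmem, ?_⟩
      rw [List.mem_toFinset, List.mem_append]
      exact Or.inl (List.mem_map.mpr ⟨p, hp, rfl⟩)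
    have hp2 : p.2.num.natAbs + p.2.den ≤ C0 := by
      apply hC0
      unfold relSet
      rw [Finset.mem_biUnion]
      refine ⟨_, hmem, ?_⟩
      rw [List.mem_toFinset, List.mem_append]
      exact Or.inr (List.mem_map.mpr ⟨p, hp, rfl⟩)
    have hK : 251016 * i ≤ 251016 * (n + 1) := by omega
    have e1 := encRat_add x p.1 (251016 * (n + 1)) C0 (hx2.trans hK) hp1
    have e2 := encRat_add y p.2 (251016 * (n + 1)) C0 (hy2.trans hK) hp2
    simp only [List.length_append, List.length_cons, List.length_nil]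
    rw [hx1, hy1]
    have e3 : 251016 * (n + 1) * C0 + C0 + C0 + 2 ≤ (251016 * C0 + C0 + C0 + 2) * (n + 1) := by
      nlinarith [Nat.zero_le (C0 * n), Nat.zero_le n]
    have e4 : 2 ≤ 2 * (n + 1) := by omega
    calc (encRat ((x : ℚ) + p.1)).length + (0 + 1) + (encRat ((y : ℚ) + p.2)).length + (0 + 1)
        ≤ 2 * ((251016 * C0 + C0 + C0 + 2) * (n + 1)) + 2 * (n + 1) := by omega
      _ = (2 * (251016 * C0 + C0 + C0 + 2) + 2) * (n + 1) := by ring
  unfold encIn
  rw [List.length_append, List.length_flatMap, ← hL0]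
  have hsum : (List.map (fun p : ℚ × ℚ =>
      (encRat p.1 ++ [Sym.comma] ++ encRat p.2 ++ [Sym.endNum]).length) (qV n)).sum ≤
      (qV n).length * ((2 * (251016 * C0 + C0 + C0 + 2) + 2) * (n + 1)) := by
    have := List.sum_le_card_nsmul (List.map (fun p : ℚ × ℚ =>
      (encRat p.1 ++ [Sym.comma] ++ encRat p.2 ++ [Sym.endNum]).length) (qV n))
      ((2 * (251016 * C0 + C0 + C0 + 2) + 2) * (n + 1)) (by
        intro x hx
        rw [List.mem_map] at hx
        obtain ⟨v, hv, rfl⟩ := hx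
        exact hvert v hv)
    rwa [List.length_map, smul_eq_mul] at this
  rw [qV_length] at hsum
  have h2 : (19 * n + 4) * ((2 * (251016 * C0 + C0 + C0 + 2) + 2) * (n + 1)) ≤
      23 * (2 * (251016 * C0 + C0 + C0 + 2) + 2) * (n + 1) ^ 2 := by
    have h3 : 19 * n + 4 ≤ 23 * (n + 1) := by omega
    calc (19 * n + 4) * ((2 * (251016 * C0 + C0 + C0 + 2) + 2) * (n + 1))
        ≤ (23 * (n + 1)) * ((2 * (251016 * C0 + C0 + C0 + 2) + 2) * (n + 1)) :=
          Nat.mul_le_mul_right _ h3
      _ = 23 * (2 * (251016 * C0 + C0 + C0 + 2) + 2) * (n + 1) ^ 2 := by ring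
  have h4 : L0 ≤ L0 * (n + 1) ^ 2 := Nat.le_mul_of_pos_right _ (by positivity)
  calc _ ≤ 23 * (2 * (251016 * C0 + C0 + C0 + 2) + 2) * (n + 1) ^ 2 + L0 * (n + 1) ^ 2 :=
        Nat.add_le_add (hsum.trans h2) h4
    _ = _ := by ring

end MPc01941
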