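import Pool.Agent.Lib.MP_c01941_lc.QList

/-!
FP-QStraight. No three consecutive vertices of the region are collinear.
-/

namespace MPc01941

set_option linter.unusedVariables false

private def crs (a b c : ℚ × ℚ) : ℚ :=
  (b.1 - a.1) * (c.2 - b.2) - (b.2 - a.2) * (c.1 - b.1)

private def T3 : List (ℚ × ℚ) → Prop
  | x :: y :: z :: l => crs x y z ≠ 0 ∧ T3 (y :: z :: l)
  | _ => True

private theorem T3_tail (x : ℚ × ℚ) (l : List (ℚ × ℚ)) (h : T3 (x :: l)) : T3 l := by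
  match l, h with
  | [], _ => trivial
  | [_], _ => trivial
  | _ :: _ :: _, h => exact h.2

private theorem T3_glue (A B : List (ℚ × ℚ)) (a b : ℚ × ℚ) (h1 : T3 (A ++ [a, b]))
    (h2 : T3 (a :: b :: B)) : T3 (A ++ a :: b :: B) := by
  induction A with
  | nil => exact h2
  | cons x A ih =>
    match A, h1, ih with
    | [], h1, _ => exact ⟨h1.1, h2⟩
    | [y], h1, ih => exact ⟨h1.1, ih h1.2⟩
    | y :: z :: A', h1, ih => exact ⟨h1.1, ih h1.2⟩

private theorem T3_infix (s t : List (ℚ × ℚ)) (x y z : ℚ × ℚ)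
    (h : T3 (s ++ [x, y, z] ++ t)) : crs x y z ≠ 0 := by
  induction s with
  | nil => exact h.1
  | cons a s ih => exact ih (T3_tail _ _ h)

private theorem crs_of_collinear (x y z : ℚ × ℚ)
    (h : Collinear ℝ ({toC x, toC y, toC z} : Set ℂ)) : crs x y z = 0 := by
  rw [collinear_iff_of_mem (p₀ := toC x) (by simp)] at h
  obtain ⟨v, hv⟩ := h
  obtain ⟨r, hr⟩ := hv (toC y) (by simp)
  obtain ⟨s, hs⟩ := hv (toC z) (by simp)
  have h1 : (y.1 : ℝ) = r * v.re + x.1 := by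
    have := congrArg Complex.re hr
    simpa [toC] using this
  have h2 : (y.2 : ℝ) = r * v.im + x.2 := by
    have := congrArg Complex.im hr
    simpa [toC] using this
  have h3 : (z.1 : ℝ) = s * v.re + x.1 := by
    have := congrArg Complex.re hs
    simpa [toC] using this
  have h4 : (z.2 : ℝ) = s * v.im + x.2 := by
    have := congrArg Complex.im hs
    simpa [toC] using this
  have h5 : ((crs x y z : ℚ) : ℝ) = 0 := by
    unfold crs
    push_cast
    rw [h1, h2, h3, h4]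
    ring
  exact_mod_cast h5

private theorem NoStraight_of_T3 (l : List (ℚ × ℚ)) (h : T3 (l ++ l.take 2)) :
    NoStraight (l.map toC) := by
  intro x y z hi hc
  have e1 : l.map toC ++ (l.map toC).take 2 = (l ++ l.take 2).map toC := by
    simp [List.map_append, List.map_take]
  rw [e1] at hi
  obtain ⟨s, t, hst⟩ := hi
  obtain ⟨u, w, hu, h1, h2⟩ := List.map_eq_append_iff.mp hst.symm
  obtain ⟨u1, u2, hu', h3, h4⟩ := List.map_eq_append_iff.mp h1
  rw [hu, hu'] at h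
  match u2, h4 with
  | [x', y', z'], h4 =>
    simp only [List.map_cons, List.map_nil, List.cons.injEq, and_true] at h4
    obtain ⟨rfl, rfl, rfl⟩ := h4
    exact T3_infix _ _ _ _ _ h (crs_of_collinear _ _ _ hc)

/-- a lower chain, in terms of the parameters -/
private def loR (e m e2 x0 y0 : ℚ) : List (ℚ × ℚ) :=
  [(x0 + (e - 81120 - 1 / 5), y0 + (-81120 - 1 / 5) / 2400000),
    (x0 + (e - 81120 - 1 / 5), y0 + (-58812 + 41 / 20)),
    (x0 + (e - 81120 - 432 / 325), y0 + (-58812 + 41 / 20)),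
    (x0 + (e - 81120 - 18 / 5), y0 + -58812),
    (x0 + (e - 81120 + 1 / 10), y0 + -58812),
    (x0 + (e - 81120 + 1 / 10), y0 + (-117624 + 12 / 119)),
    (x0 + (e - 81120 - 42840), y0 + -160824),
    (x0 + (e - 81120 + 119 * m),
      y0 + (-117624 + (191999881 * (119 * m) - 5097960) / 190400000)),
    (x0 + (e - 81120 + 119 * m), y0 + (-117624 + 120 * m - 30 / 13)),
    (x0 + (e - 81120 + 119 * m + 3), y0 + (-117624 + 120 * m - 30 / 13)),
    (x0 + (e - 81120 + 119 * m + 3),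
      y0 + (-117624 + 120 * m + (3 - e2) / 2400000))]

/-- an upper chain, in terms of the parameters -/
private def hiR (e m x0 y0 : ℚ) : List (ℚ × ℚ) :=
  [(x0 + (e - 81120 + 119 * m), y0 + (-117624 + 120 * m)),
    (x0 + (e - 81120 + 1 / 5), y0 + (-117624 + 24 / 119)),
    (x0 + (e - 81120 + 1 / 5), y0 + -58812),
    (x0 + (e - 81120 + 18 / 5), y0 + -58812),
    (x0 + (e - 81120 + 432 / 325), y0 + (-58812 + 41 / 20)),
    (x0 + (e - 81120 - 1 / 10), y0 + (-58812 + 41 / 20)),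
    (x0 + (e - 81120 - 1 / 10), y0 + (-81120 - 1 / 10) / 2400000),
    (x0 + e, y0 + 0)]

private theorem qlo_eq (n j : ℕ) :
    qlo n j = loR (eq' n j) (mq n j) (eq' n (j + 1)) (oxq n j) (oyq n j) := rfl

private theorem qhi_eq (n j : ℕ) :
    qhi n j = hiR (eq' n j) (mq n j) (oxq n j) (oyq n j) := rfl

private theorem T3_cons (x y z : ℚ × ℚ) (l : List (ℚ × ℚ)) (h1 : crs x y z ≠ 0)
    (h2 : T3 (y :: z :: l)) : T3 (x :: y :: z :: l) := ⟨h1, h2⟩

private theorem T3_two (x y : ℚ × ℚ) : T3 [x, y] := trivial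

/-- the lower chain alone -/
private theorem lo_T3 {e m e2 : ℚ} (x0 y0 : ℚ) (h1 : 219362 ≤ e) (h2 : e ≤ 220038)
    (h3 : 938 ≤ m) (h4 : m ≤ 942) (h5 : 219362 ≤ e2) (h6 : e2 ≤ 220038) :
    T3 (loR e m e2 x0 y0) := by
  unfold loR
  refine T3_cons _ _ _ _ ?_ 
    (T3_cons _ _ _ _ ?_ (T3_cons _ _ _ _ ?_ (T3_cons _ _ _ _ ?_ (T3_cons _ _ _ _ ?_ (T3_cons _ _ _ _ ?_ (T3_cons _ _ _ _ ?_ (T3_cons _ _ _ _ ?_ (T3_cons _ _ _ _ ?_ (T3_two _ _)))))))))
  all_goals unfold crs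
  all_goals dsimp only
  all_goals intro h
  · linarith
  · linarith
  · linarith
  · linarith
  · linarith
  · linarith
  · nlinarith [mul_pos (show 0 < 42840 + 119 * m by linarith)
      (show 0 < 30 / 13 + (191999881 * (119 * m) - 5097960) / 190400000 - 120 * m by linarith)]
  · linarith
  · linarith

/-- the upper chain alone -/
private theorem hi_T3 {e m : ℚ} (x0 y0 : ℚ) (h1 : 219362 ≤ e) (h2 : e ≤ 220038)
    (h3 : 938 ≤ m) (h4 : m ≤ 942) :
    T3 (hiR e m x0 y0) := by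
  unfold hiR
  refine T3_cons _ _ _ _ ?_ (T3_cons _ _ _ _ ?_ (T3_cons _ _ _ _ ?_ (T3_cons _ _ _ _ ?_ (T3_cons _ _ _ _ ?_ (T3_cons _ _ _ _ ?_ (T3_two _ _))))))
  all_goals unfold crs
  all_goals dsimp only
  all_goals intro h
  all_goals linarith

/-- the last two vertices of a lower chain -/
private def c3 (e m x0 y0 : ℚ) : ℚ × ℚ :=
  (x0 + (e - 81120 + 119 * m + 3), y0 + (-117624 + 120 * m - 30 / 13))

private def c4 (e m e2 x0 y0 : ℚ) : ℚ × ℚ :=
  (x0 + (e - 81120 + 119 * m + 3), y0 + (-117624 + 120 * m + (3 - e2) / 2400000))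

/-- the first two vertices of an upper chain -/
private def g0 (e m x0 y0 : ℚ) : ℚ × ℚ :=
  (x0 + (e - 81120 + 119 * m), y0 + (-117624 + 120 * m))

private def g1 (e x0 y0 : ℚ) : ℚ × ℚ :=
  (x0 + (e - 81120 + 1 / 5), y0 + (-117624 + 24 / 119))

/-- the last two vertices of a lower chain and the next lower chain -/
private theorem lo_junction {m2 e2 e3 : ℚ} (e m x0 y0 : ℚ) (h5 : 219362 ≤ e2)
    (h6 : e2 ≤ 220038) (h7 : 938 ≤ m2) (h8 : m2 ≤ 942) (h9 : 219362 ≤ e3) (h10 : e3 ≤ 220038) :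
    T3 (c3 e m x0 y0 :: c4 e m e2 x0 y0 ::
      loR e2 m2 e3 (x0 + (e - 81120 + 119 * m)) (y0 + (-117624 + 120 * m))) := by
  have h := lo_T3 (x0 + (e - 81120 + 119 * m)) (y0 + (-117624 + 120 * m)) h5 h6 h7 h8 h9 h10
  unfold loR at h ⊢
  apply T3_cons
  · unfold crs c3 c4
    dsimp only
    intro h
    nlinarith [mul_pos (show 0 < e2 - 81120 - 1 / 5 - 3 by linarith)
      (show 0 < (3 - e2) / 2400000 + 30 / 13 by linarith)]
  apply T3_cons
  · unfold crs c4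
    dsimp only
    intro h
    linarith
  exact h

/-- an upper chain and the first two vertices of the preceding upper chain -/
private theorem hi_junction {e2 m2 m : ℚ} (e x0 y0 : ℚ) (h5 : 219362 ≤ e2)
    (h6 : e2 ≤ 220038) (h7 : 938 ≤ m2) (h8 : m2 ≤ 942) (h3 : 938 ≤ m) (h4 : m ≤ 942) :
    T3 (hiR e2 m2 (x0 + (e - 81120 + 119 * m)) (y0 + (-117624 + 120 * m)) ++
      [g0 e m x0 y0, g1 e x0 y0]) := by
  unfold hiR
  show T3 (_ :: _ :: _ :: _ :: _ :: _ :: _ :: _ :: g0 e m x0 y0 :: g1 e x0 y0 :: [])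
  unfold g0 g1
  refine T3_cons _ _ _ _ ?_ 
    (T3_cons _ _ _ _ ?_ (T3_cons _ _ _ _ ?_ (T3_cons _ _ _ _ ?_ (T3_cons _ _ _ _ ?_ (T3_cons _ _ _ _ ?_ (T3_cons _ _ _ _ ?_ (T3_cons _ _ _ _ ?_ (T3_two _ _))))))))
  all_goals unfold crs
  all_goals dsimp only
  all_goals intro h
  · linarith
  · linarith
  · linarith
  · linarith
  · linarith
  · linarith
  · linarith
  · nlinarith [mul_pos (show 0 < e2 by linarith) (show 0 < 120 * m - 24 / 119 by linarith)]

/-- the last cell -/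
private theorem base_T3 {m e2 : ℚ} (e x0 y0 : ℚ) (h5 : 219362 ≤ e2)
    (h6 : e2 ≤ 220038) (h3 : 938 ≤ m) (h4 : m ≤ 942) :
    T3 [c3 e m x0 y0, c4 e m e2 x0 y0,
      ((x0 + (e - 81120 + 119 * m)) + (24000000 * (421824 / 5) + e2) / 24000001,
        (y0 + (-117624 + 120 * m)) +
          ((24000000 * (421824 / 5) + e2) / 24000001 - e2) / 2400000),
      ((x0 + (e - 81120 + 119 * m)) + 421824 / 5, (y0 + (-117624 + 120 * m))),
      g0 e m x0 y0, g1 e x0 y0] := by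
  unfold c3 c4 g0 g1
  refine T3_cons _ _ _ _ ?_ (T3_cons _ _ _ _ ?_ (T3_cons _ _ _ _ ?_ (T3_cons _ _ _ _ ?_ (T3_two _ _))))
  all_goals unfold crs
  all_goals dsimp only
  all_goals intro h
  · nlinarith [mul_pos (show 0 < (24000000 * (421824 / 5) + e2) / 24000001 - 3 by linarith)
      (show 0 < (3 - e2) / 2400000 + 30 / 13 by linarith)]
  · nlinarith [mul_pos (show 0 < (24000000 * (421824 / 5) + e2) / 24000001 - 3 by linarith)
      (show 0 < e2 - 421824 / 5 by linarith)]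
  · nlinarith [mul_pos (show 0 < (24000000 * (421824 / 5) + e2) / 24000001 - 3 by linarith)
      (show 0 < e2 - 421824 / 5 by linarith)]
  · linarith

/-- the left end: lower chain -/
private theorem start_lo {e m e2 : ℚ} (h1 : 219362 ≤ e) (h2 : e ≤ 220038)
    (h3 : 938 ≤ m) (h4 : m ≤ 942) (h5 : 219362 ≤ e2) (h6 : e2 ≤ 220038) :
    T3 ((421824 / 5, 0) :: ((24000000 * (421824 / 5) + e) / 24000001,
      ((24000000 * (421824 / 5) + e) / 24000001 - e) / 2400000) ::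
      loR e m e2 0 0) := by
  have h := lo_T3 0 0 h1 h2 h3 h4 h5 h6
  unfold loR at h ⊢
  apply T3_cons
  · unfold crs
    dsimp only
    intro h
    nlinarith [mul_pos
      (show 0 < e - 81120 - 1 / 5 - (24000000 * (421824 / 5) + e) / 24000001 by linarith)
      (show 0 < e - 421824 / 5 by linarith)]
  apply T3_cons
  · unfold crs
    dsimp only
    intro h
    linarith
  exact h

/-- the left end: upper chain -/
private theorem start_hi {e m : ℚ} (h1 : 219362 ≤ e) (h2 : e ≤ 220038)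
    (h3 : 938 ≤ m) (h4 : m ≤ 942) :
    T3 (hiR e m 0 0 ++ [(421824 / 5, 0), ((24000000 * (421824 / 5) + e) / 24000001,
      ((24000000 * (421824 / 5) + e) / 24000001 - e) / 2400000)]) := by
  unfold hiR
  show T3 (_ :: _ :: _ :: _ :: _ :: _ :: _ :: _ :: _ :: _ :: [])
  refine T3_cons _ _ _ _ ?_ 
    (T3_cons _ _ _ _ ?_ (T3_cons _ _ _ _ ?_ (T3_cons _ _ _ _ ?_ (T3_cons _ _ _ _ ?_ (T3_cons _ _ _ _ ?_ (T3_cons _ _ _ _ ?_ (T3_cons _ _ _ _ ?_ (T3_two _ _))))))))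
  all_goals unfold crs
  all_goals dsimp only
  all_goals intro h
  · linarith
  · linarith
  · linarith
  · linarith
  · linarith
  · linarith
  · linarith
  · nlinarith [mul_pos (show 0 < e - (24000000 * (421824 / 5) + e) / 24000001 by linarith)
      (show 0 < e - 421824 / 5 by linarith)]

private def lo9 (e m x0 y0 : ℚ) : List (ℚ × ℚ) :=
  [(x0 + (e - 81120 - 1 / 5), y0 + (-81120 - 1 / 5) / 2400000),
    (x0 + (e - 81120 - 1 / 5), y0 + (-58812 + 41 / 20)),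
    (x0 + (e - 81120 - 432 / 325), y0 + (-58812 + 41 / 20)),
    (x0 + (e - 81120 - 18 / 5), y0 + -58812),
    (x0 + (e - 81120 + 1 / 10), y0 + -58812),
    (x0 + (e - 81120 + 1 / 10), y0 + (-117624 + 12 / 119)),
    (x0 + (e - 81120 - 42840), y0 + -160824),
    (x0 + (e - 81120 + 119 * m),
      y0 + (-117624 + (191999881 * (119 * m) - 5097960) / 190400000)),
    (x0 + (e - 81120 + 119 * m), y0 + (-117624 + 120 * m - 30 / 13))]

private def hi6 (e x0 y0 : ℚ) : List (ℚ × ℚ) :=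
  [(x0 + (e - 81120 + 1 / 5), y0 + -58812),
    (x0 + (e - 81120 + 18 / 5), y0 + -58812),
    (x0 + (e - 81120 + 432 / 325), y0 + (-58812 + 41 / 20)),
    (x0 + (e - 81120 - 1 / 10), y0 + (-58812 + 41 / 20)),
    (x0 + (e - 81120 - 1 / 10), y0 + (-81120 - 1 / 10) / 2400000),
    (x0 + e, y0 + 0)]

private theorem loR_eq (e m e2 x0 y0 : ℚ) :
    loR e m e2 x0 y0 = lo9 e m x0 y0 ++ [c3 e m x0 y0, c4 e m e2 x0 y0] := rfl

private theorem hiR_eq (e m x0 y0 : ℚ) :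
    hiR e m x0 y0 = g0 e m x0 y0 :: g1 e x0 y0 :: hi6 e x0 y0 := rfl

private theorem T3_glue2 (A B C : List (ℚ × ℚ)) (a b c d : ℚ × ℚ) (h1 : T3 (A ++ [a, b]))
    (h2 : T3 (a :: b :: (B ++ [c, d]))) (h3 : T3 (c :: d :: C)) :
    T3 (A ++ a :: b :: (B ++ c :: d :: C)) :=
  T3_glue A (B ++ c :: d :: C) a b h1 (T3_glue (a :: b :: B) C c d h2 h3)

private theorem mid_T3 (n k : ℕ) : ∀ j,
    T3 (c3 (eq' n j) (mq n j) (oxq n j) (oyq n j) ::
      c4 (eq' n j) (mq n j) (eq' n (j + 1)) (oxq n j) (oyq n j) ::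
      (qtl n k (j + 1) ++ [g0 (eq' n j) (mq n j) (oxq n j) (oyq n j),
        g1 (eq' n j) (oxq n j) (oyq n j)])) := by
  induction k with
  | zero =>
    intro j
    exact base_T3 (eq' n j) (oxq n j) (oyq n j) (eq'_bounds n (j + 1)).1
      (eq'_bounds n (j + 1)).2 (mq_bounds n j).1 (mq_bounds n j).2
  | succ k ih =>
    intro j
    have h1 := lo_junction (m2 := mq n (j + 1)) (e2 := eq' n (j + 1)) (e3 := eq' n (j + 2))
      (eq' n j) (mq n j) (oxq n j) (oyq n j) (eq'_bounds n (j + 1)).1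
      (eq'_bounds n (j + 1)).2 (mq_bounds n (j + 1)).1 (mq_bounds n (j + 1)).2
      (eq'_bounds n (j + 2)).1 (eq'_bounds n (j + 2)).2
    have h3 := hi_junction (m2 := mq n (j + 1)) (e2 := eq' n (j + 1)) (m := mq n j)
      (eq' n j) (oxq n j) (oyq n j) (eq'_bounds n (j + 1)).1
      (eq'_bounds n (j + 1)).2 (mq_bounds n (j + 1)).1 (mq_bounds n (j + 1)).2
      (mq_bounds n j).1 (mq_bounds n j).2
    have h := T3_glue2 (c3 (eq' n j) (mq n j) (oxq n j) (oyq n j) ::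
      c4 (eq' n j) (mq n j) (eq' n (j + 1)) (oxq n j) (oyq n j) ::
      lo9 (eq' n (j + 1)) (mq n (j + 1)) (oxq n (j + 1)) (oyq n (j + 1)))
      (qtl n k (j + 2)) (hi6 (eq' n (j + 1)) (oxq n (j + 1)) (oyq n (j + 1)) ++
        [g0 (eq' n j) (mq n j) (oxq n j) (oyq n j), g1 (eq' n j) (oxq n j) (oyq n j)])
      (c3 (eq' n (j + 1)) (mq n (j + 1)) (oxq n (j + 1)) (oyq n (j + 1)))
      (c4 (eq' n (j + 1)) (mq n (j + 1)) (eq' n (j + 2)) (oxq n (j + 1)) (oyq n (j + 1)))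
      _ _ h1 (ih (j + 1)) h3
    have e1 : qtl n (k + 1) (j + 1) = (lo9 (eq' n (j + 1)) (mq n (j + 1)) (oxq n (j + 1))
        (oyq n (j + 1)) ++ [c3 (eq' n (j + 1)) (mq n (j + 1)) (oxq n (j + 1)) (oyq n (j + 1)),
        c4 (eq' n (j + 1)) (mq n (j + 1)) (eq' n (j + 2)) (oxq n (j + 1)) (oyq n (j + 1))]) ++
        qtl n k (j + 2) ++ (g0 (eq' n (j + 1)) (mq n (j + 1)) (oxq n (j + 1)) (oyq n (j + 1)) ::
          g1 (eq' n (j + 1)) (oxq n (j + 1)) (oyq n (j + 1)) ::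
          hi6 (eq' n (j + 1)) (oxq n (j + 1)) (oyq n (j + 1))) := rfl
    rw [e1]
    simpa only [List.append_assoc, List.cons_append, List.nil_append] using h

private theorem qV_T3 (n : ℕ) (hn : 1 ≤ n) : T3 (qV n ++ (qV n).take 2) := by
  obtain ⟨k, rfl⟩ : ∃ k, n = k + 1 := ⟨n - 1, by omega⟩
  have h1 := start_lo (eq'_bounds (k + 1) 0).1 (eq'_bounds (k + 1) 0).2 (mq_bounds (k + 1) 0).1
    (mq_bounds (k + 1) 0).2 (eq'_bounds (k + 1) 1).1 (eq'_bounds (k + 1) 1).2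
  have h3 := start_hi (eq'_bounds (k + 1) 0).1 (eq'_bounds (k + 1) 0).2 (mq_bounds (k + 1) 0).1
    (mq_bounds (k + 1) 0).2
  have h := T3_glue2 ((421824 / 5, 0) :: ((24000000 * (421824 / 5) + eq' (k + 1) 0) / 24000001,
      ((24000000 * (421824 / 5) + eq' (k + 1) 0) / 24000001 - eq' (k + 1) 0) / 2400000) ::
      lo9 (eq' (k + 1) 0) (mq (k + 1) 0) (oxq (k + 1) 0) (oyq (k + 1) 0))
      (qtl (k + 1) k 1) (hi6 (eq' (k + 1) 0) (oxq (k + 1) 0) (oyq (k + 1) 0) ++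
        [(421824 / 5, 0), ((24000000 * (421824 / 5) + eq' (k + 1) 0) / 24000001,
      ((24000000 * (421824 / 5) + eq' (k + 1) 0) / 24000001 - eq' (k + 1) 0) / 2400000)])
      (c3 (eq' (k + 1) 0) (mq (k + 1) 0) (oxq (k + 1) 0) (oyq (k + 1) 0))
      (c4 (eq' (k + 1) 0) (mq (k + 1) 0) (eq' (k + 1) 1) (oxq (k + 1) 0) (oyq (k + 1) 0))
      _ _ h1 (mid_T3 (k + 1) k 0) h3
  have e1 : qtl (k + 1) (k + 1) 0 = (lo9 (eq' (k + 1) 0) (mq (k + 1) 0) (oxq (k + 1) 0)
      (oyq (k + 1) 0) ++ [c3 (eq' (k + 1) 0) (mq (k + 1) 0) (oxq (k + 1) 0) (oyq (k + 1) 0),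
      c4 (eq' (k + 1) 0) (mq (k + 1) 0) (eq' (k + 1) 1) (oxq (k + 1) 0) (oyq (k + 1) 0)]) ++
      qtl (k + 1) k 1 ++ (g0 (eq' (k + 1) 0) (mq (k + 1) 0) (oxq (k + 1) 0) (oyq (k + 1) 0) ::
        g1 (eq' (k + 1) 0) (oxq (k + 1) 0) (oyq (k + 1) 0) ::
        hi6 (eq' (k + 1) 0) (oxq (k + 1) 0) (oyq (k + 1) 0)) := rfl
  have e2 : (qV (k + 1)).take 2 = [(421824 / 5, 0),
      ((24000000 * (421824 / 5) + eq' (k + 1) 0) / 24000001,
      ((24000000 * (421824 / 5) + eq' (k + 1) 0) / 24000001 - eq' (k + 1) 0) / 2400000)] := rfl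
  rw [e2]
  unfold qV
  rw [e1]
  simpa only [List.append_assoc, List.cons_append, List.nil_append] using h

theorem qV_noStraight (n : ℕ) (hn : 1 ≤ n) : NoStraight ((qV n).map toC) :=
  NoStraight_of_T3 _ (qV_T3 n hn)

end MPc01941
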