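import Pool.Agent.Lib.MP_c01941_lc.Defs

/-!
FP-TMBound. A Turing machine (Mathlib's `FinTM2`) that runs for `t` steps writes at most
`C t` symbols. For `C` take the maximum over the labels of the number of `push` instructions
in the statement (`TM2.stepAux` executes a whole statement tree in one step: bound the growth of
each stack by the size of the statement, by induction on the statement).
Then `stk.length ≤ initial length + C * t` by induction on the number of steps
(`TM2OutputsInTime` is an `EvalsToInTime`), and the output is the content of the output stack of the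
halting configuration (`haltList`).
-/

namespace MPc01941

open Turing

/-- the number of push instructions of a statement -/
private def pushCount {K : Type} {Γ : K → Type} {Λ σ : Type} : TM2.Stmt Γ Λ σ → ℕ
  | .push _ _ q => pushCount q + 1
  | .peek _ _ q => pushCount q
  | .pop _ _ q => pushCount q
  | .load _ q => pushCount q
  | .branch _ q₁ q₂ => pushCount q₁ + pushCount q₂
  | .goto _ => 0
  | .halt => 0

private theorem tm_stepAux {K : Type} [DecidableEq K] {Γ : K → Type} {Λ σ : Type}
    (q : TM2.Stmt Γ Λ σ) : ∀ (v : σ) (S : ∀ k, List (Γ k)) (k : K),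
      ((TM2.stepAux q v S).stk k).length ≤ (S k).length + pushCount q := by
  induction q with
  | push k' f q ih =>
    intro v S k
    rw [TM2.stepAux, pushCount]
    refine (ih _ _ k).trans ?_
    by_cases hk : k = k'
    · subst hk
      rw [Function.update_self, List.length_cons]
      omega
    · rw [Function.update_of_ne hk]
      omega
  | peek k' f q ih =>
    intro v S k
    rw [TM2.stepAux, pushCount]
    exact ih _ _ k
  | pop k' f q ih =>
    intro v S k
    rw [TM2.stepAux, pushCount]
    refine (ih _ _ k).trans ?_
    by_cases hk : k = k'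
    · subst hk
      rw [Function.update_self, List.length_tail]
      omega
    · rw [Function.update_of_ne hk]
  | load a q ih =>
    intro v S k
    rw [TM2.stepAux, pushCount]
    exact ih _ _ k
  | branch f q₁ q₂ ih₁ ih₂ =>
    intro v S k
    rw [TM2.stepAux, pushCount]
    cases f v
    · exact (ih₂ _ _ k).trans (by omega)
    · exact (ih₁ _ _ k).trans (by omega)
  | goto f =>
    intro v S k
    rw [TM2.stepAux, pushCount]
    simp
  | halt =>
    intro v S k
    rw [TM2.stepAux, pushCount]
    simp

private theorem tm_step {K : Type} [DecidableEq K] {Γ : K → Type} {Λ σ : Type} [Fintype Λ]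
    (m : Λ → TM2.Stmt Γ Λ σ) (c c' : TM2.Cfg Γ Λ σ) (h : TM2.step m c = some c') (k : K) :
    (c'.stk k).length ≤ (c.stk k).length + ∑ l, pushCount (m l) := by
  obtain ⟨l, v, S⟩ := c
  cases l with
  | none => simp at h
  | some l =>
    rw [TM2.step, Option.some.injEq] at h
    rw [← h]
    refine (tm_stepAux (m l) v S k).trans (Nat.add_le_add_left ?_ _)
    exact Finset.single_le_sum (f := fun l => pushCount (m l)) (fun _ _ => Nat.zero_le _)
      (Finset.mem_univ l)

private theorem tm_iter {K : Type} [DecidableEq K] {Γ : K → Type} {Λ σ : Type} [Fintype Λ]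
    (m : Λ → TM2.Stmt Γ Λ σ) (c : TM2.Cfg Γ Λ σ) (k : K) : ∀ (n : ℕ) (c' : TM2.Cfg Γ Λ σ),
      (flip bind (TM2.step m))^[n] (some c) = some c' →
      (c'.stk k).length ≤ (c.stk k).length + (∑ l, pushCount (m l)) * n := by
  intro n
  induction n with
  | zero =>
    intro c' h
    rw [Function.iterate_zero, id, Option.some.injEq] at h
    rw [h]; simp
  | succ n ih =>
    intro c' h
    rw [Function.iterate_succ_apply'] at h
    obtain ⟨c₁, h1, h2⟩ := Option.bind_eq_some_iff.1 h
    refine (tm_step m c₁ c' h2 k).trans ?_
    have h3 := ih c₁ h1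
    rw [Nat.mul_succ]
    omega

private theorem tm_init (tm : FinTM2) (l : List (tm.Γ tm.k₀)) (k : tm.K) :
    ((initList tm l).stk k).length ≤ l.length := by
  unfold initList
  simp only
  by_cases hk : k = tm.k₀
  · subst hk
    rw [dif_pos rfl]
    exact le_rfl
  · rw [dif_neg hk]
    simp

private theorem tm_halt (tm : FinTM2) (l : List (tm.Γ tm.k₁)) :
    (haltList tm l).stk tm.k₁ = l := by
  unfold haltList
  exact dif_pos rfl

theorem tm_output_length (tm : FinTM2) : ∃ C : ℕ, ∀ (l : List (tm.Γ tm.k₀))
    (l' : List (tm.Γ tm.k₁)) (t : ℕ), TM2OutputsInTime tm l (some l') t →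
      l'.length ≤ l.length + C * t := by
  let _ := tm.ΛFin
  refine ⟨∑ l, pushCount (tm.m l), fun l l' t h => ?_⟩
  have h1 := tm_iter (K := tm.K) tm.m (initList tm l) tm.k₁ h.steps (haltList tm l')
    h.evals_in_steps
  rw [tm_halt] at h1
  have h2 := tm_init tm l tm.k₁
  have h3 := Nat.mul_le_mul_left (∑ l, pushCount (tm.m l)) h.steps_le_m
  omega

end MPc01941
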