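import Pool.Agent.Lib.MP_c01941_lc.TailGlue

/-!
FP-TailPoly. Induction on `k`: base `last_eq` with `isPolygon_quad` (translated); step `tail_glue` with
`portion_eq`; the last step with `portion_zero`, `s = a0`, `s' = cbx a0 (e 0)`.
-/

namespace MPc01941

namespace Cfg

variable (c : Cfg)

private theorem tp_cbx {a e : ℝ} (ha : 84000 ≤ a ∧ a ≤ 85000) (he : 219362 ≤ e ∧ e ≤ 220038) :
    a ≤ cbx a e ∧ cbx a e ≤ 86000 := by
  obtain ⟨h1, h2⟩ := ha
  obtain ⟨h3, h4⟩ := he
  unfold cbx
  constructor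
  · rw [le_div_iff₀ (by norm_num)]
    linarith
  · rw [div_le_iff₀ (by norm_num)]
    linarith

private theorem tp_quad {a e x : ℝ} (ha : 84000 ≤ a ∧ a ≤ 85000)
    (he : 219362 ≤ e ∧ e ≤ 220038) (hx : a ≤ x ∧ x ≤ 86000) :
    IsPolygon [vS 3, vS' e 3, vS' e x, vS a] (quad (vS 3) (vS' e 3) (vS' e x) (vS a)) := by
  obtain ⟨h1, h2⟩ := ha
  obtain ⟨h3, h4⟩ := he
  obtain ⟨h5, h6⟩ := hx
  apply isPolygon_quad
  · have : cr (vS 3) (vS' e 3) (vS' e x) = (e - 3) * (x - 3) / 2400000 := by
      simp only [cr, vS, vS']; ring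
    rw [this]
    exact div_pos (mul_pos (by linarith) (by linarith)) (by norm_num)
  · have : cr (vS' e 3) (vS' e x) (vS a) = (x - 3) * (e - a) / 2400000 := by
      simp only [cr, vS, vS']; ring
    rw [this]
    exact div_pos (mul_pos (by linarith) (by linarith)) (by norm_num)
  · have : cr (vS' e x) (vS a) (vS 3) = (e - x) * (a - 3) / 2400000 := by
      simp only [cr, vS, vS']; ring
    rw [this]
    exact div_pos (mul_pos (by linarith) (by linarith)) (by norm_num)
  · have : cr (vS a) (vS 3) (vS' e 3) = (a - 3) * (e - 3) / 2400000 := by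
      simp only [cr, vS, vS']; ring
    rw [this]
    exact div_pos (mul_pos (by linarith) (by linarith)) (by norm_num)

theorem tail_poly (k j : ℕ) (hj : 1 ≤ j) (hk : j + k = c.n) :
    IsPolygon ((vS 3 + c.org j) :: (vS' (c.e j) 3 + c.org j) :: c.tl k j) (c.tailSet j) := by
  induction k generalizing j with
  | zero =>
    have hjn : j = c.n := by omega
    subst hjn
    rw [c.tailSet_last, c.last_eq]
    have h := (tp_quad c.ha1 (c.he c.n) (tp_cbx c.ha1 (c.he c.n))).translate (c.org c.n)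
    simpa [tl] using h
  | succ k ih =>
    exact c.tail_glue (j := j) (k := k) hk le_rfl le_rfl (by norm_num)
      (c.portion_eq hj (by omega)) (ih (j + 1) (by omega) (by omega))

theorem isPolygon_P : IsPolygon c.verts c.P := by
  obtain ⟨k, hk⟩ : ∃ k, c.n = k + 1 := ⟨c.n - 1, by have := c.hn; omega⟩
  have ha := c.ha0
  have hb := tp_cbx c.ha0 (c.he 0)
  have hB : {z | ∃ i, 6 * 0 ≤ i ∧ i < 6 * (0 + 1) ∧ z ∈ c.K i} =
      {z | z - c.org 0 ∈ upSet (c.e 0) c.a0 (cbx c.a0 (c.e 0)) (18 / 5) (432 / 325) ∪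
        lowSet (c.e 0) (c.m 0)} := by
    rw [← c.portion_zero]
    ext z
    simp
  have h := c.tail_glue (j := 0) (k := k) (by omega) (by linarith) hb.1 hb.2 hB
    (c.tail_poly k (0 + 1) (by omega) (by omega))
  have h0 : c.org 0 = 0 := by
    apply Complex.ext <;> simp [org, ox, oy]
  rw [h0, add_zero, add_zero, c.tailSet_zero, ← hk] at h
  exact h

end Cfg

end MPc01941
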