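import Pool.Agent.Lib.MP_c01941_lc.Exist
import Pool.Agent.Lib.MP_c01941_lc.OutLen
import Pool.Agent.Lib.MP_c01941_lc.TailPoly
import Pool.Agent.Lib.MP_c01941_lc.QStraight
import Pool.Agent.Lib.MP_c01941_lc.QEnc
import Pool.Agent.Lib.MP_c01941_lc.TMBound

/-!
FP-Final. Assembly.
-/

namespace MPc01941

/-- Hard instances: for every `n ≥ 1` there is a polygon with `19 n + 4` rational vertices and an
encoding of length `≤ C (n+1)^2` such that `m_67600 = 3 n`, every `67600`-bounded partition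
into `3 n` pieces has a vertex whose abscissa has degree at least `2^(n-1)` over `ℚ` (and is no root
of a polynomial with few terms), and every right output has length more than
`2^((n-1)/2) / 2`. -/
theorem hard_instances : ∃ C : ℕ, ∀ n : ℕ, 1 ≤ n → ∃ (v : List (ℚ × ℚ)) (P : Set ℂ),
    v.length = 19 * n + 4 ∧ IsPolygon (v.map toC) P ∧ NoStraight (v.map toC) ∧
    (encIn v 67600).length ≤ C * (n + 1) ^ 2 ∧ MinPieces 67600 P (3 * n) ∧
    (∀ W, IsBoundedPartition 67600 P W → W.length = 3 * n →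
      ∃ v ∈ W, ∃ z ∈ v, ∀ p : Polynomial ℚ, p ≠ 0 → Polynomial.aeval z.re p = 0 →
        2 ^ (n - 1) ≤ p.natDegree ∧ 2 ^ ((n - 1) / 2) < 2 * p.support.card) ∧
    ∀ O : Output, OutputCorrect 67600 P O → 2 ^ ((n - 1) / 2) < 2 * (encOut O).length := by
  obtain ⟨C, hC⟩ := qV_enc
  refine ⟨C, fun n hn => ⟨qV n, (cfg n hn).P, qV_length n, ?_, qV_noStraight n hn, hC n hn,
    ⟨exists_partition hn, ?_⟩, fun W hW hl => vertex_degree hn hW hl.le,
    fun O hO => out_long hn (exists_partition hn) hO⟩⟩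
  · rw [qV_map n hn]
    exact (cfg n hn).isPolygon_P
  · rintro l ⟨W, hW, hW'⟩
    rw [← hW]
    exact lower_length hn hW'

private theorem fin_tendsto (h : Polynomial ℕ) :
    Filter.Tendsto (fun n : ℕ => ((h.eval n : ℕ) : ℝ) / 2 ^ n) Filter.atTop (nhds 0) := by
  induction h using Polynomial.induction_on' with
  | add p q hp hq =>
    have h1 := hp.add hq
    rw [add_zero] at h1
    refine h1.congr fun n => ?_
    rw [Polynomial.eval_add]
    push_cast
    ring
  | monomial k c =>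
    have h1 := (tendsto_pow_const_div_const_pow_of_one_lt k (by norm_num : (1 : ℝ) < 2)).const_mul
      (c : ℝ)
    rw [mul_zero] at h1
    refine h1.congr fun n => ?_
    rw [Polynomial.eval_monomial]
    push_cast
    ring

private theorem fin_lt (h : Polynomial ℕ) : ∃ n : ℕ, 1 ≤ n ∧ h.eval n < 2 ^ (n - 1) := by
  have h1 := (fin_tendsto h).eventually_lt_const (by norm_num : (0 : ℝ) < 1 / 2)
  obtain ⟨n, hn, hn1⟩ := (h1.and (Filter.eventually_ge_atTop 1)).exists
  refine ⟨n, hn1, ?_⟩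
  have h2 : (0 : ℝ) < 2 ^ n := by positivity
  rw [div_lt_iff₀ h2] at hn
  have h3 : (2 : ℝ) ^ n = 2 * 2 ^ (n - 1) := by
    rw [← pow_succ']
    congr 1
    omega
  rw [h3] at hn
  have h4 : ((h.eval n : ℕ) : ℝ) < ((2 ^ (n - 1) : ℕ) : ℝ) := by
    push_cast
    linarith
  exact_mod_cast h4

private theorem fin_mono (f : Polynomial ℕ) {a b : ℕ} (hab : a ≤ b) : f.eval a ≤ f.eval b := by
  induction f using Polynomial.induction_on' with
  | add p q hp hq =>
    rw [Polynomial.eval_add, Polynomial.eval_add]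
    exact add_le_add hp hq
  | monomial k c =>
    rw [Polynomial.eval_monomial, Polynomial.eval_monomial]
    exact Nat.mul_le_mul_left _ (Nat.pow_le_pow_left hab k)

/-- no such machine exists -/
theorem no_algorithm : ¬ ∃ (M : Turing.TM2ComputableAux Sym Sym) (f : Polynomial ℕ),
    Solves M f := by
  rintro ⟨M, f, hM⟩
  obtain ⟨C, hC⟩ := hard_instances
  obtain ⟨D, hD⟩ := tm_output_length M.tm
  obtain ⟨k, hk, hlt⟩ := fin_lt ((2 * (Polynomial.C C * (Polynomial.X + 1) ^ 2 +
    Polynomial.C D * f.comp (Polynomial.C C * (Polynomial.X + 1) ^ 2 +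
      Polynomial.C 3 * Polynomial.X))).comp (2 * Polynomial.X + 1))
  set n := 2 * k + 1 with hn'
  have hn : 1 ≤ n := by omega
  obtain ⟨v, P, -, hP, hS, hL, hm, -, hout⟩ := hC n hn
  obtain ⟨out, t, ho, ⟨ht⟩, -, htk⟩ := hM v P 67600 (by norm_num) hP hS
  have e1 : (((67600 : ℚ) : ℚ) : ℝ) = 67600 := by norm_num
  rw [e1] at ho htk
  have h1 := hout out ho
  have h2 := htk (3 * n) hm
  have h3 := hD _ _ t ht
  rw [List.length_map, List.length_map] at h3
  have h4 : f.eval ((encIn v 67600).length + 3 * n) ≤ f.eval (C * (n + 1) ^ 2 + 3 * n) :=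
    fin_mono f (by omega)
  have e2 : (n - 1) / 2 = k := by omega
  rw [e2] at h1
  simp only [Polynomial.eval_add, Polynomial.eval_mul, Polynomial.eval_C, Polynomial.eval_pow,
    Polynomial.eval_X, Polynomial.eval_one, Polynomial.eval_comp, Polynomial.eval_ofNat] at hlt
  rw [← hn'] at hlt
  have h5 : D * t ≤ D * f.eval (C * (n + 1) ^ 2 + 3 * n) := Nat.mul_le_mul_left _ (h2.trans h4)
  have h6 : 2 ^ (k - 1) ≤ 2 ^ k := Nat.pow_le_pow_right (by norm_num) (by omega)
  omega

end MPc01941
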