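import Pool.Agent.Lib.MP_c01941_lc.Off

/-!
FP-KInter. Positions of the common points of neighbouring cells, closedness of the cells,
positions of the witnesses.
-/

namespace MPc01941

private theorem cl_and {p q : ℂ → Prop} (hp : IsClosed {z | p z}) (hq : IsClosed {z | q z}) :
    IsClosed {z | p z ∧ q z} := hp.inter hq

private theorem cl_imp {a : Prop} {p : ℂ → Prop} (hp : IsClosed {z | p z}) :
    IsClosed {z | a → p z} := by
  by_cases h : a
  · simpa [h] using hp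
  · simp [h]

private theorem cl_le {f g : ℂ → ℝ} (hf : Continuous f) (hg : Continuous g) :
    IsClosed {z | f z ≤ g z} := isClosed_le hf hg

namespace Cfg

variable (c : Cfg)

theorem K_closed (i : ℕ) : IsClosed (c.K i) := by
  have hre : Continuous fun z : ℂ => z.re - c.ox (i / 6) := Complex.continuous_re.sub continuous_const
  have him : Continuous fun z : ℂ => z.im - c.oy (i / 6) := Complex.continuous_im.sub continuous_const
  unfold K
  have hk : i % 6 < 6 := Nat.mod_lt _ (by norm_num)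
  generalize i % 6 = k at *
  generalize i / 6 = j at *
  interval_cases k
  · simp only [inK, cL]
    refine cl_and (cl_and (cl_le ?_ ?_) (cl_and (cl_le ?_ ?_) (cl_le ?_ ?_)))
      (cl_and (cl_imp (cl_le ?_ ?_)) (cl_imp (cl_le ?_ ?_))) <;> fun_prop
  · simp only [inK, cA]
    refine cl_and (cl_le ?_ ?_) (cl_and (cl_le ?_ ?_) (cl_and (cl_le ?_ ?_) (cl_le ?_ ?_))) <;>
      fun_prop
  · simp only [inK, cT]
    refine cl_and (cl_le ?_ ?_) (cl_and (cl_le ?_ ?_) (cl_and (cl_le ?_ ?_) (cl_le ?_ ?_))) <;>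
      fun_prop
  · simp only [inK, cB]
    refine cl_and (cl_le ?_ ?_) (cl_and (cl_le ?_ ?_) (cl_and (cl_le ?_ ?_) (cl_le ?_ ?_))) <;>
      fun_prop
  · simp only [inK, cM]
    refine cl_and (cl_le ?_ ?_) (cl_and (cl_le ?_ ?_) (cl_le ?_ ?_)) <;>
      fun_prop
  · simp only [inK, cC]
    refine cl_and (cl_le ?_ ?_) (cl_and (cl_le ?_ ?_) (cl_and (cl_le ?_ ?_) (cl_le ?_ ?_))) <;>
      fun_prop

private theorem K0 (j : ℕ) (z : ℂ) : z ∈ c.K (6 * j) ↔ c.inK j 0 (z.re - c.ox j) (z.im - c.oy j) := by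
  simpa using c.mem_K j 0 (by norm_num) z

/-- first line / upper arm: near the point `J j = pt j (e j - 81120) 0` -/
theorem inter01 {j : ℕ} {z : ℂ} (h0 : z ∈ c.K (6 * j)) (h1 : z ∈ c.K (6 * j + 1)) :
    |z.re - (c.ox j + (c.e j - 81120))| ≤ 1 ∧ |z.im - c.oy j| ≤ 1 := by
  have h2 := cL_bounds (c.he j) ((c.K0 j z).1 h0).1
  have h3 := cA_bounds ((c.mem_K j 1 (by norm_num) z).1 h1)
  constructor <;> rw [abs_le] <;> constructor <;> linarith

/-- lower arm / second line: near the point `J' j = pt j (e j - 81120) (-117624)` -/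
theorem inter34 {j : ℕ} {z : ℂ} (h0 : z ∈ c.K (6 * j + 3)) (h1 : z ∈ c.K (6 * j + 4)) :
    |z.re - (c.ox j + (c.e j - 81120))| ≤ 1 ∧ |z.im - (c.oy j - 117624)| ≤ 1 := by
  have h2 := cB_bounds ((c.mem_K j 3 (by norm_num) z).1 h0)
  have h3 := cM_bounds (c.hm j) ((c.mem_K j 4 (by norm_num) z).1 h1)
  constructor <;> rw [abs_le] <;> constructor <;> linarith

/-- second line / C-room: near the bend -/
theorem inter45 {j : ℕ} {z : ℂ} (h0 : z ∈ c.K (6 * j + 4)) (h1 : z ∈ c.K (6 * j + 5)) :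
    |z.re - c.ox (j + 1)| ≤ 1 ∧ |z.im - c.oy (j + 1)| ≤ 1 := by
  have h2 := cM_bounds (c.hm j) ((c.mem_K j 4 (by norm_num) z).1 h0)
  have h3 := cC_bounds ((c.mem_K j 5 (by norm_num) z).1 h1)
  rw [c.ox_succ, c.oy_succ]
  constructor <;> rw [abs_le] <;> constructor <;> linarith

/-- C-room / next first line -/
theorem inter50 {j : ℕ} {z : ℂ} (h0 : z ∈ c.K (6 * j + 5)) (h1 : z ∈ c.K (6 * j + 6)) :
    |z.re - c.ox (j + 1)| ≤ 3 ∧ |z.im - c.oy (j + 1)| ≤ 1 := by
  have h2 := cC_bounds ((c.mem_K j 5 (by norm_num) z).1 h0)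
  have h3 := cL_bounds (c.he (j + 1)) ((c.K0 (j + 1) z).1 h1).1
  have h4 := c.ox_succ j
  have h5 := c.oy_succ j
  constructor <;> rw [abs_le] <;> constructor <;> linarith

theorem wit0 (j : ℕ) : c.wit (3 * j) = c.pt j (c.e j) 0 := by
  have h1 : 3 * j % 3 = 0 := by omega
  have h2 : 3 * j / 3 = j := by omega
  simp only [wit, h1, h2]

theorem wit1 (j : ℕ) : c.wit (3 * j + 1) = c.pt j (c.e j - 123960) (-160824) := by
  have h1 : (3 * j + 1) % 3 = 1 := by omega
  have h2 : (3 * j + 1) / 3 = j := by omega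
  simp only [wit, h1, h2]

theorem wit2 (j : ℕ) : c.wit (3 * j + 2) = c.pt (j + 1) 0 0 := by
  have h1 : (3 * j + 2) % 3 = 2 := by omega
  have h2 : (3 * j + 2) / 3 = j := by omega
  simp only [wit, h1, h2]

theorem wit0_mem {j : ℕ} (hj : j < c.n) : c.wit (3 * j) ∈ c.K (6 * j) := by
  rw [wit0, K0]
  have he := c.he j
  have ha := c.ha0
  refine ⟨⟨?_, ?_, ?_⟩, fun h => ?_, fun h => by omega⟩ <;> simp only [pt]
  · linarith
  · linarith
  · linarith
  · linarith

theorem wit1_mem (j : ℕ) : c.wit (3 * j + 1) ∈ c.K (6 * j + 4) := by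
  rw [wit1, c.mem_K j 4 (by norm_num)]
  have he := c.he j
  have hm := c.hm j
  refine ⟨?_, ?_, ?_⟩ <;> simp only [pt] <;> linarith

theorem wit2_mem (j : ℕ) :
    c.wit (3 * j + 2) ∈ c.K (6 * j + 4) ∧ c.wit (3 * j + 2) ∈ c.K (6 * j + 5) := by
  rw [wit2, c.mem_K j 4 (by norm_num), c.mem_K j 5 (by norm_num)]
  have he := c.he j
  have hm := c.hm j
  refine ⟨⟨?_, ?_, ?_⟩, ?_, ?_, ?_, ?_⟩ <;> simp only [pt, ox_succ, oy_succ] <;> linarith

end Cfg

end MPc01941
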