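import Pool.Agent.Lib.MP_c01941_lc.KDisj
import Pool.Agent.Lib.MP_c01941_lc.KInter

/-!
FP-Gate. A connected subset of the region that meets cells `i ≤ g` and `l > g` contains a point
of `K g ∩ K (g+1)`. Proof: `A = ⋃_{t ≤ g} K t`, `B = ⋃_{g < t ≤ 6n} K t` are closed (finite unions),
cover `P ⊇ Q`, `Q` meets both, so `Q ∩ (A ∩ B) ≠ ∅` (`isPreconnected_closed_iff`); a common point
lies in `K t ∩ K t'` with `t ≤ g < t'`, and `K_disj` forces `t = g`, `t' = g + 1`.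
-/

namespace MPc01941

theorem Cfg.gate (c : Cfg) {Q : Set ℂ} (hQ : IsPreconnected Q) (hP : Q ⊆ c.P) {i g l : ℕ}
    (hi : i ≤ g) (hl : g < l) (hln : l ≤ 6 * c.n) {z w : ℂ} (hz : z ∈ Q) (hzK : z ∈ c.K i)
    (hw : w ∈ Q) (hwK : w ∈ c.K l) : ∃ v ∈ Q, v ∈ c.K g ∧ v ∈ c.K (g + 1) := by
  classical
  rw [isPreconnected_closed_iff] at hQ
  set A : Set ℂ := ⋃ t ∈ Finset.range (g + 1), c.K t with hA
  set B : Set ℂ := ⋃ t ∈ Finset.Ioc g (6 * c.n), c.K t with hB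
  have hAc : IsClosed A := (Finset.range (g + 1)).finite_toSet.isClosed_biUnion fun t _ => c.K_closed t
  have hBc : IsClosed B := (Finset.Ioc g (6 * c.n)).finite_toSet.isClosed_biUnion fun t _ => c.K_closed t
  have hcov : Q ⊆ A ∪ B := by
    intro q hq
    obtain ⟨t, ht, hqt⟩ := hP hq
    by_cases h : t ≤ g
    · left
      simp only [hA, Set.mem_iUnion]
      exact ⟨t, Finset.mem_range.2 (by omega), hqt⟩
    · right
      simp only [hB, Set.mem_iUnion]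
      exact ⟨t, Finset.mem_Ioc.2 ⟨by omega, ht⟩, hqt⟩
  have h1 : (Q ∩ A).Nonempty := ⟨z, hz, by
    simp only [hA, Set.mem_iUnion]
    exact ⟨i, Finset.mem_range.2 (by omega), hzK⟩⟩
  have h2 : (Q ∩ B).Nonempty := ⟨w, hw, by
    simp only [hB, Set.mem_iUnion]
    exact ⟨l, Finset.mem_Ioc.2 ⟨hl, hln⟩, hwK⟩⟩
  obtain ⟨v, hv, hvA, hvB⟩ := hQ A B hAc hBc hcov h1 h2
  simp only [hA, Set.mem_iUnion] at hvA
  simp only [hB, Set.mem_iUnion] at hvB
  obtain ⟨t, ht, hvt⟩ := hvA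
  obtain ⟨t', ht', hvt'⟩ := hvB
  rw [Finset.mem_range] at ht
  rw [Finset.mem_Ioc] at ht'
  have : ¬ t + 2 ≤ t' := fun h => (Set.disjoint_left.1 (c.K_disj h)) hvt hvt'
  have e1 : t = g := by omega
  have e2 : t' = g + 1 := by omega
  subst e1
  rw [e2] at hvt'
  exact ⟨v, hv, hvt, hvt'⟩

end MPc01941
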