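import Pool.Agent.Lib.MP_c01941_lc.TentBall

/-!
FP-TwoDisk. Two disks in a room with disjoint interiors. Pure computation.
`two_disk`: by symmetry `X ≤ X'`. From `wl` for the first disk and `wr` for the second one (with
`r ≥ 9/10`, `Y ≥ r - 1/70`): `X ≥ -1.28`, `X' ≤ 1.28`; `|Y - Y'| ≤ 0.28`; so `X' - X ≥ 1.77` and
`X ≤ -0.49`, `X' ≥ 0.49`. Hence the exact bounds `r ≤ Y ≤ 41/20 - r`, `r' ≤ Y' ≤ 41/20 - r'`.
Put `s = r + r'`, `D = X' - X`, `V = |Y - Y'|`, `d = |r - r'|`, `g = (Y - r) + (Y' - r') ≥ 0`,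
`W = (36 - 13 s)/5`. Adding the two wall inequalities: `D ≤ W - 72/65 g`. And `V ≤ d + g`,
`V ≤ 0.28 ≤ 72/65 D`. Therefore `W^2 - D^2 = (W - D) (W + D) ≥ 72/65 g * 2 D ≥ 2 V g` and
`V^2 - d^2 ≤ 2 V g`, so `W^2 + d^2 ≥ D^2 + V^2 ≥ s^2`, which is `225 ≤ FF (13/8 - r) (13/8 - r')`:
with `σ = 13/4 - s`, `FF = 144 σ^2 + 25 d^2` and `25 (W^2 + d^2 - s^2) = 144 σ^2 + 25 d^2 - 225`.
`two_small`: `13/8 - r ≥ 29/40`, `13/8 - r' ≥ 117/200`.
-/

namespace MPc01941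

private theorem td_id (x y : ℝ) : FF x y = 144 * (x + y) ^ 2 + 25 * (x - y) ^ 2 := by
  unfold FF
  ring

private theorem td_aux {X Y r X' Y' r' : ℝ} (h : TB X Y r) (h' : TB X' Y' r') (hX : X ≤ X')
    (hd : (r + r') ^ 2 ≤ (X - X') ^ 2 + (Y - Y') ^ 2) : 225 ≤ FF (13 / 8 - r) (13 / 8 - r') := by
  obtain ⟨a1, a2, a3, a4, a5, a6, a7, a8, a9, a10⟩ := h
  obtain ⟨b1, b2, b3, b4, b5, b6, b7, b8, b9, b10⟩ := h'
  have c1 : -(128 / 100) ≤ X := by linarith
  have c2 : X' ≤ 128 / 100 := by linarith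
  have c3 : |Y - Y'| ≤ 28 / 100 := by
    rw [abs_le]
    constructor <;> linarith
  have c4 : 177 / 100 ≤ X' - X := by
    by_contra hc
    push Not at hc
    have e1 : (X - X') ^ 2 ≤ (177 / 100) ^ 2 := by
      have : (X - X') ^ 2 = (X' - X) ^ 2 := by ring
      rw [this]
      exact pow_le_pow_left₀ (by linarith) hc.le 2
    have e2 : (Y - Y') ^ 2 ≤ (28 / 100) ^ 2 := by
      rw [← sq_abs (Y - Y')]
      exact pow_le_pow_left₀ (abs_nonneg _) c3 2
    have e3 : (9 / 5) ^ 2 ≤ (r + r') ^ 2 := pow_le_pow_left₀ (by norm_num) (by linarith) 2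
    norm_num at e1 e2 e3
    linarith
  have d1 : r ≤ Y := a5 (by linarith)
  have d2 : Y ≤ 41 / 20 - r := a7 (by linarith)
  have d3 : r' ≤ Y' := b6 (by linarith)
  have d4 : Y' ≤ 41 / 20 - r' := b8 (by linarith)
  set g : ℝ := (Y - r) + (Y' - r') with hg
  have hg0 : 0 ≤ g := by linarith
  set D : ℝ := X' - X with hD
  set W : ℝ := (36 - 13 * (r + r')) / 5 with hW
  have hWD : D + 72 / 65 * g ≤ W := by
    rw [hW, hg, hD]
    linarith
  set V : ℝ := |Y - Y'| with hV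
  set d : ℝ := |r - r'| with hdd
  have hV0 : 0 ≤ V := abs_nonneg _
  have hd0 : 0 ≤ d := abs_nonneg _
  have hVd : V ≤ d + g := by
    rw [hV, abs_le]
    have e1 := neg_abs_le (r - r')
    have e2 := le_abs_self (r - r')
    constructor <;> rw [hg] <;> linarith
  have k1 : 2 * V * g ≤ W ^ 2 - D ^ 2 := by
    have e1 : W ^ 2 - D ^ 2 = (W - D) * (W + D) := by ring
    have e2 : (72 / 65 * g) * (2 * D) ≤ (W - D) * (W + D) := by
      apply mul_le_mul (by linarith) _ (by linarith) _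
      · have : 0 ≤ 72 / 65 * g := by positivity
        linarith
      · have : 0 ≤ 72 / 65 * g := by positivity
        linarith
    have e3 : V * g ≤ (72 / 65 * D) * g := mul_le_mul_of_nonneg_right (by linarith) hg0
    rw [e1]
    linarith
  have k2 : V ^ 2 - d ^ 2 ≤ 2 * V * g := by
    rcases le_total V g with e | e
    · have e1 : V * V ≤ V * g := mul_le_mul_of_nonneg_left e hV0
      have e2 : 0 ≤ V * g := mul_nonneg hV0 hg0
      have e3 := sq_nonneg d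
      linarith [sq V]
    · have e1 : (V - g) ^ 2 ≤ d ^ 2 := pow_le_pow_left₀ (by linarith) (by linarith) 2
      have e2 : (V - g) ^ 2 = V ^ 2 - 2 * V * g + g ^ 2 := by ring
      have e3 := sq_nonneg g
      linarith
  have k3 : (r + r') ^ 2 ≤ W ^ 2 + d ^ 2 := by
    have e1 : (X - X') ^ 2 = D ^ 2 := by rw [hD]; ring
    have e2 : (Y - Y') ^ 2 = V ^ 2 := (sq_abs _).symm
    rw [e1, e2] at hd
    linarith
  have k4 : d ^ 2 = (r - r') ^ 2 := sq_abs _
  rw [td_id]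
  rw [k4, hW] at k3
  have k5 : 144 * (13 / 8 - r + (13 / 8 - r')) ^ 2 + 25 * (13 / 8 - r - (13 / 8 - r')) ^ 2 - 225 =
      25 * (((36 - 13 * (r + r')) / 5) ^ 2 + (r - r') ^ 2 - (r + r') ^ 2) := by ring
  linarith

theorem two_disk {X Y r X' Y' r' : ℝ} (h : TB X Y r) (h' : TB X' Y' r')
    (hd : (r + r') ^ 2 ≤ (X - X') ^ 2 + (Y - Y') ^ 2) : 225 ≤ FF (13 / 8 - r) (13 / 8 - r') := by
  rcases le_total X X' with hX | hX
  · exact td_aux h h' hX hd
  · have h1 := td_aux h' h hX (by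
      have e1 : (r' + r) ^ 2 = (r + r') ^ 2 := by ring
      have e2 : (X' - X) ^ 2 = (X - X') ^ 2 := by ring
      have e3 : (Y' - Y) ^ 2 = (Y - Y') ^ 2 := by ring
      rw [e1, e2, e3]
      exact hd)
    rw [td_id] at h1 ⊢
    have e4 : (13 / 8 - r' - (13 / 8 - r)) ^ 2 = (13 / 8 - r - (13 / 8 - r')) ^ 2 := by ring
    have e5 : 13 / 8 - r' + (13 / 8 - r) = 13 / 8 - r + (13 / 8 - r') := by ring
    rw [e4, e5] at h1
    exact h1

theorem two_small {r r' : ℝ} (h1 : r ≤ 26 / 25) (h2 : r' ≤ 26 / 25) (h : r < 9 / 10 ∨ r' < 9 / 10) :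
    225 ≤ FF (13 / 8 - r) (13 / 8 - r') := by
  rw [td_id]
  have e1 : (131 / 100) ^ 2 ≤ (13 / 8 - r + (13 / 8 - r')) ^ 2 := by
    apply pow_le_pow_left₀ (by norm_num)
    rcases h with h | h <;> linarith
  have e2 := sq_nonneg (13 / 8 - r - (13 / 8 - r'))
  norm_num at e1
  linarith

theorem FF_comm (x y : ℝ) : FF x y = FF y x := by
  simp only [FF]; ring

end MPc01941
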