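import Pool.Agent.Lib.MP_c01941_lc.Ext
import Pool.Agent.Lib.MP_c01941_lc.TwoDisk

/-!
FP-GeomMain. The inequalities that every partition into at most `3n` fat connected pieces satisfies.
`r j = p.r (f (3j))`, `r' j = p.r (f (3j+1))`, `a j` from `extL` (`a 0 = a0`, `a n = a1`), `b j` from
`extM`. `FF ≥ 225`: both centers are in the room `6j+2` (`inT`, `inT'`), the interiors of the
two pieces are disjoint, so the distance of the centers is `≥ r + r'`; `tent_ball` and `two_disk`,
or `two_small`. `FF (b j) (a (j+1)) / 169` is the square of the distance of the two points of the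
piece `f (3j+2)`, which is `≤ 2 * 67600 * r ≤ 156000` (`169 * 156000^2 = 225 * 135200^2`); in the
case of equality `r = 15/13` and both points are at distance `67600 r` from `ctr'`.
-/

namespace MPc01941

open Metric

theorem dist_sq_eq (z w : ℂ) : dist z w ^ 2 = (z.re - w.re) ^ 2 + (z.im - w.im) ^ 2 := by
  rw [Complex.dist_eq_re_im, Real.sq_sqrt (by positivity)]

/-- disks inside different pieces have disjoint interiors -/
theorem Part.ctr_dist {c : Cfg} (p : Part c) {i k : Fin p.N} (hik : i ≠ k) :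
    p.r i + p.r k ≤ dist (p.ctr i) (p.ctr k) := by
  have h1 : ball (p.ctr i) (p.r i) ⊆ interior (p.Q i) :=
    interior_maximal (ball_subset_closedBall.trans (p.inb i)) isOpen_ball
  have h2 : ball (p.ctr k) (p.r k) ⊆ interior (p.Q k) :=
    interior_maximal (ball_subset_closedBall.trans (p.inb k)) isOpen_ball
  have h3 : Disjoint (ball (p.ctr i) (p.r i)) (ball (p.ctr k) (p.r k)) :=
    (p.disj i k hik).mono h1 h2
  by_contra hc
  push Not at hc
  have hp := p.pos i
  have hp' := p.pos k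
  -- a point between the centers
  set D := dist (p.ctr i) (p.ctr k) with hD
  have hD0 : 0 ≤ D := dist_nonneg
  set t : ℝ := p.r i / (p.r i + p.r k) with ht
  have hs : 0 < p.r i + p.r k := by linarith
  have ht0 : 0 ≤ t := by positivity
  have ht1 : 1 - t = p.r k / (p.r i + p.r k) := by
    rw [ht]; field_simp; ring
  have ht1' : 0 ≤ 1 - t := by rw [ht1]; positivity
  have hmem1 : AffineMap.lineMap (p.ctr i) (p.ctr k) t ∈ ball (p.ctr i) (p.r i) := by
    rw [mem_ball, dist_lineMap_left, Real.norm_of_nonneg ht0]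
    rw [ht, div_mul_eq_mul_div, div_lt_iff₀ hs]
    exact mul_lt_mul_of_pos_left hc hp
  have hmem2 : AffineMap.lineMap (p.ctr i) (p.ctr k) t ∈ ball (p.ctr k) (p.r k) := by
    rw [mem_ball, dist_lineMap_right, Real.norm_of_nonneg ht1']
    rw [ht1, div_mul_eq_mul_div, div_lt_iff₀ hs]
    exact mul_lt_mul_of_pos_left hc hp'
  exact (Set.disjoint_left.1 h3) hmem1 hmem2

theorem Asg.FF_ge {c : Cfg} {p : Part c} {f : ℕ → Fin p.N} (h : Asg p f) {j : ℕ} (hj : j < c.n) :
    225 ≤ FF (13 / 8 - p.r (f (3 * j))) (13 / 8 - p.r (f (3 * j + 1))) := by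
  have h1 := h.inT hj
  have h2 := h.inT' hj
  have hne : f (3 * j) ≠ f (3 * j + 1) := fun he => by
    have := h.inj _ (by omega) _ (by omega) he
    omega
  have b1 := (p.inb (f (3 * j))).trans (p.sub _)
  have b2 := (p.inb (f (3 * j + 1))).trans (p.sub _)
  have r1 := c.tent_r b1 h1.2
  have r2 := c.tent_r b2 h2.2
  by_cases hs : p.r (f (3 * j)) < 9 / 10 ∨ p.r (f (3 * j + 1)) < 9 / 10
  · exact two_small r1 r2 hs
  · push Not at hs
    refine two_disk (c.tent_ball b1 h1.2 hs.1) (c.tent_ball b2 h2.2 hs.2) ?_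
    have h3 := p.ctr_dist hne
    have h4 := pow_le_pow_left₀ (by linarith [p.pos (f (3 * j)), p.pos (f (3 * j + 1))]) h3 2
    rw [dist_sq_eq] at h4
    linarith

theorem geom_main {c : Cfg} (p : Part c) : ∃ r r' a b : ℕ → ℝ,
    (∀ j < c.n, 0 < r j ∧ r j ≤ 26 / 25 ∧ 0 < r' j ∧ r' j ≤ 26 / 25) ∧
    (∀ j < c.n, 225 ≤ FF (13 / 8 - r j) (13 / 8 - r' j)) ∧ a 0 = c.a0 ∧ a c.n = c.a1 ∧
    (∀ j ≤ c.n, 0 ≤ a j) ∧ (∀ j < c.n, 0 ≤ b j) ∧
    (∀ j < c.n, c.e j - a j ≤ 135200 * r j) ∧
    (∀ j < c.n, 60840 + 169 * c.m j - b j ≤ 135200 * r' j) ∧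
    (∀ j < c.n, FF (b j) (a (j + 1)) ≤ 225 * 135200 ^ 2) ∧
    ∀ j < c.n, FF (b j) (a (j + 1)) = 225 * 135200 ^ 2 →
      ∃ i, c.pt (j + 1) (-119 * b j / 169) (-120 * b j / 169) ∈ p.Q i ∧
        dist (c.pt (j + 1) (-119 * b j / 169) (-120 * b j / 169)) (p.ctr' i) = 67600 * p.r i := by
  classical
  obtain ⟨f, h⟩ := p.assign
  have hn := c.hn
  -- the extents on the first lines
  have hA : ∀ j, ∃ a : ℝ, (j = 0 → a = c.a0) ∧ (j = c.n → a = c.a1) ∧ (j ≤ c.n → 0 ≤ a) ∧
      (j < c.n → c.e j - a ≤ 135200 * p.r (f (3 * j))) ∧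
      ∀ j', j = j' + 1 → j' < c.n → c.pt j a 0 ∈ p.Q (f (3 * j' + 2)) := by
    intro j
    rcases Nat.eq_zero_or_pos j with rfl | hj0
    · refine ⟨c.a0, fun _ => rfl, fun h0 => by omega, fun _ => by linarith [c.ha0.1], fun _ => ?_,
        fun j' hj' => by omega⟩
      simpa using h.ext_first
    · obtain ⟨j', rfl⟩ : ∃ j', j = j' + 1 := ⟨j - 1, by omega⟩
      by_cases hjn : j' + 1 = c.n
      · refine ⟨c.a1, fun h0 => by omega, fun _ => rfl, fun _ => by linarith [c.ha1.1],
          fun h0 => by omega, fun j'' hj'' _ => ?_⟩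
        have : j'' = j' := by omega
        subst this
        exact h.ext_last hjn
      · by_cases hjlt : j' + 1 < c.n
        · obtain ⟨a, ha0, ha1, ha2⟩ := h.extL hjlt
          refine ⟨a, fun h0 => by omega, fun h0 => by omega, fun _ => ha0, fun _ => ha2,
            fun j'' hj'' _ => ?_⟩
          have : j'' = j' := by omega
          subst this
          exact ha1
        · exact ⟨0, fun h0 => by omega, fun h0 => by omega, fun _ => le_refl _, fun h0 => by omega,
            fun j'' hj'' h0 => by omega⟩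
  choose a ha0 han hapos haL haP using hA
  choose! b hb0 hbP hbM using fun (j : ℕ) (hj : j < c.n) => h.extM hj
  have key : ∀ j < c.n, dist (c.pt (j + 1) (-119 * b j / 169) (-120 * b j / 169))
      (c.pt (j + 1) (a (j + 1)) 0) ^ 2 = FF (b j) (a (j + 1)) / 169 := by
    intro j hj
    rw [dist_sq_eq]
    simp only [Cfg.pt, FF]
    ring
  have hd : ∀ j < c.n, dist (c.pt (j + 1) (-119 * b j / 169) (-120 * b j / 169))
      (c.pt (j + 1) (a (j + 1)) 0) ≤ 156000 := fun j hj =>
    p.small _ _ (hbP j hj) _ (haP (j + 1) j rfl hj)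
  refine ⟨fun j => p.r (f (3 * j)), fun j => p.r (f (3 * j + 1)), a, b, fun j hj => ?_,
    fun j hj => h.FF_ge hj, ha0 0 rfl, han c.n rfl, fun j hj => hapos j hj, hb0,
    fun j hj => haL j hj, hbM, fun j hj => ?_, fun j hj heq => ?_⟩
  · have h1 := h.inT hj
    have h2 := h.inT' hj
    exact ⟨p.pos _, c.tent_r ((p.inb _).trans (p.sub _)) h1.2, p.pos _,
      c.tent_r ((p.inb _).trans (p.sub _)) h2.2⟩
  · have h1 := pow_le_pow_left₀ dist_nonneg (hd j hj) 2
    rw [key j hj] at h1
    linarith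
  · refine ⟨f (3 * j + 2), hbP j hj, ?_⟩
    have h1 := key j hj
    rw [heq] at h1
    set P1 := c.pt (j + 1) (-119 * b j / 169) (-120 * b j / 169)
    set P2 := c.pt (j + 1) (a (j + 1)) 0
    have h2 : dist P1 P2 = 156000 := by
      have h3 : dist P1 P2 ^ 2 = 156000 ^ 2 := by rw [h1]; norm_num
      exact (pow_left_inj₀ dist_nonneg (by norm_num) (by norm_num)).1 h3
    have h4 := mem_closedBall.1 (p.outb _ (hbP j hj))
    have h5 := mem_closedBall.1 (p.outb _ (haP (j + 1) j rfl hj))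
    have h6 := c.ball_le ((p.inb (f (3 * j + 2))).trans (p.sub _))
    have h7 := dist_triangle_right P1 P2 (p.ctr' (f (3 * j + 2)))
    apply le_antisymm h4
    linarith

end MPc01941
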