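import Pool.Agent.Lib.MP_c01941_lc.PolyBase

/-!
FP-GlueSimple. Two polygons that meet exactly in a common edge: the edges of the union.
`cyc (x :: y :: A) = (x, y) :: pe (y :: A) x`, `cyc (y :: x :: B) = (y, x) :: pe (x :: B) y`,
`cyc (y :: A ++ x :: B) = pe (y :: A) x ++ pe (x :: B) y`. Edges of different
polygons: a common point of `hseg e` and `hseg f` lies in `Q ∩ R = segment x y`; not in `hseg x y`
(simplicity of the first polygon), so it is `y`; not in `hseg y x`, so it is `x`; contradiction.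
-/

namespace MPc01941

open Metric

theorem glue_cyc (x y : ℂ) (A B : List ℂ) :
    cyc (y :: A ++ x :: B) = pe (y :: A) x ++ pe (x :: B) y := by
  have h : y :: A ++ x :: B = y :: (A ++ x :: B) := rfl
  rw [h, cyc_cons, ← h, pe_append]

private theorem gs_cyc (x y : ℂ) (A : List ℂ) :
    cyc (x :: y :: A) = (x, y) :: pe (y :: A) x := by
  rw [cyc_cons]
  rfl

theorem glue_simple {x y : ℂ} {A B : List ℂ} {Q R : Set ℂ} (hQ : IsPolygon (x :: y :: A) Q)
    (hR : IsPolygon (y :: x :: B) R) (hQR : Q ∩ R = segment ℝ x y) :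
    (cyc (y :: A ++ x :: B)).Pairwise fun e f => Disjoint (hseg e.1 e.2) (hseg f.1 f.2) := by
  have h1 := hQ.simple
  have h2 := hR.simple
  have hxy : x ≠ y := hQ.nondeg (x, y) (by rw [gs_cyc]; exact List.mem_cons_self)
  rw [gs_cyc, List.pairwise_cons] at h1 h2
  rw [glue_cyc, List.pairwise_append]
  refine ⟨h1.2, h2.2, ?_⟩
  intro e he f hf
  rw [Set.disjoint_left]
  intro z hz1 hz2
  have hzQ : z ∈ Q := hQ.edge_subset (e := e) (by rw [gs_cyc]; exact List.mem_cons_of_mem _ he)
    (hseg_subset _ _ hz1)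
  have hzR : z ∈ R := hR.edge_subset (e := f) (by rw [gs_cyc]; exact List.mem_cons_of_mem _ hf)
    (hseg_subset _ _ hz2)
  have hz : z ∈ segment ℝ x y := by
    rw [← hQR]
    exact ⟨hzQ, hzR⟩
  have hz' : z ∈ segment ℝ y x := by
    rw [segment_symm]
    exact hz
  rw [segment_eq_hseg] at hz hz'
  rcases hz with hz | hz
  · exact Set.disjoint_left.1 (h1.1 e he) hz hz1
  · rcases hz' with hz' | hz'
    · exact Set.disjoint_left.1 (h2.1 f hf) hz' hz2
    · rw [Set.mem_singleton_iff] at hz hz'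
      exact hxy (hz'.symm.trans hz)

end MPc01941
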