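import Pool.Agent.Lib.MP_c01941_lc.EdgeLocal
import Pool.Agent.Lib.MP_c01941_lc.GlueSimple

/-!
FP-GlueFrontier. The frontier of the union of two polygons that meet exactly in a common edge.
`⊆`: `frontier (Q ∪ R) ⊆ frontier Q ∪ frontier R`, and a point of the open edge `x y` is interior
to `Q ∪ R`: apply `edge_local` to both polygons; the sides are opposite, since the open set
`interior Q ∩ interior R ⊆ segment x y` is empty.
`⊇`: a point `z` of another edge of `Q`, `z ∉ R`: near `z` the sets `Q ∪ R` and `Q` agree.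
If `z ∈ R` then `z ∈ segment x y`; the points of the other edges of `Q` on `segment x y` are only
`x` and `y`; `frontier (Q ∪ R)` is closed and `x`, `y` are limits of points `∉ R` of the edges of `Q`
different from `(x, y)` (the last edge ends at `x`, the first one of `pe (y :: A) x` begins at `y`).
-/

namespace MPc01941

open Metric

theorem gf_cr_symm (x y z : ℂ) : cr y x z = - cr x y z := by
  simp only [cr]
  ring

theorem gf_cr_zero {x y z : ℂ} (h : z ∈ segment ℝ x y) : cr x y z = 0 := by
  rw [segment_eq_image'] at h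
  obtain ⟨s, _, hs⟩ := h
  rw [← hs]
  simp only [cr, Complex.add_re, Complex.add_im, Complex.smul_re, Complex.smul_im,
    smul_eq_mul, Complex.sub_re, Complex.sub_im]
  ring

/-- near a point of the line there are points on both sides -/
theorem gf_exists_side {x y p : ℂ} (hxy : x ≠ y) (hp : cr x y p = 0) {δ : ℝ} (hδ : 0 < δ)
    (σ : ℝ) (hσ : σ = 1 ∨ σ = -1) : ∃ z ∈ ball p δ, 0 < σ * cr x y z := by
  have hn : 0 < ‖y - x‖ := norm_pos_iff.2 (sub_ne_zero.2 (Ne.symm hxy))
  set c : ℝ := σ * (δ / (2 * ‖y - x‖)) with hc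
  have hσ2 : σ * σ = 1 := by rcases hσ with h | h <;> rw [h] <;> norm_num
  have hσa : |σ| = 1 := by rcases hσ with h | h <;> rw [h] <;> simp
  refine ⟨p + (c : ℂ) * (Complex.I * (y - x)), ?_, ?_⟩
  · rw [mem_ball, dist_eq_norm]
    have : p + (c : ℂ) * (Complex.I * (y - x)) - p = (c : ℂ) * (Complex.I * (y - x)) := by ring
    rw [this, norm_mul, norm_mul, Complex.norm_I, one_mul, Complex.norm_real, Real.norm_eq_abs,
      hc, abs_mul, hσa, one_mul, abs_of_pos (by positivity)]
    have : δ / (2 * ‖y - x‖) * ‖y - x‖ = δ / 2 := by field_simp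
    rw [this]
    linarith
  · have h1 : cr x y (p + (c : ℂ) * (Complex.I * (y - x))) = cr x y p +
        c * ((y.re - x.re) ^ 2 + (y.im - x.im) ^ 2) := by
      simp only [cr, Complex.add_re, Complex.add_im, Complex.mul_re, Complex.mul_im,
        Complex.ofReal_re, Complex.ofReal_im, Complex.sub_re, Complex.sub_im, Complex.I_re,
        Complex.I_im]
      ring
    rw [h1, hp, zero_add, hc, ← mul_assoc, ← mul_assoc, hσ2, one_mul]
    apply mul_pos (by positivity)
    have h2 : ‖y - x‖ ^ 2 = (y.re - x.re) ^ 2 + (y.im - x.im) ^ 2 := by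
      rw [← Complex.normSq_eq_norm_sq, Complex.normSq_apply, Complex.sub_re, Complex.sub_im]
      ring
    rw [← h2]
    positivity

/-- a point of the open common edge is interior to the union -/
theorem gf_interior {x y : ℂ} {A B : List ℂ} {Q R : Set ℂ} (hQ : IsPolygon (x :: y :: A) Q)
    (hR : IsPolygon (y :: x :: B) R) (hQR : Q ∩ R = segment ℝ x y) {p : ℂ}
    (hp : p ∈ segment ℝ x y) (hx : p ≠ x) (hy : p ≠ y) : p ∈ interior (Q ∪ R) := by
  have hxy : x ≠ y := hQ.nondeg (x, y) (by rw [el_cyc]; simp)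
  obtain ⟨δ, hδ, hl1, h1⟩ := edge_local hQ hp hx hy
  obtain ⟨δ', hδ', hl2, h2⟩ := edge_local hR (by rw [segment_symm]; exact hp) hy hx
  have hp0 : cr x y p = 0 := gf_cr_zero hp
  have hQc : IsClosed Q := hQ.compact.isClosed
  set ε := min δ δ' with hε
  have hεp : 0 < ε := lt_min hδ hδ'
  have hb1 : ball p ε ⊆ ball p δ := ball_subset_ball (min_le_left _ _)
  have hb2 : ball p ε ⊆ ball p δ' := ball_subset_ball (min_le_right _ _)
  rw [mem_interior]
  refine ⟨ball p ε, ?_, isOpen_ball, mem_ball_self hεp⟩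
  have key : ∀ z ∈ ball p ε, cr x y z = 0 → z ∈ Q := by
    intro z hz h0
    have := (hl1 z (hb1 hz) h0).1
    rwa [hQc.closure_eq] at this
  have bad : ∀ z, z ∈ interior Q → z ∈ interior R → cr x y z = 0 := by
    intro z hz hz'
    apply gf_cr_zero
    rw [← hQR]
    exact ⟨interior_subset hz, interior_subset hz'⟩
  rcases h1 with ⟨h1a, _⟩ | ⟨h1a, _⟩ <;> rcases h2 with ⟨h2a, _⟩ | ⟨h2a, _⟩
  · -- Q positive, R : 0 < cr y x, i.e. negative
    intro z hz
    rcases lt_trichotomy (cr x y z) 0 with h | h | h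
    · right
      exact interior_subset (h2a z (hb2 hz) (by rw [gf_cr_symm]; linarith))
    · left
      exact key z hz h
    · left
      exact interior_subset (h1a z (hb1 hz) h)
  · exfalso
    obtain ⟨z, hz, h⟩ := gf_exists_side hxy hp0 hεp 1 (Or.inl rfl)
    rw [one_mul] at h
    have := bad z (h1a z (hb1 hz) h) (h2a z (hb2 hz) (by rw [gf_cr_symm]; linarith))
    linarith
  · exfalso
    obtain ⟨z, hz, h⟩ := gf_exists_side hxy hp0 hεp (-1) (Or.inr rfl)
    have h' : cr x y z < 0 := by linarith
    have := bad z (h1a z (hb1 hz) h') (h2a z (hb2 hz) (by rw [gf_cr_symm]; linarith))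
    linarith
  · intro z hz
    rcases lt_trichotomy (cr x y z) 0 with h | h | h
    · left
      exact interior_subset (h1a z (hb1 hz) h)
    · left
      exact key z hz h
    · right
      exact interior_subset (h2a z (hb2 hz) (by rw [gf_cr_symm]; linarith))

/-- a frontier point of `Q` outside the closed set `R` is a frontier point of the union -/
theorem gf_frontier_of_not_mem {Q R : Set ℂ} (hR : IsClosed R) {z : ℂ} (hz : z ∈ frontier Q)
    (hzR : z ∉ R) : z ∈ frontier (Q ∪ R) := by
  constructor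
  · exact closure_mono Set.subset_union_left hz.1
  · intro hi
    apply hz.2
    rw [mem_interior] at hi ⊢
    obtain ⟨U, hU, hUo, hzU⟩ := hi
    refine ⟨U ∩ Rᶜ, ?_, hUo.inter hR.isOpen_compl, hzU, hzR⟩
    rintro w ⟨hw, hw'⟩
    rcases hU hw with h | h
    · exact h
    · exact absurd h hw'

/-- the vertex `y` is a frontier point of the union -/
theorem gf_vertex {x y : ℂ} {A B : List ℂ} {Q R : Set ℂ} (hQ : IsPolygon (x :: y :: A) Q)
    (hR : IsPolygon (y :: x :: B) R) (hQR : Q ∩ R = segment ℝ x y) : y ∈ frontier (Q ∪ R) := by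
  obtain ⟨e, he, hey⟩ := el_pe_head y A x
  have hes : e.1 ≠ e.2 := hQ.nondeg e (by rw [el_cyc]; exact List.mem_cons_of_mem _ he)
  have hRc : IsClosed R := hR.compact.isClosed
  have hsim := hQ.simple
  rw [el_cyc, List.pairwise_cons] at hsim
  -- the points of the open edge `e` are frontier points of the union
  have hpt : ∀ t : ℝ, 0 < t → t < 1 → y + (t : ℂ) * (e.2 - y) ∈ frontier (Q ∪ R) := by
    intro t ht0 ht1
    set z := y + (t : ℂ) * (e.2 - y) with hz
    have hzh : z ∈ hseg e.1 e.2 := ⟨t, ht0.le, ht1, by rw [hey]⟩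
    have hzs : z ∈ segment ℝ e.1 e.2 := hseg_subset _ _ hzh
    have hzf : z ∈ frontier Q := by
      rw [hQ.frontier_eq]
      exact ⟨e, by rw [el_cyc]; exact List.mem_cons_of_mem _ he, hzs⟩
    apply gf_frontier_of_not_mem hRc hzf
    intro hzR
    have hzQ : z ∈ Q := by
      have := hzf.1
      rwa [hQ.compact.isClosed.closure_eq] at this
    have hzxy : z ∈ segment ℝ x y := by rw [← hQR]; exact ⟨hzQ, hzR⟩
    have hzy : z ≠ y := by
      intro hh
      have : (t : ℂ) * (e.2 - y) = 0 := by
        rw [hz] at hh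
        linear_combination hh
      rcases mul_eq_zero.1 this with h | h
      · exact ht0.ne' (by exact_mod_cast h)
      · apply hes
        rw [hey]
        exact (sub_eq_zero.1 h).symm
    rw [segment_eq_hseg] at hzxy
    rcases hzxy with h | h
    · exact Set.disjoint_left.1 (hsim.1 e he) h hzh
    · exact hzy h
  have hcl : y ∈ closure (frontier (Q ∪ R)) := by
    rw [Metric.mem_closure_iff]
    intro ε hε
    have hn : 0 < ‖e.2 - y‖ := norm_pos_iff.2 (sub_ne_zero.2 (by rw [← hey]; exact hes.symm))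
    set t := min (1 / 2) (ε / (2 * ‖e.2 - y‖)) with ht
    have ht0 : 0 < t := lt_min (by norm_num) (by positivity)
    have ht1 : t < 1 := lt_of_le_of_lt (min_le_left _ _) (by norm_num)
    refine ⟨_, hpt t ht0 ht1, ?_⟩
    rw [dist_comm, dist_eq_norm]
    have : y + (t : ℂ) * (e.2 - y) - y = (t : ℂ) * (e.2 - y) := by ring
    rw [this, norm_mul, Complex.norm_real, Real.norm_eq_abs, abs_of_pos ht0]
    calc t * ‖e.2 - y‖ ≤ ε / (2 * ‖e.2 - y‖) * ‖e.2 - y‖ :=
          mul_le_mul_of_nonneg_right (min_le_right _ _) hn.le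
      _ = ε / 2 := by field_simp
      _ < ε := by linarith
  rwa [isClosed_frontier.closure_eq] at hcl

/-- the other edges of `Q` are in the frontier of the union -/
theorem gf_edge {x y : ℂ} {A B : List ℂ} {Q R : Set ℂ} (hQ : IsPolygon (x :: y :: A) Q)
    (hR : IsPolygon (y :: x :: B) R) (hQR : Q ∩ R = segment ℝ x y) {e : ℂ × ℂ}
    (he : e ∈ pe (y :: A) x) : segment ℝ e.1 e.2 ⊆ frontier (Q ∪ R) := by
  intro z hz
  have hzf : z ∈ frontier Q := by
    rw [hQ.frontier_eq]
    exact ⟨e, by rw [el_cyc]; exact List.mem_cons_of_mem _ he, hz⟩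
  by_cases hzR : z ∈ R
  · have hzQ : z ∈ Q := by
      have := hzf.1
      rwa [hQ.compact.isClosed.closure_eq] at this
    have hzxy : z ∈ segment ℝ x y := by rw [← hQR]; exact ⟨hzQ, hzR⟩
    by_cases hx : z = x
    · rw [hx, Set.union_comm]
      exact gf_vertex hR hQ (by rw [Set.inter_comm, hQR, segment_symm])
    · by_cases hy : z = y
      · rw [hy]
        exact gf_vertex hQ hR hQR
      · exact absurd hz (el_not_mem hQ hzxy hx hy he)
  · exact gf_frontier_of_not_mem hR.compact.isClosed hzf hzR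

theorem glue_frontier {x y : ℂ} {A B : List ℂ} {Q R : Set ℂ} (hQ : IsPolygon (x :: y :: A) Q)
    (hR : IsPolygon (y :: x :: B) R) (hQR : Q ∩ R = segment ℝ x y) :
    frontier (Q ∪ R) = {z | ∃ e ∈ cyc (y :: A ++ x :: B), z ∈ segment ℝ e.1 e.2} := by
  have hQR' : R ∩ Q = segment ℝ y x := by rw [Set.inter_comm, hQR, segment_symm]
  have hx : x ∈ {z | ∃ e ∈ cyc (y :: A ++ x :: B), z ∈ segment ℝ e.1 e.2} := by
    obtain ⟨e, he, hex⟩ := el_pe_head x B y
    exact ⟨e, by rw [glue_cyc]; exact List.mem_append_right _ he, by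
      rw [← hex]; exact left_mem_segment ℝ _ _⟩
  have hy : y ∈ {z | ∃ e ∈ cyc (y :: A ++ x :: B), z ∈ segment ℝ e.1 e.2} := by
    obtain ⟨e, he, hex⟩ := el_pe_head y A x
    exact ⟨e, by rw [glue_cyc]; exact List.mem_append_left _ he, by
      rw [← hex]; exact left_mem_segment ℝ _ _⟩
  apply Set.Subset.antisymm
  · intro z hz
    have hcase : z ∈ segment ℝ x y → z ∈ {z | ∃ e ∈ cyc (y :: A ++ x :: B), z ∈ segment ℝ e.1 e.2} := by
      intro hzs
      by_cases h1 : z = x
      · rw [h1]; exact hx
      · by_cases h2 : z = y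
        · rw [h2]; exact hy
        · exact absurd (gf_interior hQ hR hQR hzs h1 h2) hz.2
    rcases frontier_union_subset Q R hz with h | h
    · have h1 := h.1
      rw [hQ.frontier_eq] at h1
      obtain ⟨e, he, hze⟩ := h1
      rw [el_cyc, List.mem_cons] at he
      rcases he with he | he
      · rw [he] at hze
        exact hcase hze
      · exact ⟨e, by rw [glue_cyc]; exact List.mem_append_left _ he, hze⟩
    · have h1 := h.2
      rw [hR.frontier_eq] at h1
      obtain ⟨e, he, hze⟩ := h1
      rw [el_cyc, List.mem_cons] at he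
      rcases he with he | he
      · rw [he] at hze
        exact hcase (by rw [segment_symm]; exact hze)
      · exact ⟨e, by rw [glue_cyc]; exact List.mem_append_right _ he, hze⟩
  · rintro z ⟨e, he, hze⟩
    rw [glue_cyc, List.mem_append] at he
    rcases he with he | he
    · exact gf_edge hQ hR hQR he hze
    · rw [Set.union_comm]
      exact gf_edge hR hQ hQR' he hze

end MPc01941
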