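import Pool.Agent.Lib.MP_c01941_lc.Assign

/-!
FP-InT. Which pieces meet the first line, and the disk of the piece of `t_j`.
`coverL`: the witness `i` of the piece `k` (`surj`) has a range containing `6 j`: by
`range_t`, `range_t'`, `range_p` and arithmetic, `i = 3 j` or `i = 3 (j - 1) + 2`.
`inT`: the point `pt j 156001 0` is in the cell `6 j`, so in a piece `k`; `k = f (3 j)`, since the
other possibility would contain `pt j 0 0` at distance `156001`. So
`135200 r ≥ e - 156001 ≥ 63361`, `r > 9/20`. By `ball_loc` the center is in a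
cell `i` with `i % 6 ∈ {2, 5}`, and by `range_t`, `i = 6 j + 2`.
-/

namespace MPc01941

open Metric

variable {c : Cfg} {p : Part c} {f : ℕ → Fin p.N}

theorem Asg.coverL (h : Asg p f) {j : ℕ} (hj : j ≤ c.n) {z : ℂ} {k : Fin p.N} (hz : z ∈ p.Q k)
    (hK : z ∈ c.K (6 * j)) :
    (j < c.n ∧ k = f (3 * j)) ∨ ∃ j', j = j' + 1 ∧ k = f (3 * j' + 2) := by
  obtain ⟨i, hi, rfl⟩ := h.surj k
  have hw := h.mem i hi
  have hcase : i = 3 * (i / 3) ∨ i = 3 * (i / 3) + 1 ∨ i = 3 * (i / 3) + 2 := by omega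
  have hj' : i / 3 < c.n := by omega
  generalize i / 3 = j' at hcase hj'
  rcases hcase with rfl | rfl | rfl
  · have h1 := c.range_t (p.conn _) (p.sub _) (p.small _) hj' hw (i := 6 * j) (by omega) hz hK
    have : j' = j := by omega
    subst this
    exact Or.inl ⟨hj', rfl⟩
  · have h1 := c.range_t' (p.conn _) (p.sub _) (p.small _) hj' hw (i := 6 * j) (by omega) hz hK
    omega
  · have h1 := c.range_p (p.conn _) (p.sub _) (p.small _) hj' hw (i := 6 * j) (by omega) hz hK
    have : j = j' + 1 := by omega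
    subst this
    exact Or.inr ⟨j', rfl, rfl⟩

private theorem InT_re (c : Cfg) (j : ℕ) (x y : ℝ) : (c.pt j x y).re = c.ox j + x := rfl

private theorem InT_im (c : Cfg) (j : ℕ) (x y : ℝ) : (c.pt j x y).im = c.oy j + y := rfl

private theorem InT_dist (c : Cfg) (j : ℕ) (x x' : ℝ) :
    x' - x ≤ dist (c.pt j x' 0) (c.pt j x 0) := by
  have h1 : |((c.pt j x' 0) - (c.pt j x 0)).re| ≤ ‖(c.pt j x' 0) - (c.pt j x 0)‖ :=
    Complex.abs_re_le_norm _
  rw [← dist_eq_norm, Complex.sub_re, InT_re, InT_re] at h1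
  have h2 := le_abs_self (c.ox j + x' - (c.ox j + x))
  linarith

theorem Asg.inT (h : Asg p f) {j : ℕ} (hj : j < c.n) :
    9 / 20 < p.r (f (3 * j)) ∧ p.ctr (f (3 * j)) ∈ c.K (6 * j + 2) := by
  have he := c.he j
  have ha := c.ha0
  have hK : c.pt j 156001 0 ∈ c.K (6 * j) := by
    have h0 := (c.mem_K j 0 (by norm_num) (c.pt j 156001 0)).2
    rw [add_zero] at h0
    refine h0 ?_
    rw [InT_re, InT_im, add_sub_cancel_left, add_sub_cancel_left]
    refine ⟨⟨by norm_num, le_refl _, by linarith⟩, fun _ => by linarith, fun h' => by omega⟩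
  have hP : c.pt j 156001 0 ∈ c.P := ⟨6 * j, by omega, hK⟩
  rw [p.cover] at hP
  obtain ⟨k, hk⟩ := Set.mem_iUnion.1 hP
  have hkf : k = f (3 * j) := by
    rcases h.coverL hj.le hk hK with h1 | ⟨j', rfl, h1⟩
    · exact h1.2
    · exfalso
      have hw : c.wit (3 * j' + 2) ∈ p.Q k := by
        rw [h1]
        exact h.mem _ (by omega)
      have h2 := p.small k _ hk _ hw
      rw [c.wit2] at h2
      have h3 := InT_dist c (j' + 1) 0 156001
      linarith
  subst hkf
  have hw : c.wit (3 * j) ∈ p.Q (f (3 * j)) := h.mem _ (by omega)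
  have h2 := p.dist_le _ hw hk
  rw [c.wit0] at h2
  have h3 := InT_dist c j 156001 (c.e j)
  have hr : 9 / 20 < p.r (f (3 * j)) := by linarith
  refine ⟨hr, ?_⟩
  obtain ⟨i, hi, hci, hmod⟩ := c.ball_loc ((p.inb (f (3 * j))).trans (p.sub _))
    (by linarith : (1 : ℝ) / 10 < p.r (f (3 * j)))
  have hmem : p.ctr (f (3 * j)) ∈ p.Q (f (3 * j)) :=
    p.inb _ (mem_closedBall_self (p.pos _).le)
  have h4 := c.range_t (p.conn _) (p.sub _) (p.small _) hj hw hi hmem hci
  have h5 : i = 6 * j + 2 := by omega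
  rwa [h5] at hci

end MPc01941
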