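import Pool.Agent.Lib.MP_c01941_lc.InT

/-!
FP-InT2. Which pieces meet the second line, and the disk of the piece of `t'_j`.
`coverM`: the witness `i` of the piece `k` has a range containing `6 j + 4`, so
`i ∈ {3 j, 3 j + 1, 3 j + 2}`. Exclude `i = 3 j`: by `inT` and `tent_r` the radius is `≤ 26/25`, the
diameter `≤ 140608`, but the piece would contain `t_j = pt j e 0` and (gate `6j+3`) a point
within 1 of `J' = pt j (e - 81120) (-117624)`: distance `≥ 142880`.
`inT'`: the point at distance `156001` of the bend on the second line, i.e.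
`pt (j+1) (-119 * 156001/169) (-120 * 156001/169)`, is in the cell `6j+4`, so in the piece
`f (3j+1)` (the piece `f (3j+2)` contains the bend); its distance to `t'_j` is
`169 (360 + m) - 156001 ≥ 63361`; then as in `inT` with `range_t'`.
-/

namespace MPc01941

open Metric

variable {c : Cfg} {p : Part c} {f : ℕ → Fin p.N}

private theorem IT_re (c : Cfg) (j : ℕ) (x y : ℝ) : (c.pt j x y).re = c.ox j + x := rfl

private theorem IT_im (c : Cfg) (j : ℕ) (x y : ℝ) : (c.pt j x y).im = c.oy j + y := rfl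

private theorem IT_far {a b : ℝ} (ha : |a + 81120| ≤ 1) (hb : |b + 117624| ≤ 1)
    (h : a ^ 2 + b ^ 2 ≤ 140608 ^ 2) : False := by
  rw [abs_le] at ha hb
  nlinarith [ha.1, ha.2, hb.1, hb.2]

theorem Asg.coverM (h : Asg p f) {j : ℕ} (hj : j < c.n) {z : ℂ} {k : Fin p.N} (hz : z ∈ p.Q k)
    (hK : z ∈ c.K (6 * j + 4)) : k = f (3 * j + 1) ∨ k = f (3 * j + 2) := by
  obtain ⟨i, hi, rfl⟩ := h.surj k
  have hw := h.mem i hi
  have hcase : i = 3 * (i / 3) ∨ i = 3 * (i / 3) + 1 ∨ i = 3 * (i / 3) + 2 := by omega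
  have hj' : i / 3 < c.n := by omega
  generalize i / 3 = j' at hcase hj'
  rcases hcase with rfl | rfl | rfl
  · exfalso
    have h1 := c.range_t (p.conn _) (p.sub _) (p.small _) hj' hw (i := 6 * j + 4) (by omega) hz hK
    have : j' = j := by omega
    subst this
    obtain ⟨-, hctr⟩ := h.inT hj'
    have hr := c.tent_r ((p.inb _).trans (p.sub _)) hctr
    obtain ⟨v, hv, hv3, hv4⟩ := c.gate (p.conn (f (3 * j'))) (p.sub _) (i := 6 * j')
      (g := 6 * j' + 3) (l := 6 * j' + 4) (by omega) (by omega) (by omega) hw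
      (c.wit0_mem hj') hz hK
    have h2 := c.inter34 hv3 hv4
    have h3 := p.dist_le _ hv hw
    have h4 : dist v (c.wit (3 * j')) ≤ 140608 := by linarith
    have h5 := sq_of_dist_le h4
    rw [c.wit0, IT_re, IT_im] at h5
    refine IT_far (a := v.re - (c.ox j' + c.e j')) (b := v.im - (c.oy j' + 0)) ?_ ?_ h5
    · have : v.re - (c.ox j' + c.e j') + 81120 = v.re - (c.ox j' + (c.e j' - 81120)) := by ring
      rw [this]; exact h2.1
    · have : v.im - (c.oy j' + 0) + 117624 = v.im - (c.oy j' - 117624) := by ring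
      rw [this]; exact h2.2
  · have h1 := c.range_t' (p.conn _) (p.sub _) (p.small _) hj' hw (i := 6 * j + 4) (by omega) hz hK
    have : j' = j := by omega
    subst this
    exact Or.inl rfl
  · have h1 := c.range_p (p.conn _) (p.sub _) (p.small _) hj' hw (i := 6 * j + 4) (by omega) hz hK
    have : j' = j := by omega
    subst this
    exact Or.inr rfl

private theorem IT_dist {D r : ℝ} (hr : 0 ≤ r)
    (h : (119 / 169 * D) ^ 2 + (120 / 169 * D) ^ 2 ≤ r ^ 2) : D ≤ r := by
  have h1 : (119 / 169 * D) ^ 2 + (120 / 169 * D) ^ 2 = D ^ 2 := by ring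
  rw [h1] at h
  exact le_trans (le_abs_self D) (abs_le_of_sq_le_sq' h hr |> abs_le.2)

theorem Asg.inT' (h : Asg p f) {j : ℕ} (hj : j < c.n) :
    9 / 20 < p.r (f (3 * j + 1)) ∧ p.ctr (f (3 * j + 1)) ∈ c.K (6 * j + 2) := by
  have he := c.he j
  have hm := c.hm j
  obtain ⟨z, hzdef⟩ : ∃ z, z = c.pt (j + 1) (-119 * 156001 / 169) (-120 * 156001 / 169) := ⟨_, rfl⟩
  have hzre : z.re = c.ox j + (c.e j - 81120 + 119 * c.m j) - 119 * 156001 / 169 := by
    rw [hzdef, IT_re, c.ox_succ]; ring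
  have hzim : z.im = c.oy j + (-117624 + 120 * c.m j) - 120 * 156001 / 169 := by
    rw [hzdef, IT_im, c.oy_succ]; ring
  have hK : z ∈ c.K (6 * j + 4) := by
    refine (c.mem_K j 4 (by norm_num) z).2 ?_
    have hx : z.re - c.ox j = c.e j - 81120 + 119 * c.m j - 119 * 156001 / 169 := by
      rw [hzre]; ring
    have hy : z.im - c.oy j = -117624 + 120 * c.m j - 120 * 156001 / 169 := by
      rw [hzim]; ring
    rw [hx, hy]
    refine ⟨by linarith, by linarith, by linarith [hm.1, hm.2]⟩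
  have hP : z ∈ c.P := ⟨6 * j + 4, by omega, hK⟩
  rw [p.cover] at hP
  obtain ⟨k, hk⟩ := Set.mem_iUnion.1 hP
  have hkf : k = f (3 * j + 1) := by
    rcases h.coverM hj hk hK with h1 | h1
    · exact h1
    · exfalso
      have hw : c.wit (3 * j + 2) ∈ p.Q k := by
        rw [h1]
        exact h.mem _ (by omega)
      have h2 := sq_of_dist_le (p.small k _ hk _ hw)
      rw [c.wit2, IT_re, IT_im, c.ox_succ, c.oy_succ, hzre, hzim] at h2
      norm_num at h2
  subst hkf
  have hw : c.wit (3 * j + 1) ∈ p.Q (f (3 * j + 1)) := h.mem _ (by omega)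
  have h2 := sq_of_dist_le (p.dist_le _ hk hw)
  rw [c.wit1, IT_re, IT_im, hzre, hzim] at h2
  have h3 : 169 * (360 + c.m j) - 156001 ≤ 135200 * p.r (f (3 * j + 1)) := by
    refine IT_dist (by have := (p.pos (f (3 * j + 1))).le; positivity) (le_trans (le_of_eq ?_) h2)
    ring
  have hr : 9 / 20 < p.r (f (3 * j + 1)) := by linarith
  refine ⟨hr, ?_⟩
  obtain ⟨i, hi, hci, hmod⟩ := c.ball_loc ((p.inb (f (3 * j + 1))).trans (p.sub _))
    (by linarith : (1 : ℝ) / 10 < p.r (f (3 * j + 1)))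
  have hmem : p.ctr (f (3 * j + 1)) ∈ p.Q (f (3 * j + 1)) :=
    p.inb _ (mem_closedBall_self (p.pos _).le)
  have h4 := c.range_t' (p.conn _) (p.sub _) (p.small _) hj hw hi hmem hci
  have h5 : i = 6 * j + 2 := by omega
  rwa [h5] at hci

end MPc01941
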