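import Pool.Agent.Lib.MP_c01941_lc.Core

/-!
FP-Kap. The involution `kap` of `[0, 15/13]` defined by `FF x (kap x) = 225`, and the sequences.
`169^2 x^2 ... `: `FF x y = 225` is a quadratic equation in `y` with discriminant
`4 * 225 * (169 - 64 x^2) > 0` on `[0, 15/13]`, and `kap x` is its larger root; `kap x ≥ 0` iff
`169 x^2 ≤ 225`. `FF x` is strictly increasing on `[0, ∞)` for `x ≥ 0`, and `FF` is symmetric.
-/

namespace MPc01941

noncomputable def kap (x : ℝ) : ℝ := (-119 * x + 15 * Real.sqrt (169 - 64 * x ^ 2)) / 169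

theorem FF_kap {x : ℝ} (h0 : 0 ≤ x) (h1 : x ≤ 15 / 13) : FF x (kap x) = 225 := by
  have hx : x ^ 2 ≤ 225 / 169 := by nlinarith
  have hs : Real.sqrt (169 - 64 * x ^ 2) ^ 2 = 169 - 64 * x ^ 2 :=
    Real.sq_sqrt (by linarith)
  unfold FF kap
  have : 169 * x ^ 2 + 238 * x * ((-119 * x + 15 * Real.sqrt (169 - 64 * x ^ 2)) / 169) +
      169 * ((-119 * x + 15 * Real.sqrt (169 - 64 * x ^ 2)) / 169) ^ 2 =
      (14400 * x ^ 2 + 225 * Real.sqrt (169 - 64 * x ^ 2) ^ 2) / 169 := by ring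
  rw [this, hs]
  ring

theorem kap_nonneg {x : ℝ} (h0 : 0 ≤ x) (h1 : x ≤ 15 / 13) : 0 ≤ kap x := by
  have hx : x ^ 2 ≤ 225 / 169 := by nlinarith
  have h : 119 * x / 15 ≤ Real.sqrt (169 - 64 * x ^ 2) := by
    apply Real.le_sqrt_of_sq_le
    have : (119 * x / 15) ^ 2 = 14161 / 225 * x ^ 2 := by ring
    rw [this]
    linarith
  unfold kap
  apply div_nonneg _ (by norm_num)
  linarith

theorem kap_le {x : ℝ} (h0 : 0 ≤ x) (h1 : x ≤ 15 / 13) : kap x ≤ 15 / 13 := by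
  have h := FF_kap h0 h1
  have h2 := kap_nonneg h0 h1
  unfold FF at h
  have h3 : 0 ≤ x * kap x := mul_nonneg h0 h2
  by_contra hc
  push Not at hc
  nlinarith [sq_nonneg x]

theorem le_kap_of_FF_le {x y : ℝ} (h0 : 0 ≤ x) (h1 : x ≤ 15 / 13) (hy : 0 ≤ y)
    (h : FF x y ≤ 225) : y ≤ kap x := by
  have h2 := FF_kap h0 h1
  have h3 := kap_nonneg h0 h1
  by_contra hc
  push Not at hc
  unfold FF at h h2
  have h4 : x * kap x ≤ x * y := mul_le_mul_of_nonneg_left hc.le h0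
  nlinarith

theorem kap_le_of_le_FF {x y : ℝ} (h0 : 0 ≤ x) (h1 : x ≤ 15 / 13) (hy : 0 ≤ y)
    (h : 225 ≤ FF x y) : kap x ≤ y := by
  have h2 := FF_kap h0 h1
  have h3 := kap_nonneg h0 h1
  by_contra hc
  push Not at hc
  unfold FF at h h2
  have h4 : x * y ≤ x * kap x := mul_le_mul_of_nonneg_left hc.le h0
  nlinarith

theorem kap_kap {x : ℝ} (h0 : 0 ≤ x) (h1 : x ≤ 15 / 13) : kap (kap x) = x := by
  have h2 := FF_kap h0 h1
  have h3 := kap_nonneg h0 h1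
  have h4 := kap_le h0 h1
  have h5 : FF (kap x) x = 225 := by
    rw [← h2]
    unfold FF
    ring
  exact le_antisymm (kap_le_of_le_FF h3 h4 h0 h5.ge) (le_kap_of_FF_le h3 h4 h0 h5.le)

theorem kap_anti {x y : ℝ} (h0 : 0 ≤ x) (hxy : x ≤ y) (h1 : y ≤ 15 / 13) : kap y ≤ kap x := by
  have hy0 : 0 ≤ y := h0.trans hxy
  have h3 := kap_nonneg hy0 h1
  apply le_kap_of_FF_le h0 (hxy.trans h1) h3
  rw [← FF_kap hy0 h1]
  unfold FF
  have h4 : x * kap y ≤ y * kap y := mul_le_mul_of_nonneg_right hxy h3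
  nlinarith

/-- the kicks -/
def ttq (n i : ℕ) : ℚ :=
  if i = 0 ∨ i = n ∨ 2 * n ≤ i then 0 else if i < n then -1 / 400 else 1 / 400

noncomputable def tt (n i : ℕ) : ℝ := (ttq n i : ℝ)

/-- the sequence -/
noncomputable def zz (n : ℕ) : ℕ → ℝ
  | 0 => 78 / 125
  | i + 1 => kap (zz n i + tt n i)

theorem zz_zero (n : ℕ) : zz n 0 = 78 / 125 := rfl

theorem zz_succ (n i : ℕ) : zz n (i + 1) = kap (zz n i + tt n i) := rfl

end MPc01941
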