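import Pool.Agent.Lib.MP_c01941_lc.PolyBase

/-!
FP-PolyVertex. A point of a polygon `Q` on the boundary circle of a disk containing `Q` is a vertex.
Proof: `p ∈ frontier Q` (points of the ray from `c` beyond `p` are not in `Q`), so `p` lies on an
edge `segment a b ⊆ Q ⊆ closedBall c R`, and if `p ≠ a`, `p ≠ b` then `p` would be an interior point
of the disk by strict convexity.
-/

namespace MPc01941

open Metric

theorem IsPolygon.mem_of_dist_eq {v : List ℂ} {Q : Set ℂ} (h : IsPolygon v Q) {p c : ℂ} {R : ℝ}
    (hp : p ∈ Q) (hQ : Q ⊆ closedBall c R) (hR : 0 < R) (hd : dist p c = R) : p ∈ v := by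
  have hnot : p ∉ interior (closedBall c R) := by
    rw [interior_closedBall c hR.ne', mem_ball]
    exact not_lt.2 hd.ge
  have hpf : p ∈ frontier Q := by
    rw [h.compact.isClosed.frontier_eq]
    exact ⟨hp, fun hpi => hnot (interior_mono hQ hpi)⟩
  rw [h.frontier_eq] at hpf
  obtain ⟨⟨a, b⟩, he, hpe⟩ := hpf
  have hsub := (h.edge_subset he).trans hQ
  have hmem : a ∈ v ∧ b ∈ v := by
    have h1 := List.of_mem_zip he
    exact ⟨h1.1, List.mem_rotate.1 h1.2⟩
  by_cases hpa : p = a
  · rw [hpa]; exact hmem.1
  by_cases hpb : p = b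
  · rw [hpb]; exact hmem.2
  exfalso
  have hop : p ∈ openSegment ℝ a b := by
    have h1 : p ∈ insert a (insert b (openSegment ℝ a b)) := by
      rw [insert_endpoints_openSegment]
      exact hpe
    rcases h1 with h1 | h1 | h1
    · exact absurd h1 hpa
    · exact absurd h1 hpb
    · exact h1
  exact hnot ((strictConvex_closedBall ℝ c R).openSegment_subset
    (hsub (left_mem_segment ℝ a b)) (hsub (right_mem_segment ℝ a b))
    (h.nondeg _ he) hop)

end MPc01941
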