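import Pool.Agent.Lib.MP_c01941_lc.PolyConn
import Pool.Agent.Lib.MP_c01941_lc.PolyVertex
import Pool.Agent.Lib.MP_c01941_lc.Fat
import Pool.Agent.Lib.MP_c01941_lc.Core

/-!
FP-ToPart. A `67600`-bounded partition in the sense of the definition gives a `Part`
(`IsPolygon.isPreconnected`, `IsPolygon.fat`), and a point of a piece on the boundary circle
of the outer disk is a vertex (`IsPolygon.mem_of_dist_eq`).
-/

namespace MPc01941

open Metric

theorem toPart (c : Cfg) {W : List (List ℂ)} (h : IsBoundedPartition 67600 c.P W)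
    (hW : W.length ≤ 3 * c.n) :
    ∃ p : Part c, p.N = W.length ∧
      ∀ (i : Fin p.N) (z : ℂ), z ∈ p.Q i → dist z (p.ctr' i) = 67600 * p.r i → ∃ v ∈ W, z ∈ v := by
  obtain ⟨R, h1, h2, h3, h4⟩ := h
  have hlen : W.length = R.length := h1.length_eq
  have hpoly : ∀ i : Fin W.length, IsPolygon (W.get i) (R.get (Fin.cast hlen i)) := by
    intro i
    exact (List.forall₂_iff_get.1 h1).2 i.1 i.2 (by rw [← hlen]; exact i.2)
  have hfat : ∀ i : Fin W.length, ∃ (r : ℝ) (c c' : ℂ), 0 < r ∧
      closedBall c r ⊆ R.get (Fin.cast hlen i) ∧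
      R.get (Fin.cast hlen i) ⊆ closedBall c' (67600 * r) := fun i =>
    (hpoly i).fat (h4 _ (List.get_mem R _))
  choose r ctr ctr' hr hin hout using hfat
  refine ⟨⟨W.length, fun i => R.get (Fin.cast hlen i), r, ctr, ctr', hW,
    fun i => (hpoly i).isPreconnected, fun i => (hpoly i).compact.isClosed, hr, hin, hout, ?_, ?_⟩,
    rfl, ?_⟩
  · rw [← h2]
    ext z
    simp only [Set.mem_iUnion]
    constructor
    · rintro ⟨Q, hQ, hz⟩
      obtain ⟨i, rfl⟩ := List.mem_iff_get.1 hQ
      exact ⟨Fin.cast hlen.symm i, hz⟩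
    · rintro ⟨i, hz⟩
      exact ⟨_, List.get_mem R _, hz⟩
  · intro i k hik
    have h5 := List.pairwise_iff_get.1 h3
    rcases lt_or_gt_of_ne hik with h | h
    · exact h5 (Fin.cast hlen i) (Fin.cast hlen k) h
    · exact (h5 (Fin.cast hlen k) (Fin.cast hlen i) h).symm
  · intro i z hz hd
    exact ⟨W.get i, List.get_mem W _, (hpoly i).mem_of_dist_eq hz (hout i)
      (mul_pos (by norm_num) (hr i)) hd⟩

end MPc01941
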