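import Pool.Agent.Lib.MP_c01941_lc.GeomMain
import Pool.Agent.Lib.MP_c01941_lc.ToPart
import Pool.Agent.Lib.MP_c01941_lc.ChainIneq
import Pool.Agent.Lib.MP_c01941_lc.CfgN

/-!
FP-Lower. Assembly of the lower bound: `toPart`, `geom_main`, `chain_ineq`, `cfg_e`, `cfg_m`.
If `W.length < 3 n` then `toPart` gives a `Part` with `N < 3 n`, against `Part.N_eq`.
-/

namespace MPc01941

theorem lower_length {n : ℕ} (hn : 1 ≤ n) {W : List (List ℂ)}
    (h : IsBoundedPartition 67600 (cfg n hn).P W) : 3 * n ≤ W.length := by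
  by_contra hc
  push Not at hc
  obtain ⟨p, hN, _⟩ := toPart (cfg n hn) h hc.le
  have h1 : p.N = 3 * n := p.N_eq
  omega

theorem lower_vertex {n : ℕ} (hn : 1 ≤ n) {W : List (List ℂ)}
    (h : IsBoundedPartition 67600 (cfg n hn).P W) (hW : W.length ≤ 3 * n) {j : ℕ} (hj : j < n) :
    ∃ v ∈ W, ∃ z ∈ v,
      z.re = (cfg n hn).ox (j + 1) - 95200 * (zz n (2 * j + 1) + tt n (2 * j + 1)) := by
  obtain ⟨p, _, hv⟩ := toPart (cfg n hn) h hW
  obtain ⟨r, r', a, b, g1, g2, g3, g4, g5, g6, g7, g8, g9, g10⟩ := geom_main p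
  have hnn : (cfg n hn).n = n := rfl
  have ha0 : (cfg n hn).a0 = 421824 / 5 := rfl
  have ha1 : (cfg n hn).a1 = 421824 / 5 := rfl
  rw [hnn] at g1 g2 g4 g5 g6 g7 g8 g9 g10
  rw [ha0] at g3
  rw [ha1] at g4
  obtain ⟨k1, k2⟩ := chain_ineq hn g1 g2 (by rw [g3]; norm_num) (by rw [g4]; norm_num) g5 g6
    (fun i hi => by
      have := g7 i hi
      rw [cfg_e] at this
      exact this)
    (fun i hi => by
      have := g8 i hi
      rw [cfg_m] at this
      linarith) g9 j hj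
  obtain ⟨i, hi1, hi2⟩ := g10 j hj k2
  obtain ⟨v, hvW, hz⟩ := hv i _ hi1 hi2
  refine ⟨v, hvW, _, hz, ?_⟩
  show (cfg n hn).ox (j + 1) + (-119 * b j / 169) = _
  rw [k1]
  ring

end MPc01941
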