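import Pool.Agent.Lib.MP_c01941_lc.TentCut
import Pool.Agent.Lib.MP_c01941_lc.BodyUp
import Pool.Agent.Lib.MP_c01941_lc.TailDefs

/-!
FP-PMPoly. The piece M is `upSet e a (cbx a e) (xfl r r') (xce r r')`: the part
`10 a ≤ 10 x + y` of `cL` is the triangle `vS a, vS' e (cbx a e), vT e`, and the part
`cutT ≤ 0` of the room is the quadrilateral `vF (-18/5), vF xfl, vC xce, vC (-432/325)` (the right wall
is implied: `X ≤ max xfl xce < 1/20`; `cutT` is affine, positive multiple of the `cr` of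
the edge `vF xfl, vC xce`: compare values at the two ends with `cut_xfl`, `cut_xce`).
-/

namespace MPc01941

private theorem pm_D {r r' : ℝ} (h : RR r r') : 0 < 36 / 5 - 13 / 5 * (r + r') := by
  have h1 := h.h2
  have h2 := h.h4
  linarith

private theorem pm_tri {e a : ℝ} (hae : a < e) (ha : 3 ≤ a) (z : ℂ) :
    z ∈ tri (vS a) (vS' e (cbx a e)) (vT e) ↔
      (cL e z.re z.im ∧ 10 * a ≤ 10 * z.re + z.im) := by
  have h1 : cr (vS a) (vS' e (cbx a e)) z = (e - a) / 24000001 * (10 * z.re + z.im - 10 * a) := by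
    simp only [cr, vS, vS', cbx]
    ring
  have h2 : cr (vS' e (cbx a e)) (vT e) z =
      (e - a) * 24000000 / 24000001 / 2400000 * (2400000 * z.im - (z.re - e)) := by
    simp only [cr, vT, vS', cbx]
    ring
  have h3 : cr (vT e) (vS a) z = (e - a) * (- z.im) := by
    simp only [cr, vT, vS]
    ring
  have hp1 : 0 < (e - a) / 24000001 := by
    apply div_pos (by linarith) (by norm_num)
  have hp2 : 0 < (e - a) * 24000000 / 24000001 / 2400000 := by
    have : 0 < e - a := by linarith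
    positivity
  have hp3 : 0 < e - a := by linarith
  unfold tri cL
  rw [Set.mem_ofPred_eq, h1, h2, h3, mul_nonneg_iff_of_pos_left hp1, mul_nonneg_iff_of_pos_left hp2,
    mul_nonneg_iff_of_pos_left hp3]
  constructor
  · rintro ⟨g1, g2, g3⟩
    refine ⟨⟨?_, ?_, ?_⟩, ?_⟩ <;> linarith
  · rintro ⟨⟨g1, g2, g3⟩, g4⟩
    refine ⟨?_, ?_, ?_⟩ <;> linarith

private theorem pm_quad {e r r' : ℝ} (h : RR r r') (z : ℂ) :
    z ∈ quad (vF e (-18 / 5)) (vF e (xfl r r')) (vC e (xce r r')) (vC e (-432 / 325)) ↔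
      (cT e z.re z.im ∧ cutT r r' (z.re - (e - 81120)) (z.im + 58812) ≤ 0) := by
  obtain ⟨f1, f2⟩ := xfl_bounds h
  obtain ⟨c1, c2⟩ := xce_bounds h
  have k1 := cut_xfl h
  have k2 := cut_xce h
  have hD := pm_D h
  set xf := xfl r r' with hxf
  set xc := xce r r' with hxc
  set D : ℝ := 36 / 5 - 13 / 5 * (r + r') with hDD
  set X : ℝ := z.re - (e - 81120) with hX
  set Y : ℝ := z.im + 58812 with hY
  have h1 : cr (vF e (-18 / 5)) (vF e xf) z = (xf + 18 / 5) * Y := by
    simp only [cr, vF, hY]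
    ring
  have h2 : cr (vF e xf) (vC e xc) z = (xc - xf) * Y - 41 / 20 * (X - xf) := by
    simp only [cr, vF, vC, hX, hY]
    ring
  have h3 : cr (vC e xc) (vC e (-432 / 325)) z = (xc + 432 / 325) * (41 / 20 - Y) := by
    simp only [cr, vC, hY]
    ring
  have h4 : cr (vC e (-432 / 325)) (vF e (-18 / 5)) z =
      41 / 1300 * (65 * (X + 18 / 5) - 72 * Y) := by
    simp only [cr, vF, vC, hX, hY]
    ring
  have h5 : 41 / 20 * cutT r r' X Y = - (D * ((xc - xf) * Y - 41 / 20 * (X - xf))) := by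
    have e1 : cutT r r' X Y = cutT r r' xf 0 + D * (X - xf) + (r' - r) * Y := by
      simp only [cutT, hDD]
      ring
    have e2 : cutT r r' xc (41 / 20) = cutT r r' xf 0 + D * (xc - xf) + (r' - r) * (41 / 20) := by
      simp only [cutT, hDD]
      ring
    rw [k1] at e1 e2
    rw [k2] at e2
    have e3 : (r' - r) * (41 / 20) = - (D * (xc - xf)) := by linarith
    rw [e1]
    have e4 : 41 / 20 * (0 + D * (X - xf) + (r' - r) * Y) =
        41 / 20 * (D * (X - xf)) + ((r' - r) * (41 / 20)) * Y := by ring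
    rw [e4, e3]
    ring
  have hp1 : 0 < xf + 18 / 5 := by linarith
  have hp3 : 0 < xc + 432 / 325 := by
    norm_num at c1 ⊢
    linarith
  unfold quad cT
  rw [Set.mem_ofPred_eq, h1, h2, h3, h4, mul_nonneg_iff_of_pos_left hp1,
    mul_nonneg_iff_of_pos_left hp3, mul_nonneg_iff_of_pos_left (by norm_num : (0 : ℝ) < 41 / 1300)]
  constructor
  · rintro ⟨g1, g2, g3, g4⟩
    have hcut : cutT r r' X Y ≤ 0 := by
      have := mul_nonneg hD.le g2
      linarith
    have hX' : X ≤ 1 / 20 := by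
      rcases le_total xf xc with hh | hh
      · have : (xc - xf) * Y ≤ (xc - xf) * (41 / 20) :=
          mul_le_mul_of_nonneg_left (by linarith) (by linarith)
        linarith
      · have : (xf - xc) * Y ≥ 0 := mul_nonneg (by linarith) g1
        linarith
    refine ⟨⟨by linarith, by linarith, by linarith, ?_⟩, hcut⟩
    linarith
  · rintro ⟨⟨g1, g2, g3, g4⟩, g5⟩
    refine ⟨by linarith, ?_, by linarith, by linarith⟩
    by_contra hc
    push Not at hc
    have := mul_neg_of_pos_of_neg hD hc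
    linarith

theorem pM_eq {e a r r' : ℝ} (h : HM e a r r') :
    pM e a r r' = upSet e a (cbx a e) (xfl r r') (xce r r') := by
  ext z
  unfold pM upSet
  rw [Set.mem_union, Set.mem_union, pm_tri (by linarith [h.e1, h.a2]) (by linarith [h.a1]),
    pm_quad h.rr, Set.mem_ofPred_eq, Set.mem_ofPred_eq, or_assoc]

theorem pM_poly {e a r r' : ℝ} (h : HM e a r r') : ∃ v, IsPolygon v (pM e a r r') := by
  rw [pM_eq h]
  obtain ⟨f1, f2⟩ := xfl_bounds h.rr
  obtain ⟨c1, c2⟩ := xce_bounds h.rr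
  have h1 := h.e1
  have h2 := h.e2
  have h3 := h.a1
  have h4 := h.a2
  refine ⟨_, isPolygon_up ⟨h1, h2⟩ (by linarith) ?_ ?_ f1 (by linarith) c1 ?_⟩
  · unfold cbx
    rw [le_div_iff₀ (by norm_num)]
    linarith
  · unfold cbx
    rw [div_le_iff₀ (by norm_num)]
    linarith
  · norm_num at c2 ⊢
    linarith

end MPc01941
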