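import Pool.Agent.Lib.MP_c01941_lc.Verts
import Pool.Agent.Lib.MP_c01941_lc.Fat

/-!
MP_c01941_lc: the pieces of the partition into `3n` pieces.
-/

namespace MPc01941

open Metric

/-- the common tangent of the two disks of radius `r`, `r'` in the room, in room coordinates -/
noncomputable def cutT (r r' X Y : ℝ) : ℝ :=
  (36 / 5 - 13 / 5 * (r + r')) * (X + 18 / 5 - 13 * r / 5) + (r' - r) * (Y - r) - r * (r + r')

/-- intersections of the common tangent with the floor and the ceiling -/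
noncomputable def xfl (r r' : ℝ) : ℝ :=
  -18 / 5 + 13 * r / 5 + 2 * r * r' / (36 / 5 - 13 / 5 * (r + r'))

noncomputable def xce (r r' : ℝ) : ℝ :=
  -18 / 5 + 13 * r / 5 + (r * (r + r') - (r' - r) * (41 / 20 - r)) / (36 / 5 - 13 / 5 * (r + r'))

/-- hypotheses on the two radii -/
structure RR (r r' : ℝ) : Prop where
  h1 : 399 / 400 ≤ r
  h2 : r ≤ 401 / 400
  h3 : 399 / 400 ≤ r'
  h4 : r' ≤ 401 / 400
  hF : FF (13 / 8 - r) (13 / 8 - r') = 225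

/-- piece of type M -/
def pM (e a r r' : ℝ) : Set ℂ :=
  {z | (cL e z.re z.im ∧ 10 * a ≤ 10 * z.re + z.im) ∨ cA e z.re z.im ∨
    (cT e z.re z.im ∧ cutT r r' (z.re - (e - 81120)) (z.im + 58812) ≤ 0)}

/-- piece of type N -/
def pN (e m μ r r' : ℝ) : Set ℂ :=
  {z | (cT e z.re z.im ∧ 0 ≤ cutT r r' (z.re - (e - 81120)) (z.im + 58812)) ∨ cB e z.re z.im ∨
    (cM e m z.re z.im ∧
      4 * z.re + 3 * z.im ≤ 4 * (e - 81120 + 119 * μ) + 3 * (-117624 + 120 * μ))}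

/-- piece of type C, relative to the bend -/
def pC (m μ e' a' : ℝ) : Set ℂ :=
  {z | (z.re ≤ 0 ∧ 119 * z.im ≤ 120 * z.re ∧
      191999881 * z.re - 14161 * (m + 360) ≤ 190400000 * z.im ∧
      836 * (μ - m) ≤ 4 * z.re + 3 * z.im) ∨
    (0 ≤ z.re ∧ z.re ≤ 3 ∧ -30 / 13 ≤ z.im ∧ z.im ≤ 0) ∨
    (cL e' z.re z.im ∧ 10 * z.re + z.im ≤ 10 * a')}

/-- hypotheses for `pM` -/
structure HM (e a r r' : ℝ) : Prop where
  e1 : 219362 ≤ e
  e2 : e ≤ 220038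
  a1 : 84000 ≤ a
  a2 : a ≤ 85000
  er : e - a = 135200 * r
  rr : RR r r'

/-- hypotheses for `pN` -/
structure HN (e m μ r r' : ℝ) : Prop where
  e1 : 219362 ≤ e
  e2 : e ≤ 220038
  m1 : 938 ≤ m
  m2 : m ≤ 942
  μ1 : 436 ≤ μ
  μ2 : μ ≤ 444
  er : 169 * (360 + μ) = 135200 * r'
  rr : RR r r'

/-- hypotheses for `pC` -/
structure HC (m μ e' a' : ℝ) : Prop where
  m1 : 938 ≤ m
  m2 : m ≤ 942
  μ1 : 436 ≤ μ
  μ2 : μ ≤ 444
  e1 : 219362 ≤ e'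
  e2 : e' ≤ 220038
  a1 : 84000 ≤ a'
  a2 : a' ≤ 85000
  hF : FF (169 * (m - μ)) a' = 225 * 135200 ^ 2

/-- a set that is fat with the constant `67600` -/
def FatSet (Q : Set ℂ) : Prop :=
  ∃ (r : ℝ) (c c' : ℂ), 0 < r ∧ closedBall c r ⊆ Q ∧ Q ⊆ closedBall c' (67600 * r)

/-- a fat polygon -/
def Good (Q : Set ℂ) : Prop := (∃ v, IsPolygon v Q) ∧ FatSet Q

end MPc01941
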