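import Pool.Agent.Lib.MP_c01941_lc.Defs

/-!
FP-PolyBase. Elementary facts about the cyclic edge list and about `IsPolygon`.
-/

namespace MPc01941

open Metric

/-- the edges of the open polygonal path `l` followed by `y` -/
def pe : List ℂ → ℂ → List (ℂ × ℂ)
  | [], _ => []
  | [a], y => [(a, y)]
  | a :: b :: l, y => (a, b) :: pe (b :: l) y

theorem pb_zip : ∀ (l : List ℂ) (a y : ℂ), (a :: l).zip (l ++ [y]) = pe (a :: l) y
  | [], a, y => by simp [pe]
  | b :: l, a, y => by
      rw [pe, ← pb_zip l b y, List.cons_append, List.zip_cons_cons]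

theorem cyc_cons (x : ℂ) (l : List ℂ) : cyc (x :: l) = pe (x :: l) x := by
  rw [cyc, List.rotate_cons_succ, List.rotate_zero, pb_zip]

theorem pe_append (A B : List ℂ) (x y : ℂ) : pe (A ++ x :: B) y = pe A x ++ pe (x :: B) y := by
  induction A with
  | nil => simp [pe]
  | cons a A ih =>
    cases A with
    | nil => simp [pe]
    | cons b A =>
      simp only [List.cons_append, pe] at ih ⊢
      rw [ih]

theorem pe_map (f : ℂ → ℂ) (A : List ℂ) (y : ℂ) :
    pe (A.map f) (f y) = (pe A y).map (fun e => (f e.1, f e.2)) := by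
  induction A with
  | nil => simp [pe]
  | cons a A ih =>
    cases A with
    | nil => simp [pe]
    | cons b A =>
      simp only [List.map_cons, pe] at ih ⊢
      rw [ih]

theorem cyc_rotate (v : List ℂ) (k : ℕ) : cyc (v.rotate k) = (cyc v).rotate k := by
  rw [cyc, cyc, List.zip_eq_zipWith, List.zip_eq_zipWith,
    List.zipWith_rotate_distrib _ _ _ _ (by simp),
    List.rotate_rotate, List.rotate_rotate, add_comm]

theorem pb_mem_cyc_rotate {v : List ℂ} {k : ℕ} {e : ℂ × ℂ} :
    e ∈ cyc (v.rotate k) ↔ e ∈ cyc v := by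
  rw [cyc_rotate, List.mem_rotate]

theorem pb_cyc_map (f : ℂ → ℂ) (v : List ℂ) :
    cyc (v.map f) = (cyc v).map (fun e => (f e.1, f e.2)) := by
  cases v with
  | nil => simp [cyc]
  | cons a A =>
    rw [cyc_cons, List.map_cons, cyc_cons, ← List.map_cons, pe_map]

/-- the list of vertices may be rotated -/
theorem IsPolygon.rotate {v : List ℂ} {Q : Set ℂ} (h : IsPolygon v Q) (k : ℕ) :
    IsPolygon (v.rotate k) Q where
  len := by rw [List.length_rotate]; exact h.len
  nondeg e he := h.nondeg e (pb_mem_cyc_rotate.1 he)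
  simple := by
    rw [cyc_rotate]
    refine ((List.rotate_perm (cyc v) k).pairwise_iff ?_).2 h.simple
    intro e f hef
    exact hef.symm
  compact := h.compact
  regular := h.regular
  nonempty := h.nonempty
  frontier_eq := by
    rw [h.frontier_eq]
    ext z
    simp only [Set.mem_setOf_eq, pb_mem_cyc_rotate]

theorem IsPolygon.rotate_append {A B : List ℂ} {Q : Set ℂ} (h : IsPolygon (A ++ B) Q) :
    IsPolygon (B ++ A) Q := by
  rw [← List.rotate_append_length_eq]
  exact h.rotate _

theorem hseg_subset (a b : ℂ) : hseg a b ⊆ segment ℝ a b := by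
  rintro z ⟨t, h0, h1, rfl⟩
  rw [segment_eq_image']
  exact ⟨t, ⟨h0, h1.le⟩, by simp⟩

theorem segment_eq_hseg (a b : ℂ) : segment ℝ a b = hseg a b ∪ {b} := by
  apply Set.Subset.antisymm
  · intro z hz
    rw [segment_eq_image'] at hz
    obtain ⟨t, ⟨h0, h1⟩, rfl⟩ := hz
    rcases h1.eq_or_lt with h | h
    · right
      subst h
      simp
    · left
      exact ⟨t, h0, h, by simp⟩
  · rintro z (hz | hz)
    · exact hseg_subset a b hz
    · rw [Set.mem_singleton_iff] at hz
      rw [hz]
      exact right_mem_segment ℝ a b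

/-- translation -/
theorem IsPolygon.translate {v : List ℂ} {Q : Set ℂ} (h : IsPolygon v Q) (w : ℂ) :
    IsPolygon (v.map (fun z => z + w)) {z | z - w ∈ Q} := by
  have hset : {z | z - w ∈ Q} = (Homeomorph.addRight (-w)) ⁻¹' Q := by
    ext z
    simp [sub_eq_add_neg]
  have hhs : ∀ a b z : ℂ, z ∈ hseg (a + w) (b + w) ↔ z - w ∈ hseg a b := by
    intro a b z
    constructor
    · rintro ⟨t, h0, h1, h2⟩
      exact ⟨t, h0, h1, by rw [h2]; ring⟩
    · rintro ⟨t, h0, h1, h2⟩
      exact ⟨t, h0, h1, by linear_combination h2⟩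
  have hsg : ∀ a b z : ℂ, z ∈ segment ℝ (a + w) (b + w) ↔ z - w ∈ segment ℝ a b := by
    intro a b z
    rw [segment_eq_hseg, segment_eq_hseg, Set.mem_union, Set.mem_union, hhs,
      Set.mem_singleton_iff, Set.mem_singleton_iff, sub_eq_iff_eq_add]
  refine ⟨?_, ?_, ?_, ?_, ?_, ?_, ?_⟩
  · rw [List.length_map]; exact h.len
  · intro e he
    rw [pb_cyc_map, List.mem_map] at he
    obtain ⟨e', he', rfl⟩ := he
    intro hh
    exact h.nondeg e' he' (add_right_cancel hh)
  · rw [pb_cyc_map, List.pairwise_map]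
    refine h.simple.imp ?_
    intro e f hef
    rw [Set.disjoint_left] at hef ⊢
    intro z hz hz'
    rw [hhs] at hz hz'
    exact hef hz hz'
  · rw [hset]
    exact (Homeomorph.isCompact_preimage _).2 h.compact
  · rw [hset, ← Homeomorph.preimage_interior, ← Homeomorph.preimage_closure, h.regular]
  · obtain ⟨z, hz⟩ := h.nonempty
    exact ⟨z + w, by simpa using hz⟩
  · rw [hset, ← Homeomorph.preimage_frontier, h.frontier_eq]
    ext z
    simp only [Set.mem_preimage, Set.mem_setOf_eq, pb_cyc_map, List.mem_map,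
      Homeomorph.coe_addRight, ← sub_eq_add_neg]
    constructor
    · rintro ⟨e, he, hz⟩
      exact ⟨_, ⟨e, he, rfl⟩, (hsg _ _ _).2 hz⟩
    · rintro ⟨_, ⟨e, he, rfl⟩, hz⟩
      exact ⟨e, he, (hsg _ _ _).1 hz⟩

/-- every edge lies in the polygon -/
theorem IsPolygon.edge_subset {v : List ℂ} {Q : Set ℂ} (h : IsPolygon v Q) {e : ℂ × ℂ}
    (he : e ∈ cyc v) : segment ℝ e.1 e.2 ⊆ Q := by
  intro z hz
  have h1 : z ∈ frontier Q := by
    rw [h.frontier_eq]
    exact ⟨e, he, hz⟩
  have h2 := h1.1
  rwa [h.compact.isClosed.closure_eq] at h2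

end MPc01941
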