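import Pool.Agent.Lib.MP_c01941_lc.PolyBase

/-!
FP-PolyConn. A polygon is connected.
Proof without the Jordan curve theorem: the frontier `γ` is a union of segments in which each one
meets the next one, so it is preconnected (and nonempty: `Q` is compact, nonempty and `≠ univ`).
If `Q ⊆ U ∪ V` for two closed sets, `Q ∩ U ∩ V = ∅`, then `γ` lies in one of them, say in `U`.
Then `Q ∩ V ⊆ interior Q`, so `Q ∩ V = interior Q ∩ Uᶜ` is open; it is compact; a compact open
subset of `ℂ` is empty. (Use `isPreconnected_closed_iff`.)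
-/

namespace MPc01941

open Metric

private theorem pc_mem_cyc {v : List ℂ} (hv : 0 < v.length) (e : ℂ × ℂ) :
    e ∈ cyc v ↔ ∃ k : ℕ, e = (v.getD (k % v.length) 0, v.getD ((k + 1) % v.length) 0) := by
  unfold cyc
  constructor
  · intro he
    obtain ⟨i, hi, rfl⟩ := List.mem_iff_getElem.1 he
    have hi' : i < v.length := by
      rw [List.length_zip, List.length_rotate, min_self] at hi
      exact hi
    refine ⟨i, ?_⟩
    rw [List.getElem_zip, List.getElem_rotate, Nat.mod_eq_of_lt hi',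
      List.getD_eq_getElem _ _ hi', List.getD_eq_getElem _ _ (Nat.mod_lt _ hv)]
  · rintro ⟨k, rfl⟩
    have hk : k % v.length < v.length := Nat.mod_lt _ hv
    rw [List.mem_iff_getElem]
    refine ⟨k % v.length, ?_, ?_⟩
    · rw [List.length_zip, List.length_rotate, min_self]
      exact hk
    · rw [List.getElem_zip, List.getElem_rotate, List.getD_eq_getElem _ _ hk,
        List.getD_eq_getElem _ _ (Nat.mod_lt _ hv)]
      simp only [Nat.mod_add_mod]

theorem IsPolygon.frontier_preconnected {v : List ℂ} {Q : Set ℂ} (h : IsPolygon v Q) :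
    IsPreconnected (frontier Q) := by
  have hv : 0 < v.length := lt_of_lt_of_le (by norm_num) h.len
  have h1 : frontier Q = ⋃ k : ℕ, segment ℝ (v.getD (k % v.length) 0)
      (v.getD ((k + 1) % v.length) 0) := by
    rw [h.frontier_eq]
    ext z
    rw [Set.mem_iUnion]
    constructor
    · rintro ⟨e, he, hz⟩
      obtain ⟨k, rfl⟩ := (pc_mem_cyc hv e).1 he
      exact ⟨k, hz⟩
    · rintro ⟨k, hz⟩
      exact ⟨_, (pc_mem_cyc hv _).2 ⟨k, rfl⟩, hz⟩
  rw [h1]
  refine IsPreconnected.iUnion_of_chain (fun k => (convex_segment _ _).isPreconnected) fun k => ?_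
  exact ⟨v.getD ((k + 1) % v.length) 0, right_mem_segment ℝ _ _, left_mem_segment ℝ _ _⟩

private theorem pc_aux {v : List ℂ} {Q : Set ℂ} (h : IsPolygon v Q) {t t' : Set ℂ}
    (ht' : IsClosed t') (ht : IsClosed t) (hQ : Q ⊆ t ∪ t') (hne : Q ∩ (t ∩ t') = ∅)
    (hf : frontier Q ∩ t' = ∅) : Q ∩ t' = ∅ := by
  have h1 : Q ∩ t' = interior Q ∩ tᶜ := by
    ext z
    constructor
    · rintro ⟨hz, hz'⟩
      refine ⟨?_, fun hzt => ?_⟩
      · rw [← self_sdiff_frontier]
        exact ⟨hz, fun hzf => Set.eq_empty_iff_forall_notMem.1 hf z ⟨hzf, hz'⟩⟩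
      · exact Set.eq_empty_iff_forall_notMem.1 hne z ⟨hz, hzt, hz'⟩
    · rintro ⟨hz, hz'⟩
      refine ⟨interior_subset hz, ?_⟩
      rcases hQ (interior_subset hz) with h2 | h2
      · exact absurd h2 hz'
      · exact h2
  have hopen : IsOpen (Q ∩ t') := by
    rw [h1]
    exact isOpen_interior.inter ht.isOpen_compl
  have hcomp : IsCompact (Q ∩ t') := h.compact.inter_right ht'
  rcases isClopen_iff.1 ⟨hcomp.isClosed, hopen⟩ with h2 | h2
  · exact h2
  · exact absurd (h2 ▸ hcomp) (noncompact_univ ℂ)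

theorem IsPolygon.isPreconnected {v : List ℂ} {Q : Set ℂ} (h : IsPolygon v Q) :
    IsPreconnected Q := by
  rw [isPreconnected_closed_iff]
  intro t t' ht ht' hQ h1 h2
  by_contra hcon
  rw [Set.not_nonempty_iff_eq_empty] at hcon
  have hfQ : frontier Q ⊆ Q := h.compact.isClosed.frontier_subset
  have hne : ¬ ((frontier Q ∩ t).Nonempty ∧ (frontier Q ∩ t').Nonempty) := by
    rintro ⟨h3, h4⟩
    obtain ⟨z, hz1, hz2⟩ := isPreconnected_closed_iff.1 h.frontier_preconnected t t' ht ht'
      (hfQ.trans hQ) h3 h4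
    exact Set.eq_empty_iff_forall_notMem.1 hcon z ⟨hfQ hz1, hz2⟩
  rw [not_and_or, Set.not_nonempty_iff_eq_empty, Set.not_nonempty_iff_eq_empty] at hne
  rcases hne with h3 | h3
  · refine h1.ne_empty (pc_aux h ht ht' (by rwa [Set.union_comm]) ?_ h3)
    rwa [Set.inter_comm t' t]
  · exact h2.ne_empty (pc_aux h ht' ht hQ hcon h3)

end MPc01941
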