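import Pool.Agent.Lib.MP_c01941_lc.PolyBase

/-!
FP-PolySub. Inserting and removing a straight vertex.
`hseg x y` and `hseg y z` are disjoint with union `hseg x z` when `y` is in the open segment.
-/

namespace MPc01941

open Metric

theorem ps_exists {x y z : ℂ} (hy : y ∈ segment ℝ x z) :
    ∃ t : ℝ, 0 ≤ t ∧ t ≤ 1 ∧ y = x + t * (z - x) := by
  rw [segment_eq_image'] at hy
  obtain ⟨t, ⟨h0, h1⟩, h⟩ := hy
  exact ⟨t, h0, h1, by rw [← h]; simp⟩

theorem ps_hseg_subset {x y z : ℂ} (hy : y ∈ segment ℝ x z) :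
    hseg x z ⊆ hseg x y ∪ hseg y z := by
  obtain ⟨t, ht0, ht1, rfl⟩ := ps_exists hy
  rintro w ⟨s, hs0, hs1, rfl⟩
  rcases lt_or_ge s t with h | h
  · left
    have ht : 0 < t := lt_of_le_of_lt hs0 h
    refine ⟨s / t, by positivity, (div_lt_one ht).2 h, ?_⟩
    have : (t : ℂ) ≠ 0 := by exact_mod_cast ht.ne'
    push_cast
    field_simp
    ring
  · right
    have ht : 0 < 1 - t := by linarith
    refine ⟨(s - t) / (1 - t), div_nonneg (by linarith) ht.le, (div_lt_one ht).2 (by linarith), ?_⟩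
    have h1 : (1 : ℂ) - t ≠ 0 := by exact_mod_cast ht.ne'
    have h2 : z - (x + t * (z - x)) = (1 - t) * (z - x) := by ring
    rw [h2]
    push_cast
    rw [← mul_assoc, div_mul_cancel₀ _ h1]
    ring

theorem ps_left_subset {x y z : ℂ} (hy : y ∈ segment ℝ x z) : hseg x y ⊆ hseg x z := by
  obtain ⟨t, ht0, ht1, rfl⟩ := ps_exists hy
  rintro w ⟨s, hs0, hs1, rfl⟩
  refine ⟨s * t, by positivity, ?_, ?_⟩
  · nlinarith
  · push_cast; ring

theorem ps_right_subset {x y z : ℂ} (hy : y ∈ segment ℝ x z) (h2 : y ≠ z) :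
    hseg y z ⊆ hseg x z := by
  obtain ⟨t, ht0, ht1, rfl⟩ := ps_exists hy
  have ht : t < 1 := by
    rcases ht1.eq_or_lt with h | h
    · exfalso; apply h2; subst h; simp
    · exact h
  rintro w ⟨s, hs0, hs1, rfl⟩
  refine ⟨t + s * (1 - t), ?_, ?_, ?_⟩
  · have := mul_nonneg hs0 (sub_nonneg.2 ht1)
    linarith
  · nlinarith
  · push_cast; ring

theorem ps_disjoint {x y z : ℂ} (hy : y ∈ segment ℝ x z) (h1 : y ≠ x) :
    Disjoint (hseg x y) (hseg y z) := by
  obtain ⟨t, ht0, ht1, rfl⟩ := ps_exists hy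
  have hd : z - x ≠ 0 := by
    intro h; apply h1; rw [h]; simp
  have ht : 0 < t := by
    rcases ht0.eq_or_lt with h | h
    · exfalso; apply h1; rw [← h]; simp
    · exact h
  rw [Set.disjoint_left]
  rintro w ⟨s, hs0, hs1, hw⟩ ⟨r, hr0, hr1, hw'⟩
  have h3 : ((s * t : ℝ) : ℂ) * (z - x) = ((t + r * (1 - t) : ℝ) : ℂ) * (z - x) := by
    push_cast
    linear_combination -hw + hw'
  have h4 := mul_right_cancel₀ hd h3
  have h5 : s * t = t + r * (1 - t) := by exact_mod_cast h4
  nlinarith [mul_nonneg hr0 (sub_nonneg.2 ht1)]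

theorem ps_segment {x y z : ℂ} (hy : y ∈ segment ℝ x z) (w : ℂ) :
    w ∈ segment ℝ x z ↔ w ∈ segment ℝ x y ∨ w ∈ segment ℝ y z := by
  constructor
  · intro hw
    rw [segment_eq_hseg] at hw
    rcases hw with hw | hw
    · rcases ps_hseg_subset hy hw with h | h
      · exact Or.inl (hseg_subset _ _ h)
      · exact Or.inr (hseg_subset _ _ h)
    · rw [Set.mem_singleton_iff] at hw
      rw [hw]
      exact Or.inr (right_mem_segment ℝ _ _)
  · rintro (hw | hw)
    · exact (convex_segment x z).segment_subset (left_mem_segment ℝ _ _) hy hw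
    · exact (convex_segment x z).segment_subset hy (right_mem_segment ℝ _ _) hw

theorem ps_cyc2 (x z : ℂ) (A : List ℂ) : cyc (x :: z :: A) = (x, z) :: pe (z :: A) x := by
  rw [cyc_cons, pe]

theorem ps_cyc3 (x y z : ℂ) (A : List ℂ) :
    cyc (x :: y :: z :: A) = (x, y) :: (y, z) :: pe (z :: A) x := by
  rw [cyc_cons, pe, pe]

theorem IsPolygon.insert {x y z : ℂ} {A : List ℂ} {Q : Set ℂ} (h : IsPolygon (x :: z :: A) Q)
    (hy : y ∈ segment ℝ x z) (h1 : y ≠ x) (h2 : y ≠ z) : IsPolygon (x :: y :: z :: A) Q := by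
  have hs := h.simple
  rw [ps_cyc2, List.pairwise_cons] at hs
  refine ⟨by simp, ?_, ?_, h.compact, h.regular, h.nonempty, ?_⟩
  · intro e he
    rw [ps_cyc3, List.mem_cons, List.mem_cons] at he
    rcases he with rfl | rfl | he
    · exact h1.symm
    · exact h2
    · exact h.nondeg e (by rw [ps_cyc2]; exact List.mem_cons_of_mem _ he)
  · rw [ps_cyc3, List.pairwise_cons, List.pairwise_cons]
    refine ⟨?_, ?_, hs.2⟩
    · intro f hf
      rw [List.mem_cons] at hf
      rcases hf with rfl | hf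
      · exact ps_disjoint hy h1
      · exact (hs.1 f hf).mono_left (ps_left_subset hy)
    · intro f hf
      exact (hs.1 f hf).mono_left (ps_right_subset hy h2)
  · rw [h.frontier_eq, ps_cyc2, ps_cyc3]
    ext w
    simp only [Set.mem_setOf_eq, List.mem_cons, exists_eq_or_imp]
    rw [ps_segment hy, or_assoc]

theorem IsPolygon.merge {x y z : ℂ} {A : List ℂ} {Q : Set ℂ} (h : IsPolygon (x :: y :: z :: A) Q)
    (hA : A ≠ []) (hy : y ∈ segment ℝ x z) : IsPolygon (x :: z :: A) Q := by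
  have hs := h.simple
  rw [ps_cyc3, List.pairwise_cons, List.pairwise_cons] at hs
  have hl : 1 ≤ A.length := List.length_pos_iff.2 hA
  refine ⟨by simp only [List.length_cons]; omega, ?_, ?_, h.compact, h.regular, h.nonempty, ?_⟩
  · intro e he
    rw [ps_cyc2, List.mem_cons] at he
    rcases he with rfl | he
    · intro hxz
      have h3 : (x, y).1 ≠ (x, y).2 := h.nondeg (x, y) (by rw [ps_cyc3]; simp)
      apply h3
      simp only at hxz ⊢
      rw [← hxz, segment_same] at hy
      exact hy.symm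
    · exact h.nondeg e (by rw [ps_cyc3]; exact List.mem_cons_of_mem _ (List.mem_cons_of_mem _ he))
  · rw [ps_cyc2, List.pairwise_cons]
    refine ⟨?_, hs.2.2⟩
    intro f hf
    exact (Set.disjoint_union_left.2 ⟨hs.1 f (List.mem_cons_of_mem _ hf), hs.2.1 f hf⟩).mono_left
      (ps_hseg_subset hy)
  · rw [h.frontier_eq, ps_cyc3, ps_cyc2]
    ext w
    simp only [Set.mem_setOf_eq, List.mem_cons, exists_eq_or_imp]
    rw [ps_segment hy, or_assoc]

end MPc01941
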