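import Pool.Agent.Lib.MP_c01941_lc.GlueFrontier
import Pool.Agent.Lib.MP_c01941_lc.PolySub

/-!
FP-PolyGlue. Gluing two polygons along an edge, or along a part of an edge of the first one.
`glue` follows from `glue_simple`, `glue_frontier`. For `glueSub`: insert `u` and `v` into the edge
`x y` (`IsPolygon.insert`), rotate so that the list begins with `u, v`, glue, rotate.
`glueL`: the part begins at `x`, `glueR`: the part ends at `y`.
-/

namespace MPc01941

open Metric

theorem glue {x y : ℂ} {A B : List ℂ} {Q R : Set ℂ} (hQ : IsPolygon (x :: y :: A) Q)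
    (hR : IsPolygon (y :: x :: B) R) (hQR : Q ∩ R = segment ℝ x y) :
    IsPolygon (y :: A ++ x :: B) (Q ∪ R) := by
  refine ⟨?_, ?_, glue_simple hQ hR hQR, hQ.compact.union hR.compact, ?_,
    hQ.nonempty.mono Set.subset_union_left, glue_frontier hQ hR hQR⟩
  · have h1 := hQ.len
    simp only [List.length_cons, List.length_append] at h1 ⊢
    omega
  · intro e he
    rw [glue_cyc, List.mem_append] at he
    rcases he with he | he
    · exact hQ.nondeg e (by rw [el_cyc]; exact List.mem_cons_of_mem _ he)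
    · exact hR.nondeg e (by rw [el_cyc]; exact List.mem_cons_of_mem _ he)
  · apply Set.Subset.antisymm
    · exact closure_minimal interior_subset (hQ.compact.isClosed.union hR.compact.isClosed)
    · apply Set.union_subset
      · calc Q = closure (interior Q) := hQ.regular.symm
          _ ⊆ closure (interior (Q ∪ R)) := closure_mono (interior_mono Set.subset_union_left)
      · calc R = closure (interior R) := hR.regular.symm
          _ ⊆ closure (interior (Q ∪ R)) := closure_mono (interior_mono Set.subset_union_right)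

theorem pg_mem {x y u : ℂ} {s : ℝ} (hs : 0 ≤ s) (h1 : s ≤ 1) (hu : u = x + s * (y - x)) :
    u ∈ segment ℝ x y := by
  rw [segment_eq_image']
  exact ⟨s, ⟨hs, h1⟩, by rw [hu]; simp⟩

theorem pg_ne {x y u : ℂ} {s : ℝ} (hxy : x ≠ y) (hs : 0 < s) (hu : u = x + s * (y - x)) :
    u ≠ x := by
  intro h
  have h1 : (s : ℂ) * (y - x) = 0 := by
    rw [hu] at h
    linear_combination h
  rcases mul_eq_zero.1 h1 with h2 | h2
  · exact hs.ne' (by exact_mod_cast h2)
  · exact hxy (sub_eq_zero.1 h2).symm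

theorem pg_ne' {x y u : ℂ} {s : ℝ} (hxy : x ≠ y) (hs : s < 1) (hu : u = x + s * (y - x)) :
    u ≠ y := by
  intro h
  have h1 : ((1 - s : ℝ) : ℂ) * (y - x) = 0 := by
    rw [hu] at h
    push_cast
    linear_combination -h
  rcases mul_eq_zero.1 h1 with h2 | h2
  · have : (1 - s : ℝ) = 0 := by exact_mod_cast h2
    linarith
  · exact hxy (sub_eq_zero.1 h2).symm

/-- `x`, `u = x + s (y - x)`, `v = x + t (y - x)`, `y` in this order on the edge of `Q` -/
theorem glueSub {x y u v : ℂ} {s t : ℝ} {A B : List ℂ} {Q R : Set ℂ}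
    (hQ : IsPolygon (x :: y :: A) Q) (hR : IsPolygon (v :: u :: B) R) (hs : 0 < s) (hst : s < t)
    (ht : t < 1) (hu : u = x + s * (y - x)) (hv : v = x + t * (y - x))
    (hQR : Q ∩ R = segment ℝ u v) :
    IsPolygon (x :: u :: B ++ v :: y :: A) (Q ∪ R) := by
  have hxy : x ≠ y := hQ.nondeg (x, y) (by rw [el_cyc]; simp)
  have ht0 : 0 < t := hs.trans hst
  have htc : (t : ℂ) ≠ 0 := by exact_mod_cast ht0.ne'
  have h1 : IsPolygon (x :: v :: y :: A) Q :=
    hQ.insert (pg_mem ht0.le ht.le hv) (pg_ne hxy ht0 hv) (pg_ne' hxy ht hv)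
  have hxv : x ≠ v := (pg_ne hxy ht0 hv).symm
  have hu' : u = x + ((s / t : ℝ) : ℂ) * (v - x) := by
    rw [hu, hv]
    push_cast
    field_simp
    ring
  have hst0 : 0 < s / t := div_pos hs ht0
  have hst1 : s / t < 1 := (div_lt_one ht0).2 hst
  have h2 : IsPolygon (x :: u :: v :: y :: A) Q :=
    h1.insert (pg_mem hst0.le hst1.le hu') (pg_ne hxv hst0 hu') (pg_ne' hxv hst1 hu')
  have h3 : IsPolygon ((u :: v :: y :: A) ++ [x]) Q :=
    IsPolygon.rotate_append (A := [x]) (B := u :: v :: y :: A) h2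
  have h4 : IsPolygon (u :: v :: (y :: A ++ [x])) Q := by simpa using h3
  have h5 := glue h4 hR hQR
  have h6 : v :: (y :: A ++ [x]) ++ u :: B = (v :: y :: A) ++ (x :: u :: B) := by simp
  rw [h6] at h5
  have h7 := h5.rotate_append
  exact h7

/-- `x`, `v = x + t (y - x)`, `y` in this order on the edge of `Q` -/
theorem glueL {x y v : ℂ} {t : ℝ} {A B : List ℂ} {Q R : Set ℂ}
    (hQ : IsPolygon (x :: y :: A) Q) (hR : IsPolygon (v :: x :: B) R) (h0 : 0 < t)
    (ht : t < 1) (hv : v = x + t * (y - x)) (hQR : Q ∩ R = segment ℝ x v) :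
    IsPolygon (x :: B ++ v :: y :: A) (Q ∪ R) := by
  have hxy : x ≠ y := hQ.nondeg (x, y) (by rw [el_cyc]; simp)
  have h1 : IsPolygon (x :: v :: y :: A) Q :=
    hQ.insert (pg_mem h0.le ht.le hv) (pg_ne hxy h0 hv) (pg_ne' hxy ht hv)
  have h5 := glue h1 hR hQR
  have h7 := h5.rotate_append
  exact h7

/-- `x`, `u = x + s (y - x)`, `y` in this order on the edge of `Q` -/
theorem glueR {x y u : ℂ} {s : ℝ} {A B : List ℂ} {Q R : Set ℂ}
    (hQ : IsPolygon (x :: y :: A) Q) (hR : IsPolygon (y :: u :: B) R) (hs : 0 < s) (h1 : s < 1)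
    (hu : u = x + s * (y - x)) (hQR : Q ∩ R = segment ℝ u y) :
    IsPolygon (x :: u :: B ++ y :: A) (Q ∪ R) := by
  have hxy : x ≠ y := hQ.nondeg (x, y) (by rw [el_cyc]; simp)
  have h2 : IsPolygon (x :: u :: y :: A) Q :=
    hQ.insert (pg_mem hs.le h1.le hu) (pg_ne hxy hs hu) (pg_ne' hxy h1 hu)
  have h3 : IsPolygon ((u :: y :: A) ++ [x]) Q :=
    IsPolygon.rotate_append (A := [x]) (B := u :: y :: A) h2
  have h4 : IsPolygon (u :: y :: (A ++ [x])) Q := by simpa using h3
  have h5 := glue h4 hR hQR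
  have h6 : y :: (A ++ [x]) ++ u :: B = (y :: A) ++ (x :: u :: B) := by simp
  rw [h6] at h5
  exact h5.rotate_append

end MPc01941
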