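import Pool.Agent.Lib.MP_c01941_lc.PolyTri
import Pool.Agent.Lib.MP_c01941_lc.PolyGlue

/-!
FP-PolyQuad. A strictly convex positively oriented quadrilateral is a polygon: glue the
triangles `a b c` and `a c d` along the segment `a c`.
-/

namespace MPc01941

open Metric

/-- the closed convex quadrilateral `a b c d` -/
def quad (a b c d : ℂ) : Set ℂ :=
  {z | 0 ≤ cr a b z ∧ 0 ≤ cr b c z ∧ 0 ≤ cr c d z ∧ 0 ≤ cr d a z}

private theorem pq_bary (p q a b c z : ℂ) :
    cr a b c * cr p q z = cr b c z * cr p q a + cr c a z * cr p q b + cr a b z * cr p q c := by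
  simp only [cr]
  ring

private theorem pq_cyc (a b c : ℂ) : cr a b c = cr b c a := by
  simp only [cr]
  ring

private theorem pq_swap (a b c : ℂ) : cr a b c = - cr b a c := by
  simp only [cr]
  ring

private theorem pq_left (a b : ℂ) : cr a b a = 0 := by
  simp only [cr]
  ring

private theorem pq_right (a b : ℂ) : cr a b b = 0 := by
  simp only [cr]
  ring

theorem quad_eq {a b c d : ℂ} (h1 : 0 < cr a b c) (h2 : 0 < cr b c d) (h3 : 0 < cr c d a)
    (h4 : 0 < cr d a b) : quad a b c d = tri a b c ∪ tri a c d := by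
  ext z
  constructor
  · rintro ⟨g1, g2, g3, g4⟩
    rcases le_total 0 (cr c a z) with h | h
    · exact Or.inl ⟨g1, g2, h⟩
    · refine Or.inr ⟨?_, g3, g4⟩
      rw [pq_swap]
      linarith
  · rintro (⟨g1, g2, g3⟩ | ⟨g1, g2, g3⟩)
    · refine ⟨g1, g2, ?_, ?_⟩
      · have e := pq_bary c d a b c z
        rw [pq_left, ← pq_cyc b c d] at e
        have e1 : 0 ≤ cr b c z * cr c d a := mul_nonneg g2 h3.le
        have e2 : 0 ≤ cr c a z * cr b c d := mul_nonneg g3 h2.le
        by_contra hc
        push Not at hc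
        have e3 : cr a b c * cr c d z < 0 := mul_neg_of_pos_of_neg h1 hc
        linarith
      · have e := pq_bary d a a b c z
        rw [pq_right, ← pq_cyc c d a] at e
        have e1 : 0 ≤ cr c a z * cr d a b := mul_nonneg g3 h4.le
        have e2 : 0 ≤ cr a b z * cr c d a := mul_nonneg g1 h3.le
        by_contra hc
        push Not at hc
        have e3 : cr a b c * cr d a z < 0 := mul_neg_of_pos_of_neg h1 hc
        linarith
    · have h3' : 0 < cr a c d := by
        rw [pq_cyc]
        exact h3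
      refine ⟨?_, ?_, g2, g3⟩
      · have e := pq_bary a b a c d z
        rw [pq_left, ← pq_cyc d a b] at e
        have e1 : 0 ≤ cr d a z * cr a b c := mul_nonneg g3 h1.le
        have e2 : 0 ≤ cr a c z * cr d a b := mul_nonneg g1 h4.le
        by_contra hc
        push Not at hc
        have e3 : cr a c d * cr a b z < 0 := mul_neg_of_pos_of_neg h3' hc
        linarith
      · have e := pq_bary b c a c d z
        rw [pq_right, ← pq_cyc a b c] at e
        have e1 : 0 ≤ cr c d z * cr a b c := mul_nonneg g2 h1.le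
        have e2 : 0 ≤ cr a c z * cr b c d := mul_nonneg g1 h2.le
        by_contra hc
        push Not at hc
        have e3 : cr a c d * cr b c z < 0 := mul_neg_of_pos_of_neg h3' hc
        linarith

private theorem pq_seg {p q x y z : ℂ} (hx : 0 ≤ cr p q x) (hy : 0 ≤ cr p q y)
    (hz : z ∈ segment ℝ x y) : 0 ≤ cr p q z := by
  obtain ⟨u, v, hu, hv, huv, rfl⟩ := hz
  have e : cr p q (u • x + v • y) = u * cr p q x + v * cr p q y := by
    have e1 : v = 1 - u := by linarith
    subst e1
    simp only [cr, Complex.add_re, Complex.add_im, Complex.real_smul, Complex.mul_re,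
      Complex.mul_im, Complex.ofReal_re, Complex.ofReal_im]
    ring
  rw [e]
  positivity

theorem isPolygon_quad {a b c d : ℂ} (h1 : 0 < cr a b c) (h2 : 0 < cr b c d) (h3 : 0 < cr c d a)
    (h4 : 0 < cr d a b) : IsPolygon [a, b, c, d] (quad a b c d) := by
  have h1' : 0 < cr c a b := by
    rw [pq_cyc]
    exact h1
  have h3' : 0 < cr a c d := by
    rw [pq_cyc]
    exact h3
  have hQ := isPolygon_tri h1'
  have hR := isPolygon_tri h3'
  have hQR : tri c a b ∩ tri a c d = segment ℝ c a := by
    ext z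
    constructor
    · rintro ⟨hz1, hz2⟩
      apply mem_segment_of_tri h1' hz1
      have e1 := hz1.1
      have e2 := hz2.1
      rw [pq_swap] at e2
      linarith
    · intro hz
      have hz' : z ∈ segment ℝ a c := by
        rw [segment_symm]
        exact hz
      refine ⟨⟨?_, ?_, ?_⟩, ⟨?_, ?_, ?_⟩⟩
      · exact pq_seg (by rw [pq_left]) (by rw [pq_right]) hz
      · exact pq_seg h1.le (by rw [pq_left]) hz
      · exact pq_seg (by rw [pq_right]) (by rw [← pq_cyc]; exact h1.le) hz
      · exact pq_seg (by rw [pq_left]) (by rw [pq_right]) hz'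
      · exact pq_seg h3.le (by rw [pq_left]) hz'
      · exact pq_seg (by rw [pq_right]) (by rw [← pq_cyc]; exact h3.le) hz'
  have h := glue (A := [b]) (B := [d]) hQ hR hQR
  have e : tri c a b ∪ tri a c d = quad a b c d := by
    rw [quad_eq h1 h2 h3 h4]
    congr 1
    ext z
    constructor
    · rintro ⟨g1, g2, g3⟩
      exact ⟨g2, g3, g1⟩
    · rintro ⟨g1, g2, g3⟩
      exact ⟨g3, g1, g2⟩
  rw [e] at h
  exact h

theorem quad_subset_of_convex {a b c d : ℂ} (h1 : 0 < cr a b c) (h2 : 0 < cr b c d)
    (h3 : 0 < cr c d a) (h4 : 0 < cr d a b) {S : Set ℂ} (hS : Convex ℝ S)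
    (ha : a ∈ S) (hb : b ∈ S) (hc : c ∈ S) (hd : d ∈ S) : quad a b c d ⊆ S := by
  rw [quad_eq h1 h2 h3 h4]
  apply Set.union_subset
  · exact tri_subset_of_convex h1 hS ha hb hc
  · refine tri_subset_of_convex ?_ hS ha hc hd
    rw [pq_cyc]
    exact h3

theorem mem_segment_of_quad {a b c d z : ℂ} (h1 : 0 < cr a b c) (h2 : 0 < cr b c d)
    (h3 : 0 < cr c d a) (h4 : 0 < cr d a b) (hz : z ∈ quad a b c d) (h0 : cr a b z = 0) :
    z ∈ segment ℝ a b := by
  apply mem_segment_of_tri h1 ?_ h0
  have hz' := hz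
  rw [quad_eq h1 h2 h3 h4] at hz'
  rcases hz' with h | h
  · exact h
  · obtain ⟨g1, g2, g3⟩ := h
    have e := pq_bary a b a c d z
    rw [pq_left, ← pq_cyc d a b, h0] at e
    have e1 : 0 ≤ cr d a z * cr a b c := mul_nonneg g3 h1.le
    have e2 : cr a c z * cr d a b ≤ 0 := by linarith
    have e3 : cr a c z ≤ 0 := by
      by_contra hc
      push Not at hc
      have := mul_pos hc h4
      linarith
    refine ⟨h0.ge, hz.2.1, ?_⟩
    rw [pq_swap]
    linarith

end MPc01941
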