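import Pool.Agent.Lib.MP_c01941_lc.EdgeLocal

/-!
FP-PolyTri. A positively oriented triangle is a polygon.
Barycentric coordinates: `cr a b z + cr b c z + cr c a z = cr a b c =: D` and
`D z = cr b c z * a + cr c a z * b + cr a b z * c` (coordinatewise, `ring`).
Interior: the three strict inequalities. Frontier: one equality, i.e. an edge.
-/

namespace MPc01941

open Metric

/-- the closed triangle `a b c` (positively oriented) -/
def tri (a b c : ℂ) : Set ℂ := {z | 0 ≤ cr a b z ∧ 0 ≤ cr b c z ∧ 0 ≤ cr c a z}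

theorem cr_sum (a b c z : ℂ) : cr a b z + cr b c z + cr c a z = cr a b c := by
  simp only [cr]; ring

private theorem pt_rot (a b c : ℂ) : cr b c a = cr a b c := by
  simp only [cr]; ring

private theorem pt_tri_rot (a b c : ℂ) : tri b c a = tri a b c := by
  ext z
  simp only [tri, Set.mem_ofPred_eq]
  tauto

private theorem pt_left (a b : ℂ) : cr a b a = 0 := by
  simp only [cr]; ring

private theorem pt_right (a b : ℂ) : cr a b b = 0 := by
  simp only [cr]; ring

/-- barycentric coordinates -/
private theorem pt_bary {a b c : ℂ} (h : 0 < cr a b c) (z : ℂ) :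
    (cr b c z / cr a b c) • a + (cr c a z / cr a b c) • b + (cr a b z / cr a b c) • c = z := by
  have h0 : cr a b c ≠ 0 := h.ne'
  apply Complex.ext
  · simp only [Complex.add_re, Complex.real_smul, Complex.mul_re, Complex.ofReal_re,
      Complex.ofReal_im, zero_mul, sub_zero]
    rw [div_mul_eq_mul_div, div_mul_eq_mul_div, div_mul_eq_mul_div, ← add_div, ← add_div,
      div_eq_iff h0]
    simp only [cr]; ring
  · simp only [Complex.add_im, Complex.real_smul, Complex.mul_im, Complex.ofReal_re,
      Complex.ofReal_im, zero_mul, add_zero]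
    rw [div_mul_eq_mul_div, div_mul_eq_mul_div, div_mul_eq_mul_div, ← add_div, ← add_div,
      div_eq_iff h0]
    simp only [cr]; ring

private theorem pt_bary_sum {a b c : ℂ} (h : 0 < cr a b c) (z : ℂ) :
    cr b c z / cr a b c + cr c a z / cr a b c + cr a b z / cr a b c = 1 := by
  rw [← add_div, ← add_div, div_eq_one_iff_eq h.ne', ← cr_sum a b c z]
  ring

theorem tri_subset_of_convex {a b c : ℂ} (h : 0 < cr a b c) {S : Set ℂ} (hS : Convex ℝ S)
    (ha : a ∈ S) (hb : b ∈ S) (hc : c ∈ S) : tri a b c ⊆ S := by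
  rintro z ⟨h1, h2, h3⟩
  have key := hS.sum_mem (t := (Finset.univ : Finset (Fin 3)))
    (w := ![cr b c z / cr a b c, cr c a z / cr a b c, cr a b z / cr a b c]) (z := ![a, b, c])
    (by
      intro i _
      fin_cases i
      · exact div_nonneg h2 h.le
      · exact div_nonneg h3 h.le
      · exact div_nonneg h1 h.le)
    (by
      rw [Fin.sum_univ_three]
      exact pt_bary_sum h z)
    (by
      intro i _
      fin_cases i
      · exact ha
      · exact hb
      · exact hc)
  rw [Fin.sum_univ_three] at key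
  have e : (cr b c z / cr a b c) • a + (cr c a z / cr a b c) • b + (cr a b z / cr a b c) • c ∈ S :=
    key
  rwa [pt_bary h z] at e

/-- the points of the edge line inside the triangle are the points of the edge -/
theorem mem_segment_of_tri {a b c z : ℂ} (h : 0 < cr a b c) (hz : z ∈ tri a b c)
    (h0 : cr a b z = 0) : z ∈ segment ℝ a b := by
  obtain ⟨h1, h2, h3⟩ := hz
  have e1 := pt_bary h z
  have e2 := pt_bary_sum h z
  rw [h0, zero_div, zero_smul, add_zero] at e1
  rw [h0, zero_div, add_zero] at e2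
  exact ⟨_, _, div_nonneg h2 h.le, div_nonneg h3 h.le, e2, e1⟩

private theorem pt_cr_continuous (a b : ℂ) : Continuous (cr a b) := by
  unfold cr
  fun_prop

private theorem pt_closed (a b c : ℂ) : IsClosed (tri a b c) := by
  have : tri a b c = {z | 0 ≤ cr a b z} ∩ ({z | 0 ≤ cr b c z} ∩ {z | 0 ≤ cr c a z}) := rfl
  rw [this]
  exact (isClosed_le continuous_const (pt_cr_continuous a b)).inter
    ((isClosed_le continuous_const (pt_cr_continuous b c)).inter
      (isClosed_le continuous_const (pt_cr_continuous c a)))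

private theorem pt_half_convex (a b : ℂ) : Convex ℝ {z | 0 ≤ cr a b z} := by
  intro x hx y hy s t hs ht hst
  show 0 ≤ cr a b (s • x + t • y)
  rw [el_cr_convex a b x y s t hst]
  exact add_nonneg (mul_nonneg hs hx) (mul_nonneg ht hy)

private theorem pt_convex (a b c : ℂ) : Convex ℝ (tri a b c) := by
  have : tri a b c = {z | 0 ≤ cr a b z} ∩ ({z | 0 ≤ cr b c z} ∩ {z | 0 ≤ cr c a z}) := rfl
  rw [this]
  exact (pt_half_convex a b).inter ((pt_half_convex b c).inter (pt_half_convex c a))

private theorem pt_left_mem {a b c : ℂ} (h : 0 < cr a b c) : a ∈ tri a b c :=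
  ⟨(pt_left a b).ge, by rw [pt_rot]; exact h.le, (pt_right c a).ge⟩

private theorem pt_mid_mem {a b c : ℂ} (h : 0 < cr a b c) : b ∈ tri a b c := by
  rw [← pt_tri_rot]; exact pt_left_mem (by rw [pt_rot]; exact h)

/-- the strict inequalities hold in the interior -/
private theorem pt_interior {a b c z : ℂ} (h : 0 < cr a b c) (hz : z ∈ interior (tri a b c)) :
    0 < cr a b z := by
  rw [mem_interior_iff_mem_nhds, Metric.mem_nhds_iff] at hz
  obtain ⟨δ, hδ, hball⟩ := hz
  obtain ⟨s, hs⟩ : ∃ s : ℝ, s = δ / (‖a - c‖ + 1) := ⟨_, rfl⟩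
  have hn : 0 ≤ ‖a - c‖ := norm_nonneg _
  have hs0 : 0 < s := by rw [hs]; positivity
  have hw : z + (s / 2 : ℝ) • (a - c) ∈ ball z δ := by
    rw [mem_ball, dist_eq_norm, add_sub_cancel_left, norm_smul, Real.norm_eq_abs,
      abs_of_pos (by positivity)]
    have h1 : s * (‖a - c‖ + 1) = δ := by rw [hs]; field_simp
    nlinarith
  have h1 := (hball hw).1
  have h2 : cr a b (z + (s / 2 : ℝ) • (a - c)) = cr a b z - s / 2 * cr a b c := by
    simp only [cr, Complex.add_re, Complex.add_im, Complex.real_smul, Complex.mul_re,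
      Complex.mul_im, Complex.ofReal_re, Complex.ofReal_im, Complex.sub_re, Complex.sub_im]
    ring
  rw [h2] at h1
  have h3 : 0 < s / 2 * cr a b c := by positivity
  linarith

private theorem pt_open (a b c : ℂ) :
    {z | 0 < cr a b z ∧ 0 < cr b c z ∧ 0 < cr c a z} ⊆ interior (tri a b c) := by
  apply interior_maximal
  · rintro z ⟨h1, h2, h3⟩
    exact ⟨h1.le, h2.le, h3.le⟩
  · have : {z | 0 < cr a b z ∧ 0 < cr b c z ∧ 0 < cr c a z} =
      {z | 0 < cr a b z} ∩ ({z | 0 < cr b c z} ∩ {z | 0 < cr c a z}) := rfl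
    rw [this]
    exact (isOpen_lt continuous_const (pt_cr_continuous a b)).inter
      ((isOpen_lt continuous_const (pt_cr_continuous b c)).inter
        (isOpen_lt continuous_const (pt_cr_continuous c a)))

private theorem pt_centre {a b c : ℂ} (h : 0 < cr a b c) : (interior (tri a b c)).Nonempty := by
  refine ⟨(a + b + c) / 3, pt_open a b c ?_⟩
  have hre : ((a + b + c) / 3).re = (a.re + b.re + c.re) / 3 := by
    rw [show (3 : ℂ) = ((3 : ℝ) : ℂ) by norm_num, Complex.div_ofReal_re]
    simp
  have him : ((a + b + c) / 3).im = (a.im + b.im + c.im) / 3 := by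
    rw [show (3 : ℂ) = ((3 : ℝ) : ℂ) by norm_num, Complex.div_ofReal_im]
    simp
  have e1 : cr a b ((a + b + c) / 3) = cr a b c / 3 := by
    simp only [cr, hre, him]; ring
  have e2 : cr b c ((a + b + c) / 3) = cr a b c / 3 := by
    simp only [cr, hre, him]; ring
  have e3 : cr c a ((a + b + c) / 3) = cr a b c / 3 := by
    simp only [cr, hre, him]; ring
  refine ⟨?_, ?_, ?_⟩
  · rw [e1]; positivity
  · rw [e2]; positivity
  · rw [e3]; positivity

private theorem pt_hseg_cr (a b c d : ℂ) {t : ℝ} : cr c d (a + t * (b - a)) =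
    (1 - t) * cr c d a + t * cr c d b := by
  simp only [cr, Complex.add_re, Complex.add_im, Complex.mul_re,
      Complex.mul_im, Complex.ofReal_re, Complex.ofReal_im, Complex.sub_re, Complex.sub_im]
  ring

/-- consecutive half-open edges are disjoint -/
private theorem pt_disj {a b c : ℂ} (h : 0 < cr a b c) : Disjoint (hseg a b) (hseg b c) := by
  rw [Set.disjoint_left]
  rintro z ⟨t, ht0, ht1, rfl⟩ ⟨s, hs0, hs1, hs⟩
  have e1 : cr b c (a + t * (b - a)) = (1 - t) * cr a b c := by
    rw [pt_hseg_cr, pt_left, pt_rot]; ring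
  have e2 : cr b c (b + s * (c - b)) = 0 := by
    rw [pt_hseg_cr, pt_left, pt_right]; ring
  rw [hs, e2] at e1
  have : 0 < (1 - t) * cr a b c := mul_pos (by linarith) h
  linarith

/-- the points of an edge are on the frontier -/
private theorem pt_edge_frontier {a b c z : ℂ} (h : 0 < cr a b c) (hz : z ∈ segment ℝ a b) :
    z ∈ frontier (tri a b c) := by
  have h1 : z ∈ tri a b c :=
    (pt_convex a b c).segment_subset (pt_left_mem h) (pt_mid_mem h) hz
  rw [frontier, (pt_closed a b c).closure_eq]
  refine ⟨h1, fun h2 => ?_⟩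
  have h3 := pt_interior h h2
  obtain ⟨s, t, hs, ht, hst, rfl⟩ := hz
  rw [el_cr_convex a b a b s t hst, pt_left, pt_right] at h3
  simp at h3

theorem isPolygon_tri {a b c : ℂ} (h : 0 < cr a b c) : IsPolygon [a, b, c] (tri a b c) := by
  have h' : 0 < cr b c a := by rw [pt_rot]; exact h
  have h'' : 0 < cr c a b := by rw [pt_rot]; exact h'
  have hcyc : cyc [a, b, c] = [(a, b), (b, c), (c, a)] := by
    rw [cyc_cons]; rfl
  have t1 : tri b c a = tri a b c := pt_tri_rot a b c
  have t2 : tri c a b = tri a b c := by rw [pt_tri_rot, t1]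
  have hne : ∀ {a b c : ℂ}, 0 < cr a b c → a ≠ b := by
    rintro a b c h rfl
    simp [cr] at h
  refine ⟨by simp, ?_, ?_, ?_, ?_, ⟨a, pt_left_mem h⟩, ?_⟩
  · intro e he
    rw [hcyc] at he
    simp only [List.mem_cons, List.not_mem_nil, or_false] at he
    rcases he with rfl | rfl | rfl
    · exact hne h
    · exact hne h'
    · exact hne h''
  · rw [hcyc]
    simp only [List.pairwise_cons, List.mem_cons, List.not_mem_nil, or_false,
      forall_eq_or_imp, forall_eq, List.Pairwise.nil, and_true, IsEmpty.forall_iff, implies_true]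
    exact ⟨⟨pt_disj h, (pt_disj h'').symm⟩, pt_disj h'⟩
  · have hcomp : IsCompact (convexHull ℝ ({a, b, c} : Set ℂ)) :=
      Set.Finite.isCompact_convexHull (𝕜 := ℝ) (Set.toFinite _)
    refine hcomp.of_isClosed_subset (pt_closed a b c) ?_
    apply tri_subset_of_convex h (convex_convexHull ℝ _)
    · exact subset_convexHull ℝ _ (by simp)
    · exact subset_convexHull ℝ _ (by simp)
    · exact subset_convexHull ℝ _ (by simp)
  · rw [(pt_convex a b c).closure_interior_eq_closure_of_nonempty_interior (pt_centre h),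
      (pt_closed a b c).closure_eq]
  · ext z
    rw [Set.mem_ofPred_eq, hcyc]
    constructor
    · intro hz
      rw [frontier, (pt_closed a b c).closure_eq] at hz
      obtain ⟨h1, h2⟩ := hz
      have h3 : ¬ (0 < cr a b z ∧ 0 < cr b c z ∧ 0 < cr c a z) := fun h3 => h2 (pt_open a b c h3)
      by_cases e1 : cr a b z = 0
      · exact ⟨(a, b), by simp, mem_segment_of_tri h h1 e1⟩
      by_cases e2 : cr b c z = 0
      · exact ⟨(b, c), by simp, mem_segment_of_tri h' (by rw [t1]; exact h1) e2⟩
      by_cases e3 : cr c a z = 0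
      · exact ⟨(c, a), by simp, mem_segment_of_tri h'' (by rw [t2]; exact h1) e3⟩
      exact absurd ⟨lt_of_le_of_ne h1.1 (Ne.symm e1), lt_of_le_of_ne h1.2.1 (Ne.symm e2),
        lt_of_le_of_ne h1.2.2 (Ne.symm e3)⟩ h3
    · rintro ⟨e, he, hz⟩
      simp only [List.mem_cons, List.not_mem_nil, or_false] at he
      rcases he with rfl | rfl | rfl
      · exact pt_edge_frontier h hz
      · rw [← t1]; exact pt_edge_frontier h' hz
      · rw [← t2]; exact pt_edge_frontier h'' hz

end MPc01941
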