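import Pool.Agent.Lib.MP_c01941_lc.TailDefs
import Pool.Agent.Lib.MP_c01941_lc.CfgN

/-!
FP-QList. The vertices of the `n`-th region are rational: explicit lists of pairs of rationals.
-/

namespace MPc01941

def oxq (n : ℕ) : ℕ → ℚ
  | 0 => 0
  | j + 1 => oxq n j + (eq' n j - 81120 + 119 * mq n j)

def oyq (n : ℕ) : ℕ → ℚ
  | 0 => 0
  | j + 1 => oyq n j + (-117624 + 120 * mq n j)

private theorem ql_e (n : ℕ) (hn : 1 ≤ n) (j : ℕ) : (cfg n hn).e j = (eq' n j : ℝ) := rfl

private theorem ql_m (n : ℕ) (hn : 1 ≤ n) (j : ℕ) : (cfg n hn).m j = (mq n j : ℝ) := rfl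

theorem ox_cast (n : ℕ) (hn : 1 ≤ n) (j : ℕ) : (cfg n hn).ox j = (oxq n j : ℝ) := by
  induction j with
  | zero => simp [Cfg.ox, oxq]
  | succ j ih =>
    rw [Cfg.ox, oxq, ih, ql_e, ql_m]
    push_cast
    ring

theorem oy_cast (n : ℕ) (hn : 1 ≤ n) (j : ℕ) : (cfg n hn).oy j = (oyq n j : ℝ) := by
  induction j with
  | zero => simp [Cfg.oy, oyq]
  | succ j ih =>
    rw [Cfg.oy, oyq, ih, ql_m]
    push_cast
    ring

/-- lower chain of portion `j` -/
def qlo (n j : ℕ) : List (ℚ × ℚ) :=
  [(eq' n j - 81120 - 1 / 5, (-81120 - 1 / 5) / 2400000),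
    (eq' n j - 81120 - 1 / 5, -58812 + 41 / 20),
    (eq' n j - 81120 - 432 / 325, -58812 + 41 / 20),
    (eq' n j - 81120 - 18 / 5, -58812),
    (eq' n j - 81120 + 1 / 10, -58812),
    (eq' n j - 81120 + 1 / 10, -117624 + 12 / 119),
    (eq' n j - 81120 - 42840, -160824),
    (eq' n j - 81120 + 119 * mq n j,
      -117624 + (191999881 * (119 * mq n j) - 5097960) / 190400000),
    (eq' n j - 81120 + 119 * mq n j, -117624 + 120 * mq n j - 30 / 13),
    (eq' n j - 81120 + 119 * mq n j + 3, -117624 + 120 * mq n j - 30 / 13),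
    (eq' n j - 81120 + 119 * mq n j + 3,
      -117624 + 120 * mq n j + (3 - eq' n (j + 1)) / 2400000)].map
    (fun p => (oxq n j + p.1, oyq n j + p.2))

/-- upper chain of portion `j` -/
def qhi (n j : ℕ) : List (ℚ × ℚ) :=
  [(eq' n j - 81120 + 119 * mq n j, -117624 + 120 * mq n j),
    (eq' n j - 81120 + 1 / 5, -117624 + 24 / 119),
    (eq' n j - 81120 + 1 / 5, -58812),
    (eq' n j - 81120 + 18 / 5, -58812),
    (eq' n j - 81120 + 432 / 325, -58812 + 41 / 20),
    (eq' n j - 81120 - 1 / 10, -58812 + 41 / 20),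
    (eq' n j - 81120 - 1 / 10, (-81120 - 1 / 10) / 2400000),
    (eq' n j, 0)].map
    (fun p => (oxq n j + p.1, oyq n j + p.2))

def qtl (n : ℕ) : ℕ → ℕ → List (ℚ × ℚ)
  | 0, j => [(oxq n j + (24000000 * (421824 / 5) + eq' n j) / 24000001,
      oyq n j + ((24000000 * (421824 / 5) + eq' n j) / 24000001 - eq' n j) / 2400000),
      (oxq n j + 421824 / 5, oyq n j)]
  | k + 1, j => qlo n j ++ qtl n k (j + 1) ++ qhi n j

/-- the vertices of the `n`-th region -/
def qV (n : ℕ) : List (ℚ × ℚ) :=
  (421824 / 5, 0) :: ((24000000 * (421824 / 5) + eq' n 0) / 24000001,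
    ((24000000 * (421824 / 5) + eq' n 0) / 24000001 - eq' n 0) / 2400000) :: qtl n n 0

private theorem ql_pt (n : ℕ) (hn : 1 ≤ n) (j : ℕ) (p : ℚ × ℚ) (z : ℂ) (h1 : ((p.1 : ℚ) : ℝ) = z.re)
    (h2 : ((p.2 : ℚ) : ℝ) = z.im) :
    toC (oxq n j + p.1, oyq n j + p.2) = z + (cfg n hn).org j := by
  apply Complex.ext
  · show ((oxq n j + p.1 : ℚ) : ℝ) = z.re + (cfg n hn).ox j
    rw [ox_cast]
    push_cast
    linarith
  · show ((oyq n j + p.2 : ℚ) : ℝ) = z.im + (cfg n hn).oy j
    rw [oy_cast]
    push_cast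
    linarith

private theorem ql_lo (n : ℕ) (hn : 1 ≤ n) (j : ℕ) :
    (qlo n j).map toC = ((cfg n hn).lo j).map (fun z => z + (cfg n hn).org j) := by
  unfold qlo Cfg.lo
  simp only [List.map_cons, List.map_nil]
  congr 1
  · apply ql_pt n hn j (_, _)
    · simp only [vAl, ql_e]; push_cast; ring
    · simp only [vAl]; push_cast; ring
  congr 1
  · apply ql_pt n hn j (_, _)
    · simp only [vBl, ql_e]; push_cast; ring
    · simp only [vBl]; push_cast; ring
  congr 1
  · apply ql_pt n hn j (_, _)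
    · simp only [vC, ql_e]; push_cast; ring
    · simp only [vC]; push_cast; ring
  congr 1
  · apply ql_pt n hn j (_, _)
    · simp only [vF, ql_e]; push_cast; ring
    · simp only [vF]; push_cast; ring
  congr 1
  · apply ql_pt n hn j (_, _)
    · simp only [vF, ql_e]; push_cast; ring
    · simp only [vF]; push_cast; ring
  congr 1
  · apply ql_pt n hn j (_, _)
    · simp only [vM, ql_e]; push_cast; ring
    · simp only [vM]; push_cast; ring
  congr 1
  · apply ql_pt n hn j (_, _)
    · simp only [vM, ql_e]; push_cast; ring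
    · simp only [vM]; push_cast; ring
  congr 1
  · apply ql_pt n hn j (_, _)
    · simp only [vM', ql_e, ql_m]; push_cast; ring
    · simp only [vM', ql_m]; push_cast; ring
  congr 1
  · apply ql_pt n hn j (_, _)
    · simp only [vD, ql_e, ql_m]; push_cast; ring
    · simp only [vD, ql_m]; push_cast; ring
  congr 1
  · apply ql_pt n hn j (_, _)
    · simp only [vD, ql_e, ql_m]; push_cast; ring
    · simp only [vD, ql_m]; push_cast; ring
  congr 1
  · apply ql_pt n hn j (_, _)
    · simp only [vD, ql_e, ql_m]; push_cast; ring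
    · simp only [vD, ql_e, ql_m]; push_cast; ring

private theorem ql_hi (n : ℕ) (hn : 1 ≤ n) (j : ℕ) :
    (qhi n j).map toC = ((cfg n hn).hi j).map (fun z => z + (cfg n hn).org j) := by
  unfold qhi Cfg.hi
  simp only [List.map_cons, List.map_nil]
  congr 1
  · apply ql_pt n hn j (_, _)
    · simp only [vD, ql_e, ql_m]; push_cast; ring
    · simp only [vD, ql_m]; push_cast; ring
  congr 1
  · apply ql_pt n hn j (_, _)
    · simp only [vM, ql_e]; push_cast; ring
    · simp only [vM]; push_cast; ring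
  congr 1
  · apply ql_pt n hn j (_, _)
    · simp only [vF, ql_e]; push_cast; ring
    · simp only [vF]; push_cast; ring
  congr 1
  · apply ql_pt n hn j (_, _)
    · simp only [vF, ql_e]; push_cast; ring
    · simp only [vF]; push_cast; ring
  congr 1
  · apply ql_pt n hn j (_, _)
    · simp only [vC, ql_e]; push_cast; ring
    · simp only [vC]; push_cast; ring
  congr 1
  · apply ql_pt n hn j (_, _)
    · simp only [vBr, ql_e]; push_cast; ring
    · simp only [vBr]; push_cast; ring
  congr 1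
  · apply ql_pt n hn j (_, _)
    · simp only [vAr, ql_e]; push_cast; ring
    · simp only [vAr]; push_cast; ring
  congr 1
  · apply ql_pt n hn j (_, _)
    · simp only [vT, ql_e]; rfl
    · simp only [vT]; push_cast; ring

private theorem ql_tl (n : ℕ) (hn : 1 ≤ n) (k : ℕ) : ∀ j : ℕ,
    (qtl n k j).map toC = (cfg n hn).tl k j := by
  induction k with
  | zero =>
    intro j
    have h1 : (cfg n hn).a1 = 421824 / 5 := rfl
    unfold qtl Cfg.tl
    simp only [List.map_cons, List.map_nil]
    congr 1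
    · apply ql_pt n hn j (_, _)
      · simp only [vS', cbx, ql_e, h1]; push_cast; ring
      · simp only [vS', cbx, ql_e, h1]; push_cast; ring
    congr 1
    · apply Complex.ext
      · show ((oxq n j + 421824 / 5 : ℚ) : ℝ) = (cfg n hn).a1 + (cfg n hn).ox j
        rw [ox_cast, h1]
        push_cast
        ring
      · show ((oyq n j : ℚ) : ℝ) = 0 + (cfg n hn).oy j
        rw [oy_cast, zero_add]
  | succ k ih =>
    intro j
    rw [qtl, Cfg.tl, List.map_append, List.map_append, ih, ql_lo n hn, ql_hi n hn]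

theorem qV_map (n : ℕ) (hn : 1 ≤ n) : (qV n).map toC = (cfg n hn).verts := by
  have h1 : (cfg n hn).a0 = 421824 / 5 := rfl
  have h2 : (cfg n hn).n = n := rfl
  unfold qV Cfg.verts
  rw [List.map_cons, List.map_cons, ql_tl n hn, h2]
  congr 1
  · apply Complex.ext
    · show ((421824 / 5 : ℚ) : ℝ) = (cfg n hn).a0
      rw [h1]
      push_cast
      ring
    · show ((0 : ℚ) : ℝ) = 0
      simp
  congr 1
  apply Complex.ext
  · show (((24000000 * (421824 / 5) + eq' n 0) / 24000001 : ℚ) : ℝ) =
      cbx (cfg n hn).a0 ((cfg n hn).e 0)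
    rw [h1, cbx, ql_e]
    push_cast
    ring
  · show ((((24000000 * (421824 / 5) + eq' n 0) / 24000001 - eq' n 0) / 2400000 : ℚ) : ℝ) =
      (cbx (cfg n hn).a0 ((cfg n hn).e 0) - (cfg n hn).e 0) / 2400000
    rw [h1, cbx, ql_e]
    push_cast
    ring

private theorem ql_len (n k : ℕ) : ∀ j : ℕ, (qtl n k j).length = 19 * k + 2 := by
  induction k with
  | zero =>
    intro j
    rfl
  | succ k ih =>
    intro j
    rw [qtl, List.length_append, List.length_append, ih]
    have h1 : (qlo n j).length = 11 := rfl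
    have h2 : (qhi n j).length = 8 := rfl
    omega

theorem qV_length (n : ℕ) : (qV n).length = 19 * n + 4 := by
  unfold qV
  rw [List.length_cons, List.length_cons, ql_len]

end MPc01941
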