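import Pool.Agent.Lib.MP_c01941_lc.Gate

/-!
FP-Ranges. Cells met by a connected subset `Q` of the region of diameter `≤ 156000` that contains a
given witness. Two common points of neighbouring cells found with `gate` and located with `inter..`
(and the witness) would have a distance `> 156000`:
* `range_t` (witness `t_j`, in the cell `6j`): a cell `≤ 6j - 1` gives a point within `(3, 1)` of
  the bend `pt j 0 0` (gate `6j-1`), at distance `≥ e - 4 > 156000` from `t_j`;
  a cell `≥ 6j + 5` gives a point near `J' = pt j (e - 81120) (-117624)` (gate `6j+3`) and a point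
  near the bend `pt (j+1) 0 0` (gate `6j+4`), at distance `≥ 169 * 938 - 4 > 156000`
  (`(119, 120)` has norm `169`).
* `range_t'` (witness in the cell `6j+4`): a cell `≤ 6j` gives a point near
  `J = pt j (e - 81120) 0` (gate `6j`); vertical distance `160823`. A cell `≥ 6j + 5` gives a point
  near the bend (gate `6j+4`), at distance `169 * (360 + m) - 2`.
* `range_p` (witness `pt (j+1) 0 0`, in the cells `6j+4` and `6j+5`): a cell `≤ 6j + 3` gives a point
  near `J'` (gate `6j+3`), at distance `≥ 169 * 938 - 2`. A cell `≥ 6j + 10 = 6 (j+1) + 4` gives a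
  point near `pt (j+1) (e - 81120) (-117624)` (gate `6(j+1)+3`): distance `≥ 181000`.
-/

namespace MPc01941

open Metric

/-- diameter at most `156000` -/
def Small (Q : Set ℂ) : Prop := ∀ z ∈ Q, ∀ w ∈ Q, dist z w ≤ 156000

theorem sq_of_dist_le {z w : ℂ} {D : ℝ} (h : dist z w ≤ D) :
    (z.re - w.re) ^ 2 + (z.im - w.im) ^ 2 ≤ D ^ 2 := by
  rw [Complex.dist_eq_re_im] at h
  have h0 : 0 ≤ (z.re - w.re) ^ 2 + (z.im - w.im) ^ 2 := by positivity
  have h1 := Real.sqrt_nonneg ((z.re - w.re) ^ 2 + (z.im - w.im) ^ 2)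
  calc (z.re - w.re) ^ 2 + (z.im - w.im) ^ 2
      = Real.sqrt ((z.re - w.re) ^ 2 + (z.im - w.im) ^ 2) ^ 2 := (Real.sq_sqrt h0).symm
    _ ≤ D ^ 2 := pow_le_pow_left₀ h1 h 2

/-- two points with far abscissas and far ordinates are far -/
private theorem far_of {z w : ℂ} {a b : ℝ} (ha : 0 ≤ a) (hb : 0 ≤ b) (h1 : a ≤ w.re - z.re)
    (h2 : b ≤ w.im - z.im ∨ b ≤ z.im - w.im) (h : (156000 : ℝ) ^ 2 < a ^ 2 + b ^ 2)
    (hd : dist z w ≤ 156000) : False := by
  have h3 := sq_of_dist_le hd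
  have h4 : a ^ 2 ≤ (z.re - w.re) ^ 2 := by nlinarith
  have h5 : b ^ 2 ≤ (z.im - w.im) ^ 2 := by
    rcases h2 with h2 | h2 <;> nlinarith
  linarith

namespace Cfg

variable (c : Cfg) {Q : Set ℂ}

/-- no crossing from the cells `≤ 6j+3` to the cells `≥ 6j+5` -/
theorem no_cross (hQ : IsPreconnected Q) (hP : Q ⊆ c.P) (hs : Small Q) {j : ℕ}
    {i l : ℕ} (hi : i ≤ 6 * j + 3) (hl : 6 * j + 5 ≤ l) (hln : l ≤ 6 * c.n) {z w : ℂ} (hz : z ∈ Q)
    (hzK : z ∈ c.K i) (hw : w ∈ Q) (hwK : w ∈ c.K l) : False := by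
  obtain ⟨v1, hv1, ha1, hb1⟩ := c.gate hQ hP (g := 6 * j + 3) hi (by omega) hln hz hzK hw hwK
  obtain ⟨v2, hv2, ha2, hb2⟩ := c.gate hQ hP (g := 6 * j + 4) (by omega) (by omega) hln hz hzK hw hwK
  have h1 := c.inter34 ha1 hb1
  have h2 := c.inter45 ha2 hb2
  rw [abs_le, abs_le] at h1 h2
  have hm := c.hm j
  have hx := c.ox_succ j
  have hy := c.oy_succ j
  exact far_of (a := 111620) (b := 112558) (by norm_num) (by norm_num) (by linarith)
    (Or.inl (by linarith)) (by norm_num) (hs v1 hv1 v2 hv2)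

theorem range_t (hQ : IsPreconnected Q) (hP : Q ⊆ c.P) (hs : Small Q) {j : ℕ} (hj : j < c.n)
    (ht : c.wit (3 * j) ∈ Q) {i : ℕ} (hi : i ≤ 6 * c.n) {z : ℂ} (hz : z ∈ Q) (hK : z ∈ c.K i) :
    6 * j ≤ i ∧ i ≤ 6 * j + 4 := by
  have ht0 := c.wit0_mem hj
  constructor
  · by_contra hc
    push Not at hc
    obtain ⟨j', rfl⟩ : ∃ j', j = j' + 1 := ⟨j - 1, by omega⟩
    obtain ⟨v, hv, ha, hb⟩ := c.gate hQ hP (g := 6 * j' + 5) (by omega) (by omega) (by omega) hz hK
      ht ht0
    have h1 := c.inter50 ha hb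
    rw [abs_le, abs_le] at h1
    have he := c.he (j' + 1)
    have h2 := hs v hv _ ht
    rw [c.wit0] at h2
    refine far_of (a := 219359) (b := 0) (by norm_num) (by norm_num) ?_ ?_ (by norm_num) h2
    · simp only [pt]; linarith
    · rcases le_total 0 ((c.pt (j' + 1) (c.e (j' + 1)) 0).im - v.im) with h | h
      · exact Or.inl h
      · exact Or.inr (by linarith)
  · by_contra hc
    push Not at hc
    exact c.no_cross hQ hP hs (j := j) (i := 6 * j) (by omega) (by omega) hi ht ht0 hz hK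

theorem range_t' (hQ : IsPreconnected Q) (hP : Q ⊆ c.P) (hs : Small Q) {j : ℕ} (hj : j < c.n)
    (ht : c.wit (3 * j + 1) ∈ Q) {i : ℕ} (hi : i ≤ 6 * c.n) {z : ℂ} (hz : z ∈ Q) (hK : z ∈ c.K i) :
    6 * j + 1 ≤ i ∧ i ≤ 6 * j + 4 := by
  have ht0 := c.wit1_mem j
  have he := c.he j
  have hm := c.hm j
  have hx := c.ox_succ j
  have hy := c.oy_succ j
  constructor
  · by_contra hc
    push Not at hc
    obtain ⟨v, hv, ha, hb⟩ := c.gate hQ hP (g := 6 * j) (by omega) (by omega) (by omega) hz hK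
      ht ht0
    have h1 := c.inter01 ha hb
    rw [abs_le, abs_le] at h1
    have h2 := hs _ ht v hv
    rw [c.wit1] at h2
    refine far_of (a := 0) (b := 160823) (by norm_num) (by norm_num) ?_ (Or.inl ?_) (by norm_num) h2
    · simp only [pt]; linarith
    · simp only [pt]; linarith
  · by_contra hc
    push Not at hc
    obtain ⟨v, hv, ha, hb⟩ := c.gate hQ hP (g := 6 * j + 4) (by omega) (by omega) hi ht ht0 hz hK
    have h1 := c.inter45 ha hb
    rw [abs_le, abs_le] at h1
    have h2 := hs _ ht v hv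
    rw [c.wit1] at h2
    refine far_of (a := 154000) (b := 155000) (by norm_num) (by norm_num) ?_ (Or.inl ?_)
      (by norm_num) h2
    · simp only [pt]; linarith
    · simp only [pt]; linarith

theorem range_p (hQ : IsPreconnected Q) (hP : Q ⊆ c.P) (hs : Small Q) {j : ℕ} (hj : j < c.n)
    (ht : c.wit (3 * j + 2) ∈ Q) {i : ℕ} (hi : i ≤ 6 * c.n) {z : ℂ} (hz : z ∈ Q) (hK : z ∈ c.K i) :
    6 * j + 4 ≤ i ∧ i ≤ 6 * j + 9 := by
  have ht0 := c.wit2_mem j
  have he := c.he (j + 1)
  have hm := c.hm j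
  have hx := c.ox_succ j
  have hy := c.oy_succ j
  constructor
  · by_contra hc
    push Not at hc
    obtain ⟨v, hv, ha, hb⟩ := c.gate hQ hP (g := 6 * j + 3) (by omega) (by omega) (by omega) hz hK
      ht ht0.2
    have h1 := c.inter34 ha hb
    rw [abs_le, abs_le] at h1
    have h2 := hs v hv _ ht
    rw [c.wit2] at h2
    refine far_of (a := 111620) (b := 112558) (by norm_num) (by norm_num) ?_ (Or.inl ?_)
      (by norm_num) h2
    · simp only [pt]; linarith
    · simp only [pt]; linarith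
  · by_contra hc
    push Not at hc
    obtain ⟨v, hv, ha, hb⟩ := c.gate hQ hP (g := 6 * (j + 1) + 3) (by omega) (by omega) hi ht ht0.2
      hz hK
    have h1 := c.inter34 ha hb
    rw [abs_le, abs_le] at h1
    have h2 := hs _ ht v hv
    rw [c.wit2] at h2
    refine far_of (a := 138000) (b := 117000) (by norm_num) (by norm_num) ?_ (Or.inr ?_)
      (by norm_num) h2
    · simp only [pt]; linarith
    · simp only [pt]; linarith

end Cfg

end MPc01941
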