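import Pool.Agent.Lib.MP_c01941_lc.Seq
import Pool.Agent.Lib.MP_c01941_lc.Deg

/-!
FP-SConj. The real conjugates of `zz n i`: all real branch values.
Write `z_i = zz n i`, `t_i = tt n i` (rational). `FF (w + t) w' = 225` is the quadratic equation
`w'^2 + (238/169) (w + t) w' + (w + t)^2 - 225/169 = 0` for `w'`, monic over `ℚ[w]`.

Facts on degrees (`i ≤ n`): `finrank ℚ ℚ⟮z_i⟯ ≤ 2^i` (induction: `z_{i+1}` is a root of
a quadratic polynomial over `ℚ⟮z_i⟯`), and `≥ 2^i` by `deg_zz`. So `z_{i+1} ∉ ℚ⟮z_i⟯`, and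
`ℚ⟮z_{i+1}⟯ = ℚ⟮z_i, z_{i+1}⟯` (same dimension `2^(i+1)`), so `z_i = g (z_{i+1})` for some
`g ∈ ℚ[X]`.

`conj2` (two variables `X` (inner), `Y` (outer)): by induction on `i`, together with `conj`.
Divide `P` by the monic quadratic polynomial `Y^2 + (238/169) (X + t) Y + (X + t)^2 - 225/169`
over `ℚ[X]`: remainder `A(X) + B(X) Y`. From `P (z_i, z_{i+1}) = 0`: `A(z_i) + B(z_i) z_{i+1} = 0`; if
`B(z_i) ≠ 0` then `z_{i+1} ∈ ℚ⟮z_i⟯`, impossible; so `A(z_i) = B(z_i) = 0`, so by `conj` for `i`,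
`A(w) = B(w) = 0`, so `P (w, w') = 0`. `conj` for `i + 1` is `conj2` for the polynomial `p (Y)`.
`inj`: `conj2` for `X - g (Y)`.
-/

namespace MPc01941

open Polynomial IntermediateField

/-- the real branch values of the recursion up to the index `i` -/
inductive Br (n : ℕ) : ℕ → ℝ → Prop
  | zero : Br n 0 (78 / 125)
  | succ {i : ℕ} {w w' : ℝ} : Br n i w → FF (w + tt n i) w' = 225 → Br n (i + 1) w'

private theorem FF_zz {n i : ℕ} (hi : i + 1 ≤ n) :
    FF (zz n i + tt n i) (zz n (i + 1)) = 225 := by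
  have hb := zz_bounds (n := n) (i := i) (by omega) (by omega)
  rw [zz_succ]
  exact FF_kap (by linarith [hb.2.2.1]) (by linarith [hb.2.2.2])

theorem Br_zz {n i : ℕ} (hi : i ≤ n) : Br n i (zz n i) := by
  induction i with
  | zero => rw [zz_zero]; exact Br.zero
  | succ i ih => exact Br.succ (ih (by omega)) (FF_zz hi)

private theorem sconj_quad (K : IntermediateField ℚ ℝ) (b c : K) (y : ℝ)
    (h : y ^ 2 + (b : ℝ) * y + (c : ℝ) = 0) :
    IsIntegral K y ∧ Module.finrank K K⟮y⟯ ≤ 2 := by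
  obtain ⟨q, hq⟩ : ∃ q : K[X], q = C 1 * X ^ 2 + C b * X + C c := ⟨_, rfl⟩
  have hm : q.Monic := by
    rw [hq]
    exact leadingCoeff_quadratic one_ne_zero
  have hn : q.natDegree = 2 := by
    rw [hq]
    exact natDegree_quadratic one_ne_zero
  have ha : aeval y q = 0 := by
    rw [hq]
    simp only [map_add, map_mul, aeval_C, map_pow, aeval_X, map_one, one_mul]
    exact h
  have hi : IsIntegral K y := ⟨q, hm, by rw [← aeval_def]; exact ha⟩
  refine ⟨hi, ?_⟩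
  rw [IntermediateField.adjoin.finrank hi]
  calc (minpoly K y).natDegree ≤ q.natDegree :=
        natDegree_le_of_dvd (minpoly.dvd K y ha) hm.ne_zero
    _ = 2 := hn

private theorem sconj_tower {n i : ℕ} (hi : i + 1 ≤ n) (h1 : IsIntegral ℚ (zz n i))
    (h2 : Module.finrank ℚ ℚ⟮zz n i⟯ = 2 ^ i) :
    IsIntegral ℚ (zz n (i + 1)) ∧ Module.finrank ℚ ℚ⟮zz n (i + 1)⟯ = 2 ^ (i + 1) ∧
      zz n i ∈ ℚ⟮zz n (i + 1)⟯ := by
  obtain ⟨K, hK⟩ : ∃ K : IntermediateField ℚ ℝ, K = ℚ⟮zz n i⟯ := ⟨_, rfl⟩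
  have hzK : zz n i ∈ K := by
    rw [hK]
    exact IntermediateField.mem_adjoin_simple_self ℚ _
  have hfK : Module.finrank ℚ K = 2 ^ i := by rw [hK]; exact h2
  have hfd : FiniteDimensional ℚ K := by
    apply FiniteDimensional.of_finrank_pos
    rw [hfK]
    positivity
  obtain ⟨z, hz⟩ : ∃ z : K, (z : ℝ) = zz n i := ⟨⟨zz n i, hzK⟩, rfl⟩
  obtain ⟨t, ht⟩ : ∃ t : K, (t : ℝ) = tt n i := ⟨algebraMap ℚ K (ttq n i), by
    unfold tt
    rfl⟩
  obtain ⟨y, hy⟩ : ∃ y : ℝ, y = zz n (i + 1) := ⟨_, rfl⟩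
  obtain ⟨b, hb⟩ : ∃ b : K, (b : ℝ) = 238 / 169 := ⟨algebraMap ℚ K (238 / 169), by
    have h3 : ((algebraMap ℚ K (238 / 169) : K) : ℝ) = ((238 / 169 : ℚ) : ℝ) := rfl
    rw [h3]
    norm_num⟩
  obtain ⟨c, hc⟩ : ∃ c : K, (c : ℝ) = 225 / 169 := ⟨algebraMap ℚ K (225 / 169), by
    have h3 : ((algebraMap ℚ K (225 / 169) : K) : ℝ) = ((225 / 169 : ℚ) : ℝ) := rfl
    rw [h3]
    norm_num⟩
  have hquad : y ^ 2 + ((b * (z + t) : K) : ℝ) * y +
      (((z + t) ^ 2 - c : K) : ℝ) = 0 := by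
    have h3 := FF_zz hi
    rw [← hy] at h3
    unfold FF at h3
    push_cast
    rw [hz, ht, hb, hc]
    linear_combination h3 / 169
  obtain ⟨hiy, hfy⟩ := sconj_quad K _ _ y hquad
  have hfdy : FiniteDimensional K K⟮y⟯ := IntermediateField.adjoin.finiteDimensional hiy
  have hmul := Module.finrank_mul_finrank ℚ K K⟮y⟯
  have hfdE : FiniteDimensional ℚ K⟮y⟯ := FiniteDimensional.trans ℚ K K⟮y⟯
  obtain ⟨E, hE⟩ : ∃ E : IntermediateField ℚ ℝ, E = (K⟮y⟯).restrictScalars ℚ := ⟨_, rfl⟩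
  have hfE : Module.finrank ℚ E ≤ 2 ^ (i + 1) := by
    have h3 : Module.finrank ℚ E = Module.finrank ℚ K⟮y⟯ := by rw [hE]; rfl
    rw [h3, ← hmul, hfK, pow_succ]
    exact Nat.mul_le_mul_left _ hfy
  have hEfd : FiniteDimensional ℚ E := by rw [hE]; exact hfdE
  have hyE : y ∈ E := by
    rw [hE]
    exact IntermediateField.mem_adjoin_simple_self K y
  have hzE : zz n i ∈ E := by
    rw [hE, IntermediateField.mem_restrictScalars]
    exact (K⟮y⟯).algebraMap_mem ⟨zz n i, hzK⟩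
  have hyint : IsIntegral ℚ y := by
    have h3 : IsIntegral ℚ (⟨y, hyE⟩ : E) := Algebra.IsIntegral.isIntegral _
    exact h3.map (IsScalarTower.toAlgHom ℚ E ℝ)
  have hle : ℚ⟮y⟯ ≤ E := by
    rw [IntermediateField.adjoin_simple_le_iff]
    exact hyE
  have hge : 2 ^ (i + 1) ≤ Module.finrank ℚ ℚ⟮y⟯ := by
    rw [IntermediateField.adjoin.finrank hyint]
    apply deg_zz (n := n) (by omega) hi (minpoly.ne_zero hyint)
    rw [← hy]
    exact minpoly.aeval ℚ y
  have hle' : Module.finrank ℚ ℚ⟮y⟯ ≤ Module.finrank ℚ E :=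
    IntermediateField.finrank_le_of_le_right hle
  have heq : ℚ⟮y⟯ = E := IntermediateField.eq_of_le_of_finrank_eq hle (by omega)
  rw [← hy]
  refine ⟨hyint, by omega, ?_⟩
  rw [heq]
  exact hzE

private theorem sconj_field {n i : ℕ} (hi : i ≤ n) : IsIntegral ℚ (zz n i) ∧
    Module.finrank ℚ ℚ⟮zz n i⟯ = 2 ^ i := by
  induction i with
  | zero =>
    have h0 : zz n 0 = algebraMap ℚ ℝ (78 / 125) := by
      rw [zz_zero]
      simp
    have h1 : IsIntegral ℚ (zz n 0) := by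
      rw [h0]
      exact isIntegral_algebraMap
    refine ⟨h1, ?_⟩
    rw [IntermediateField.adjoin.finrank h1, h0, minpoly.eq_X_sub_C]
    rw [natDegree_X_sub_C, pow_zero]
  | succ i ih =>
    obtain ⟨h1, h2⟩ := ih (by omega)
    obtain ⟨h3, h4, _⟩ := sconj_tower hi h1 h2
    exact ⟨h3, h4⟩

private theorem sconj_notin {n i : ℕ} (hi : i + 1 ≤ n) : zz n (i + 1) ∉ ℚ⟮zz n i⟯ := by
  intro h
  obtain ⟨h1, h2⟩ := sconj_field (n := n) (i := i) (by omega)
  obtain ⟨h3, h4⟩ := sconj_field (n := n) (i := i + 1) hi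
  have hfd : FiniteDimensional ℚ ℚ⟮zz n i⟯ := IntermediateField.adjoin.finiteDimensional h1
  have hle : ℚ⟮zz n (i + 1)⟯ ≤ ℚ⟮zz n i⟯ := by
    rw [IntermediateField.adjoin_simple_le_iff]
    exact h
  have h5 : Module.finrank ℚ ℚ⟮zz n (i + 1)⟯ ≤ Module.finrank ℚ ℚ⟮zz n i⟯ :=
    IntermediateField.finrank_le_of_le_right hle
  rw [h2, h4, pow_succ] at h5
  have : 0 < 2 ^ i := by positivity
  omega

private theorem sconj_pred {n i : ℕ} (hi : i + 1 ≤ n) : ∃ g : ℚ[X],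
    aeval (zz n (i + 1)) g = zz n i := by
  obtain ⟨h1, h2⟩ := sconj_field (n := n) (i := i) (by omega)
  obtain ⟨h3, _, h5⟩ := sconj_tower hi h1 h2
  have h6 : zz n i ∈ (ℚ⟮zz n (i + 1)⟯).toSubalgebra := h5
  rw [IntermediateField.adjoin_simple_toSubalgebra_of_isAlgebraic h3.isAlgebraic,
    Algebra.adjoin_singleton_eq_range_aeval] at h6
  exact h6

/-- value of a polynomial in two variables (inner variable `x`, outer variable `y`) -/
noncomputable def ev2 (P : ℚ[X][X]) (x y : ℝ) : ℝ :=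
  P.eval₂ ((aeval x : ℚ[X] →ₐ[ℚ] ℝ) : ℚ[X] →+* ℝ) y

private theorem ev2_C (p : ℚ[X]) (x y : ℝ) : ev2 (C p) x y = aeval x p := by
  unfold ev2
  rw [eval₂_C]
  rfl

private theorem ev2_X (x y : ℝ) : ev2 X x y = y := by
  unfold ev2
  rw [eval₂_X]

private theorem ev2_add (P Q : ℚ[X][X]) (x y : ℝ) : ev2 (P + Q) x y = ev2 P x y + ev2 Q x y := by
  unfold ev2
  rw [eval₂_add]

private theorem ev2_mul (P Q : ℚ[X][X]) (x y : ℝ) : ev2 (P * Q) x y = ev2 P x y * ev2 Q x y := by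
  unfold ev2
  rw [eval₂_mul]

private theorem ev2_map (p : ℚ[X]) (x y : ℝ) : ev2 (p.map C) x y = aeval y p := by
  unfold ev2
  rw [eval₂_map, aeval_def]
  congr 1
  ext r
  simp

/-- the quadratic polynomial of the recursion -/
private noncomputable def MM (n i : ℕ) : ℚ[X][X] :=
  C 1 * X ^ 2 + C (C (238 / 169) * (X + C (ttq n i))) * X + C ((X + C (ttq n i)) ^ 2 - C (225 / 169))

private theorem MM_monic (n i : ℕ) : (MM n i).Monic := leadingCoeff_quadratic one_ne_zero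

private theorem MM_deg (n i : ℕ) : (MM n i).natDegree = 2 := natDegree_quadratic one_ne_zero

private theorem ev2_MM (n i : ℕ) (x y : ℝ) (h : FF (x + tt n i) y = 225) :
    ev2 (MM n i) x y = 0 := by
  unfold MM
  rw [ev2_add, ev2_add, ev2_mul, ev2_mul, ev2_C, ev2_C, ev2_C, ev2_X, sq X, ev2_mul, ev2_X]
  simp only [map_one, map_mul, map_add, map_sub, map_pow, aeval_X, aeval_C]
  have h2 : (algebraMap ℚ ℝ) (ttq n i) = tt n i := rfl
  have h3 : (algebraMap ℚ ℝ) (238 / 169) = 238 / 169 := by simp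
  have h4 : (algebraMap ℚ ℝ) (225 / 169) = 225 / 169 := by simp
  rw [h2, h3, h4]
  unfold FF at h
  linear_combination h / 169

private theorem sconj_step {n i : ℕ} (hi : i + 1 ≤ n)
    (ih : ∀ p : ℚ[X], aeval (zz n i) p = 0 → ∀ w : ℝ, Br n i w → aeval w p = 0)
    {P : ℚ[X][X]} (hP : ev2 P (zz n i) (zz n (i + 1)) = 0)
    {w w' : ℝ} (hw : Br n i w) (hw' : FF (w + tt n i) w' = 225) : ev2 P w w' = 0 := by
  obtain ⟨r, hr⟩ : ∃ r : ℚ[X][X], r = P %ₘ MM n i := ⟨_, rfl⟩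
  obtain ⟨q, hq⟩ : ∃ q : ℚ[X][X], q = P /ₘ MM n i := ⟨_, rfl⟩
  have hPr : P = r + MM n i * q := by
    rw [hr, hq]
    exact (modByMonic_add_div P (MM n i)).symm
  have hrd : r.natDegree ≤ 1 := by
    have h1 : r.natDegree < (MM n i).natDegree := by
      rw [hr]
      apply natDegree_modByMonic_lt P (MM_monic n i)
      intro h
      have h2 := MM_deg n i
      rw [h, natDegree_one] at h2
      omega
    rw [MM_deg] at h1
    omega
  have hr1 : r = C (r.coeff 1) * X + C (r.coeff 0) := eq_X_add_C_of_natDegree_le_one hrd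
  have hev : ∀ x y : ℝ, FF (x + tt n i) y = 225 →
      ev2 P x y = aeval x (r.coeff 1) * y + aeval x (r.coeff 0) := by
    intro x y hxy
    conv_lhs => rw [hPr, ev2_add, ev2_mul, ev2_MM n i x y hxy, zero_mul, add_zero, hr1]
    rw [ev2_add, ev2_mul, ev2_C, ev2_C, ev2_X]
  have h0 := hev _ _ (FF_zz hi)
  rw [hP] at h0
  have hB : aeval (zz n i) (r.coeff 1) = 0 := by
    by_contra hne
    apply sconj_notin hi
    have h1 : zz n (i + 1) = - aeval (zz n i) (r.coeff 0) / aeval (zz n i) (r.coeff 1) := by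
      rw [eq_div_iff hne]
      linarith
    rw [h1]
    have h2 : ∀ p : ℚ[X], aeval (zz n i) p ∈ ℚ⟮zz n i⟯ := by
      intro p
      have h3 : aeval (zz n i) p ∈ Algebra.adjoin ℚ {zz n i} :=
        aeval_mem_adjoin_singleton ℚ (zz n i)
      exact IntermediateField.algebra_adjoin_le_adjoin ℚ _ h3
    exact div_mem (neg_mem (h2 _)) (h2 _)
  have hA : aeval (zz n i) (r.coeff 0) = 0 := by
    rw [hB, zero_mul, zero_add] at h0
    exact h0.symm
  rw [hev w w' hw', ih _ hB w hw, ih _ hA w hw, zero_mul, zero_add]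

/-- a rational polynomial that vanishes at `zz n i` vanishes at all real branch values -/
theorem conj {n i : ℕ} (hi : i ≤ n) {p : ℚ[X]} (hp : aeval (zz n i) p = 0) {w : ℝ}
    (hw : Br n i w) : aeval w p = 0 := by
  induction i generalizing p w with
  | zero =>
    cases hw
    rw [zz_zero] at hp
    exact hp
  | succ i ih =>
    cases hw with
    | @succ _ v _ hv hF =>
      have h1 := sconj_step (P := p.map C) hi (fun p hp w hw => ih (by omega) hp hw)
        (by rw [ev2_map]; exact hp) hv hF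
      rw [ev2_map] at h1
      exact h1

theorem conj2 {n i : ℕ} (hi : i + 1 ≤ n) {P : ℚ[X][X]} (hP : ev2 P (zz n i) (zz n (i + 1)) = 0)
    {w w' : ℝ} (hw : Br n i w) (hw' : FF (w + tt n i) w' = 225) : ev2 P w w' = 0 :=
  sconj_step hi (fun _ hp _ hw => conj (by omega) hp hw) hP hw hw'

/-- the predecessor of a branch value is a function of it -/
theorem inj {n i : ℕ} (hi : i + 1 ≤ n) : ∃ g : ℚ[X], ∀ w w' : ℝ, Br n i w →
    FF (w + tt n i) w' = 225 → aeval w' g = w := by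
  obtain ⟨g, hg⟩ := sconj_pred hi
  refine ⟨g, fun w w' hw hw' => ?_⟩
  have hval : ∀ x y : ℝ, ev2 (g.map C + C (-X)) x y = aeval y g - x := by
    intro x y
    rw [ev2_add, ev2_map, ev2_C, map_neg, aeval_X]
    ring
  have h1 := conj2 (P := g.map C + C (-X)) hi (by rw [hval, hg, sub_self]) hw hw'
  rw [hval] at h1
  linarith

end MPc01941
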