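import Pool.Agent.Lib.MP_c01941_lc.SConj

/-!
FP-SCount. There are exponentially many real branch values. `R = 13/8`.
For real `x` with `|x| < R` the equation `FF x w' = 225` has two different real solutions
`(-119 x ± 15 sqrt (169 - 64 x^2)) / 169`, with sum `-238 x/169`, both in `[-R, R]`.
Call a branch value `w` at level `i` good if `|w + tt n i| < R`. Kicks are `0` or `-1/400` (`i ≤ n`).
(1) Every good `w` has at least one good child, (2) if one child of `w` is not good, it is
`≤ -R + 1/400` or equal to `R`.. (for kick `0` only `±R`), then `|x| ∈ 1.1442 ± 0.065` and the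
other child `w''` satisfies `|w''| ≤ 0.13`, and both children of `w''` have absolute value
`≤ 1.3`, so they are good. Hence: a good value at level `i` has at least two good grandchildren.
The predecessor is a function of the value (`inj`), so the values with different predecessors
are different: `N_{i+2} ≥ 2 N_i` for the number of good values. `N_0 = 1`, `N_1 ≥ 1`.
(Only levels `≤ n` are needed; state the induction as:
there is a finite set of at least `2^(i/2)` good values at level `i`.)
-/

namespace MPc01941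

private theorem sc_tt {n i : ℕ} (hi : i ≤ n) : tt n i = 0 ∨ tt n i = -(1 / 400) := by
  unfold tt ttq
  by_cases h : i = 0 ∨ i = n ∨ 2 * n ≤ i
  · left
    rw [if_pos h]
    norm_num
  · right
    rw [if_neg h, if_pos (by omega)]
    norm_num

/-- two real solutions -/
private theorem sc_two {x : ℝ} (hx : |x| < 13 / 8) : ∃ a b : ℝ, FF x a = 225 ∧ FF x b = 225 ∧
    a ≠ b ∧ a + b = -(238 / 169) * x := by
  have h1 : x ^ 2 < (13 / 8) ^ 2 := by
    rw [← sq_abs]
    exact pow_lt_pow_left₀ hx (abs_nonneg x) (by norm_num)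
  obtain ⟨s, hs⟩ : ∃ s : ℝ, s = Real.sqrt (169 - 64 * x ^ 2) := ⟨_, rfl⟩
  have hs0 : 0 < s := by
    rw [hs]
    apply Real.sqrt_pos.2
    norm_num at h1
    linarith
  have hs2 : s ^ 2 = 169 - 64 * x ^ 2 := by
    rw [hs]
    apply Real.sq_sqrt
    norm_num at h1
    linarith
  refine ⟨(-119 * x + 15 * s) / 169, (-119 * x - 15 * s) / 169, ?_, ?_, ?_, ?_⟩
  · unfold FF
    linear_combination (225 / 169) * hs2
  · unfold FF
    linear_combination (225 / 169) * hs2
  · intro h
    linarith
  · ring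

/-- a solution is at most `13/8` in absolute value -/
private theorem sc_le {x u : ℝ} (h : FF x u = 225) : |u| ≤ 13 / 8 := by
  unfold FF at h
  apply abs_le_of_sq_le_sq _ (by norm_num)
  nlinarith [sq_nonneg (169 * x + 119 * u)]

/-- a solution that is not good is long -/
private theorem sc_bad {x u t : ℝ} (h : FF x u = 225) (ht : t = 0 ∨ t = -(1 / 400))
    (hb : ¬ |u + t| < 13 / 8) : 649 / 400 ≤ |u| := by
  have h1 := sc_le h
  push Not at hb
  have h2 : |u + t| ≤ |u| + |t| := abs_add_le u t
  have h3 : |t| ≤ 1 / 400 := by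
    rcases ht with rfl | rfl
    · rw [abs_zero]; norm_num
    · rw [abs_neg, abs_of_pos (by norm_num)]
  linarith

/-- the other solution is short -/
private theorem sc_other {x u v : ℝ} (h : FF x u = 225) (hu : 649 / 400 ≤ |u|)
    (hv : u + v = -(238 / 169) * x) : |v| ≤ 13 / 100 := by
  have h1 := sc_le h
  obtain ⟨d, hd⟩ : ∃ d : ℝ, d = 169 * x + 119 * u := ⟨_, rfl⟩
  have hd2 : d ^ 2 = 38025 - 14400 * u ^ 2 := by
    unfold FF at h
    rw [hd]
    linear_combination 169 * h
  have hu2 : (649 / 400) ^ 2 ≤ u ^ 2 := by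
    rw [← sq_abs u]
    exact pow_le_pow_left₀ (by norm_num) hu 2
  have hd3 : |d| ≤ 11 := by
    apply abs_le_of_sq_le_sq _ (by norm_num)
    rw [hd2]
    nlinarith
  have hv2 : v = -(238 / 28561) * d - (239 / 28561) * u := by
    rw [hd]
    linear_combination hv
  rw [abs_le] at hd3 h1 ⊢
  rw [hv2]
  constructor <;> linarith [hd3.1, hd3.2, h1.1, h1.2]

/-- the children of a short value -/
private theorem sc_short {x v : ℝ} (h : FF x v = 225) (hx : |x| ≤ 53 / 400) : |v| ≤ 13 / 10 := by
  have h1 : |169 * v + 119 * x| ≤ 195 := by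
    apply abs_le_of_sq_le_sq _ (by norm_num)
    unfold FF at h
    nlinarith [sq_nonneg x]
  rw [abs_le] at h1 hx ⊢
  constructor <;> linarith [h1.1, h1.2, hx.1, hx.2]

private theorem sc_good {u t c : ℝ} (hu : |u| ≤ c) (ht : t = 0 ∨ t = -(1 / 400))
    (hc : c ≤ 13 / 10) : |u + t| ≤ c + 1 / 400 ∧ |u + t| < 13 / 8 := by
  have h2 : |u + t| ≤ |u| + |t| := abs_add_le u t
  have h3 : |t| ≤ 1 / 400 := by
    rcases ht with rfl | rfl
    · rw [abs_zero]; norm_num
    · rw [abs_neg, abs_of_pos (by norm_num)]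
  constructor <;> linarith

/-- a good child -/
private theorem sc_child {x t : ℝ} (hx : |x| < 13 / 8) (ht : t = 0 ∨ t = -(1 / 400)) :
    ∃ u : ℝ, FF x u = 225 ∧ |u + t| < 13 / 8 := by
  obtain ⟨a, b, ha, hb, _, hab⟩ := sc_two hx
  by_cases hg : |a + t| < 13 / 8
  · exact ⟨a, ha, hg⟩
  · exact ⟨b, hb, (sc_good (sc_other ha (sc_bad ha ht hg) hab) ht (by norm_num)).2⟩

/-- two good grandchildren -/
private theorem sc_grand {n i : ℕ} (hi : i + 2 ≤ n) {w : ℝ} (hw : Br n i w)
    (hg : |w + tt n i| < 13 / 8) : ∃ u v : Bool → ℝ,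
    (∀ b, FF (w + tt n i) (u b) = 225) ∧ (∀ b, FF (u b + tt n (i + 1)) (v b) = 225) ∧
    (∀ b, |v b + tt n (i + 2)| < 13 / 8) ∧ v true ≠ v false := by
  have ht1 := sc_tt (n := n) (i := i + 1) (by omega)
  have ht2 := sc_tt (n := n) (i := i + 2) (by omega)
  obtain ⟨a, b, ha, hb, hne, hab⟩ := sc_two hg
  -- one child is not good
  have hB : ∀ a b : ℝ, FF (w + tt n i) a = 225 → FF (w + tt n i) b = 225 →
      a + b = -(238 / 169) * (w + tt n i) → ¬ |a + tt n (i + 1)| < 13 / 8 →
      ∃ u v : Bool → ℝ,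
      (∀ b, FF (w + tt n i) (u b) = 225) ∧ (∀ b, FF (u b + tt n (i + 1)) (v b) = 225) ∧
      (∀ b, |v b + tt n (i + 2)| < 13 / 8) ∧ v true ≠ v false := by
    intro a b ha hb hab hbad
    have h1 := sc_good (sc_other ha (sc_bad ha ht1 hbad) hab) ht1 (by norm_num)
    obtain ⟨c, d, hc, hd, hcd, _⟩ := sc_two h1.2
    have hx : |b + tt n (i + 1)| ≤ 53 / 400 := by linarith [h1.1]
    refine ⟨fun _ => b, fun e => if e then c else d, fun _ => hb, fun e => ?_, fun e => ?_, ?_⟩
    · cases e
      · exact hd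
      · exact hc
    · cases e
      · exact (sc_good (sc_short hd hx) ht2 le_rfl).2
      · exact (sc_good (sc_short hc hx) ht2 le_rfl).2
    · exact hcd
  by_cases hga : |a + tt n (i + 1)| < 13 / 8
  · by_cases hgb : |b + tt n (i + 1)| < 13 / 8
    · obtain ⟨c, hc, hcg⟩ := sc_child hga ht2
      obtain ⟨d, hd, hdg⟩ := sc_child hgb ht2
      obtain ⟨g, hgg⟩ := inj (n := n) (i := i + 1) (by omega)
      refine ⟨fun e => if e then a else b, fun e => if e then c else d, fun e => ?_, fun e => ?_,
        fun e => ?_, ?_⟩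
      · cases e
        · exact hb
        · exact ha
      · cases e
        · exact hd
        · exact hc
      · cases e
        · exact hdg
        · exact hcg
      · intro hcd
        have hcd' : c = d := hcd
        apply hne
        rw [← hgg a c (Br.succ hw ha) hc, ← hgg b d (Br.succ hw hb) hd, hcd']
    · exact hB b a hb ha (by linarith) hgb
  · exact hB a b ha hb hab hga

private theorem sc_main {n : ℕ} (i : ℕ) : i ≤ n →
    ∃ S : Finset ℝ, 2 ^ (i / 2) ≤ S.card ∧ ∀ w ∈ S, Br n i w ∧ |w + tt n i| < 13 / 8 := by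
  classical
  induction i using Nat.twoStepInduction with
  | zero =>
    intro _
    refine ⟨{78 / 125}, by simp, fun w hw => ?_⟩
    rw [Finset.mem_singleton] at hw
    rw [hw]
    refine ⟨Br.zero, ?_⟩
    have : tt n 0 = 0 := by
      unfold tt ttq
      simp
    rw [this, add_zero, abs_of_pos (by norm_num)]
    norm_num
  | one =>
    intro hi
    have h0 : tt n 0 = 0 := by
      unfold tt ttq
      simp
    obtain ⟨u, hu, hug⟩ := sc_child (x := 78 / 125 + tt n 0) (by
      rw [h0, add_zero, abs_of_pos (by norm_num)]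
      norm_num) (sc_tt hi)
    refine ⟨{u}, by simp, fun w hw => ?_⟩
    rw [Finset.mem_singleton] at hw
    rw [hw]
    exact ⟨Br.succ Br.zero hu, hug⟩
  | more i ih _ =>
    intro hi
    obtain ⟨S, hS, hSg⟩ := ih (by omega)
    have hch : ∀ w : ℝ, ∃ u v : Bool → ℝ, w ∈ S → (∀ b, FF (w + tt n i) (u b) = 225) ∧
        (∀ b, FF (u b + tt n (i + 1)) (v b) = 225) ∧
        (∀ b, |v b + tt n (i + 2)| < 13 / 8) ∧ v true ≠ v false := by
      intro w
      by_cases hw : w ∈ S
      · obtain ⟨u, v, h⟩ := sc_grand hi (hSg w hw).1 (hSg w hw).2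
        exact ⟨u, v, fun _ => h⟩
      · exact ⟨fun _ => 0, fun _ => 0, fun h => absurd h hw⟩
    choose u v huv using hch
    obtain ⟨g1, hg1⟩ := inj (n := n) (i := i) (by omega)
    obtain ⟨g2, hg2⟩ := inj (n := n) (i := i + 1) (by omega)
    refine ⟨(S ×ˢ Finset.univ).image (fun p : ℝ × Bool => v p.1 p.2), ?_, ?_⟩
    · rw [Finset.card_image_of_injOn]
      · rw [Finset.card_product, Finset.card_univ, Fintype.card_bool]
        have h1 : (i + 2) / 2 = i / 2 + 1 := by omega
        rw [h1, pow_succ]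
        exact Nat.mul_le_mul_right _ hS
      · rintro ⟨w, b⟩ hw ⟨w', b'⟩ hw' heq
        rw [Finset.mem_coe, Finset.mem_product] at hw hw'
        simp only at hw hw' heq
        obtain ⟨a1, a2, a3, a4⟩ := huv w hw.1
        obtain ⟨b1, b2, b3, b4⟩ := huv w' hw'.1
        have hBw := (hSg w hw.1).1
        have hBw' := (hSg w' hw'.1).1
        have e1 : u w b = u w' b' := by
          rw [← hg2 _ _ (Br.succ hBw (a1 b)) (a2 b), ← hg2 _ _ (Br.succ hBw' (b1 b')) (b2 b'), heq]
        have e2 : w = w' := by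
          rw [← hg1 _ _ hBw (a1 b), ← hg1 _ _ hBw' (b1 b'), e1]
        subst e2
        have e3 : b = b' := by
          by_contra hne
          cases b <;> cases b'
          · exact hne rfl
          · exact a4 heq.symm
          · exact a4 heq
          · exact hne rfl
        rw [e3]
    · intro z hz
      rw [Finset.mem_image] at hz
      obtain ⟨⟨w, b⟩, hw, rfl⟩ := hz
      rw [Finset.mem_product] at hw
      obtain ⟨a1, a2, a3, a4⟩ := huv w hw.1
      exact ⟨Br.succ (Br.succ (hSg w hw.1).1 (a1 b)) (a2 b), a3 b⟩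

theorem real_branches {n i : ℕ} (hi : i ≤ n) :
    ∃ S : Finset ℝ, 2 ^ (i / 2) ≤ S.card ∧ ∀ w ∈ S, Br n i w := by
  obtain ⟨S, h1, h2⟩ := sc_main i hi
  exact ⟨S, h1, fun w hw => (h2 w hw).1⟩

end MPc01941
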