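import Pool.Agent.Lib.MP_c01941_lc.Kap

/-!
FP-Seq. Bounds of the sequence up to the index `n`, and the reflection `n + k ↔ n - k`.
`zz_mid`: `z_1 = kap (78/125)`: `6259/10000 ≤ z_1 ≤ 62659955/10^8`, and if `z` is in this interval
then so is `kap (z - 1/400)`: by `le_kap_of_FF_le` and `kap_le_of_le_FF` it is enough to check
`FF (hi - 1/400) lo ≤ 225 ≤ FF (lo - 1/400) hi` (`norm_num`), using monotonicity
of `kap` (`kap_anti`).
`zz_refl`: induction on `k`, `tt n (n+k) = - tt n (n-k)`, `kap_kap`.
-/

namespace MPc01941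

private theorem tt_zero' (n : ℕ) : tt n 0 = 0 := by
  unfold tt ttq
  simp

private theorem tt_self' (n : ℕ) : tt n n = 0 := by
  unfold tt ttq
  simp

private theorem tt_lt' {n i : ℕ} (h1 : 1 ≤ i) (hn : i < n) : tt n i = -(1 / 400) := by
  unfold tt ttq
  rw [if_neg (by omega), if_pos hn]
  norm_num

private theorem tt_gt' {n i : ℕ} (h1 : n < i) (hn : i < 2 * n) : tt n i = 1 / 400 := by
  unfold tt ttq
  rw [if_neg (by omega), if_neg (by omega)]
  norm_num

private theorem tt_end' {n i : ℕ} (h : 2 * n ≤ i) : tt n i = 0 := by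
  unfold tt ttq
  rw [if_pos (by omega)]
  norm_num

theorem zz_mid {n i : ℕ} (h1 : 1 ≤ i) (hn : i ≤ n) :
    6259 / 10000 ≤ zz n i ∧ zz n i ≤ 62659955 / 100000000 := by
  induction i, h1 using Nat.le_induction with
  | base =>
    rw [zz_succ, zz_zero, tt_zero', add_zero]
    constructor
    · apply le_kap_of_FF_le (by norm_num) (by norm_num) (by norm_num)
      unfold FF
      norm_num
    · apply kap_le_of_le_FF (by norm_num) (by norm_num) (by norm_num)
      unfold FF
      norm_num
  | succ i h1 ih =>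
    obtain ⟨ha, hb⟩ := ih (by omega)
    rw [zz_succ, tt_lt' h1 (by omega)]
    constructor
    · have h2 : (6259 / 10000 : ℝ) ≤ kap (62659955 / 100000000 + -(1 / 400)) := by
        apply le_kap_of_FF_le (by norm_num) (by norm_num) (by norm_num)
        unfold FF
        norm_num
      exact h2.trans (kap_anti (by linarith) (by linarith) (by norm_num))
    · have h2 : kap (6259 / 10000 + -(1 / 400)) ≤ (62659955 / 100000000 : ℝ) := by
        apply kap_le_of_le_FF (by norm_num) (by norm_num) (by norm_num)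
        unfold FF
        norm_num
      exact (kap_anti (by norm_num) (by linarith) (by linarith)).trans h2

private theorem zz_low' {n i : ℕ} (hn : i < n) :
    249 / 400 ≤ zz n i ∧ zz n i ≤ 251 / 400 ∧ 249 / 400 ≤ zz n i + tt n i ∧
      zz n i + tt n i ≤ 251 / 400 := by
  rcases Nat.eq_zero_or_pos i with h0 | h0
  · subst h0
    rw [zz_zero, tt_zero']
    norm_num
  · obtain ⟨ha, hb⟩ := zz_mid h0 hn.le
    rw [tt_lt' h0 hn]
    refine ⟨?_, ?_, ?_, ?_⟩ <;> linarith

theorem zz_refl {n k : ℕ} (hn : 1 ≤ n) (hk : k ≤ n) : zz n (n + k) = zz n (n - k) + tt n (n - k) := by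
  induction k with
  | zero => rw [Nat.add_zero, Nat.sub_zero, tt_self', add_zero]
  | succ k ih =>
    have h1 : n + (k + 1) = n + k + 1 := by omega
    rw [h1, zz_succ, ih (by omega)]
    have h2 : tt n (n + k) = - tt n (n - k) := by
      rcases Nat.eq_zero_or_pos k with h0 | h0
      · subst h0
        rw [Nat.add_zero, Nat.sub_zero, tt_self', neg_zero]
      · rw [tt_gt' (by omega) (by omega), tt_lt' (by omega) (by omega)]
        norm_num
    rw [h2, add_neg_cancel_right]
    obtain ⟨j, hj⟩ : ∃ j, n - k = j + 1 := ⟨n - k - 1, by omega⟩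
    have hj' : n - (k + 1) = j := by omega
    rw [hj, hj', zz_succ]
    obtain ⟨_, _, hc, hd⟩ := zz_low' (n := n) (i := j) (by omega)
    exact kap_kap (by linarith) (by linarith)

theorem zz_end {n : ℕ} (hn : 1 ≤ n) : zz n (2 * n) = 78 / 125 := by
  rw [two_mul, zz_refl hn le_rfl, Nat.sub_self, zz_zero, tt_zero', add_zero]

/-- all terms and all kicked terms are in `[249/400, 251/400]` -/
theorem zz_bounds {n i : ℕ} (hn : 1 ≤ n) (hi : i ≤ 2 * n) :
    249 / 400 ≤ zz n i ∧ zz n i ≤ 251 / 400 ∧ 249 / 400 ≤ zz n i + tt n i ∧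
      zz n i + tt n i ≤ 251 / 400 := by
  rcases lt_or_ge i n with h | h
  · exact zz_low' h
  · obtain ⟨k, rfl⟩ := Nat.exists_eq_add_of_le h
    rcases Nat.eq_zero_or_pos k with h0 | h0
    · subst h0
      obtain ⟨ha, hb⟩ := zz_mid (n := n) hn le_rfl
      rw [Nat.add_zero, tt_self']
      refine ⟨?_, ?_, ?_, ?_⟩ <;> linarith
    · rw [zz_refl hn (by omega)]
      obtain ⟨ha, hb, hc, hd⟩ := zz_low' (n := n) (i := n - k) (by omega)
      refine ⟨hc, hd, ?_⟩
      rcases Nat.lt_or_ge k n with hkn | hkn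
      · have h2 : tt n (n - k) + tt n (n + k) = 0 := by
          rw [tt_gt' (n := n) (i := n + k) (by omega) (by omega),
            tt_lt' (n := n) (i := n - k) (by omega) (by omega)]
          norm_num
        rw [add_assoc, h2, add_zero]
        exact ⟨ha, hb⟩
      · rw [tt_end' (by omega : 2 * n ≤ n + k), add_zero]
        exact ⟨hc, hd⟩

end MPc01941
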