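import Pool.Agent.Lib.MP_c01941_lc.CellSets
import Pool.Agent.Lib.MP_c01941_lc.KDisj
import Pool.Agent.Lib.MP_c01941_lc.Body

/-!
FP-TailGlue. Adding portion `j` to the tail. The polygon of the body (`isPolygon_body`, translated
by `org j`), rotated so that it begins with
`x = vD 3 ((3-e')/2400000) + org j = vS' e' 3 + org (j+1)`, `y = vD 3 0 + org j = vS 3 + org (j+1)`,
is glued (`glue`) to the tail polygon `y :: x :: tl k (j+1)`. The intersection is the
segment `x y`: cells `≤ 6j+5` and `≥ 6j+6` meet only for `6j+5`, `6j+6` (`K_disj`; the cells of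
the portion are given by the hypothesis `hB`), over `x = 3`. After gluing, the vertex
`vS 3 + org (j+1)` is straight: it lies between the last vertex of `tl k (j+1)`
(which is `vT e' + org (j+1)` or `vS a1 + org (j+1)`) and `vD 0 0 + org j = org (j+1)`: remove it with
`IsPolygon.merge` (after rotation). Final rotation.
-/

namespace MPc01941

namespace Cfg

variable (c : Cfg)

private theorem tg_last (k j : ℕ) :
    ∃ (l : List ℂ) (a : ℝ), 3 ≤ a ∧ c.tl k j = l ++ [vS a + c.org j] := by
  cases k with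
  | zero =>
    exact ⟨[vS' (c.e j) (cbx c.a1 (c.e j)) + c.org j], c.a1, by linarith [c.ha1.1], rfl⟩
  | succ k =>
    refine ⟨(c.lo j).map (fun z => z + c.org j) ++ c.tl k (j + 1) ++
      [vD (c.e j) (c.m j) 0 0 + c.org j, vM (c.e j) (1 / 595) + c.org j,
        vF (c.e j) (1 / 5) + c.org j, vF (c.e j) (18 / 5) + c.org j,
        vC (c.e j) (432 / 325) + c.org j, vBr (c.e j) + c.org j, vAr (c.e j) + c.org j],
      c.e j, by linarith [(c.he j).1], ?_⟩
    rw [List.append_assoc]
    rfl

private theorem tg_inter (j : ℕ) (hj : j + 1 ≤ c.n) :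
    {z | ∃ i, 6 * j ≤ i ∧ i < 6 * (j + 1) ∧ z ∈ c.K i} ∩ c.tailSet (j + 1) =
      segment ℝ (vS' (c.e (j + 1)) 3 + c.org (j + 1)) (vS 3 + c.org (j + 1)) := by
  have hox := c.ox_succ j
  have hoy := c.oy_succ j
  have he := c.he (j + 1)
  ext z
  constructor
  · rintro ⟨⟨i, hi1, hi2, hzi⟩, ⟨l, hl1, hl2, hzl⟩⟩
    have hil : ¬ i + 2 ≤ l := fun h => Set.disjoint_left.1 (c.K_disj h) hzi hzl
    have hi : i = 6 * j + 5 := by omega
    have hl : l = 6 * (j + 1) + 0 := by omega
    rw [hi, c.mem_K j 5 (by norm_num)] at hzi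
    rw [hl, c.mem_K (j + 1) 0 (by norm_num)] at hzl
    obtain ⟨b1, b2, b3, b4⟩ := hzi
    obtain ⟨⟨d1, d2, d3⟩, -, -⟩ := hzl
    have hX : z.re - c.ox (j + 1) = 3 := by linarith
    have hD : 0 < (c.e (j + 1) - 3) / 2400000 := by
      apply div_pos _ (by norm_num)
      linarith
    rw [hX] at d3
    -- `z = x + t (y - x)`
    rw [segment_eq_image']
    refine ⟨((z.im - c.oy (j + 1)) + (c.e (j + 1) - 3) / 2400000) / ((c.e (j + 1) - 3) / 2400000),
      ⟨?_, ?_⟩, ?_⟩
    · apply div_nonneg _ hD.le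
      have : (3 - c.e (j + 1)) / 2400000 ≤ z.im - c.oy (j + 1) := by
        rw [div_le_iff₀ (by norm_num)]
        linarith
      have h4 : (c.e (j + 1) - 3) / 2400000 = - ((3 - c.e (j + 1)) / 2400000) := by ring
      linarith
    · rw [div_le_one hD]
      linarith
    · apply Complex.ext
      · simp only [vS', vS, org, Complex.add_re, Complex.real_smul, Complex.mul_re,
          Complex.sub_re, Complex.sub_im, Complex.add_im, Complex.ofReal_re, Complex.ofReal_im]
        linarith
      · have hD' : (c.e (j + 1) - 3) / 2400000 ≠ 0 := hD.ne'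
        simp only [vS', vS, org, Complex.add_im, Complex.real_smul, Complex.mul_im,
          Complex.sub_re, Complex.sub_im, Complex.add_re, Complex.ofReal_re, Complex.ofReal_im]
        have h5 : (0 + c.oy (j + 1) - ((3 - c.e (j + 1)) / 2400000 + c.oy (j + 1))) =
          (c.e (j + 1) - 3) / 2400000 := by ring
        rw [h5, div_mul_cancel₀ _ hD']
        ring
  · intro hz
    rw [segment_eq_image'] at hz
    obtain ⟨t, ⟨t0, t1⟩, rfl⟩ := hz
    set z : ℂ := vS' (c.e (j + 1)) 3 + c.org (j + 1) +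
      t • (vS 3 + c.org (j + 1) - (vS' (c.e (j + 1)) 3 + c.org (j + 1))) with hzdef
    have hX : z.re = 3 + c.ox (j + 1) := by
      rw [hzdef]
      simp only [vS', vS, org, Complex.add_re, Complex.real_smul, Complex.mul_re,
          Complex.sub_re, Complex.sub_im, Complex.add_im, Complex.ofReal_re, Complex.ofReal_im]
      ring
    have hY : z.im = c.oy (j + 1) - (1 - t) * ((c.e (j + 1) - 3) / 2400000) := by
      rw [hzdef]
      simp only [vS', vS, org, Complex.add_im, Complex.real_smul, Complex.mul_im,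
          Complex.sub_re, Complex.sub_im, Complex.add_re, Complex.ofReal_re, Complex.ofReal_im]
      ring
    have hD : 0 ≤ (c.e (j + 1) - 3) / 2400000 := by
      apply div_nonneg _ (by norm_num)
      linarith
    have hD1 : (c.e (j + 1) - 3) / 2400000 ≤ 1 := by
      rw [div_le_one (by norm_num)]
      linarith
    have hu0 : 0 ≤ (1 - t) * ((c.e (j + 1) - 3) / 2400000) := mul_nonneg (by linarith) hD
    have hu1 : (1 - t) * ((c.e (j + 1) - 3) / 2400000) ≤ (c.e (j + 1) - 3) / 2400000 := by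
      have := mul_le_mul_of_nonneg_right (by linarith : 1 - t ≤ 1) hD
      rwa [one_mul] at this
    have h6 : 2400000 * ((c.e (j + 1) - 3) / 2400000) = c.e (j + 1) - 3 := by ring
    refine ⟨⟨6 * j + 5, by omega, by omega, ?_⟩, ⟨6 * (j + 1) + 0, by omega, by omega, ?_⟩⟩
    · rw [c.mem_K j 5 (by norm_num)]
      show cC _ _ _ _
      unfold cC
      refine ⟨?_, ?_, ?_, ?_⟩ <;> linarith
    · rw [c.mem_K (j + 1) 0 (by norm_num)]
      show cL _ _ _ ∧ _ ∧ _
      unfold cL
      refine ⟨⟨?_, ?_, ?_⟩, fun h => by omega, fun _ => ?_⟩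
      · linarith
      · linarith
      · rw [hX, hY]
        linarith
      · rw [hX, hY]
        linarith [c.ha1.1]

theorem tail_glue {j k : ℕ} (hjk : j + (k + 1) = c.n) {s s' : ℝ} (h1 : 3 ≤ s) (h2 : s ≤ s')
    (h3 : s' ≤ 86000)
    (hB : {z | ∃ i, 6 * j ≤ i ∧ i < 6 * (j + 1) ∧ z ∈ c.K i} =
      {z | z - c.org j ∈ upSet (c.e j) s s' (18 / 5) (432 / 325) ∪ lowSet (c.e j) (c.m j)})
    (hT : IsPolygon ((vS 3 + c.org (j + 1)) :: (vS' (c.e (j + 1)) 3 + c.org (j + 1)) ::
      c.tl k (j + 1)) (c.tailSet (j + 1))) :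
    IsPolygon ((vS s + c.org j) :: (vS' (c.e j) s' + c.org j) :: c.tl (k + 1) j)
      (c.tailSet j) := by
  have hox := c.ox_succ j
  have hoy := c.oy_succ j
  have hx : vD (c.e j) (c.m j) 3 ((3 - c.e (j + 1)) / 2400000) + c.org j =
      vS' (c.e (j + 1)) 3 + c.org (j + 1) := by
    apply Complex.ext
    · simp only [vD, vS', org, Complex.add_re]
      rw [hox]
      ring
    · simp only [vD, vS', org, Complex.add_im]
      rw [hoy]
      ring
  have hy : vD (c.e j) (c.m j) 3 0 + c.org j = vS 3 + c.org (j + 1) := by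
    apply Complex.ext
    · simp only [vD, vS, org, Complex.add_re]
      rw [hox]
      ring
    · simp only [vD, vS, org, Complex.add_im]
      rw [hoy]
      ring
  have hz : vD (c.e j) (c.m j) 0 0 + c.org j = c.org (j + 1) := by
    apply Complex.ext
    · simp only [vD, org, Complex.add_re]
      rw [hox]
      ring
    · simp only [vD, org, Complex.add_im]
      rw [hoy]
      ring
  have hbody := (isPolygon_body (c.he j) (c.hm j) (c.he (j + 1)) h1 h2 h3).translate (c.org j)
  rw [← hB] at hbody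
  obtain ⟨lo1, hlo⟩ : ∃ lo1 : List ℂ, lo1 = [vAl (c.e j) + c.org j, vBl (c.e j) + c.org j,
      vC (c.e j) (-432 / 325) + c.org j, vF (c.e j) (-18 / 5) + c.org j,
      vF (c.e j) (1 / 10) + c.org j, vM (c.e j) (1 / 1190) + c.org j,
      vM (c.e j) (-360) + c.org j, vM' (c.e j) (119 * c.m j) + c.org j,
      vD (c.e j) (c.m j) 0 (-30 / 13) + c.org j,
      vD (c.e j) (c.m j) 3 (-30 / 13) + c.org j] := ⟨_, rfl⟩
  obtain ⟨hi1, hhi⟩ : ∃ hi1 : List ℂ, hi1 = [vM (c.e j) (1 / 595) + c.org j,
      vF (c.e j) (1 / 5) + c.org j, vF (c.e j) (18 / 5) + c.org j,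
      vC (c.e j) (432 / 325) + c.org j, vBr (c.e j) + c.org j, vAr (c.e j) + c.org j,
      vT (c.e j) + c.org j] := ⟨_, rfl⟩
  have hlist : (bodyV (c.e j) (c.m j) (c.e (j + 1)) s s').map (fun z => z + c.org j) =
      ((vS s + c.org j) :: (vS' (c.e j) s' + c.org j) :: lo1) ++
        ((vS' (c.e (j + 1)) 3 + c.org (j + 1)) :: (vS 3 + c.org (j + 1)) ::
          (c.org (j + 1)) :: hi1) := by
    rw [← hx, ← hy, hlo, hhi]
    conv_rhs => rw [← hz]
    rfl
  rw [hlist] at hbody
  have hb2 := hbody.rotate_append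
  have hg := glue (A := c.org (j + 1) :: hi1 ++
    ((vS s + c.org j) :: (vS' (c.e j) s' + c.org j) :: lo1)) hb2 hT (c.tg_inter j (by omega))
  rw [← c.tailSet_step (by omega)] at hg
  obtain ⟨l, a, ha, hl⟩ := c.tg_last k (j + 1)
  have hg2 : IsPolygon (((vS 3 + c.org (j + 1)) :: c.org (j + 1) :: (hi1 ++
      ((vS s + c.org j) :: (vS' (c.e j) s' + c.org j) :: (lo1 ++
        (vS' (c.e (j + 1)) 3 + c.org (j + 1)) :: l)))) ++ [vS a + c.org (j + 1)])
      (c.tailSet j) := by
    rw [hl] at hg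
    simpa using hg
  have hg3 := hg2.rotate_append
  have hseg : vS 3 + c.org (j + 1) ∈ segment ℝ (vS a + c.org (j + 1)) (c.org (j + 1)) := by
    have ha0 : 0 < a := by linarith
    rw [segment_eq_image']
    refine ⟨1 - 3 / a, ⟨?_, ?_⟩, ?_⟩
    · have : 3 / a ≤ 1 := (div_le_one ha0).2 ha
      linarith
    · have : 0 ≤ 3 / a := by positivity
      linarith
    · apply Complex.ext
      · simp only [vS, org, Complex.add_re, Complex.real_smul, Complex.mul_re,
          Complex.sub_re, Complex.sub_im, Complex.add_im, Complex.ofReal_re, Complex.ofReal_im]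
        field_simp
        ring
      · simp only [vS, org, Complex.add_im, Complex.real_smul, Complex.mul_im,
          Complex.sub_re, Complex.sub_im, Complex.add_re, Complex.ofReal_re, Complex.ofReal_im]
        ring
  have hg4 := IsPolygon.merge (x := vS a + c.org (j + 1)) (y := vS 3 + c.org (j + 1))
    (z := c.org (j + 1)) hg3 (by rw [hhi]; simp) hseg
  have hg5 : IsPolygon (((vS a + c.org (j + 1)) :: c.org (j + 1) :: hi1) ++
      ((vS s + c.org j) :: (vS' (c.e j) s' + c.org j) :: (lo1 ++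
        (vS' (c.e (j + 1)) 3 + c.org (j + 1)) :: l))) (c.tailSet j) := by
    simpa using hg4
  have hg6 := hg5.rotate_append
  have hfin : ((vS s + c.org j) :: (vS' (c.e j) s' + c.org j) :: c.tl (k + 1) j) =
      ((vS s + c.org j) :: (vS' (c.e j) s' + c.org j) :: (lo1 ++
        (vS' (c.e (j + 1)) 3 + c.org (j + 1)) :: l)) ++
      ((vS a + c.org (j + 1)) :: c.org (j + 1) :: hi1) := by
    have hlo2 : (c.lo j).map (fun z => z + c.org j) =
        lo1 ++ [vS' (c.e (j + 1)) 3 + c.org (j + 1)] := by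
      rw [hlo, ← hx]
      rfl
    have hhi2 : (c.hi j).map (fun z => z + c.org j) = c.org (j + 1) :: hi1 := by
      rw [hhi]
      conv_rhs => rw [← hz]
      rfl
    have htl : c.tl (k + 1) j = (c.lo j).map (fun z => z + c.org j) ++ c.tl k (j + 1) ++
      (c.hi j).map (fun z => z + c.org j) := rfl
    rw [htl, hlo2, hhi2, hl]
    simp
  rw [hfin]
  exact hg6

end Cfg

end MPc01941
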