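import Pool.Agent.Lib.MP_c01941_lc.PolyQuad
import Pool.Agent.Lib.MP_c01941_lc.Core

/-!
MP_c01941_lc: vertices of the cells (relative coordinates), used by the polygon modules.
-/

namespace MPc01941

/-- point of the first line -/
def vS (s : ℝ) : ℂ := ⟨s, 0⟩
/-- point of the lower side of the first thin triangle -/
noncomputable def vS' (e s : ℝ) : ℂ := ⟨s, (s - e) / 2400000⟩
def vT (e : ℝ) : ℂ := ⟨e, 0⟩
noncomputable def vAl (e : ℝ) : ℂ := ⟨e - 81120 - 1 / 5, (-81120 - 1 / 5) / 2400000⟩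
noncomputable def vAr (e : ℝ) : ℂ := ⟨e - 81120 - 1 / 10, (-81120 - 1 / 10) / 2400000⟩
noncomputable def vBl (e : ℝ) : ℂ := ⟨e - 81120 - 1 / 5, -58812 + 41 / 20⟩
noncomputable def vBr (e : ℝ) : ℂ := ⟨e - 81120 - 1 / 10, -58812 + 41 / 20⟩
/-- point of the ceiling line -/
noncomputable def vC (e x : ℝ) : ℂ := ⟨e - 81120 + x, -58812 + 41 / 20⟩
/-- point of the floor line -/
def vF (e x : ℝ) : ℂ := ⟨e - 81120 + x, -58812⟩
/-- point of the second line, `t = -360` is the tip, `t = m` is the bend -/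
def vM (e t : ℝ) : ℂ := ⟨e - 81120 + 119 * t, -117624 + 120 * t⟩
/-- point of the lower side of the second thin triangle -/
noncomputable def vM' (e x : ℝ) : ℂ :=
  ⟨e - 81120 + x, -117624 + (191999881 * x - 5097960) / 190400000⟩
/-- point relative to the bend -/
def vD (e m x y : ℝ) : ℂ := ⟨e - 81120 + 119 * m + x, -117624 + 120 * m + y⟩

/-- first part of a portion: part of the first triangle, upper arm, (part of) the room -/
def upSet (e s s' xf xc : ℝ) : Set ℂ :=
  tri (vS s) (vS' e s') (vT e) ∪ {z | cA e z.re z.im} ∪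
    quad (vF e (-18 / 5)) (vF e xf) (vC e xc) (vC e (-432 / 325))

/-- second part of a portion: lower arm, second triangle, C-room -/
def lowSet (e m : ℝ) : Set ℂ :=
  {z | cB e z.re z.im} ∪ {z | cM e m z.re z.im} ∪ {z | cC e m z.re z.im}

/-- vertices of `upSet` -/
noncomputable def upV (e s s' xf xc : ℝ) : List ℂ :=
  [vS s, vS' e s', vAl e, vBl e, vC e (-432 / 325), vF e (-18 / 5), vF e xf, vC e xc, vBr e, vAr e,
    vT e]

/-- vertices of `lowSet`, `e'` is the parameter of the next portion -/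
noncomputable def lowV (e m e' : ℝ) : List ℂ :=
  [vF e (1 / 10), vM e (1 / 1190), vM e (-360), vM' e (119 * m), vD e m 0 (-30 / 13),
    vD e m 3 (-30 / 13), vD e m 3 ((3 - e') / 2400000), vD e m 3 0, vD e m 0 0, vM e (1 / 595),
    vF e (1 / 5)]

/-- vertices of a whole portion -/
noncomputable def bodyV (e m e' s s' : ℝ) : List ℂ :=
  [vS s, vS' e s', vAl e, vBl e, vC e (-432 / 325), vF e (-18 / 5), vF e (1 / 10), vM e (1 / 1190),
    vM e (-360), vM' e (119 * m), vD e m 0 (-30 / 13), vD e m 3 (-30 / 13),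
    vD e m 3 ((3 - e') / 2400000), vD e m 3 0, vD e m 0 0, vM e (1 / 595), vF e (1 / 5),
    vF e (18 / 5), vC e (432 / 325), vBr e, vAr e, vT e]

end MPc01941
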