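import Pool.Agent.Lib.MP_c01941_lc.Ranges

/-!
FP-WitSep. Two different witnesses are never in the same small connected subset of the region.
Write `i = 3 j + a`, `k = 3 j' + b`, `i < k`, so `j ≤ j'`. The witness `k` is in the cell `6 j'`
(`b = 0`), `6 j' + 4` (`b = 1`), `6 j' + 5` (`b = 2`), and must be in the range of the witness `i`:
* `a = 0`: range `6j..6j+4`, so `k = 3j + 1`: the distance from `pt j e 0` to
  `pt j (e - 123960) (-160824)` is `203049 > 156000`.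
* `a = 1`: range `6j+1..6j+4`, impossible (`b = 2`, `j' = j` gives the cell `6j+5`).
* `a = 2`: range `6j+4..6j+9`: `k = 3 (j+1)`: distance `e (j+1) > 156000`.
-/

namespace MPc01941

open Metric

theorem Cfg.wit_sep (c : Cfg) {Q : Set ℂ} (hQ : IsPreconnected Q) (hP : Q ⊆ c.P) (hs : Small Q)
    {i k : ℕ} (hik : i < k) (hk : k < 3 * c.n) (h1 : c.wit i ∈ Q) : c.wit k ∉ Q := by
  intro h2
  have hik' : i / 3 ≤ k / 3 := by omega
  have hj : i / 3 < c.n := by omega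
  have hj' : k / 3 < c.n := by omega
  have hi3 : i = 3 * (i / 3) ∨ i = 3 * (i / 3) + 1 ∨ i = 3 * (i / 3) + 2 := by omega
  have hk3 : k = 3 * (k / 3) ∨ k = 3 * (k / 3) + 1 ∨ k = 3 * (k / 3) + 2 := by omega
  generalize i / 3 = j at *
  generalize k / 3 = j' at *
  have hfar : ∀ z w : ℂ, dist z w ≤ 156000 → (z.im - w.im) ^ 2 ≤ 156000 ^ 2 := fun z w h => by
    have := sq_of_dist_le h
    linarith [sq_nonneg (z.re - w.re)]
  have hfar' : ∀ z w : ℂ, dist z w ≤ 156000 → (z.re - w.re) ^ 2 ≤ 156000 ^ 2 := fun z w h => by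
    have := sq_of_dist_le h
    linarith [sq_nonneg (z.im - w.im)]
  -- the cell of the witness `k`
  have hcell : ∀ lo hi : ℕ, (∀ l ≤ 6 * c.n, c.wit k ∈ c.K l → lo ≤ l ∧ l ≤ hi) →
      (k = 3 * j' ∧ lo ≤ 6 * j' ∧ 6 * j' ≤ hi) ∨ (k = 3 * j' + 1 ∧ lo ≤ 6 * j' + 4 ∧ 6 * j' + 4 ≤ hi) ∨
      (k = 3 * j' + 2 ∧ lo ≤ 6 * j' + 4 ∧ 6 * j' + 5 ≤ hi) := by
    intro lo hi h
    rcases hk3 with rfl | rfl | rfl
    · exact Or.inl ⟨rfl, h _ (by omega) (c.wit0_mem hj')⟩
    · exact Or.inr (Or.inl ⟨rfl, h _ (by omega) (c.wit1_mem j')⟩)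
    · exact Or.inr (Or.inr ⟨rfl, (h _ (by omega) (c.wit2_mem j').1).1,
        (h _ (by omega) (c.wit2_mem j').2).2⟩)
  rcases hi3 with rfl | rfl | rfl
  · have h := hcell (6 * j) (6 * j + 4) fun l hl hK => c.range_t hQ hP hs hj h1 hl h2 hK
    have hkk : k = 3 * j + 1 := by omega
    subst hkk
    have h3 := hfar _ _ (hs _ h1 _ h2)
    rw [c.wit0, c.wit1] at h3
    simp only [Cfg.pt] at h3
    nlinarith
  · have h := hcell (6 * j + 1) (6 * j + 4) fun l hl hK => c.range_t' hQ hP hs hj h1 hl h2 hK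
    omega
  · have h := hcell (6 * j + 4) (6 * j + 9) fun l hl hK => c.range_p hQ hP hs hj h1 hl h2 hK
    have hkk : k = 3 * (j + 1) := by omega
    subst hkk
    have h3 := hfar' _ _ (hs _ h1 _ h2)
    rw [c.wit0, c.wit2] at h3
    simp only [Cfg.pt] at h3
    have he := c.he (j + 1)
    nlinarith

end MPc01941
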